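import Pool.Agent.TriPack.Defs

/-!
# Row BSA: the theorem of Bondy, Shen, Thomasse and Thomassen for interval type graphs

`bstt_alg`. Put `α = 1-x`, `β = 1-y` and suppose the three strict inequalities hold. From
`x ≤ 1`, `y ≤ 1`, `x < (1-y)(1-z)` etc. we get `0 ≤ x,y,z < 1`-type positivity
(`z < αβ ≤ 1`, `α, β > 0`). The quantity `f1 g1 + (f2-f1) g2` is increasing in `f1` (`g1 ≥ g2`), in
`f2`, `g1`, `g2`; lowering `f`'s or `g`'s we may assume `l f1+(1-l) f2 = α`,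
`l g1+(1-l) g2 = β` (or avoid this by working with inequalities). With `d = f2-f1`, `e = g1-g2`:
 `f1 = α-(1-l)d, f2 = α+l d, g1 = β+(1-l)e, g2 = β-l e`, and
 `z0 := f1 g1+(f2-f1) g2 = αβ+(1-l)αe+lβd-(1-l+l^2)de`, bilinear in `(d,e)`, `≥ αβ` if `d = 0` or
 `e = 0`; so on the rectangle `0 ≤ d ≤ dm, 0 ≤ e ≤ em`, `dm = min((1-α)/l, α/(1-l))`,
 `em = min((1-β)/(1-l), β/l)`, `z0 ≥ min(αβ, z0(dm,em))`. At the corner:
 - `f2 = 1, g1 = 1` (then `l ≥ 1-α`, `l ≤ β`): `1-z0 = (1-α)(1-β)/(l(1-l))`, maximal at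
   `l = 1-α` or `l = β`, giving `z0 ≥ min((α+β-1)/α, (α+β-1)/β)`, contradiction with
   `y < α(1-z)` resp. `x < β(1-z)`;
 - `f2 = 1, g2 = 0` (`l ≥ β`, `l ≥ 1-α`): `z0 = β(α-1+l)/l^2`, as a function of `l` first
   increasing then decreasing, so `≥` its values at `l = 1` (`αβ`) and `l = max(β,1-α)`
   (`(α+β-1)/β`, or `0` when `α+β ≤ 1`, impossible because `x+y < 1`);
 - `f1 = 0, g1 = 1`: symmetric;
 - `f1 = 0, g2 = 0`: then `l ≤ 1-α` and `l ≥ β`, so `α+β ≤ 1`, impossible (`x < 1-y`).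
 (Any other proof is fine.)

`bstt_count`. For `t < M` let `f t = #{u ∈ U : x u ≤ t}/|U|`, `g t = #{w ∈ W : y w + t < M}/|W|`;
`f` is nondecreasing, `g` nonincreasing in `t`; `Σ_{t<M} f t ≥ M - Σ x/|U|`,
`Σ_{t<M} g t ≥ M - Σ y/|W|`. Put `α = 1 - X/(M|U|)`, `β = 1 - Y/(M|W|)`, so the averages of `f`,
`g` over `t < M` are `≥ α` and `≥ β`.
Two point lemma: there are `t1 ≤ t2 < M` and `l ∈ [0,1]` with `l f(t1)+(1-l) f(t2) ≥ α` and
`l g(t1)+(1-l) g(t2) ≥ β`. Proof: if some `t` has `f t ≥ α` and `g t ≥ β`, done. Otherwise let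
`L = {t : f t < α, g t ≥ β}`, `N = {t : f t ≥ α}` (then `g t < β` on `N`); `N` is nonempty. If
`L` is empty then `g t < β` for all `t`, contradiction. Choose `t1 ∈ L` maximising
`σ = (g t1-β)/(α-f t1)`. If for all `t2 ∈ N`: `β-g t2 > σ(f t2-α)`, then
`σ(f t-α)+(g t-β) ≤ 0` for all `t`, with strict inequality on `N`; summing over `t` gives a
contradiction. So there is `t2 ∈ N` with `β-g t2 ≤ σ(f t2-α)`; take `l` with
`l f(t1)+(1-l) f(t2) = α`. As `f t1 < f t2`, monotonicity gives `t1 < t2`.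
Finally `Z ≥ |U||W| (f(t1) g(t1)+(f(t2)-f(t1)) g(t2))`, because for `u` with `x u ≤ t` and `w`
with `y w + t < M` one has `x u + y w < M` (apply with `t = t1`, and with `t = t2` for the `u` with
`t1 < x u ≤ t2`). Apply `bstt_alg` with `z = Z/(|U||W|)`.
-/

namespace Pool.Agent.TriPack

/-- the corner `f2 = g1 = 1`. -/
theorem bsa_corner {f g l : ℝ} (hf0 : 0 ≤ f) (hf1 : f ≤ 1) (hg0 : 0 ≤ g) (hg1 : g ≤ 1)
    (hl0 : 0 ≤ l) (hl1 : l ≤ 1)
    (H1 : 1 < (1 - l * (1 - f)) + (1 - (1 - l) * (1 - g)) * ((1 - f) * (1 - g)))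
    (H2 : 1 < (1 - (1 - l) * (1 - g)) + (1 - l * (1 - f)) * ((1 - f) * (1 - g))) : False := by
  have hf : 0 < 1 - f := by
    rcases hf1.lt_or_eq with h | h
    · linarith
    · subst h; norm_num at H1
  have hg : 0 < 1 - g := by
    rcases hg1.lt_or_eq with h | h
    · linarith
    · subst h; norm_num at H2
  have h1 : l < (1 - (1 - l) * (1 - g)) * (1 - g) := by
    have : (1 - f) * l < (1 - f) * ((1 - (1 - l) * (1 - g)) * (1 - g)) := by nlinarith
    exact lt_of_mul_lt_mul_left this hf.le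
  have h2 : 1 - l < (1 - l * (1 - f)) * (1 - f) := by
    have : (1 - g) * (1 - l) < (1 - g) * ((1 - l * (1 - f)) * (1 - f)) := by nlinarith
    exact lt_of_mul_lt_mul_left this hg.le
  have hl1' : 0 < 1 - l := by
    rcases hl1.lt_or_eq with h | h
    · linarith
    · subst h; norm_num at h1; linarith
  have hl0' : 0 < l := by
    rcases hl0.lt_or_eq with h | h
    · exact h
    · subst h; norm_num at h2; linarith
  obtain ⟨Q, hQ⟩ : ∃ Q, Q = (1 - l) * (1 - g) := ⟨_, rfl⟩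
  obtain ⟨P, hP⟩ : ∃ P, P = l * (1 - f) := ⟨_, rfl⟩
  have hQl : Q ≤ 1 - l := by rw [hQ]; nlinarith
  have hPl : P ≤ l := by rw [hP]; nlinarith
  have h3 : 0 < (1 - l - Q) * (Q - l) := by
    have h : (1 - l) * l < (1 - l) * ((1 - (1 - l) * (1 - g)) * (1 - g)) :=
      mul_lt_mul_of_pos_left h1 hl1'
    have h' : (1 - l) * ((1 - (1 - l) * (1 - g)) * (1 - g)) = (1 - Q) * Q := by
      rw [hQ]; ring
    rw [h'] at h
    nlinarith
  have h4 : 0 < (l - P) * (P - (1 - l)) := by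
    have h : l * (1 - l) < l * ((1 - l * (1 - f)) * (1 - f)) :=
      mul_lt_mul_of_pos_left h2 hl0'
    have h' : l * ((1 - l * (1 - f)) * (1 - f)) = (1 - P) * P := by
      rw [hP]; ring
    rw [h'] at h
    nlinarith
  have h5 : 0 < Q - l := by
    by_contra hcon
    have := mul_nonneg (by linarith : 0 ≤ 1 - l - Q) (by linarith : 0 ≤ l - Q)
    nlinarith
  have h6 : 0 < P - (1 - l) := by
    by_contra hcon
    have := mul_nonneg (by linarith : 0 ≤ l - P) (by linarith : 0 ≤ 1 - l - P)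
    nlinarith
  linarith

/-- raising `f2` to `1`. -/
theorem bsa_step {f1 f2 g1 g2 l : ℝ} (hf1 : 0 ≤ f1) (hf : f1 ≤ f2) (hf2 : f2 ≤ 1)
    (hg2 : 0 ≤ g2) (hg : g2 ≤ g1) (hg1 : g1 ≤ 1) (hl0 : 0 ≤ l) (hl1 : l ≤ 1)
    (H1 : 1 < (l * f1 + (1 - l) * f2) + (l * g1 + (1 - l) * g2) *
      (1 - (f1 * g1 + (f2 - f1) * g2)))
    (H2 : 1 < (l * g1 + (1 - l) * g2) + (l * f1 + (1 - l) * f2) *
      (1 - (f1 * g1 + (f2 - f1) * g2)))
    (H3 : f1 * g1 + (f2 - f1) * g2 < (l * f1 + (1 - l) * f2) * (l * g1 + (1 - l) * g2)) :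
    1 < (l * f1 + (1 - l) * 1) + (l * g1 + (1 - l) * g2) * (1 - (f1 * g1 + (1 - f1) * g2)) ∧
    1 < (l * g1 + (1 - l) * g2) + (l * f1 + (1 - l) * 1) * (1 - (f1 * g1 + (1 - f1) * g2)) ∧
    f1 * g1 + (1 - f1) * g2 < (l * f1 + (1 - l) * 1) * (l * g1 + (1 - l) * g2) := by
  obtain ⟨d, hd⟩ : ∃ d, d = f2 - f1 := ⟨_, rfl⟩
  obtain ⟨e, he⟩ : ∃ e, e = g1 - g2 := ⟨_, rfl⟩
  have hd0 : 0 ≤ d := by linarith
  have he0 : 0 ≤ e := by linarith
  have hf2' : f2 = f1 + d := by linarith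
  have hg1' : g1 = g2 + e := by linarith
  subst hf2'
  subst hg1'
  clear hd he
  have hk : (1 - l) * (f1 * e) + l * (d * g2) < l * (1 - l) * (d * e) := by nlinarith
  have hm : 0 ≤ 1 - l := by linarith
  have hfe : 0 ≤ f1 * e := mul_nonneg hf1 he0
  have hdg : 0 ≤ d * g2 := mul_nonneg hd0 hg2
  have hde : 0 ≤ d * e := mul_nonneg hd0 he0
  have hpos : 0 < l * (1 - l) * (d * e) := by
    have a1 := mul_nonneg hm hfe
    have a2 := mul_nonneg hl0 hdg
    linarith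
  have hl : 0 < l := by
    rcases hl0.lt_or_eq with h | h
    · exact h
    · rw [← h] at hpos; norm_num at hpos
  have hm' : 0 < 1 - l := by
    rcases hm.lt_or_eq with h | h
    · exact h
    · rw [← h] at hpos; norm_num at hpos
  have hd' : 0 < d := by
    rcases hd0.lt_or_eq with h | h
    · exact h
    · rw [← h] at hpos; norm_num at hpos
  have he' : 0 < e := by
    rcases he0.lt_or_eq with h | h
    · exact h
    · rw [← h] at hpos; norm_num at hpos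
  -- `g2 < (1-l) e`
  have hA : g2 < (1 - l) * e := by
    have h1 : (l * d) * g2 < (l * d) * ((1 - l) * e) := by nlinarith [mul_nonneg hm hfe]
    exact lt_of_mul_lt_mul_left h1 (by positivity)
  have hB : f1 < l * d := by
    have h1 : ((1 - l) * e) * f1 < ((1 - l) * e) * (l * d) := by nlinarith [mul_nonneg hl0 hdg]
    exact lt_of_mul_lt_mul_left h1 (by positivity)
  have he1 : e ≤ 1 - g2 := by linarith
  have hd1 : d ≤ 1 - f1 := by linarith
  refine ⟨?_, ?_, ?_⟩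
  · -- H1
    have hG : l * (g2 + e) + (1 - l) * g2 ≤ 1 := by nlinarith
    have h1 : (l * (g2 + e) + (1 - l) * g2) * g2 ≤ 1 - l := by
      have : (l * (g2 + e) + (1 - l) * g2) * g2 ≤ 1 * g2 := mul_le_mul_of_nonneg_right hG hg2
      have : (1 - l) * e ≤ (1 - l) * 1 := mul_le_mul_of_nonneg_left (by linarith) hm
      linarith
    have h2 : 0 ≤ (1 - (f1 + d)) * ((1 - l) - (l * (g2 + e) + (1 - l) * g2) * g2) :=
      mul_nonneg (by linarith) (by linarith)
    nlinarith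
  · -- H2
    have h2a : (2 - l) * g2 ≤ 1 - l := by
      have : (1 - l) * e ≤ (1 - l) * (1 - g2) := mul_le_mul_of_nonneg_left he1 hm
      linarith
    have hf12 : 2 * f1 ≤ 1 := by
      have : l * d ≤ 1 * (1 - f1) := by
        have := mul_le_mul_of_nonneg_left hd1 hl0
        have := mul_le_mul_of_nonneg_right hl1 (by linarith : 0 ≤ 1 - f1)
        linarith
      linarith
    -- new (3)
    have h3 : (1 - l) * (f1 * e) + l * ((1 - f1) * g2) ≤ l * (1 - l) * ((1 - f1) * e) := by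
      have : 0 ≤ (l * (1 - f1 - d)) * ((1 - l) * e - g2) :=
        mul_nonneg (mul_nonneg hl0 (by linarith)) (by linarith)
      nlinarith
    have h4 : l * (1 - l) * ((1 - f1) * e) ≤ l * (1 - l) * ((1 - f1) * (1 - g2)) := by
      have : (1 - f1) * e ≤ (1 - f1) * (1 - g2) := mul_le_mul_of_nonneg_left he1 (by linarith)
      exact mul_le_mul_of_nonneg_left this (mul_nonneg hl0 hm)
    have h5 : l * ((1 - f1) * (1 - g2)) ≤ l * (1 - g2) := by
      have : (1 - f1) * (1 - g2) ≤ 1 * (1 - g2) :=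
        mul_le_mul_of_nonneg_right (by linarith) (by linarith)
      nlinarith
    have h6 : 0 ≤ (1 - l) * (1 - 2 * g2 - l * ((1 - f1) * (1 - g2))) := by
      apply mul_nonneg hm
      linarith
    have h7 : 0 ≤ l * g2 * (1 - 2 * f1) := mul_nonneg (mul_nonneg hl0 hg2) (by linarith)
    have h8 : (l * f1 + (1 - l) * 1) * g2 ≤ (1 - l) * (1 - (f1 * (g2 + e) + (1 - f1) * g2)) := by
      nlinarith
    have h9 : (l * f1 + (1 - l) * (f1 + d)) * g2 ≤ (l * f1 + (1 - l) * 1) * g2 := by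
      apply mul_le_mul_of_nonneg_right _ hg2
      have := mul_le_mul_of_nonneg_left (by linarith : f1 + d ≤ 1) hm
      linarith
    have h10 : 0 ≤ (1 - (f1 + d)) * ((1 - l) * (1 - (f1 * (g2 + e) + (1 - f1) * g2)) -
        (l * f1 + (1 - l) * (f1 + d)) * g2) := mul_nonneg (by linarith) (by linarith)
    nlinarith
  · have : 0 ≤ (l * (1 - f1 - d)) * ((1 - l) * e - g2) :=
      mul_nonneg (mul_nonneg hl0 (by linarith)) (by linarith)
    nlinarith


open Finset in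
theorem bstt_alg {f1 f2 g1 g2 l x y z : ℝ} (hf1 : 0 ≤ f1) (hf : f1 ≤ f2) (hf2 : f2 ≤ 1)
    (hg2 : 0 ≤ g2) (hg : g2 ≤ g1) (hg1 : g1 ≤ 1) (hl0 : 0 ≤ l) (hl1 : l ≤ 1)
    (hx : 1 - x ≤ l * f1 + (1 - l) * f2) (hy : 1 - y ≤ l * g1 + (1 - l) * g2)
    (hz : f1 * g1 + (f2 - f1) * g2 ≤ z) (hx0 : 0 ≤ x) (hy0 : 0 ≤ y) (hx1 : x < 1)
    (hy1 : y < 1) (hz1 : z < 1)
    (c1 : x < (1 - y) * (1 - z)) (c2 : y < (1 - x) * (1 - z)) (c3 : z < (1 - x) * (1 - y)) :
    False := by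
  have ha : 0 < 1 - x := by linarith
  have hb : 0 < 1 - y := by linarith
  have hc : 0 < 1 - z := by linarith
  obtain ⟨F, hF⟩ : ∃ F, F = l * f1 + (1 - l) * f2 := ⟨_, rfl⟩
  obtain ⟨G, hG⟩ : ∃ G, G = l * g1 + (1 - l) * g2 := ⟨_, rfl⟩
  obtain ⟨w, hw⟩ : ∃ w, w = f1 * g1 + (f2 - f1) * g2 := ⟨_, rfl⟩
  have K1 : 1 < F + G * (1 - w) := by
    have : (1 - y) * (1 - z) ≤ G * (1 - w) :=
      mul_le_mul (by linarith) (by linarith) hc.le (by linarith)
    linarith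
  have K2 : 1 < G + F * (1 - w) := by
    have : (1 - x) * (1 - z) ≤ F * (1 - w) :=
      mul_le_mul (by linarith) (by linarith) hc.le (by linarith)
    linarith
  have K3 : w < F * G := by
    have : (1 - x) * (1 - y) ≤ F * G :=
      mul_le_mul (by linarith) (by linarith) hb.le (by linarith)
    linarith
  subst hF hG hw
  obtain ⟨L1, L2, L3⟩ := bsa_step hf1 hf hf2 hg2 hg hg1 hl0 hl1 K1 K2 K3
  -- swap the roles
  have hz' : ∀ a b c : ℝ, a * b + (1 - a) * c = c * 1 + (b - c) * a := fun a b c => by ring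
  have M := bsa_step (f1 := g2) (f2 := g1) (g1 := 1) (g2 := f1) (l := 1 - l) hg2 hg hg1 hf1
    (hf.trans hf2) le_rfl (by linarith) (by linarith)
    (by rw [hz'] at L2; linarith) (by rw [hz'] at L1; linarith)
    (by rw [hz'] at L3; linarith)
  obtain ⟨N1, N2, N3⟩ := M
  refine bsa_corner (f := f1) (g := g2) (l := l) hf1 (hf.trans hf2) hg2 (hg.trans hg1) hl0 hl1
    ?_ ?_
  · nlinarith
  · nlinarith

end Pool.Agent.TriPack
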