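import Pool.Agent.TriPack.BSA

/-!
# Row BSC: the theorem of Bondy, Shen, Thomasse and Thomassen for interval type graphs

`bstt_alg`. Put `α = 1-x`, `β = 1-y` and suppose the three strict inequalities hold. From
`x ≤ 1`, `y ≤ 1`, `x < (1-y)(1-z)` etc. we get `0 ≤ x,y,z < 1`-type positivity
(`z < αβ ≤ 1`, `α, β > 0`). The quantity `f1 g1 + (f2-f1) g2` is increasing in `f1` (`g1 ≥ g2`), in
`f2`, `g1`, `g2`; lowering `f`'s or `g`'s we may assume `l f1+(1-l) f2 = α`,
`l g1+(1-l) g2 = β` (or avoid this by working with inequalities). With `d = f2-f1`, `e = g1-g2`: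
 `f1 = α-(1-l)d, f2 = α+l d, g1 = β+(1-l)e, g2 = β-l e`, and
 `z0 := f1 g1+(f2-f1) g2 = αβ+(1-l)αe+lβd-(1-l+l^2)de`, bilinear in `(d,e)`, `≥ αβ` if `d = 0` or
 `e = 0`; so on the rectangle `0 ≤ d ≤ dm, 0 ≤ e ≤ em`, `dm = min((1-α)/l, α/(1-l))`,
 `em = min((1-β)/(1-l), β/l)`, `z0 ≥ min(αβ, z0(dm,em))`. At the corner:
 - `f2 = 1, g1 = 1` (then `l ≥ 1-α`, `l ≤ β`): `1-z0 = (1-α)(1-β)/(l(1-l))`, maximal at
   `l = 1-α` or `l = β`, giving `z0 ≥ min((α+β-1)/α, (α+β-1)/β)`, contradiction with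
   `y < α(1-z)` resp. `x < β(1-z)`;
 - `f2 = 1, g2 = 0` (`l ≥ β`, `l ≥ 1-α`): `z0 = β(α-1+l)/l^2`, as a function of `l` first
   increasing then decreasing, so `≥` its values at `l = 1` (`αβ`) and `l = max(β,1-α)`
   (`(α+β-1)/β`, or `0` when `α+β ≤ 1`, impossible because `x+y < 1`);
 - `f1 = 0, g1 = 1`: symmetric;
 - `f1 = 0, g2 = 0`: then `l ≤ 1-α` and `l ≥ β`, so `α+β ≤ 1`, impossible (`x < 1-y`).
 (Any other proof is fine.)

`bstt_count`. For `t < M` let `f t = #{u ∈ U : x u ≤ t}/|U|`, `g t = #{w ∈ W : y w + t < M}/|W|`;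
`f` is nondecreasing, `g` nonincreasing in `t`; `Σ_{t<M} f t ≥ M - Σ x/|U|`,
`Σ_{t<M} g t ≥ M - Σ y/|W|`. Put `α = 1 - X/(M|U|)`, `β = 1 - Y/(M|W|)`, so the averages of `f`,
`g` over `t < M` are `≥ α` and `≥ β`.
Two point lemma: there are `t1 ≤ t2 < M` and `l ∈ [0,1]` with `l f(t1)+(1-l) f(t2) ≥ α` and
`l g(t1)+(1-l) g(t2) ≥ β`. Proof: if some `t` has `f t ≥ α` and `g t ≥ β`, done. Otherwise let
`L = {t : f t < α, g t ≥ β}`, `N = {t : f t ≥ α}` (then `g t < β` on `N`); `N` is nonempty. If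
`L` is empty then `g t < β` for all `t`, contradiction. Choose `t1 ∈ L` maximising
`σ = (g t1-β)/(α-f t1)`. If for all `t2 ∈ N`: `β-g t2 > σ(f t2-α)`, then
`σ(f t-α)+(g t-β) ≤ 0` for all `t`, with strict inequality on `N`; summing over `t` gives a
contradiction. So there is `t2 ∈ N` with `β-g t2 ≤ σ(f t2-α)`; take `l` with
`l f(t1)+(1-l) f(t2) = α`. As `f t1 < f t2`, monotonicity gives `t1 < t2`.
Finally `Z ≥ |U||W| (f(t1) g(t1)+(f(t2)-f(t1)) g(t2))`, because for `u` with `x u ≤ t` and `w`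
with `y w + t < M` one has `x u + y w < M` (apply with `t = t1`, and with `t = t2` for the `u` with
`t1 < x u ≤ t2`). Apply `bstt_alg` with `z = Z/(|U||W|)`.
-/

namespace Pool.Agent.TriPack

/-- two point lemma. -/
theorem bsc_two_point (M : ℕ) (f g : ℕ → ℝ) (hf : Monotone f) (α β : ℝ)
    (hfs : M * α ≤ ∑ t ∈ Finset.range M, f t) (hgs : M * β ≤ ∑ t ∈ Finset.range M, g t)
    (hM : 0 < M) :
    ∃ t1 t2 : ℕ, ∃ l : ℝ, t1 ≤ t2 ∧ t2 < M ∧ 0 ≤ l ∧ l ≤ 1 ∧
      α ≤ l * f t1 + (1 - l) * f t2 ∧ β ≤ l * g t1 + (1 - l) * g t2 := by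
  classical
  by_cases h : ∃ t, t < M ∧ α ≤ f t ∧ β ≤ g t
  · obtain ⟨t, ht, h1, h2⟩ := h
    exact ⟨t, t, 1, le_rfl, ht, zero_le_one, le_rfl, by linarith, by linarith⟩
  push Not at h
  have hconst : ∀ c : ℝ, ∑ _t ∈ Finset.range M, c = M * c := fun c => by
    rw [Finset.sum_const, Finset.card_range, nsmul_eq_mul]
  have hne : (Finset.range M).Nonempty := ⟨0, Finset.mem_range.mpr hM⟩
  -- `N` is nonempty
  have hN : ∃ t, t < M ∧ α ≤ f t := by
    by_contra hcon
    push Not at hcon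
    have : ∑ t ∈ Finset.range M, f t < ∑ _t ∈ Finset.range M, α :=
      Finset.sum_lt_sum_of_nonempty hne (fun t ht => hcon t (Finset.mem_range.mp ht))
    rw [hconst] at this
    linarith
  set L := (Finset.range M).filter (fun t => f t < α ∧ β ≤ g t) with hL
  have hLne : L.Nonempty := by
    by_contra hcon
    rw [Finset.not_nonempty_iff_eq_empty] at hcon
    have : ∑ t ∈ Finset.range M, g t < ∑ _t ∈ Finset.range M, β := by
      apply Finset.sum_lt_sum_of_nonempty hne
      intro t ht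
      by_cases h1 : α ≤ f t
      · exact h t (Finset.mem_range.mp ht) h1
      · by_contra h2
        push Not at h1 h2
        have : t ∈ L := by
          rw [hL, Finset.mem_filter]
          exact ⟨ht, h1, h2⟩
        rw [hcon] at this
        simp at this
    rw [hconst] at this
    linarith
  obtain ⟨t1, ht1, hmax⟩ := Finset.exists_max_image L (fun t => (g t - β) / (α - f t)) hLne
  obtain ⟨ht1M, ht1f, ht1g⟩ : t1 < M ∧ f t1 < α ∧ β ≤ g t1 := by
    have := (Finset.mem_filter.mp ht1)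
    exact ⟨Finset.mem_range.mp this.1, this.2.1, this.2.2⟩
  obtain ⟨σ, hσ⟩ : ∃ σ, σ = (g t1 - β) / (α - f t1) := ⟨_, rfl⟩
  have hσ0 : 0 ≤ σ := by
    rw [hσ]
    exact div_nonneg (by linarith) (by linarith)
  have hex : ∃ t, t < M ∧ α ≤ f t ∧ β - g t ≤ σ * (f t - α) := by
    by_contra hcon
    push Not at hcon
    obtain ⟨t0, ht0, ht0'⟩ := hN
    have h1 : ∑ t ∈ Finset.range M, (σ * (f t - α) + (g t - β)) <
        ∑ _t ∈ Finset.range M, (0 : ℝ) := by
      apply Finset.sum_lt_sum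
      · intro t ht
        have htM := Finset.mem_range.mp ht
        by_cases h1 : α ≤ f t
        · have := hcon t htM h1
          linarith
        · push Not at h1
          by_cases h2 : β ≤ g t
          · have htL : t ∈ L := Finset.mem_filter.mpr ⟨ht, h1, h2⟩
            have h3 := hmax t htL
            rw [← hσ, div_le_iff₀ (by linarith)] at h3
            nlinarith
          · push Not at h2
            nlinarith
      · refine ⟨t0, Finset.mem_range.mpr ht0, ?_⟩
        have := hcon t0 ht0 ht0'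
        linarith
    rw [Finset.sum_const_zero, Finset.sum_add_distrib, ← Finset.mul_sum,
      Finset.sum_sub_distrib, Finset.sum_sub_distrib, hconst, hconst] at h1
    have h2 : 0 ≤ σ * (∑ t ∈ Finset.range M, f t - M * α) := mul_nonneg hσ0 (by linarith)
    linarith
  obtain ⟨t2, ht2M, ht2f, ht2⟩ := hex
  have ha : 0 < α - f t1 := by linarith
  have hb' : 0 < β - g t2 := by
    have := h t2 ht2M ht2f
    linarith
  have hkey : (α - f t1) * (β - g t2) ≤ (g t1 - β) * (f t2 - α) := by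
    have h1 : (α - f t1) * (β - g t2) ≤ (α - f t1) * (σ * (f t2 - α)) :=
      mul_le_mul_of_nonneg_left ht2 ha.le
    have h2 : (α - f t1) * (σ * (f t2 - α)) = (g t1 - β) * (f t2 - α) := by
      rw [hσ]
      field_simp
    linarith
  have ha' : 0 < f t2 - α := by
    by_contra hcon
    have h0 : f t2 - α = 0 := le_antisymm (not_lt.mp hcon) (by linarith)
    rw [h0, mul_zero] at hkey
    have := mul_pos ha hb'
    linarith
  have hle : t1 ≤ t2 := by
    by_contra hcon
    push Not at hcon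
    have := hf hcon.le
    linarith
  have hs : 0 < (α - f t1) + (f t2 - α) := by linarith
  refine ⟨t1, t2, (f t2 - α) / ((α - f t1) + (f t2 - α)), hle, ht2M, ?_, ?_, ?_, ?_⟩
  · positivity
  · rw [div_le_one hs]
    linarith
  · have : (f t2 - α) / ((α - f t1) + (f t2 - α)) * f t1 +
        (1 - (f t2 - α) / ((α - f t1) + (f t2 - α))) * f t2 = α := by
      have hs' : (α - f t1) + (f t2 - α) ≠ 0 := hs.ne'
      rw [← mul_right_inj' hs', mul_add, ← mul_assoc, mul_div_cancel₀ _ hs',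
        ← mul_assoc, mul_sub, mul_one, mul_div_cancel₀ _ hs']
      ring
    exact this.ge
  · have : (f t2 - α) / ((α - f t1) + (f t2 - α)) * g t1 +
        (1 - (f t2 - α) / ((α - f t1) + (f t2 - α))) * g t2 =
        β + ((g t1 - β) * (f t2 - α) - (α - f t1) * (β - g t2)) /
          ((α - f t1) + (f t2 - α)) := by
      have hs' : (α - f t1) + (f t2 - α) ≠ 0 := hs.ne'
      rw [← mul_right_inj' hs', mul_add, ← mul_assoc, mul_div_cancel₀ _ hs',
        ← mul_assoc, mul_sub, mul_one, mul_div_cancel₀ _ hs', mul_add, mul_div_cancel₀ _ hs']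
      ring
    rw [this]
    have : 0 ≤ ((g t1 - β) * (f t2 - α) - (α - f t1) * (β - g t2)) /
          ((α - f t1) + (f t2 - α)) := div_nonneg (by linarith) hs.le
    linarith

theorem bsc_card_f (M a : ℕ) :
    (M : ℝ) - a ≤ (((Finset.range M).filter (fun t => a ≤ t)).card : ℝ) := by
  have h : (Finset.range M).filter (fun t => a ≤ t) = Finset.Ico a M := by
    ext t
    simp only [Finset.mem_filter, Finset.mem_range, Finset.mem_Ico]
    tauto
  rw [h, Nat.card_Ico]
  have : M ≤ (M - a) + a := by omega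
  have h2 : (M : ℝ) ≤ ((M - a : ℕ) : ℝ) + a := by exact_mod_cast this
  linarith

theorem bsc_card_g (M a : ℕ) :
    (M : ℝ) - a ≤ (((Finset.range M).filter (fun t => a + t < M)).card : ℝ) := by
  have h : (Finset.range M).filter (fun t => a + t < M) = Finset.range (M - a) := by
    ext t
    simp only [Finset.mem_filter, Finset.mem_range]
    omega
  rw [h, Finset.card_range]
  have : M ≤ (M - a) + a := by omega
  have h2 : (M : ℝ) ≤ ((M - a : ℕ) : ℝ) + a := by exact_mod_cast this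
  linarith

/-- double counting. -/
theorem bsc_sum {γ : Type*} (U : Finset γ) (M : ℕ) (x : γ → ℕ) (P : γ → ℕ → Prop)
    [∀ u t, Decidable (P u t)]
    (hP : ∀ u, (M : ℝ) - x u ≤ (((Finset.range M).filter (fun t => P u t)).card : ℝ)) :
    (M : ℝ) * U.card - ∑ u ∈ U, (x u : ℝ) ≤
      ∑ t ∈ Finset.range M, ((U.filter (fun u => P u t)).card : ℝ) := by
  have h1 : ∑ t ∈ Finset.range M, ((U.filter (fun u => P u t)).card : ℝ) =
      ∑ u ∈ U, (((Finset.range M).filter (fun t => P u t)).card : ℝ) := by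
    simp only [Finset.card_filter, Nat.cast_sum]
    rw [Finset.sum_comm]
  rw [h1]
  have h2 : ∑ u ∈ U, ((M : ℝ) - x u) ≤
      ∑ u ∈ U, (((Finset.range M).filter (fun t => P u t)).card : ℝ) :=
    Finset.sum_le_sum (fun u _ => hP u)
  rw [Finset.sum_sub_distrib, Finset.sum_const, nsmul_eq_mul] at h2
  linarith

theorem bsc_box {α β : Type*} (U : Finset α) (W : Finset β) (x : α → ℕ) (y : β → ℕ)
    (M t1 t2 : ℕ) (h12 : t1 ≤ t2) :
    (U.filter (fun u => x u ≤ t1)).card * (W.filter (fun w => y w + t1 < M)).card +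
      ((U.filter (fun u => x u ≤ t2)).card - (U.filter (fun u => x u ≤ t1)).card) *
        (W.filter (fun w => y w + t2 < M)).card ≤
      ((U ×ˢ W).filter (fun q => x q.1 + y q.2 < M)).card := by
  classical
  have hsub : U.filter (fun u => x u ≤ t1) ⊆ U.filter (fun u => x u ≤ t2) := by
    intro u hu
    rw [Finset.mem_filter] at hu ⊢
    exact ⟨hu.1, hu.2.trans h12⟩
  rw [← Finset.card_sdiff_of_subset hsub, ← Finset.card_product, ← Finset.card_product,
    ← Finset.card_union_of_disjoint]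
  · apply Finset.card_le_card
    intro q hq
    rw [Finset.mem_union, Finset.mem_product, Finset.mem_product, Finset.mem_sdiff,
      Finset.mem_filter, Finset.mem_filter, Finset.mem_filter, Finset.mem_filter] at hq
    rw [Finset.mem_filter, Finset.mem_product]
    rcases hq with ⟨⟨h1, h2⟩, h3, h4⟩ | ⟨⟨⟨h1, h2⟩, _⟩, h3, h4⟩
    · exact ⟨⟨h1, h3⟩, by omega⟩
    · exact ⟨⟨h1, h3⟩, by omega⟩
  · rw [Finset.disjoint_left]
    intro q hq hq'
    rw [Finset.mem_product] at hq hq'
    exact (Finset.mem_sdiff.mp hq'.1).2 hq.1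


theorem bstt_count {α β : Type*} (U : Finset α) (W : Finset β) (x : α → ℕ) (y : β → ℕ)
    (M : ℕ) (hM : 0 < M) (hU : U.Nonempty) (hW : W.Nonempty) (X Y Z : ℝ)
    (hX : ∑ u ∈ U, (x u : ℝ) ≤ X) (hY : ∑ w ∈ W, (y w : ℝ) ≤ Y)
    (hZ : (((U ×ˢ W).filter (fun q => x q.1 + y q.2 < M)).card : ℝ) ≤ Z) :
    ¬ T3 (M : ℝ) (U.card : ℝ) (W.card : ℝ) X Y Z := by
  classical
  rintro ⟨hp1, hp2, hp3, c1, c2, c3⟩
  have hMr : (0 : ℝ) < M := by exact_mod_cast hM
  have hUr : (0 : ℝ) < U.card := by exact_mod_cast hU.card_pos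
  have hWr : (0 : ℝ) < W.card := by exact_mod_cast hW.card_pos
  set a : ℝ := (U.card : ℝ) with ha
  set c : ℝ := (W.card : ℝ) with hc
  set s : ℝ := (M : ℝ) with hs
  set F : ℕ → ℕ := fun t => (U.filter (fun u => x u ≤ t)).card with hF
  set H : ℕ → ℕ := fun t => (W.filter (fun w => y w + t < M)).card with hH
  have hFmono : Monotone F := by
    intro t t' htt
    apply Finset.card_le_card
    intro u hu
    rw [Finset.mem_filter] at hu ⊢
    exact ⟨hu.1, hu.2.trans htt⟩
  have hHanti : Antitone H := by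
    intro t t' htt
    apply Finset.card_le_card
    intro u hu
    rw [Finset.mem_filter] at hu ⊢
    exact ⟨hu.1, by omega⟩
  have hFle : ∀ t, (F t : ℝ) ≤ a := fun t => Nat.cast_le.mpr (Finset.card_filter_le _ _)
  have hHle : ∀ t, (H t : ℝ) ≤ c := fun t => Nat.cast_le.mpr (Finset.card_filter_le _ _)
  have hsumF : s * a - X ≤ ∑ t ∈ Finset.range M, (F t : ℝ) := by
    have := bsc_sum U M x (fun u t => x u ≤ t) (fun u => bsc_card_f M (x u))
    linarith
  have hsumH : s * c - Y ≤ ∑ t ∈ Finset.range M, (H t : ℝ) := by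
    have := bsc_sum W M y (fun w t => y w + t < M) (fun w => bsc_card_g M (y w))
    linarith
  obtain ⟨t1, t2, l, h12, ht2, hl0, hl1, hA, hB⟩ :=
    bsc_two_point M (fun t => (F t : ℝ) / a) (fun t => (H t : ℝ) / c)
      (fun t t' htt => by
        have : (F t : ℝ) ≤ F t' := by exact_mod_cast hFmono htt
        exact div_le_div_of_nonneg_right this hUr.le)
      (1 - X / (s * a)) (1 - Y / (s * c))
      (by
        rw [← Finset.sum_div, le_div_iff₀ hUr]
        have : s * (1 - X / (s * a)) * a = s * a - X := by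
          field_simp
        linarith)
      (by
        rw [← Finset.sum_div, le_div_iff₀ hWr]
        have : s * (1 - Y / (s * c)) * c = s * c - Y := by
          field_simp
        linarith)
      hM
  have hbox := bsc_box U W x y M t1 t2 h12
  have hbox' : (F t1 : ℝ) * H t1 + ((F t2 : ℝ) - F t1) * H t2 ≤ Z := by
    refine le_trans ?_ hZ
    have h1 : F t1 ≤ F t2 := hFmono h12
    have h2 : ((F t2 - F t1 : ℕ) : ℝ) = (F t2 : ℝ) - F t1 := Nat.cast_sub h1
    rw [← h2]
    exact_mod_cast hbox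
  have hX0 : 0 ≤ X := le_trans (Finset.sum_nonneg (fun u _ => Nat.cast_nonneg _)) hX
  have hY0 : 0 ≤ Y := le_trans (Finset.sum_nonneg (fun u _ => Nat.cast_nonneg _)) hY
  have hsa : 0 < s * a := mul_pos hMr hUr
  have hsc : 0 < s * c := mul_pos hMr hWr
  have hac : 0 < a * c := mul_pos hUr hWr
  have hF0 : (0 : ℝ) ≤ F t1 := Nat.cast_nonneg _
  have hH0 : (0 : ℝ) ≤ H t2 := Nat.cast_nonneg _
  refine bstt_alg (f1 := (F t1 : ℝ) / a) (f2 := (F t2 : ℝ) / a) (g1 := (H t1 : ℝ) / c)
    (g2 := (H t2 : ℝ) / c) (l := l) (x := X / (s * a)) (y := Y / (s * c)) (z := Z / (a * c))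
    (div_nonneg hF0 hUr.le) ?_ ?_ (div_nonneg hH0 hWr.le) ?_ ?_ hl0 hl1 hA hB ?_
    (div_nonneg hX0 hsa.le) (div_nonneg hY0 hsc.le) ?_ ?_ ?_ ?_ ?_ ?_
  · have : (F t1 : ℝ) ≤ F t2 := by exact_mod_cast hFmono h12
    exact div_le_div_of_nonneg_right this hUr.le
  · rw [div_le_one hUr]; exact hFle t2
  · have : (H t2 : ℝ) ≤ H t1 := by exact_mod_cast hHanti h12
    exact div_le_div_of_nonneg_right this hWr.le
  · rw [div_le_one hWr]; exact hHle t1
  · rw [le_div_iff₀ hac]
    have : ((F t1 : ℝ) / a * (H t1 / c) + (F t2 / a - F t1 / a) * (H t2 / c)) * (a * c) =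
        (F t1 : ℝ) * H t1 + ((F t2 : ℝ) - F t1) * H t2 := by
      field_simp
    linarith
  · rw [div_lt_one hsa]; linarith
  · rw [div_lt_one hsc]; linarith
  · rw [div_lt_one hac]; linarith
  · rw [div_lt_iff₀ hsa]
    have : (1 - Y / (s * c)) * (1 - Z / (a * c)) * (s * a) = (a * c - Z) * (s * c - Y) / c ^ 2 := by
      field_simp
    rw [this, lt_div_iff₀ (by positivity)]
    exact c1
  · rw [div_lt_iff₀ hsc]
    have : (1 - X / (s * a)) * (1 - Z / (a * c)) * (s * c) = (a * c - Z) * (s * a - X) / a ^ 2 := by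
      field_simp
    rw [this, lt_div_iff₀ (by positivity)]
    exact c2
  · rw [div_lt_iff₀ hac]
    have : (1 - X / (s * a)) * (1 - Y / (s * c)) * (a * c) = (s * a - X) * (s * c - Y) / s ^ 2 := by
      field_simp
    rw [this, lt_div_iff₀ (by positivity)]
    exact c3

end Pool.Agent.TriPack
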