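import Pool.Agent.TriPack.ObsDef
import Pool.Agent.TriPack.BSC

/-!
# Row FAM: the three virtual graphs

Let `O : Obs n k E x y`, `1 ≤ k ≤ n`. `M = n - s > 0`. Virtual row weights: `x' b = x b` for
`b ∈ B0`, `x' (bP l) = x (bP l) + (l - s - 1)` for `l ∈ P`; virtual column weights in the same way.
By K1, K2, K3: if `(b,c)` is in `B0 × C0`, `B0 × cP(P)` or `bP(P) × C0` and `x' b + y' c < M`, then
`¬ E b c`. Total handicap: `Σ_{l∈P} (l-s-1) ≤ Σ_{q<p} (k-q) - p(s+1) = p(k-1-s) - p(p-1)/2`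
(distinct `l ≤ k`), which divided by `n^2` is `≤ dl ε κ p'`, with `ε = (k-1)/n`, `κ = 1/(2n)`,
`p' = p/n` (note `dl = p'ε - p'^2/2 + p'κ`, and `k-1-s ≤ k-1`).
Apply `bstt_count` (and homogeneity of `T3`: dividing sizes by `n` and `X,Y,Z` by `n^2`) to
* cheap: `U = B0 ∪ bP(P)`, `W = C0 ∪ cP(P)`; sizes `n-a`, `n-c`; `Z ≤ #non-edges + p^2`
  (the `p^2` pairs in `bP(P) × cP(P)` are not controlled);
* dropC: `U = B0 ∪ bP(P)`, `W = C0`; sizes `n-a`, `n-c-p`;
* dropB: `U = B0`, `W = C0 ∪ cP(P)`; sizes `n-a-p`, `n-c`.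
(Sizes are positive because `a+c+p+s = k-1 < n`.) It may be convenient to use index types
`Fin n ⊕ ℕ` or `Fin n` with `if`; `bstt_count` allows arbitrary types. A general lemma with
`U = B0 ∪ bP(P1)`, `W = C0 ∪ cP(P2)`, `P1, P2 ∈ {∅, P}`, proves all three at once.
-/

namespace Pool.Agent.TriPack

theorem T3_scale {t s a c X Y Z : ℝ} (ht : 0 < t) :
    T3 (t * s) (t * a) (t * c) (t ^ 2 * X) (t ^ 2 * Y) (t ^ 2 * Z) ↔ T3 s a c X Y Z := by
  have h2 : (0 : ℝ) < t ^ 2 := by positivity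
  have h4 : (0 : ℝ) < t ^ 4 := by positivity
  unfold T3
  have e1 : t * a * (t * c) - t ^ 2 * Z = t ^ 2 * (a * c - Z) := by ring
  have e2 : t * s * (t * c) - t ^ 2 * Y = t ^ 2 * (s * c - Y) := by ring
  have e3 : t * s * (t * a) - t ^ 2 * X = t ^ 2 * (s * a - X) := by ring
  have e4 : t ^ 2 * X * (t * c) ^ 2 = t ^ 4 * (X * c ^ 2) := by ring
  have e5 : t ^ 2 * Y * (t * a) ^ 2 = t ^ 4 * (Y * a ^ 2) := by ring
  have e6 : t ^ 2 * Z * (t * s) ^ 2 = t ^ 4 * (Z * s ^ 2) := by ring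
  rw [e1, e2, e3, e4, e5, e6]
  have e7 : ∀ p q : ℝ, t ^ 2 * p * (t ^ 2 * q) = t ^ 4 * (p * q) := fun p q => by ring
  simp only [e7, mul_pos_iff_of_pos_left h2, mul_lt_mul_iff_of_pos_left h4]

/-- monotonicity of `T3`. -/
theorem T3_mono {s a c X Y Z X' Y' Z' : ℝ} (hX : X ≤ X') (hY : Y ≤ Y') (hZ : Z ≤ Z')
    (h : T3 s a c X' Y' Z') : T3 s a c X Y Z := by
  obtain ⟨h1, h2, h3, h4, h5, h6⟩ := h
  have k1 : 0 < a * c - Z := by linarith
  have k2 : 0 < s * c - Y := by linarith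
  have k3 : 0 < s * a - X := by linarith
  refine ⟨k1, k2, k3, ?_, ?_, ?_⟩
  · have a1 : X * c ^ 2 ≤ X' * c ^ 2 := mul_le_mul_of_nonneg_right hX (sq_nonneg c)
    have a2 : (a * c - Z') * (s * c - Y') ≤ (a * c - Z) * (s * c - Y) :=
      mul_le_mul (by linarith) (by linarith) h2.le k1.le
    linarith
  · have a1 : Y * a ^ 2 ≤ Y' * a ^ 2 := mul_le_mul_of_nonneg_right hY (sq_nonneg a)
    have a2 : (a * c - Z') * (s * a - X') ≤ (a * c - Z) * (s * a - X) :=
      mul_le_mul (by linarith) (by linarith) h3.le k1.le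
    linarith
  · have a1 : Z * s ^ 2 ≤ Z' * s ^ 2 := mul_le_mul_of_nonneg_right hZ (sq_nonneg s)
    have a2 : (s * a - X') * (s * c - Y') ≤ (s * a - X) * (s * c - Y) :=
      mul_le_mul (by linarith) (by linarith) h2.le k3.le
    linarith

theorem fam_sum (k : ℕ) : ∀ P : Finset ℕ, (∀ l ∈ P, l ≤ k) →
    ∑ l ∈ P, (l : ℝ) ≤ (P.card : ℝ) * k - (P.card : ℝ) * ((P.card : ℝ) - 1) / 2 := by
  induction k with
  | zero =>
    intro P hP
    have h1 : P ⊆ {0} := fun l hl => by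
      have := hP l hl
      simp only [Finset.mem_singleton]; omega
    have h2 : P.card ≤ 1 := by
      simpa using Finset.card_le_card h1
    have h3 : ∑ l ∈ P, (l : ℝ) = 0 := Finset.sum_eq_zero (fun l hl => by
      have h4 := h1 hl
      simp only [Finset.mem_singleton] at h4
      rw [h4]; simp)
    rw [h3]
    interval_cases P.card <;> norm_num
  | succ k ih =>
    intro P hP
    by_cases hk : k + 1 ∈ P
    · have h1 := ih (P.erase (k + 1)) (fun l hl => by
        have h2 := Finset.mem_erase.1 hl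
        have h3 := hP l h2.2
        omega)
      have h2 : (P.erase (k + 1)).card + 1 = P.card := Finset.card_erase_add_one hk
      have h3 : ∑ l ∈ P, (l : ℝ) = ((k + 1 : ℕ) : ℝ) + ∑ l ∈ P.erase (k + 1), (l : ℝ) :=
        (Finset.add_sum_erase P (fun l => (l : ℝ)) hk).symm
      rw [h3, ← h2]
      push_cast
      nlinarith
    · have h1 := ih P (fun l hl => by
        have h3 := hP l hl
        have h4 : l ≠ k + 1 := fun h => hk (h ▸ hl)
        omega)
      have h5 : (0 : ℝ) ≤ (P.card : ℝ) := Nat.cast_nonneg _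
      push_cast
      linarith

/-- the total handicap. -/
theorem fam_hand {k s p : ℕ} (P : Finset ℕ) (hP : P.card = p)
    (hl : ∀ l ∈ P, s + 2 ≤ l ∧ l ≤ k) :
    ∑ l ∈ P, ((l - (s + 1) : ℕ) : ℝ) ≤ (p : ℝ) * ((k : ℝ) - 1) - (p : ℝ) ^ 2 / 2 + (p : ℝ) / 2 := by
  have h1 : ∀ l ∈ P, ((l - (s + 1) : ℕ) : ℝ) = (l : ℝ) - ((s : ℝ) + 1) := by
    intro l h
    rw [Nat.cast_sub (by have := (hl l h).1; omega)]
    push_cast; ring
  rw [Finset.sum_congr rfl h1, Finset.sum_sub_distrib, Finset.sum_const, hP, nsmul_eq_mul]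
  have h2 := fam_sum k P (fun l h => (hl l h).2)
  rw [hP] at h2
  have h3 : (0 : ℝ) ≤ (p : ℝ) * (s : ℝ) := by positivity
  nlinarith

/-- the general virtual graph. -/
theorem fam_main {n k : ℕ} (hkn : k ≤ n) (E : Fin n → Fin n → Prop) (x y : Fin n → ℕ)
    (O : Obs n k E x y) (P1 P2 : Finset ℕ) (h1 : P1 ⊆ O.P) (h2 : P2 ⊆ O.P)
    (h12 : O.a + O.p < n + P1.card) (h12' : O.c + O.p < n + P2.card) :
    ¬ T3 ((n : ℝ) - O.s) ((n : ℝ) - O.a - O.p + P1.card) ((n : ℝ) - O.c - O.p + P2.card)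
      (∑ b, (x b : ℝ) + ∑ l ∈ P1, ((l - (O.s + 1) : ℕ) : ℝ))
      (∑ c, (y c : ℝ) + ∑ l ∈ P2, ((l - (O.s + 1) : ℕ) : ℝ))
      ((Nat.card {q : Fin n × Fin n // ¬ E q.1 q.2} : ℝ) + (P1.card : ℝ) * P2.card) := by
  classical
  have hsum := O.sum
  have hcB := O.cardB
  have hcC := O.cardC
  set U : Finset (Fin n ⊕ ℕ) := O.B0.disjSum P1 with hU
  set W : Finset (Fin n ⊕ ℕ) := O.C0.disjSum P2 with hW
  set x' : Fin n ⊕ ℕ → ℕ := Sum.elim x (fun l => x (O.bP l) + (l - (O.s + 1))) with hx'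
  set y' : Fin n ⊕ ℕ → ℕ := Sum.elim y (fun l => y (O.cP l) + (l - (O.s + 1))) with hy'
  have hUc : U.card = O.B0.card + P1.card := Finset.card_disjSum _ _
  have hWc : W.card = O.C0.card + P2.card := Finset.card_disjSum _ _
  have hUr : (U.card : ℝ) = (n : ℝ) - O.a - O.p + P1.card := by
    have h3 : ((O.B0.card + O.a + O.p : ℕ) : ℝ) = (n : ℝ) := by rw [hcB]
    rw [hUc]; push_cast at h3 ⊢; linarith
  have hWr : (W.card : ℝ) = (n : ℝ) - O.c - O.p + P2.card := by
    have h3 : ((O.C0.card + O.c + O.p : ℕ) : ℝ) = (n : ℝ) := by rw [hcC]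
    rw [hWc]; push_cast at h3 ⊢; linarith
  have hMr : ((n - O.s : ℕ) : ℝ) = (n : ℝ) - O.s := by
    rw [Nat.cast_sub (by omega)]
  have hUne : U.Nonempty := by
    rw [← Finset.card_pos, hUc]; omega
  have hWne : W.Nonempty := by
    rw [← Finset.card_pos, hWc]; omega
  -- weight sums
  have key : ∀ (B : Finset (Fin n)) (Q : Finset ℕ) (f : ℕ → Fin n) (w : Fin n → ℕ),
      Q ⊆ O.P → Set.InjOn f O.P → (∀ l ∈ O.P, f l ∉ B) →
      ∑ u ∈ B.disjSum Q, ((Sum.elim w (fun l => w (f l) + (l - (O.s + 1))) u : ℕ) : ℝ) ≤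
        ∑ b, (w b : ℝ) + ∑ l ∈ Q, ((l - (O.s + 1) : ℕ) : ℝ) := by
    intro B Q f w hQ hf hfB
    rw [Finset.sum_disjSum]
    simp only [Sum.elim_inl, Sum.elim_inr]
    push_cast
    rw [Finset.sum_add_distrib, ← add_assoc]
    have hinj : Set.InjOn f (Q : Set ℕ) := fun a ha b hb h => hf (hQ ha) (hQ hb) h
    have e1 : ∑ l ∈ Q, (w (f l) : ℝ) = ∑ b ∈ Q.image f, (w b : ℝ) :=
      (Finset.sum_image (f := fun b => (w b : ℝ)) (fun a ha b hb h => hinj ha hb h)).symm
    have e2 : Disjoint B (Q.image f) := by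
      rw [Finset.disjoint_right]
      intro b hb
      obtain ⟨l, hl, rfl⟩ := Finset.mem_image.1 hb
      exact hfB l (hQ hl)
    have e3 : ∑ b ∈ B, (w b : ℝ) + ∑ l ∈ Q, (w (f l) : ℝ) ≤ ∑ b, (w b : ℝ) := by
      rw [e1, ← Finset.sum_union e2]
      exact Finset.sum_le_sum_of_subset_of_nonneg (Finset.subset_univ _)
        (fun _ _ _ => Nat.cast_nonneg _)
    linarith
  have hX := key O.B0 P1 O.bP x h1 O.injB O.bP_not
  have hY := key O.C0 P2 O.cP y h2 O.injC O.cP_not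
  -- the number of non-edges
  have hZ : ((((U ×ˢ W).filter (fun q => x' q.1 + y' q.2 < n - O.s)).card : ℕ) : ℝ) ≤
      (Nat.card {q : Fin n × Fin n // ¬ E q.1 q.2} : ℝ) + (P1.card : ℝ) * P2.card := by
    set F := (U ×ˢ W).filter (fun q => x' q.1 + y' q.2 < n - O.s) with hF
    set R : Finset ((Fin n ⊕ ℕ) × (Fin n ⊕ ℕ)) :=
      (P1.map ⟨Sum.inr, Sum.inr_injective⟩) ×ˢ (P2.map ⟨Sum.inr, Sum.inr_injective⟩) with hR
    have hRc : R.card = P1.card * P2.card := by
      rw [hR, Finset.card_product, Finset.card_map, Finset.card_map]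
    set N : Finset (Fin n × Fin n) := Finset.univ.filter (fun q => ¬ E q.1 q.2) with hN
    have hNc : Nat.card {q : Fin n × Fin n // ¬ E q.1 q.2} = N.card := by
      rw [Nat.card_eq_fintype_card, Fintype.card_subtype]
    have hsd : (F \ R).card ≤ N.card := by
      refine Finset.card_le_card_of_injOn
        (fun q => (Sum.elim id O.bP q.1, Sum.elim id O.cP q.2)) ?_ ?_
      · intro q hq
        rw [Finset.mem_coe, Finset.mem_sdiff] at hq
        obtain ⟨hq1, hq2⟩ := hq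
        rw [hF, Finset.mem_filter, Finset.mem_product] at hq1
        obtain ⟨⟨hq3, hq4⟩, hq5⟩ := hq1
        rw [Finset.mem_coe, hN, Finset.mem_filter]
        refine ⟨Finset.mem_univ _, ?_⟩
        obtain ⟨u, v⟩ := q
        rcases u with b | l <;> rcases v with c | m
        · simp only [hU, hW, Finset.inl_mem_disjSum] at hq3 hq4
          simp only [hx', hy', Sum.elim_inl] at hq5
          simp only [Sum.elim_inl, id]
          intro hE
          have := O.K1 b hq3 c hq4 hE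
          omega
        · simp only [hU, hW, Finset.inl_mem_disjSum, Finset.inr_mem_disjSum] at hq3 hq4
          simp only [hx', hy', Sum.elim_inl, Sum.elim_inr] at hq5
          simp only [Sum.elim_inl, Sum.elim_inr, id]
          intro hE
          have := O.K2 b hq3 m (h2 hq4) hE
          have := O.lev m (h2 hq4)
          omega
        · simp only [hU, hW, Finset.inl_mem_disjSum, Finset.inr_mem_disjSum] at hq3 hq4
          simp only [hx', hy', Sum.elim_inl, Sum.elim_inr] at hq5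
          simp only [Sum.elim_inl, Sum.elim_inr, id]
          intro hE
          have := O.K3 l (h1 hq3) c hq4 hE
          have := O.lev l (h1 hq3)
          omega
        · exfalso
          simp only [hU, hW, Finset.inr_mem_disjSum] at hq3 hq4
          apply hq2
          rw [hR, Finset.mem_product]
          exact ⟨Finset.mem_map.2 ⟨l, hq3, rfl⟩, Finset.mem_map.2 ⟨m, hq4, rfl⟩⟩
      · have inj1 : ∀ (B : Finset (Fin n)) (Q : Finset ℕ) (f : ℕ → Fin n),
            Q ⊆ O.P → Set.InjOn f O.P → (∀ l ∈ O.P, f l ∉ B) →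
            ∀ u ∈ B.disjSum Q, ∀ v ∈ B.disjSum Q,
              (Sum.elim id f u : Fin n) = Sum.elim id f v → u = v := by
          intro B Q f hQ hf hfB u hu v hv huv
          rcases u with b | l <;> rcases v with c | m
          · simp only [Sum.elim_inl, id] at huv; rw [huv]
          · simp only [Finset.inl_mem_disjSum, Finset.inr_mem_disjSum] at hu hv
            simp only [Sum.elim_inl, Sum.elim_inr, id] at huv
            exact absurd (huv ▸ hu) (hfB m (hQ hv))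
          · simp only [Finset.inl_mem_disjSum, Finset.inr_mem_disjSum] at hu hv
            simp only [Sum.elim_inl, Sum.elim_inr, id] at huv
            exact absurd (huv ▸ hv) (hfB l (hQ hu))
          · simp only [Finset.inr_mem_disjSum] at hu hv
            simp only [Sum.elim_inr] at huv
            rw [hf (hQ hu) (hQ hv) huv]
        intro q hq r hr hqr
        rw [Finset.mem_coe, Finset.mem_sdiff, hF, Finset.mem_filter, Finset.mem_product] at hq hr
        have e := Prod.mk.inj hqr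
        exact Prod.ext (inj1 O.B0 P1 O.bP h1 O.injB O.bP_not _ hq.1.1.1 _ hr.1.1.1 e.1)
          (inj1 O.C0 P2 O.cP h2 O.injC O.cP_not _ hq.1.1.2 _ hr.1.1.2 e.2)
    have hFc : F.card ≤ (F \ R).card + R.card := by
      have := Finset.card_le_card_sdiff_add_card (s := F) (t := R)
      omega
    have : F.card ≤ N.card + P1.card * P2.card := by rw [hRc] at hFc; omega
    rw [hNc]
    exact_mod_cast this
  have hfin := bstt_count U W x' y' (n - O.s) (by omega) hUne hWne _ _ _ hX hY hZ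
  rw [hMr, hUr, hWr] at hfin
  exact hfin

/-- from the general virtual graph to the normalised condition. -/
theorem fam_norm {n : ℕ} (hn : 0 < n) {s a c X Y Z s' a' c' X' Y' Z' : ℝ}
    (h : ¬ T3 s a c X Y Z) (hs : (n : ℝ) * s' = s) (ha : (n : ℝ) * a' = a)
    (hc : (n : ℝ) * c' = c) (hX : X ≤ (n : ℝ) ^ 2 * X') (hY : Y ≤ (n : ℝ) ^ 2 * Y')
    (hZ : Z ≤ (n : ℝ) ^ 2 * Z') : ¬ T3 s' a' c' X' Y' Z' := by
  intro h3
  have hn' : (0 : ℝ) < n := by exact_mod_cast hn
  apply h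
  rw [← T3_scale hn', hs, ha, hc] at h3
  exact T3_mono hX hY hZ h3

theorem fam {n k : ℕ} (hk : 1 ≤ k) (hkn : k ≤ n) (E : Fin n → Fin n → Prop) (x y : Fin n → ℕ)
    (O : Obs n k E x y) (A B G : ℝ)
    (hA : ∑ b, (x b : ℝ) ≤ A * (n : ℝ) ^ 2) (hB : ∑ c, (y c : ℝ) ≤ B * (n : ℝ) ^ 2)
    (hG : (Nat.card {q : Fin n × Fin n // ¬ E q.1 q.2} : ℝ) ≤ G * (n : ℝ) ^ 2) :
    (¬ T3 (1 - (O.s : ℝ) / n) (1 - (O.a : ℝ) / n) (1 - (O.c : ℝ) / n)
        (A + dl (((k : ℝ) - 1) / n) (1 / (2 * n)) ((O.p : ℝ) / n))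
        (B + dl (((k : ℝ) - 1) / n) (1 / (2 * n)) ((O.p : ℝ) / n))
        (G + ((O.p : ℝ) / n) ^ 2)) ∧
    (¬ T3 (1 - (O.s : ℝ) / n) (1 - (O.a : ℝ) / n) (1 - (O.c : ℝ) / n - (O.p : ℝ) / n)
        (A + dl (((k : ℝ) - 1) / n) (1 / (2 * n)) ((O.p : ℝ) / n)) B G) ∧
    (¬ T3 (1 - (O.s : ℝ) / n) (1 - (O.a : ℝ) / n - (O.p : ℝ) / n) (1 - (O.c : ℝ) / n)
        A (B + dl (((k : ℝ) - 1) / n) (1 / (2 * n)) ((O.p : ℝ) / n)) G) := by
  have hn : 0 < n := by omega
  have hn' : (0 : ℝ) < n := by exact_mod_cast hn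
  have hne : (n : ℝ) ≠ 0 := hn'.ne'
  have hsum := O.sum
  have hcB := O.cardB
  have hcC := O.cardC
  have hcP := O.cardP
  have hd : (n : ℝ) ^ 2 * dl (((k : ℝ) - 1) / n) (1 / (2 * n)) ((O.p : ℝ) / n) =
      (O.p : ℝ) * ((k : ℝ) - 1) - (O.p : ℝ) ^ 2 / 2 + (O.p : ℝ) / 2 := by
    unfold dl; field_simp
  have hh := fam_hand (k := k) (s := O.s) O.P hcP O.lev
  have hh0 : ∑ l ∈ (∅ : Finset ℕ), ((l - (O.s + 1) : ℕ) : ℝ) = 0 := Finset.sum_empty
  have hs1 : (n : ℝ) * (1 - (O.s : ℝ) / n) = (n : ℝ) - O.s := by field_simp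
  have hpc : (O.P.card : ℝ) = (O.p : ℝ) := by rw [hcP]
  refine ⟨?_, ?_, ?_⟩
  · refine fam_norm hn (fam_main hkn E x y O O.P O.P (Finset.Subset.refl _) (Finset.Subset.refl _)
      (by omega) (by omega)) hs1 ?_ ?_ ?_ ?_ ?_
    · rw [hpc]; field_simp; ring
    · rw [hpc]; field_simp; ring
    · rw [mul_add, hd]; linarith
    · rw [mul_add, hd]; linarith
    · rw [hpc]
      have : (n : ℝ) ^ 2 * (G + ((O.p : ℝ) / n) ^ 2) = G * (n : ℝ) ^ 2 + (O.p : ℝ) * O.p := by
        field_simp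
      rw [this]; linarith
  · refine fam_norm hn (fam_main hkn E x y O O.P ∅ (Finset.Subset.refl _) (Finset.empty_subset _)
      (by omega) (by simp only [Finset.card_empty]; omega)) hs1 ?_ ?_ ?_ ?_ ?_
    · rw [hpc]; field_simp; ring
    · simp only [Finset.card_empty, Nat.cast_zero]; field_simp; ring
    · rw [mul_add, hd]; linarith
    · rw [hh0]; linarith
    · simp only [Finset.card_empty, Nat.cast_zero, mul_zero]; linarith
  · refine fam_norm hn (fam_main hkn E x y O ∅ O.P (Finset.empty_subset _) (Finset.Subset.refl _)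
      (by simp only [Finset.card_empty]; omega) (by omega)) hs1 ?_ ?_ ?_ ?_ ?_
    · simp only [Finset.card_empty, Nat.cast_zero]; field_simp; ring
    · rw [hpc]; field_simp; ring
    · rw [hh0]; linarith
    · rw [mul_add, hd]; linarith
    · simp only [Finset.card_empty, Nat.cast_zero, zero_mul]; linarith

end Pool.Agent.TriPack
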