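import Pool.Agent.TriPack.LC1

/-!
# Row LC2: linear bound, analysis

`e, s, a, c, p ≥ 0`, `g := a+c`, `r := s+g ≤ p`, `NB ≥ e+s+c`, `NC ≥ e+s+a`, `M ≥ e+g+p`.
`φ_N(u) := N u + hub N (e+p-u) - hub N (e-u)`.

(0) `φ_N(u)` is nondecreasing in `u` (`hub_lip` for the first, `hub_mono` for the second
difference: `N(u-u') ≥ hub N (e+p-u') - hub N (e+p-u)`) and, for `u ≥ 0`, in `N`
(`hub_incr_mono`). So we may take `NB = e+s+c`, `NC = e+s+a`; and if `u+v ≥ M` we may lower `u, v`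
to `u, v ≥ 0` with `u+v = e+g+p`.

(A) `lin_core` (case `u+v < M`): by (0) it suffices to treat `u = v = 0`:
 `hub NB (e+p) - hub NB e ≥ e p + (c+s) p - (c+s)^2/2` (for `NB = e+s+c`: `hub NB e = e^2/2`, and
 `hub_tangent` with `m = e+s+c`). With `x = s+c`, `y = s+a` (`x, y ≤ r ≤ p`):
 `NB NC + ... ≥ (e+x)(e+y) + 2ep + (x+y)p - (x^2+y^2)/2`, and
 `(e+x)(e+y) = e^2+e(2s+g)+xy`, so the claim follows from
 `es + (x+y)p - (x-y)^2/2 ≥ (x+y) r - r^2/2 ≥ r^2/2` (`x+y ≥ r`, `|x-y| ≤ r`).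

(B) `lin_far` (case `u+v = e+g+p`). Subtracting, the claim is `EX ≥ r^2/2` with
 `EX = s(g+p) + c u + a v + KB + KC - e p`, `KB = hub NB (e+p-u) - hub NB (e-u)`, `KC` similar
 (because `(e+s)(u+v) + ... - e(e+s+g+2p) = s(g+p) - ep`). As `r = s+g ≤ p`:
 `r^2/2 ≤ s(p+g) + g^2/2`, so it is enough to show `EX ≥ s(p+g)+g^2/2` or `EX ≥ r^2/2`.
 Only caps `e` (`hub_incr_mono`, `hub_reflect`): `KB ≥ pe - hub e u + hub e (u-p)`, and
 `KC ≥ hub e (u-g) - hub e (u-g-p)` (as `e+p-v = u-g`), so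
 `EX ≥ EX1 := s(p+g)+cu+av-hub e u+hub e (u-p)+hub e (u-g)-hub e (u-g-p)`.
 By symmetry (`u ↔ v`, `a ↔ c`; note `KB ≥ hub e (v-g) - hub e (v-g-p)` too) assume `c ≥ a`.
 (B1) `g ≤ u ≤ e`, `v ≥ e`: `-hub e u + hub e (u-g) = -gu+g^2/2`; `cu+av-gu = a(v-u) ≥ 0`.
 (B2) `e ≤ u ≤ e+g`, `v ≥ e`: put `w = u-e ∈ [0,g]`, `z = e-p`, `v-e = g-w-z ≥ 0`. Then
   `cu+av-hub e u+hub e (u-g)+hub e (u-p) = cw+a(g-w-z)+(g-w)^2/2+hub e (w+z)`, `a = g-c`,
   `g/2 ≤ c ≤ g`; affine in `c`. If `z ≥ 0`: `hub e (w+z) = (w+z)^2/2` (`w ≤ g ≤ p`); at `c = g`: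
   `gw+(g-w)^2/2+(w+z)^2/2 ≥ g^2/2`; at `c = g/2`: `(g/2)(g-z)+((g-w)^2+(w+z)^2)/2 ≥
   (g/2)(g-z)+(g+z)^2/4 ≥ g^2/2`. If `z < 0`: use `a(g-w-z) ≥ a(g-w)` and `hub ≥ 0`; at `c = g`
   `gw+(g-w)^2/2 ≥ g^2/2`; at `c = g/2`: `g^2/2+(g-w)^2/2`. (For `u < g` use (B5).)
 (B3) `u ≥ e+g`, `v ≥ e`: `hub e u - hub e (u-g) = eg`, and `c(u-e)+a(v-e) ≥ cg ≥ g^2/2`.
   (In (B1)-(B3) `v ≥ e` means `u ≤ g+p`, so `hub e (u-g-p) = 0`.)
 (B4) `v ≤ e`, `v ≥ g`: in terms of `v`: `-hub e v+hub e (v-g) = -gv+g^2/2`; if `v ≤ g+p`: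
   `u = e+g+p-v ≥ v`, `cu+av-gv = c(u-v) ≥ 0`. If `v > g+p`: then either `u ≥ v` (same bound: the
   extra terms `hub e (v-p) - hub e (v-g-p) ≥ 0`) or `u < v ≤ e`, and if also `u > g+p` all terms
   are quadratic: `EX1 = s(p+g)+cu+av-pg ≥ s(p+g)+g(g+p)-pg`; `u ≤ g+p` means `v ≥ e`.
 (B5) `u < g` (so `v > e+p`, `KC ≥ 0`), `x := s+c`: with tangent lines,
   `KB ≥ pe - u^2/2 + hub x (p-u)` (because `min(e+x, (e+τ-u)^+) ≥ e+min(x, τ-u)`; `hub` form:
   `hub (e+x) (e+p-u) ≥ e(p-u)+e^2/2+hub x (p-u)` for `u ≤ p`, and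
   `hub (e+x) (e-u) ≤ (e-u)^2/2`). If `p-u ≥ x`: `hub x (p-u) = x(p-u)-x^2/2` and
   `EX ≥ p(r+s)+(a+s)(g-u)-x^2/2-u^2/2 ≥ p(r+s)-x^2/2-u^2/2`, `u ≤ min(g, p-x)`; this is
   `≥ r^2/2`: if `p ≥ x+g` use `u ≤ g`, `p r ≥ (x+g) r`, `x, g ≤ r`, `x+g ≥ r`; if `p < x+g` use
   `u ≤ p-x`: `q(p) = p(r+s)-x^2-p^2/2+px` is concave in `p ∈ [r, x+g]`,
   `q(r) = r^2/2+rs+x(r-x)`, `q(x+g) ≥ r^2/2`. If `p-u < x`: `hub x (p-u) = (p-u)^2/2` and
   `EX ≥ s(p+g)+a(g+p)+p^2/2-(p-c+a)u ≥ (u ≤ g) s(p+g)+a(p-g)+((p-g)^2+g^2)/2`.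
   (Here `v = e+g+p-u`, `a v ≥ a(g+p-u)`.)
 (B6) `v < g`: symmetric to (B5).
The statement was tested numerically (5*10^7 random points, equality cases found, no violation).
-/

namespace Pool.Agent.TriPack

/-- the case `u < g` (B5). -/
theorem lc2_b5 {e s a c p u v KC : ℝ} (he : 0 ≤ e) (hs : 0 ≤ s) (ha : 0 ≤ a) (hc : 0 ≤ c)
    (hr : s + a + c ≤ p) (hu : 0 ≤ u) (huv : u + v = e + a + c + p) (hug : u ≤ a + c)
    (hKC : 0 ≤ KC) :
    e * (e + s + a + c + 2 * p) + (s + a + c) ^ 2 / 2 ≤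
      (e + s + c) * u + (e + s + a) * v + (hub (e + s + c) (e + p - u) - hub (e + s + c) (e - u)) +
        KC := by
  have hN : 0 ≤ e + s + c := by linarith
  have h1 : hub (e + s + c) (e - u) ≤ (e - u) ^ 2 / 2 := hub_le_sq hN
  have hv : v = e + a + c + p - u := by linarith
  subst hv
  rcases le_total (s + c) (p - u) with hx | hx
  · have h2 : hub (e + s + c) (e + p - u) =
        (e + s + c) * (e + p - u) - (e + s + c) ^ 2 / 2 := hub_of_ge hN (by linarith)
    rw [h2]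
    -- reduce to p (r+s) + (a+s)(g-u) - x^2/2 - u^2/2 ≥ r^2/2
    have key : (s + a + c) ^ 2 / 2 ≤
        p * (s + a + c + s) + (a + s) * (a + c - u) - (s + c) ^ 2 / 2 - u ^ 2 / 2 := by
      have h3 : 0 ≤ (a + s) * (a + c - u) := mul_nonneg (by linarith) (by linarith)
      rcases le_total (s + c + (a + c)) p with hp | hp
      · have h4 : u ^ 2 ≤ (a + c) ^ 2 := by nlinarith
        have h5 : (s + c + (a + c)) * (s + a + c + s) ≤ p * (s + a + c + s) :=
          mul_le_mul_of_nonneg_right hp (by linarith)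
        nlinarith [mul_nonneg hs hc, mul_nonneg hs ha, mul_nonneg ha hc, mul_nonneg hs hs,
          mul_nonneg ha ha, mul_nonneg hc hc]
      · have h4 : u ≤ p - (s + c) := by linarith
        have h4' : u ^ 2 ≤ (p - (s + c)) ^ 2 := by nlinarith
        have h5 : 0 ≤ (p - (s + a + c)) * ((s + a + c) + s + (s + c) - (p + (s + a + c)) / 2) :=
          mul_nonneg (by linarith) (by linarith)
        nlinarith [mul_nonneg hs hc, mul_nonneg hs ha, mul_nonneg ha hc, mul_nonneg hs hs,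
          mul_nonneg ha ha, mul_nonneg hc hc]
    have h6 : 0 ≤ a * e := mul_nonneg ha he
    nlinarith [h1, key, h6]
  · have h2 : hub (e + s + c) (e + p - u) = (e + p - u) ^ 2 / 2 :=
      hub_of_le (by linarith) (by linarith)
    rw [h2]
    have key : (s + a + c) ^ 2 / 2 ≤
        s * (p + (a + c)) + a * (a + c + p) + p ^ 2 / 2 - (p - c + a) * u := by
      have h3 : (p - c + a) * u ≤ (p - c + a) * (a + c) :=
        mul_le_mul_of_nonneg_left hug (by linarith)
      nlinarith [mul_nonneg hs hc, mul_nonneg hs ha, mul_nonneg ha hc, mul_nonneg hs hs,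
          mul_nonneg ha ha, mul_nonneg hc hc, sq_nonneg (p - (a + c)),
          mul_nonneg hs (by linarith : (0:ℝ) ≤ p - (s + a + c)),
          mul_nonneg ha (by linarith : (0:ℝ) ≤ p - (s + a + c)),
          mul_nonneg hc (by linarith : (0:ℝ) ≤ p - (s + a + c))]
    have h6 : 0 ≤ a * e := mul_nonneg ha he
    nlinarith [h1, key, h6]

/-- `r^2/2 ≤ s (p+g) + g^2/2`. -/
theorem lc2_r {s g p : ℝ} (hs : 0 ≤ s) (hg : 0 ≤ g) (hr : s + g ≤ p) :
    (s + g) ^ 2 / 2 ≤ s * (p + g) + g ^ 2 / 2 := by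
  nlinarith [mul_nonneg hs (by linarith : (0:ℝ) ≤ p - s)]

/-- the polynomial inequality of (B2). -/
theorem lc2_b2 {a g w z H : ℝ} (ha : 0 ≤ a) (hag : 2 * a ≤ g) (hw : 0 ≤ w) (hwg : w ≤ g)
    (hH0 : 0 ≤ H) (hH : 0 ≤ z → H = (w + z) ^ 2 / 2) :
    g ^ 2 / 2 ≤ (g - a) * w + a * (g - w - z) + (g - w) ^ 2 / 2 + H := by
  have hg : 0 ≤ g := by linarith
  rcases le_total 0 z with hz | hz
  · rw [hH hz]
    rcases le_total 0 (g - 2 * w - z) with h | h
    · nlinarith [mul_nonneg ha h, sq_nonneg w, sq_nonneg (w + z)]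
    · have h1 : g / 2 * (g - 2 * w - z) ≤ a * (g - 2 * w - z) :=
        mul_le_mul_of_nonpos_right (by linarith) h
      nlinarith [sq_nonneg (g - w - (w + z)), sq_nonneg z, sq_nonneg g]
  · have hz' : 0 ≤ a * (-z) := mul_nonneg ha (by linarith)
    rcases le_total 0 (g - 2 * w) with h | h
    · nlinarith [mul_nonneg ha h, sq_nonneg w]
    · have h1 : g / 2 * (g - 2 * w) ≤ a * (g - 2 * w) :=
        mul_le_mul_of_nonpos_right (by linarith) h
      nlinarith [sq_nonneg (g - w)]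

/-- the cases (B1)-(B4): `g ≤ u`, `g ≤ v`, `a ≤ c`. -/
theorem lc2_mid {e s a c p u v KB KC : ℝ} (he : 0 ≤ e) (hs : 0 ≤ s) (ha : 0 ≤ a)
    (hac : a ≤ c) (hr : s + a + c ≤ p) (huv : u + v = e + a + c + p)
    (hug : a + c ≤ u) (hvg : a + c ≤ v)
    (hKB : hub e (e + p - u) - hub e (e - u) ≤ KB)
    (hKC : hub e (e + p - v) - hub e (e - v) ≤ KC) :
    e * (e + s + a + c + 2 * p) + (s + a + c) ^ 2 / 2 ≤
      (e + s + c) * u + (e + s + a) * v + KB + KC := by
  have hc : 0 ≤ c := ha.trans hac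
  have hp : 0 ≤ p := by linarith
  obtain ⟨g, hg⟩ : ∃ g, g = a + c := ⟨_, rfl⟩
  have hg0 : 0 ≤ g := by linarith
  have hR := lc2_r hs hg0 (p := p) (by linarith)
  have hR' : (s + a + c) ^ 2 / 2 ≤ s * (p + g) + g ^ 2 / 2 := by
    have : s + a + c = s + g := by linarith
    rw [this]; exact hR
  -- it suffices: s (g+p) - e p + c u + a v + KB + KC ≥ s (p+g) + g^2/2
  suffices hsuff : g ^ 2 / 2 + e * p ≤ c * u + a * v + KB + KC by
    have h1 : (e + s) * (u + v) = (e + s) * (e + g + p) := by rw [huv, hg]; ring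
    have h2 : e * (e + s + a + c + 2 * p) = e * (e + s + g + 2 * p) := by rw [hg]; ring
    nlinarith [h1, h2]
  rcases le_total e v with hev | hev
  · -- v ≥ e, i.e. u ≤ g + p
    have hup : u ≤ g + p := by linarith
    have e1 : e + p - v = u - g := by linarith
    have e2 : e - v = u - g - p := by linarith
    rw [hub_reflect he hp] at hKB
    rw [e1, e2, hub_of_nonpos (by linarith : u - g - p ≤ 0)] at hKC
    rcases le_total u e with hue | hue
    · -- (B1)
      rw [hub_of_le (by linarith) hue] at hKB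
      rw [hub_of_le (by linarith : (0:ℝ) ≤ u - g) (by linarith)] at hKC
      have h3 := hub_nonneg (N := e) (u := u - p) he
      have h4 : 0 ≤ a * (v - u) := mul_nonneg ha (by linarith)
      have h5 : g * u = a * u + c * u := by rw [hg]; ring
      nlinarith
    · rcases le_total u (e + g) with hueg | hueg
      · -- (B2)
        rw [hub_of_ge he hue] at hKB
        rw [hub_of_le (by linarith : (0:ℝ) ≤ u - g) (by linarith)] at hKC
        have h3 := hub_nonneg (N := e) (u := u - p) he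
        have h6 := lc2_b2 (a := a) (g := g) (w := u - e) (z := e - p) (H := hub e (u - p)) ha
          (by linarith) (by linarith) (by linarith) h3
          (fun hz => by
            rw [hub_of_le (by linarith : (0:ℝ) ≤ u - p) (by linarith)]
            ring)
        have hv : v = e + g + p - u := by linarith
        have hcg : c = g - a := by linarith
        subst hv
        subst hcg
        nlinarith
      · -- (B3)
        rw [hub_of_ge he hue] at hKB
        rw [hub_of_ge he (by linarith : e ≤ u - g)] at hKC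
        have h3 := hub_nonneg (N := e) (u := u - p) he
        have h4 : c * g ≤ c * (u - e) := mul_le_mul_of_nonneg_left (by linarith) hc
        have h5 : 0 ≤ a * (v - e) := mul_nonneg ha (by linarith)
        have h6 : g / 2 * g ≤ c * g := mul_le_mul_of_nonneg_right (by linarith) hg0
        have h7 : e * g = e * a + e * c := by rw [hg]; ring
        nlinarith
  · -- (B4)
    have hup : g + p ≤ u := by linarith
    have e1 : e + p - u = v - g := by linarith
    have e2 : e - u = v - g - p := by linarith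
    rw [hub_reflect he hp] at hKC
    rw [e1, e2] at hKB
    rw [hub_of_le (by linarith) hev] at hKC
    rw [hub_of_le (by linarith : (0:ℝ) ≤ v - g) (by linarith)] at hKB
    have h5 : g * v = a * v + c * v := by rw [hg]; ring
    rcases le_total v u with hvu | hvu
    · have h3 : hub e (v - g - p) ≤ hub e (v - p) := hub_mono he (by linarith)
      have h4 : 0 ≤ c * (u - v) := mul_nonneg hc (by linarith)
      nlinarith
    · rw [hub_of_le (by linarith : (0:ℝ) ≤ v - g - p) (by linarith)] at hKB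
      rw [hub_of_le (by linarith : (0:ℝ) ≤ v - p) (by linarith)] at hKC
      have h6 : c * (g + p) ≤ c * u := mul_le_mul_of_nonneg_left hup hc
      have h7 : a * (g + p) ≤ a * v := mul_le_mul_of_nonneg_left (by linarith) ha
      have h8 : g * (g + p) = a * (g + p) + c * (g + p) := by
        have : g * (g + p) = (a + c) * (g + p) := by rw [← hg]
        rw [this]; ring
      nlinarith [sq_nonneg g]

/-- the main inequality for `NB = e+s+c`, `NC = e+s+a`, `u+v = e+g+p`, `a ≤ c`. -/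
theorem lc2_ord {e s a c p u v : ℝ} (he : 0 ≤ e) (hs : 0 ≤ s) (ha : 0 ≤ a) (hac : a ≤ c)
    (hr : s + a + c ≤ p) (hu : 0 ≤ u) (hv : 0 ≤ v) (huv : u + v = e + a + c + p) :
    e * (e + s + a + c + 2 * p) + (s + a + c) ^ 2 / 2 ≤
      (e + s + c) * u + (e + s + a) * v + (hub (e + s + c) (e + p - u) - hub (e + s + c) (e - u)) +
        (hub (e + s + a) (e + p - v) - hub (e + s + a) (e - v)) := by
  have hc : 0 ≤ c := ha.trans hac
  have hp : 0 ≤ p := by linarith
  rcases le_total u (a + c) with h1 | h1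
  · exact lc2_b5 he hs ha hc hr hu huv h1
      (sub_nonneg.mpr (hub_mono (by linarith) (by linarith)))
  rcases le_total v (a + c) with h2 | h2
  · have h := lc2_b5 (e := e) (s := s) (a := c) (c := a) (p := p) (u := v) (v := u)
      (KC := hub (e + s + c) (e + p - u) - hub (e + s + c) (e - u)) he hs hc ha (by linarith) hv
      (by linarith) (by linarith) (sub_nonneg.mpr (hub_mono (by linarith) (by linarith)))
    have e1 : e * (e + s + a + c + 2 * p) + (s + a + c) ^ 2 / 2 =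
        e * (e + s + c + a + 2 * p) + (s + c + a) ^ 2 / 2 := by ring
    rw [e1]
    linarith
  exact lc2_mid he hs ha hac hr huv h1 h2
    (hub_incr_mono he (by linarith) (by linarith))
    (hub_incr_mono he (by linarith) (by linarith))

theorem lc2_eq {e s a c p u v : ℝ} (he : 0 ≤ e) (hs : 0 ≤ s) (ha : 0 ≤ a) (hc : 0 ≤ c)
    (hr : s + a + c ≤ p) (hu : 0 ≤ u) (hv : 0 ≤ v) (huv : u + v = e + a + c + p) :
    e * (e + s + a + c + 2 * p) + (s + a + c) ^ 2 / 2 ≤
      (e + s + c) * u + (e + s + a) * v + (hub (e + s + c) (e + p - u) - hub (e + s + c) (e - u)) +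
        (hub (e + s + a) (e + p - v) - hub (e + s + a) (e - v)) := by
  rcases le_total a c with h | h
  · exact lc2_ord he hs ha h hr hu hv huv
  · have h' := lc2_ord (e := e) (s := s) (a := c) (c := a) (p := p) (u := v) (v := u) he hs hc h
      (by linarith) hv hu (by linarith)
    have e1 : e * (e + s + a + c + 2 * p) + (s + a + c) ^ 2 / 2 =
        e * (e + s + c + a + 2 * p) + (s + c + a) ^ 2 / 2 := by ring
    rw [e1]
    linarith

theorem lin_far {e s a c p NB NC u v : ℝ} (he : 0 ≤ e) (hs : 0 ≤ s) (ha : 0 ≤ a) (hc : 0 ≤ c)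
    (hr : s + a + c ≤ p) (hNB : e + s + c ≤ NB) (hNC : e + s + a ≤ NC)
    (hu : 0 ≤ u) (hv : 0 ≤ v) (huv : e + a + c + p ≤ u + v) :
    e * (e + s + a + c + 2 * p) + (s + a + c) ^ 2 / 2 ≤
      NB * u + NC * v + (hub NB (e + p - u) - hub NB (e - u)) +
        (hub NC (e + p - v) - hub NC (e - v)) := by
  have hp : 0 ≤ p := by linarith
  obtain ⟨u', v', hu', hv', huu, hvv, huv'⟩ : ∃ u' v' : ℝ, 0 ≤ u' ∧ 0 ≤ v' ∧ u' ≤ u ∧ v' ≤ v ∧
      u' + v' = e + a + c + p := by
    rcases le_total u (e + a + c + p) with h | h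
    · exact ⟨u, e + a + c + p - u, hu, by linarith, le_refl _, by linarith, by ring⟩
    · exact ⟨e + a + c + p, 0, by linarith, le_refl _, h, hv, by ring⟩
  have h1 := lc2_eq he hs ha hc hr hu' hv' huv'
  have h2 := phi_mono (e := e) (p := p) (by linarith : (0:ℝ) ≤ e + s + c) hNB hp hu' huu
  have h3 := phi_mono (e := e) (p := p) (by linarith : (0:ℝ) ≤ e + s + a) hNC hp hv' hvv
  linarith

end Pool.Agent.TriPack
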