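import Pool.Agent.TriPack.LA
import Pool.Agent.TriPack.LC2

/-!
# Row LAG: linear bound, assembly

From `lag_avg`, `hub_sum`, `lin_core`, `lin_far`. Put `e = n-k ≥ 0`, `s, a, c, p` the numbers of
`O` (as reals), so `n = e+1+s+a+c+p`, `NB = |B0| = n-a-p = e+1+s+c`, `NC = e+1+s+a`,
`M = n-s = e+1+a+c+p`. `lag_avg` gives `u, v` with
`W(u,v) ≤ #nonE+Σx+Σy ≤ (A+B+G) n^2`; `hub_sum` bounds the two sums from below by
`hub NB (e+p-u) - hub NB (e-u)` and `hub NC (e+p-v) - hub NC (e-v)`. If `u+v+s < n` use `lin_core`,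
otherwise `u+v ≥ n-s ≥ e+a+c+p` and `lin_far`. So `(A+B+G) n^2 ≥ e(e+s+a+c+2p)+(s+a+c)^2/2`.
Dividing by `n^2`: with `κ = 1/(2n)`, `η = (n-k+1)/n`, `ε = (k-1)/n`: `e/n = η-2κ`,
`(e+s+a+c+2p)/n = (n-1+p)/n = 1-2κ+p/n`, `(s+a+c)/n = ε-p/n`.
-/

namespace Pool.Agent.TriPack

theorem lag_num {n k : ℕ} (hkn : k ≤ n) (E : Fin n → Fin n → Prop) (x y : Fin n → ℕ)
    (O : Obs n k E x y) (hp : O.s + O.a + O.c ≤ O.p) :
    ((n : ℝ) - k) * (((n : ℝ) - k) + O.s + O.a + O.c + 2 * O.p)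
        + ((O.s : ℝ) + O.a + O.c) ^ 2 / 2 ≤
      (Nat.card {q : Fin n × Fin n // ¬ E q.1 q.2} : ℝ) + ∑ b, (x b : ℝ) + ∑ c, (y c : ℝ) := by
  classical
  have hsum := O.sum
  have hcB := O.cardB
  have hcC := O.cardC
  have hNB : O.B0.card = (n - k) + 1 + O.s + O.c := by omega
  have hNC : O.C0.card = (n - k) + 1 + O.s + O.a := by omega
  have hBne : O.B0.Nonempty := by
    rw [← Finset.card_pos]; omega
  have hCne : O.C0.Nonempty := by
    rw [← Finset.card_pos]; omega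
  obtain ⟨u, v, huv⟩ := lag_avg E x y O hBne hCne
  refine le_trans ?_ huv
  have he : (((n - k : ℕ) : ℝ)) = (n : ℝ) - k := by
    rw [Nat.cast_sub hkn]
  have hNB' : (O.B0.card : ℝ) = ((n : ℝ) - k) + 1 + O.s + O.c := by
    rw [hNB]; push_cast; rw [he]
  have hNC' : (O.C0.card : ℝ) = ((n : ℝ) - k) + 1 + O.s + O.a := by
    rw [hNC]; push_cast; rw [he]
  have he0 : (0 : ℝ) ≤ (n : ℝ) - k := by
    rw [← he]; positivity
  have hPk : ∀ l ∈ O.P, l ≤ k := fun l hl => (O.lev l hl).2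
  have h1 := hub_sum (N := (O.B0.card : ℝ)) (u := (u : ℝ)) (by positivity) n k O.P hPk
  have h2 := hub_sum (N := (O.C0.card : ℝ)) (u := (v : ℝ)) (by positivity) n k O.P hPk
  rw [O.cardP] at h1 h2
  have hs0 : (0 : ℝ) ≤ O.s := by positivity
  have ha0 : (0 : ℝ) ≤ O.a := by positivity
  have hc0 : (0 : ℝ) ≤ O.c := by positivity
  have hpr : (O.s : ℝ) + O.a + O.c ≤ O.p := by exact_mod_cast hp
  have hu0 : (0 : ℝ) ≤ u := by positivity
  have hv0 : (0 : ℝ) ≤ v := by positivity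
  have hNBge : ((n : ℝ) - k) + O.s + O.c ≤ (O.B0.card : ℝ) := by rw [hNB']; linarith
  have hNCge : ((n : ℝ) - k) + O.s + O.a ≤ (O.C0.card : ℝ) := by rw [hNC']; linarith
  rw [Finset.sum_add_distrib]
  by_cases hcase : u + v + O.s < n
  · rw [if_pos hcase]
    have h3 := lin_core he0 hs0 ha0 hc0 hpr hNBge hNCge hu0 hv0
    linarith
  · rw [if_neg hcase]
    have hfar : ((n : ℝ) - k) + O.a + O.c + O.p ≤ (u : ℝ) + v := by
      have hh : (n - k) + O.a + O.c + O.p ≤ u + v := by omega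
      have := (Nat.cast_le (α := ℝ)).mpr hh
      push_cast at this
      rw [he] at this
      linarith
    have h3 := lin_far he0 hs0 ha0 hc0 hpr hNBge hNCge hu0 hv0 hfar
    linarith

theorem lag {n k : ℕ} (hk : 1 ≤ k) (hkn : k ≤ n) (E : Fin n → Fin n → Prop) (x y : Fin n → ℕ)
    (O : Obs n k E x y) (hp : O.s + O.a + O.c ≤ O.p) (A B G : ℝ)
    (hA : ∑ b, (x b : ℝ) ≤ A * (n : ℝ) ^ 2) (hB : ∑ c, (y c : ℝ) ≤ B * (n : ℝ) ^ 2)
    (hG : (Nat.card {q : Fin n × Fin n // ¬ E q.1 q.2} : ℝ) ≤ G * (n : ℝ) ^ 2) :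
    ((n - k + 1 : ℝ) / n - 2 * (1 / (2 * n))) * (1 - 2 * (1 / (2 * n)) + (O.p : ℝ) / n)
      + (((k : ℝ) - 1) / n - (O.p : ℝ) / n) ^ 2 / 2 ≤ A + B + G := by
  have h0 := lag_num hkn E x y O hp
  have hn : (0 : ℝ) < n := by
    have : 0 < n := by omega
    exact_mod_cast this
  have hsumR : (O.s : ℝ) + O.a + O.c + O.p + 1 = k := by exact_mod_cast O.sum
  have key : ((n - k + 1 : ℝ) / n - 2 * (1 / (2 * n))) * (1 - 2 * (1 / (2 * n)) + (O.p : ℝ) / n)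
      + (((k : ℝ) - 1) / n - (O.p : ℝ) / n) ^ 2 / 2 =
      (((n : ℝ) - k) * (((n : ℝ) - k) + O.s + O.a + O.c + 2 * O.p)
        + ((O.s : ℝ) + O.a + O.c) ^ 2 / 2) / (n : ℝ) ^ 2 := by
    have hs' : (O.s : ℝ) = k - 1 - O.a - O.c - O.p := by linarith
    rw [hs']
    field_simp
    ring
  rw [key, div_le_iff₀ (by positivity)]
  linarith

end Pool.Agent.TriPack
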