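import Pool.Agent.TriPack.ObsDef

/-!
# Row NEST: a nested matching gives disjoint triangles

Choose the vertices `fa i` one after the other for `i = 0, 1, ...`: the edge `(f i, g i)` has at
least `n - x (f i) - y (g i) ≥ i+1` common neighbours in the class `A`, so one of them is not among
`fa 0, ..., fa (i-1)`. (Or Hall's theorem for the sets of common neighbours: for a set `T` of
indices with maximal element `i`, the union has at least `i+1 ≥ |T|` elements.)
-/

namespace Pool.Agent.TriPack

theorem triangles_of_nested {n k : ℕ} (RAB RAC RBC : Fin n → Fin n → Prop) (x y : Fin n → ℕ)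
    (hx : ∀ b, x b = Nat.card {a : Fin n // ¬ RAB a b})
    (hy : ∀ c, y c = Nat.card {a : Fin n // ¬ RAC a c})
    (h : Nested n k RBC x y) :
    ∃ fa fb fc : Fin k → Fin n, Function.Injective fa ∧ Function.Injective fb ∧
      Function.Injective fc ∧
      ∀ i, RAB (fa i) (fb i) ∧ RAC (fa i) (fc i) ∧ RBC (fb i) (fc i) := by
  classical
  obtain ⟨f, g, hf, hg, hfg⟩ := h
  set t : Fin k → Finset (Fin n) := fun i =>
    Finset.univ.filter (fun a => RAB a (f i) ∧ RAC a (g i)) with ht
  have hcard : ∀ i : Fin k, i.val + 1 ≤ (t i).card := by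
    intro i
    have h1 := (hfg i).2
    rw [hx, hy, Nat.card_eq_fintype_card, Nat.card_eq_fintype_card, Fintype.card_subtype,
      Fintype.card_subtype] at h1
    have h2 : (Finset.univ : Finset (Fin n)) ⊆
        (Finset.univ.filter (fun a => ¬ RAB a (f i)) ∪
          Finset.univ.filter (fun a => ¬ RAC a (g i))) ∪ t i := by
      intro a _
      simp only [ht, Finset.mem_union, Finset.mem_filter, Finset.mem_univ, true_and]
      tauto
    have h3 := Finset.card_le_card h2
    have h4 := Finset.card_union_le
      (Finset.univ.filter (fun a => ¬ RAB a (f i)) ∪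
          Finset.univ.filter (fun a => ¬ RAC a (g i))) (t i)
    have h5 := Finset.card_union_le (Finset.univ.filter (fun a => ¬ RAB a (f i)))
          (Finset.univ.filter (fun a => ¬ RAC a (g i)))
    rw [Finset.card_univ, Fintype.card_fin] at h3
    omega
  have hall : ∀ T : Finset (Fin k), T.card ≤ (T.biUnion t).card := by
    intro T
    rcases T.eq_empty_or_nonempty with h0 | h0
    · subst h0; simp
    · have hm := T.max'_mem h0
      have h1 : T ⊆ Finset.Iic (T.max' h0) := by
        intro j hj
        rw [Finset.mem_Iic]
        exact Finset.le_max' T j hj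
      have h2 := Finset.card_le_card h1
      rw [Fin.card_Iic] at h2
      have h3 : t (T.max' h0) ⊆ T.biUnion t := Finset.subset_biUnion_of_mem t hm
      exact h2.trans ((hcard _).trans (Finset.card_le_card h3))
  obtain ⟨F, hF, hFt⟩ := (Finset.all_card_le_biUnion_card_iff_exists_injective t).1 hall
  refine ⟨F, f, g, hF, hf, hg, fun i => ?_⟩
  have h1 := hFt i
  simp only [ht, Finset.mem_filter, Finset.mem_univ, true_and] at h1
  exact ⟨h1.1, h1.2, (hfg i).1⟩

end Pool.Agent.TriPack
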