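import Pool.Agent.TriPack.ObsDef

/-!
# Row STR: the structure lemma (two applications of Hall's theorem)

Call `bc` a level `l` edge if `E b c ∧ x b + y c + l ≤ n`. For `i ≤ k` let `F(i)` be the statement:
there are injective maps on the levels `Λ_i = {l : i < l ≤ k}`, `l ↦ b_l`, `l ↦ c_l`, with
`b_l c_l` a level `l` edge. `F(k)` is trivial, `F(0)` is `Nested` (level `l = i+1`). Let `i ≤ k` be
minimal with `F(i)` (`Nat.find`); `i ≥ 1` because `¬ Nested`, and `F(i-1)` fails. Fix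
`b_l, c_l` for `l ∈ Λ = Λ_i`. Put `s = i - 1`.

Step 1. Call `T ⊆ Λ` closed if for all `l ∈ T` and all `c`: level `l` edge `b_l c` implies
`c ∈ {c_m : m ∈ T}`. Unions of closed sets are closed; let `S0` be the union of all closed sets.
`C0 := univ \ {c_l : l ∈ S0}`. Fact 1: for `c ∈ C0` there is an injective `ψ : Λ → Fin n` with
`b_l ψ(l)` a level `l` edge, `ψ(l) ≠ c`, and `ψ(l) = c_l` for `l ∈ S0`. Proof: Hall
(`Finset.all_card_le_biUnion_card_iff_exists_injective`) for the sets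
`N_l = {c' ≠ c : b_l c' level l edge}`: if `T ⊆ Λ` has `|⋃_{l∈T} N_l| < |T|`, then, as
`⋃ N_l ⊇ {c_l : l ∈ T} \ {c}`, the set `⋃_{l∈T} N_l ∪ {c}` equals `{c_l : l ∈ T}` and contains
`c`, so `T` is closed, `T ⊆ S0`, contradicting `c ∈ C0`. This gives an injective `ψ'`; `ψ'` maps
`S0` into `{c_l : l ∈ S0}` (closed), hence onto, so `ψ'(l) ∉ {c_m : m ∈ S0}` for `l ∉ S0`, and we
may redefine `ψ = c_l` on `S0`.

Step 2. Free rows: `B_f = univ \ {b_l : l ∈ Λ}`; `B' = B_f ∪ {b_l : l ∈ S0}`. Call `T ⊆ S0`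
row-closed if for all `l ∈ T`, `b ∈ B'`: level `l` edge `b c_l` implies `b ∈ {b_m : m ∈ T}`.
Let `P` be the union of all row-closed sets (row-closed).
Fact 2: no level `i` edge between `B_f` and `C0` (otherwise add it at level `i` to
`(b_l, ψ(l))`: this gives `F(i-1)`).
Fact 3: if `l0 ∈ S0` and some `c ∈ C0` has `b_{l0} c` a level `i` edge, then `l0 ∈ P`. Proof: if
there were an injective `φ : S0 → B' \ {b_{l0}}` with `φ(l) c_l` level `l` edges, then level
`i`: `b_{l0} c`; level `l ∈ S0`: `φ(l) c_l`; level `l ∈ Λ\S0`: `b_l ψ(l)` would give `F(i-1)`.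
So Hall fails for `{b ∈ B', b ≠ b_{l0}, b c_l level l edge}`, and as in step 1 this yields a
row-closed `T` with `b_{l0} ∈ {b_l : l ∈ T}`.

Step 3. `B0 := univ \ ({b_l : l ∈ Λ\S0} ∪ {b_l : l ∈ P}) = B_f ∪ {b_l : l ∈ S0\P}`,
`a = |Λ\S0|`, `p = |P|`, `c = |S0\P|`, `bP l = b_l`, `cP l = c_l`. Cardinalities: `|Λ| = k-i`,
so `s+a+c+p = i-1+k-i = k-1`; `|B0| = n-a-p`, `|C0| = n-|S0| = n-c-p`.
K1: Facts 2, 3. K2: `P` is row-closed. K3: `S0` is closed and `C0` is the complement of its
columns. `lev`: `l ∈ Λ` means `i < l ≤ k`, i.e. `s+2 ≤ l ≤ k`.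
(`E` need not be decidable: use `classical`.)
-/

namespace Pool.Agent.TriPack

theorem str_hall {n : ℕ} (Λ : Finset ℕ) (c : ℕ → Fin n) (hc : Set.InjOn c Λ)
    (R : ℕ → Fin n → Prop) (hR : ∀ l ∈ Λ, R l (c l)) (c0 : Fin n)
    (h0 : ∀ T ⊆ Λ, (∀ l ∈ T, ∀ c', R l c' → ∃ m ∈ T, c m = c') → ∀ m ∈ T, c m ≠ c0) :
    ∃ ψ : ℕ → Fin n, Set.InjOn ψ Λ ∧ ∀ l ∈ Λ, R l (ψ l) ∧ ψ l ≠ c0 := by
  classical
  let N : {l // l ∈ Λ} → Finset (Fin n) :=
    fun l => Finset.univ.filter (fun c' => R l.1 c' ∧ c' ≠ c0)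
  have hall : ∀ s : Finset {l // l ∈ Λ}, s.card ≤ (s.biUnion N).card := by
    intro s
    by_contra hlt
    push Not at hlt
    have hTc : ((s.image Subtype.val).image c).card = s.card := by
      rw [Finset.card_image_of_injOn, Finset.card_image_of_injective _ Subtype.val_injective]
      intro l hl m hm hlm
      apply hc _ _ hlm
      · rw [Finset.mem_coe, Finset.mem_image] at hl
        obtain ⟨z, _, rfl⟩ := hl
        exact z.2
      · rw [Finset.mem_coe, Finset.mem_image] at hm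
        obtain ⟨z, _, rfl⟩ := hm
        exact z.2
    have hsub : (s.image Subtype.val).image c ⊆ insert c0 (s.biUnion N) := by
      intro z hz
      rw [Finset.mem_image] at hz
      obtain ⟨l, hl, rfl⟩ := hz
      rw [Finset.mem_image] at hl
      obtain ⟨l', hl', rfl⟩ := hl
      rw [Finset.mem_insert]
      by_cases h : c l'.1 = c0
      · exact Or.inl h
      · right
        rw [Finset.mem_biUnion]
        exact ⟨l', hl', by simp only [N, Finset.mem_filter, Finset.mem_univ, true_and]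
                           exact ⟨hR _ l'.2, h⟩⟩
    have heq : (s.image Subtype.val).image c = insert c0 (s.biUnion N) := by
      apply Finset.eq_of_subset_of_card_le hsub
      have := Finset.card_insert_le c0 (s.biUnion N)
      omega
    have hTΛ : s.image Subtype.val ⊆ Λ := by
      intro l hl
      rw [Finset.mem_image] at hl
      obtain ⟨z, _, rfl⟩ := hl
      exact z.2
    have hclosed : ∀ l ∈ s.image Subtype.val, ∀ c', R l c' →
        ∃ m ∈ s.image Subtype.val, c m = c' := by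
      intro l hl c' hc'
      have : c' ∈ (s.image Subtype.val).image c := by
        rw [heq, Finset.mem_insert]
        by_cases h : c' = c0
        · exact Or.inl h
        · right
          rw [Finset.mem_image] at hl
          obtain ⟨z, hz, rfl⟩ := hl
          rw [Finset.mem_biUnion]
          exact ⟨z, hz, by simp only [N, Finset.mem_filter, Finset.mem_univ, true_and]
                           exact ⟨hc', h⟩⟩
      rw [Finset.mem_image] at this
      exact this
    have hmem : c0 ∈ (s.image Subtype.val).image c := by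
      rw [heq]
      exact Finset.mem_insert_self _ _
    rw [Finset.mem_image] at hmem
    obtain ⟨m, hm, hmc⟩ := hmem
    exact h0 _ hTΛ hclosed m hm hmc
  obtain ⟨f, hfi, hf⟩ := (Finset.all_card_le_biUnion_card_iff_exists_injective N).1 hall
  refine ⟨fun l => if h : l ∈ Λ then f ⟨l, h⟩ else c0, ?_, ?_⟩
  · intro l hl m hm hlm
    rw [Finset.mem_coe] at hl hm
    simp only [hl, hm, dite_true] at hlm
    have := hfi hlm
    exact congrArg Subtype.val this
  · intro l hl
    simp only [hl, dite_true]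
    have := hf ⟨l, hl⟩
    simp only [N, Finset.mem_filter, Finset.mem_univ, true_and] at this
    exact this

theorem str_max {n : ℕ} (Λ : Finset ℕ) (c : ℕ → Fin n) (R : ℕ → Fin n → Prop) :
    ∃ S ⊆ Λ, (∀ l ∈ S, ∀ c', R l c' → ∃ m ∈ S, c m = c') ∧
      ∀ T ⊆ Λ, (∀ l ∈ T, ∀ c', R l c' → ∃ m ∈ T, c m = c') → T ⊆ S := by
  classical
  refine ⟨Λ.filter (fun l => ∃ T ⊆ Λ, (∀ l ∈ T, ∀ c', R l c' → ∃ m ∈ T, c m = c') ∧ l ∈ T),
    Finset.filter_subset _ _, ?_, ?_⟩
  · intro l hl c' hc'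
    rw [Finset.mem_filter] at hl
    obtain ⟨_, T, hT, hcl, hlT⟩ := hl
    obtain ⟨m, hm, hmc⟩ := hcl l hlT c' hc'
    refine ⟨m, ?_, hmc⟩
    rw [Finset.mem_filter]
    exact ⟨hT hm, T, hT, hcl, hm⟩
  · intro T hT hcl l hl
    rw [Finset.mem_filter]
    exact ⟨hT hl, T, hT, hcl, hl⟩

/-- `F i`: levels `i < l ≤ k` can be matched. -/
def strF {n : ℕ} (k : ℕ) (L : ℕ → Fin n → Fin n → Prop) (i : ℕ) : Prop :=
  ∃ b c : ℕ → Fin n, Set.InjOn b (Finset.Ioc i k) ∧ Set.InjOn c (Finset.Ioc i k) ∧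
    ∀ l ∈ Finset.Ioc i k, L l (b l) (c l)

theorem str_ext {n k : ℕ} (L : ℕ → Fin n → Fin n → Prop) (j : ℕ)
    (b c : ℕ → Fin n) (hb : Set.InjOn b (Finset.Ioc (j + 1) k))
    (hc : Set.InjOn c (Finset.Ioc (j + 1) k))
    (hL : ∀ l ∈ Finset.Ioc (j + 1) k, L l (b l) (c l)) (b0 c0 : Fin n)
    (hb0 : ∀ l ∈ Finset.Ioc (j + 1) k, b l ≠ b0) (hc0 : ∀ l ∈ Finset.Ioc (j + 1) k, c l ≠ c0)
    (h0 : L (j + 1) b0 c0) : strF k L j := by
  classical
  have key : ∀ (d : ℕ → Fin n) (d0 : Fin n), Set.InjOn d (Finset.Ioc (j + 1) k) →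
      (∀ l ∈ Finset.Ioc (j + 1) k, d l ≠ d0) →
      Set.InjOn (fun l => if l = j + 1 then d0 else d l) (Finset.Ioc j k) := by
    intro d d0 hd hd0 l hl m hm hlm
    rw [Finset.mem_coe, Finset.mem_Ioc] at hl hm
    by_cases h1 : l = j + 1 <;> by_cases h2 : m = j + 1
    · rw [h1, h2]
    · simp only [h1, h2, if_true, if_false] at hlm
      exact absurd hlm.symm (hd0 m (by rw [Finset.mem_Ioc]; omega))
    · simp only [h1, h2, if_true, if_false] at hlm
      exact absurd hlm (hd0 l (by rw [Finset.mem_Ioc]; omega))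
    · simp only [h1, h2, if_false] at hlm
      exact hd (by rw [Finset.mem_coe, Finset.mem_Ioc]; omega)
        (by rw [Finset.mem_coe, Finset.mem_Ioc]; omega) hlm
  refine ⟨fun l => if l = j + 1 then b0 else b l, fun l => if l = j + 1 then c0 else c l,
    key b b0 hb hb0, key c c0 hc hc0, ?_⟩
  intro l hl
  rw [Finset.mem_Ioc] at hl
  by_cases h1 : l = j + 1
  · simp only [h1, if_true]
    exact h0
  · simp only [h1, if_false]
    exact hL l (by rw [Finset.mem_Ioc]; omega)

theorem str_main {n k : ℕ} (E : Fin n → Fin n → Prop) (x y : Fin n → ℕ) (j : ℕ)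
    (hj : j + 1 ≤ k)
    (hF : strF k (fun l b c => E b c ∧ x b + y c + l ≤ n) (j + 1))
    (hnF : ¬ strF k (fun l b c => E b c ∧ x b + y c + l ≤ n) j) : Nonempty (Obs n k E x y) := by
  classical
  obtain ⟨b, c, hb, hc, hL⟩ := hF
  set L : ℕ → Fin n → Fin n → Prop := fun l b c => E b c ∧ x b + y c + l ≤ n with hLdef
  set Λ : Finset ℕ := Finset.Ioc (j + 1) k with hΛ
  -- step 1
  obtain ⟨S, hSΛ, hScl, hSmax⟩ := str_max Λ c (fun l c' => L l (b l) c')
  have fact1 : ∀ c0 : Fin n, c0 ∉ S.image c → ∃ ψ : ℕ → Fin n, Set.InjOn ψ Λ ∧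
      (∀ l ∈ Λ, L l (b l) (ψ l)) ∧ (∀ l ∈ Λ, ψ l ≠ c0) ∧ ∀ l ∈ S, ψ l = c l := by
    intro c0 hc0
    obtain ⟨ψ', hψi, hψ⟩ := str_hall Λ c hc (fun l c' => L l (b l) c') hL c0 (by
      intro T hT hTcl m hm hmc
      apply hc0
      rw [Finset.mem_image]
      exact ⟨m, hSmax T hT hTcl hm, hmc⟩)
    have himg : S.image ψ' = S.image c := by
      apply Finset.eq_of_subset_of_card_le
      · intro z hz
        rw [Finset.mem_image] at hz
        obtain ⟨l, hl, rfl⟩ := hz
        obtain ⟨m, hm, hmc⟩ := hScl l hl (ψ' l) (hψ l (hSΛ hl)).1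
        rw [Finset.mem_image]
        exact ⟨m, hm, hmc⟩
      · rw [Finset.card_image_of_injOn (hc.mono (by exact_mod_cast hSΛ)),
          Finset.card_image_of_injOn (hψi.mono (by exact_mod_cast hSΛ))]
    have hout : ∀ l ∈ Λ, l ∉ S → ψ' l ∉ S.image c := by
      intro l hl hlS hmem
      rw [← himg, Finset.mem_image] at hmem
      obtain ⟨m, hm, hmc⟩ := hmem
      have : m = l := hψi (hSΛ hm) hl hmc
      exact hlS (this ▸ hm)
    refine ⟨fun l => if l ∈ S then c l else ψ' l, ?_, ?_, ?_, ?_⟩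
    · intro l hl m hm hlm
      rw [Finset.mem_coe] at hl hm
      by_cases h1 : l ∈ S <;> by_cases h2 : m ∈ S
      · simp only [h1, h2, if_true] at hlm
        exact hc hl hm hlm
      · simp only [h1, h2, if_true, if_false] at hlm
        exact absurd (Finset.mem_image.2 ⟨l, h1, hlm⟩) (hout m hm h2)
      · simp only [h1, h2, if_true, if_false] at hlm
        exact absurd (Finset.mem_image.2 ⟨m, h2, hlm.symm⟩) (hout l hl h1)
      · simp only [h1, h2, if_false] at hlm
        exact hψi hl hm hlm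
    · intro l hl
      by_cases h1 : l ∈ S
      · simp only [h1, if_true]
        exact hL l hl
      · simp only [h1, if_false]
        exact (hψ l hl).1
    · intro l hl
      by_cases h1 : l ∈ S
      · simp only [h1, if_true]
        intro h
        exact hc0 (Finset.mem_image.2 ⟨l, h1, h⟩)
      · simp only [h1, if_false]
        exact (hψ l hl).2
    · intro l hl
      simp only [hl, if_true]
  -- step 2
  obtain ⟨P, hPS, hPcl, hPmax⟩ := str_max S b
    (fun l b' => (b' ∉ (Λ \ S).image b) ∧ L l b' (c l))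
  have fact2 : ∀ b0 : Fin n, b0 ∉ Λ.image b → ∀ c0 : Fin n, c0 ∉ S.image c →
      ¬ L (j + 1) b0 c0 := by
    intro b0 hb0 c0 hc0 h
    obtain ⟨ψ, hψi, hψL, hψc, _⟩ := fact1 c0 hc0
    apply hnF
    exact str_ext L j b ψ hb hψi hψL b0 c0
      (fun l hl hlb => hb0 (Finset.mem_image.2 ⟨l, hl, hlb⟩)) hψc h
  have fact3 : ∀ l0 ∈ S, ∀ c0 : Fin n, c0 ∉ S.image c → L (j + 1) (b l0) c0 → l0 ∈ P := by
    intro l0 hl0 c0 hc0 h
    by_contra hl0P
    obtain ⟨ψ, hψi, hψL, hψc, hψS⟩ := fact1 c0 hc0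
    have hbS : Set.InjOn b S := hb.mono (by exact_mod_cast hSΛ)
    obtain ⟨φ, hφi, hφ⟩ := str_hall S b hbS
      (fun l b' => (b' ∉ (Λ \ S).image b) ∧ L l b' (c l))
      (by
        intro l hl
        refine ⟨?_, hL l (hSΛ hl)⟩
        intro hmem
        rw [Finset.mem_image] at hmem
        obtain ⟨m, hm, hmb⟩ := hmem
        rw [Finset.mem_sdiff] at hm
        have : m = l := hb hm.1 (hSΛ hl) hmb
        exact hm.2 (this ▸ hl)) (b l0)
      (by
        intro T hT hTcl m hm hmb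
        have : m = l0 := hbS (hT hm) hl0 hmb
        exact hl0P (this ▸ hPmax T hT hTcl hm))
    apply hnF
    apply str_ext L j (fun l => if l ∈ S then φ l else b l) ψ ?_ hψi ?_ (b l0) c0 ?_ hψc h
    · intro l hl m hm hlm
      rw [Finset.mem_coe] at hl hm
      by_cases h1 : l ∈ S <;> by_cases h2 : m ∈ S
      · simp only [h1, h2, if_true] at hlm
        exact hφi h1 h2 hlm
      · simp only [h1, h2, if_true, if_false] at hlm
        exact absurd (Finset.mem_image.2 ⟨m, Finset.mem_sdiff.2 ⟨hm, h2⟩, hlm.symm⟩)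
          (hφ l h1).1.1
      · simp only [h1, h2, if_true, if_false] at hlm
        exact absurd (Finset.mem_image.2 ⟨l, Finset.mem_sdiff.2 ⟨hl, h1⟩, hlm⟩)
          (hφ m h2).1.1
      · simp only [h1, h2, if_false] at hlm
        exact hb hl hm hlm
    · intro l hl
      by_cases h1 : l ∈ S
      · simp only [h1, if_true]
        rw [hψS l h1]
        exact (hφ l h1).1.2
      · simp only [h1, if_false]
        exact hψL l hl
    · intro l hl
      by_cases h1 : l ∈ S
      · simp only [h1, if_true]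
        exact (hφ l h1).2
      · simp only [h1, if_false]
        intro h'
        have : l = l0 := hb hl (hSΛ hl0) h'
        exact h1 (this ▸ hl0)
  -- cardinalities
  have hΛc : Λ.card = k - (j + 1) := by rw [hΛ, Nat.card_Ioc]
  have hS1 : (Λ \ S).card + S.card = Λ.card := Finset.card_sdiff_add_card_eq_card hSΛ
  have hP1 : (S \ P).card + P.card = S.card := Finset.card_sdiff_add_card_eq_card hPS
  have hSimg : (S.image c).card = S.card :=
    Finset.card_image_of_injOn (hc.mono (by exact_mod_cast hSΛ))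
  have hAimg : ((Λ \ S).image b).card = (Λ \ S).card :=
    Finset.card_image_of_injOn (hb.mono (by
      intro z hz
      rw [Finset.mem_coe] at hz ⊢
      exact (Finset.mem_sdiff.1 hz).1))
  have hPimg : (P.image b).card = P.card :=
    Finset.card_image_of_injOn (hb.mono (by
      intro z hz
      rw [Finset.mem_coe] at hz ⊢
      exact hSΛ (hPS hz)))
  have hdisj : Disjoint ((Λ \ S).image b) (P.image b) := by
    rw [Finset.disjoint_left]
    intro z hz1 hz2
    rw [Finset.mem_image] at hz1 hz2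
    obtain ⟨l, hl, rfl⟩ := hz1
    obtain ⟨m, hm, hmb⟩ := hz2
    rw [Finset.mem_sdiff] at hl
    have : m = l := hb (hSΛ (hPS hm)) hl.1 hmb
    exact hl.2 (this ▸ hPS hm)
  have hU : ((Λ \ S).image b ∪ P.image b).card = (Λ \ S).card + P.card := by
    rw [Finset.card_union_of_disjoint hdisj, hAimg, hPimg]
  have hcB : (((Λ \ S).image b ∪ P.image b)ᶜ).card + ((Λ \ S).card + P.card) = n := by
    rw [← hU, Finset.card_compl_add_card, Fintype.card_fin]
  have hcC : ((S.image c)ᶜ).card + S.card = n := by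
    rw [← hSimg, Finset.card_compl_add_card, Fintype.card_fin]
  refine ⟨{ s := j, a := (Λ \ S).card, c := (S \ P).card, p := P.card,
            B0 := ((Λ \ S).image b ∪ P.image b)ᶜ, C0 := (S.image c)ᶜ, P := P, bP := b, cP := c,
            sum := ?_, cardB := ?_, cardC := ?_, cardP := rfl, lev := ?_, injB := ?_, injC := ?_,
            bP_not := ?_, cP_not := ?_, K1 := ?_, K2 := ?_, K3 := ?_ }⟩
  · omega
  · omega
  · omega
  · intro l hl
    have := hSΛ (hPS hl)
    rw [hΛ, Finset.mem_Ioc] at this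
    omega
  · exact hb.mono (by
      intro z hz
      rw [Finset.mem_coe] at hz ⊢
      exact hSΛ (hPS hz))
  · exact hc.mono (by
      intro z hz
      rw [Finset.mem_coe] at hz ⊢
      exact hSΛ (hPS hz))
  · intro l hl hmem
    rw [Finset.mem_compl, Finset.mem_union, not_or] at hmem
    exact hmem.2 (Finset.mem_image.2 ⟨l, hl, rfl⟩)
  · intro l hl hmem
    rw [Finset.mem_compl] at hmem
    exact hmem (Finset.mem_image.2 ⟨l, hPS hl, rfl⟩)
  · intro b0 hb0 c0 hc0 hE
    rw [Finset.mem_compl, Finset.mem_union, not_or] at hb0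
    rw [Finset.mem_compl] at hc0
    by_contra hlt
    have hLev : L (j + 1) b0 c0 := ⟨hE, by omega⟩
    by_cases hbΛ : b0 ∈ Λ.image b
    · rw [Finset.mem_image] at hbΛ
      obtain ⟨l, hl, rfl⟩ := hbΛ
      by_cases hlS : l ∈ S
      · exact hb0.2 (Finset.mem_image.2 ⟨l, fact3 l hlS c0 hc0 hLev, rfl⟩)
      · exact hb0.1 (Finset.mem_image.2 ⟨l, Finset.mem_sdiff.2 ⟨hl, hlS⟩, rfl⟩)
    · exact fact2 b0 hbΛ c0 hc0 hLev
  · intro b0 hb0 l hl hE
    rw [Finset.mem_compl, Finset.mem_union, not_or] at hb0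
    by_contra hlt
    obtain ⟨m, hm, hmb⟩ := hPcl l hl b0 ⟨hb0.1, hE, by omega⟩
    exact hb0.2 (Finset.mem_image.2 ⟨m, hm, hmb⟩)
  · intro l hl c0 hc0 hE
    rw [Finset.mem_compl] at hc0
    by_contra hlt
    obtain ⟨m, hm, hmc⟩ := hScl l (hPS hl) c0 ⟨hE, by omega⟩
    exact hc0 (Finset.mem_image.2 ⟨m, hm, hmc⟩)

theorem obs_of_not_nested {n k : ℕ} (hk : 1 ≤ k) (hn : 0 < n) (E : Fin n → Fin n → Prop) (x y : Fin n → ℕ)
    (h : ¬ Nested n k E x y) : Nonempty (Obs n k E x y) := by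
  classical
  set L : ℕ → Fin n → Fin n → Prop := fun l b c => E b c ∧ x b + y c + l ≤ n with hLdef
  have h0 : ¬ strF k L 0 := by
    intro hF
    obtain ⟨b, c, hb, hc, hL⟩ := hF
    apply h
    refine ⟨fun i => b (i.val + 1), fun i => c (i.val + 1), ?_, ?_, ?_⟩
    · intro i j hij
      have h1 : (i.val + 1) ∈ (Finset.Ioc 0 k : Set ℕ) := by
        rw [Finset.mem_coe, Finset.mem_Ioc]; omega
      have h2 : (j.val + 1) ∈ (Finset.Ioc 0 k : Set ℕ) := by
        rw [Finset.mem_coe, Finset.mem_Ioc]; omega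
      have := hb h1 h2 hij
      exact Fin.ext (by omega)
    · intro i j hij
      have h1 : (i.val + 1) ∈ (Finset.Ioc 0 k : Set ℕ) := by
        rw [Finset.mem_coe, Finset.mem_Ioc]; omega
      have h2 : (j.val + 1) ∈ (Finset.Ioc 0 k : Set ℕ) := by
        rw [Finset.mem_coe, Finset.mem_Ioc]; omega
      have := hc h1 h2 hij
      exact Fin.ext (by omega)
    · intro i
      exact hL (i.val + 1) (by rw [Finset.mem_Ioc]; omega)
  have hk' : strF k L k :=
    ⟨fun _ => ⟨0, hn⟩, fun _ => ⟨0, hn⟩, by simp, by simp, by simp⟩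
  have hex : ∃ i, strF k L i := ⟨k, hk'⟩
  obtain ⟨i, hi⟩ : ∃ i, i = Nat.find hex := ⟨_, rfl⟩
  have hFi : strF k L i := hi ▸ Nat.find_spec hex
  have hik : i ≤ k := hi ▸ Nat.find_min' hex hk'
  have hi0 : i ≠ 0 := by
    rintro rfl
    exact h0 hFi
  obtain ⟨j, rfl⟩ : ∃ j, i = j + 1 := ⟨i - 1, by omega⟩
  have hnF : ¬ strF k L j := Nat.find_min hex (by omega)
  exact str_main E x y j hik hFi hnF

end Pool.Agent.TriPack
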