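import Pool.Agent.TriPack.NT
import Pool.Agent.TriPack.NEST
import Pool.Agent.TriPack.STR
import Pool.Agent.TriPack.FAM
import Pool.Agent.TriPack.LAG

/-!
# Disjoint triangles: the theorem for three relations

`Tri k R1 R2 R3`: `k` disjoint triangles, `R1` between the first and the second, `R2` between the
first and the third, `R3` between the second and the third class.
-/

namespace Pool.Agent.TriPack

/-- the symmetric extremal point exists for all `0 < η ≤ 1`. -/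
theorem par_exists {η : ℝ} (h0 : 0 < η) (h1 : η ≤ 1) :
    ∃ h b : ℝ, Par h b η (1 - η) ∧ η / 3 ≤ b := by
  set r := Real.sqrt (η ^ 2 + 4) with hr
  have hr2 : r ^ 2 = η ^ 2 + 4 := Real.sq_sqrt (by positivity)
  have hr0 : 0 ≤ r := Real.sqrt_nonneg _
  have hrη : η < r := by nlinarith
  have hr2' : r < η + 2 := by nlinarith
  have hpos : 0 < (r - η) / 2 := by linarith
  have hlt : (r - η) / 2 < 1 := by linarith
  have hh : (r - η) / 2 * η = 1 - ((r - η) / 2) ^ 2 := by linear_combination hr2 / 4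
  have P : Par ((r - η) / 2) (1 - (r - η) / 2) η (1 - η) := by
    refine ⟨hpos, hlt, ?_, rfl, hh, rfl⟩
    have : (r - η) / 2 * η ≤ (r - η) / 2 := by
      have := mul_le_mul_of_nonneg_left h1 hpos.le
      linarith
    linarith
  refine ⟨_, _, P, ?_⟩
  have h35 := P.h_ge
  have e1 : (1 - (r - η) / 2) * (1 + (r - η) / 2) = (r - η) / 2 * η := by linear_combination -hh
  have e2 : (r - η) / 2 * η ≤ (1 - (r - η) / 2) * 2 := by
    rw [← e1]
    exact mul_le_mul_of_nonneg_left (by linarith) (by linarith)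
  have e3 : 3 / 5 * η ≤ (r - η) / 2 * η := mul_le_mul_of_nonneg_right h35 h0.le
  by_contra hc
  push Not at hc
  -- `b (1+h) = h η`, `h = 1 - b`, `b < η/3`
  have e4 : (1 - (r - η) / 2) * (1 + (r - η) / 2) < η / 3 * (1 + (r - η) / 2) :=
    mul_lt_mul_of_pos_right hc (by linarith)
  have e5 : η / 3 * (1 + (r - η) / 2) ≤ (r - η) / 2 * η := by
    have : (r - η) / 2 * η - η / 3 * (1 + (r - η) / 2) = η / 3 * (2 * ((r - η) / 2) - 1) := by ring
    have h' : 0 ≤ η / 3 * (2 * ((r - η) / 2) - 1) := mul_nonneg (by linarith) (by linarith)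
    linarith
  linarith

/-- number of pairs in a relation. -/
theorem sum_card {n : ℕ} (R : Fin n → Fin n → Prop) :
    ∑ b, (Nat.card {a : Fin n // R a b} : ℝ) =
      (Nat.card {q : Fin n × Fin n // R q.1 q.2} : ℝ) := by
  classical
  rw [← Nat.cast_sum]
  congr 1
  simp only [Nat.card_eq_fintype_card, Fintype.card_subtype, Finset.card_filter]
  rw [Fintype.sum_prod_type_right]

/-- `k` disjoint triangles. -/
def Tri {n : ℕ} (k : ℕ) (R1 R2 R3 : Fin n → Fin n → Prop) : Prop :=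
  ∃ fa fb fc : Fin k → Fin n, Function.Injective fa ∧ Function.Injective fb ∧
    Function.Injective fc ∧ ∀ i, R1 (fa i) (fb i) ∧ R2 (fa i) (fc i) ∧ R3 (fb i) (fc i)

theorem Tri.swapBC {n k : ℕ} {R1 R2 R3 : Fin n → Fin n → Prop}
    (h : Tri k R2 R1 (flip R3)) : Tri k R1 R2 R3 := by
  obtain ⟨fa, fb, fc, ha, hb, hc, hf⟩ := h
  exact ⟨fa, fc, fb, ha, hc, hb, fun i => ⟨(hf i).2.1, (hf i).1, (hf i).2.2⟩⟩

theorem Tri.swapAB {n k : ℕ} {R1 R2 R3 : Fin n → Fin n → Prop}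
    (h : Tri k (flip R1) R3 R2) : Tri k R1 R2 R3 := by
  obtain ⟨fa, fb, fc, ha, hb, hc, hf⟩ := h
  exact ⟨fb, fa, fc, hb, ha, hc, fun i => ⟨(hf i).1, (hf i).2.2, (hf i).2.1⟩⟩

/-- density of non-edges. -/
noncomputable def nd {n : ℕ} (R : Fin n → Fin n → Prop) : ℝ :=
  (Nat.card {q : Fin n × Fin n // ¬ R q.1 q.2} : ℝ) / (n : ℝ) ^ 2

theorem nd_flip {n : ℕ} (R : Fin n → Fin n → Prop) : nd (flip R) = nd R := by
  unfold nd
  congr 2
  exact Nat.card_congr
    { toFun := fun q => ⟨(q.1.2, q.1.1), q.2⟩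
      invFun := fun q => ⟨(q.1.2, q.1.1), q.2⟩
      left_inv := fun q => rfl
      right_inv := fun q => rfl }

theorem nd_nonneg {n : ℕ} (R : Fin n → Fin n → Prop) : 0 ≤ nd R := by
  unfold nd; positivity

/-- the ordered case. -/
theorem core {n k : ℕ} (hk : 1 ≤ k) (hkn : k ≤ n) (hn : 450 * (n : ℝ) ≤ ((n : ℝ) - k + 1) ^ 2)
    (R1 R2 R3 : Fin n → Fin n → Prop) (h32 : nd R3 ≤ nd R2) (h21 : nd R2 ≤ nd R1)
    (hc : nd R1 < (1 - nd R3) * (1 - ((k : ℝ) - 1) / n - nd R2)) (hB : nd R2 < 1 - ((k : ℝ) - 1) / n) :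
    Tri k R1 R2 R3 := by
  by_contra hT
  have hn0 : 0 < n := by omega
  have hnr : (0 : ℝ) < n := by exact_mod_cast hn0
  set x : Fin n → ℕ := fun b => Nat.card {a : Fin n // ¬ R1 a b} with hx
  set y : Fin n → ℕ := fun c => Nat.card {a : Fin n // ¬ R2 a c} with hy
  have hN : ¬ Nested n k R3 x y := by
    intro hN
    exact hT (triangles_of_nested R1 R2 R3 x y (fun _ => rfl) (fun _ => rfl) hN)
  obtain ⟨O⟩ := obs_of_not_nested hk hn0 R3 x y hN
  have hX : ∑ b, (x b : ℝ) ≤ nd R1 * (n : ℝ) ^ 2 := by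
    have := sum_card (fun a b => ¬ R1 a b)
    rw [nd, div_mul_cancel₀ _ (by positivity)]
    exact this.le
  have hY : ∑ c, (y c : ℝ) ≤ nd R2 * (n : ℝ) ^ 2 := by
    have := sum_card (fun a b => ¬ R2 a b)
    rw [nd, div_mul_cancel₀ _ (by positivity)]
    exact this.le
  have hZ : (Nat.card {q : Fin n × Fin n // ¬ R3 q.1 q.2} : ℝ) ≤ nd R3 * (n : ℝ) ^ 2 := by
    rw [nd, div_mul_cancel₀ _ (by positivity)]
  -- parameters
  have hk1 : (1 : ℝ) ≤ k := by exact_mod_cast hk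
  have hkn' : (k : ℝ) ≤ n := by exact_mod_cast hkn
  have hη : ((n : ℝ) - k + 1) / n = 1 - ((k : ℝ) - 1) / n := by
    field_simp; ring
  have hη0 : 0 < 1 - ((k : ℝ) - 1) / n := by
    rw [← hη]; exact div_pos (by linarith) hnr
  have hη1 : 1 - ((k : ℝ) - 1) / n ≤ 1 := by
    have : 0 ≤ ((k : ℝ) - 1) / n := div_nonneg (by linarith) hnr.le
    linarith
  obtain ⟨h, b, P, hb3⟩ := par_exists hη0 hη1
  have hε : 1 - (1 - ((k : ℝ) - 1) / n) = ((k : ℝ) - 1) / n := by ring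
  rw [hε] at P
  have hκ0 : (0 : ℝ) ≤ 1 / (2 * n) := by positivity
  have hκ : (1 : ℝ) / (2 * n) ≤ b ^ 2 / 100 := by
    have e1 : ((1 - ((k : ℝ) - 1) / n) / 3) ^ 2 ≤ b ^ 2 :=
      pow_le_pow_left₀ (by linarith) hb3 2
    have e2 : (1 : ℝ) / (2 * n) ≤ ((1 - ((k : ℝ) - 1) / n) / 3) ^ 2 / 100 := by
      rw [← hη, div_div, div_pow, div_div, div_le_div_iff₀ (by positivity) (by positivity)]
      calc 1 * (((n : ℝ) * 3) ^ 2 * 100) = 450 * n * (2 * n) := by ring
        _ ≤ ((n : ℝ) - k + 1) ^ 2 * (2 * n) := mul_le_mul_of_nonneg_right hn (by positivity)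
    exact e2.trans (by linarith)
  have hR : Reg (1 - ((k : ℝ) - 1) / n) (nd R1) (nd R2) (nd R3) :=
    ⟨nd_nonneg R3, h32, h21, hc.le, hB.le⟩
  have hsum : (O.s : ℝ) / n + (O.a : ℝ) / n + (O.c : ℝ) / n + (O.p : ℝ) / n
      = ((k : ℝ) - 1) / n := by
    have : (O.s : ℝ) + O.a + O.c + O.p + 1 = k := by exact_mod_cast O.sum
    rw [← this]; field_simp; ring
  obtain ⟨f1, f2, f3⟩ := fam hk hkn R3 x y O (nd R1) (nd R2) (nd R3) hX hY hZ
  rcases NT P hR hc hκ0 hκ (s := (O.s : ℝ) / n) (a := (O.a : ℝ) / n) (c := (O.c : ℝ) / n)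
    (p := (O.p : ℝ) / n) (by positivity) (by positivity) (by positivity) (by positivity) hsum
    with h1 | h1 | h1 | ⟨h1, h2⟩
  · exact f1 h1
  · exact f2 h1
  · exact f3 h1
  · have h1' : O.s + O.a + O.c ≤ O.p := by
      have : ((O.s : ℝ) + O.a + O.c) / n ≤ (O.p : ℝ) / n := by
        rw [add_div, add_div]; exact h1
      have := (div_le_div_iff_of_pos_right hnr).1 this
      exact_mod_cast this
    have h3 := lag hk hkn R3 x y O h1' (nd R1) (nd R2) (nd R3) hX hY hZ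
    rw [hη] at h3
    linarith

/-- the `(k,n)`-cyclic condition in terms of the densities `α, β, γ` of edges. -/
def KCyc (k n : ℕ) (α β γ : ℝ) : Prop :=
  1 < β * (α - ((k : ℝ) - 1) / n) + γ ∧ 1 < α * (β - ((k : ℝ) - 1) / n) + γ ∧
  1 < γ * (α - ((k : ℝ) - 1) / n) + β ∧ 1 < α * (γ - ((k : ℝ) - 1) / n) + β ∧
  1 < γ * (β - ((k : ℝ) - 1) / n) + α ∧ 1 < β * (γ - ((k : ℝ) - 1) / n) + α

/-- all orders. -/
theorem main_rel {n k : ℕ} (hk : 1 ≤ k) (hkn : k ≤ n)
    (hn : 450 * (n : ℝ) ≤ ((n : ℝ) - k + 1) ^ 2) (R1 R2 R3 : Fin n → Fin n → Prop)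
    (hc : KCyc k n (1 - nd R1) (1 - nd R2) (1 - nd R3)) : Tri k R1 R2 R3 := by
  have hn0 : 0 < n := by omega
  have hnr : (0 : ℝ) < n := by exact_mod_cast hn0
  have nd1 : ∀ R : Fin n → Fin n → Prop, nd R ≤ 1 := by
    intro R
    unfold nd
    rw [div_le_one (by positivity)]
    have : Nat.card {q : Fin n × Fin n // ¬ R q.1 q.2} ≤ Nat.card (Fin n × Fin n) :=
      Finite.card_subtype_le _
    have h2 : Nat.card (Fin n × Fin n) = n ^ 2 := by simp [pow_two]
    rw [h2] at this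
    exact_mod_cast this
  have key : ∀ A B G : ℝ, 0 ≤ A → G ≤ 1 →
      1 < (1 - G) * (1 - B - ((k : ℝ) - 1) / n) + (1 - A) →
      A < (1 - G) * (1 - ((k : ℝ) - 1) / n - B) ∧ B < 1 - ((k : ℝ) - 1) / n := by
    intro A B G hA hG h
    have h1 : A < (1 - G) * (1 - ((k : ℝ) - 1) / n - B) := by
      have : (1 - G) * (1 - B - ((k : ℝ) - 1) / n) = (1 - G) * (1 - ((k : ℝ) - 1) / n - B) := by
        ring
      rw [this] at h; linarith
    refine ⟨h1, ?_⟩
    by_contra hc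
    push Not at hc
    have : (1 - G) * (1 - ((k : ℝ) - 1) / n - B) ≤ 0 :=
      mul_nonpos_of_nonneg_of_nonpos (by linarith) (by linarith)
    linarith
  obtain ⟨c1, c2, c3, c4, c5, c6⟩ := hc
  have p1 := nd_nonneg R1
  have p2 := nd_nonneg R2
  have p3 := nd_nonneg R3
  have q1 := nd1 R1
  have q2 := nd1 R2
  have q3 := nd1 R3
  rcases le_total (nd R3) (nd R2) with h32 | h23
  · rcases le_total (nd R2) (nd R1) with h21 | h12
    · -- G ≤ B ≤ A
      obtain ⟨k1, k2⟩ := key (nd R1) (nd R2) (nd R3) p1 q3 c5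
      exact core hk hkn hn R1 R2 R3 h32 h21 k1 k2
    · rcases le_total (nd R3) (nd R1) with h31 | h13
      · -- G ≤ A ≤ B
        obtain ⟨k1, k2⟩ := key (nd R2) (nd R1) (nd R3) p2 q3 c3
        refine Tri.swapBC (core hk hkn hn R2 R1 (flip R3) ?_ ?_ ?_ ?_)
        · rw [nd_flip]; exact h31
        · exact h12
        · rw [nd_flip]; exact k1
        · exact k2
      · -- A ≤ G ≤ B
        obtain ⟨k1, k2⟩ := key (nd R2) (nd R3) (nd R1) p2 q1 c4
        refine Tri.swapBC (Tri.swapAB (core hk hkn hn (flip R2) (flip R3) R1 ?_ ?_ ?_ ?_))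
        · rw [nd_flip]; exact h13
        · rw [nd_flip, nd_flip]; exact h32
        · rw [nd_flip, nd_flip]; exact k1
        · rw [nd_flip]; exact k2
  · rcases le_total (nd R3) (nd R1) with h31 | h13
    · -- B ≤ G ≤ A
      obtain ⟨k1, k2⟩ := key (nd R1) (nd R3) (nd R2) p1 q2 c6
      refine Tri.swapAB (core hk hkn hn (flip R1) R3 R2 ?_ ?_ ?_ ?_)
      · exact h23
      · rw [nd_flip]; exact h31
      · rw [nd_flip]; exact k1
      · exact k2
    · rcases le_total (nd R2) (nd R1) with h21 | h12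
      · -- B ≤ A ≤ G
        obtain ⟨k1, k2⟩ := key (nd R3) (nd R1) (nd R2) p3 q2 c1
        refine Tri.swapAB (Tri.swapBC (core hk hkn hn R3 (flip R1) (flip R2) ?_ ?_ ?_ ?_))
        · rw [nd_flip, nd_flip]; exact h21
        · rw [nd_flip]; exact h13
        · rw [nd_flip, nd_flip]; exact k1
        · rw [nd_flip]; exact k2
      · -- A ≤ B ≤ G
        obtain ⟨k1, k2⟩ := key (nd R3) (nd R2) (nd R1) p3 q1 c2
        refine Tri.swapBC (Tri.swapAB (Tri.swapBC
          (core hk hkn hn (flip R3) (flip R2) (flip R1) ?_ ?_ ?_ ?_)))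
        · rw [nd_flip, nd_flip]; exact h12
        · rw [nd_flip, nd_flip]; exact h23
        · rw [nd_flip, nd_flip, nd_flip]; exact k1
        · rw [nd_flip]; exact k2

end Pool.Agent.TriPack
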