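import Mathlib

/-!
# Disjoint triangles in tripartite graphs (MP_8091a7_co): common definitions

`Par h b η ε`: the parametrisation of the symmetric extremal point. In the application
`η = (n-k+1)/n`, `ε = (k-1)/n = 1 - η`, and `b` is the solution of `(1-b)(η-b) = b`; with
`h = 1-b` this reads `η = 1/h - h`.

`T3 s a c X Y Z`: strict cyclic density condition for classes of sizes `s, a, c` with
`X` non-edges between the first two, `Y` between the first and the third and `Z` between the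
second and the third class (all divided by the product of sizes: `x < (1-y)(1-z)` etc.).
-/

namespace Pool.Agent.TriPack

structure Par (h b η ε : ℝ) : Prop where
  hpos : 0 < h
  hlt : h < 1
  gold : 1 ≤ h + h ^ 2
  hb : b = 1 - h
  hη : h * η = 1 - h ^ 2
  hε : ε = 1 - η

/-- the region of densities of non-edges, ordered `G ≤ B ≤ A`, with the strongest of the six
cyclic conditions (in non-strict form) `A ≤ (1-G)(η-B)`. -/
structure Reg (η A B G : ℝ) : Prop where
  hG : 0 ≤ G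
  hGB : G ≤ B
  hBA : B ≤ A
  hA : A ≤ (1 - G) * (η - B)
  hBη : B ≤ η

def T3 (s a c X Y Z : ℝ) : Prop :=
  0 < a * c - Z ∧ 0 < s * c - Y ∧ 0 < s * a - X ∧
  X * c ^ 2 < (a * c - Z) * (s * c - Y) ∧
  Y * a ^ 2 < (a * c - Z) * (s * a - X) ∧
  Z * s ^ 2 < (s * a - X) * (s * c - Y)

/-- parameter region where the rows (or columns) of the doubly reachable pairs are dropped. -/
def DropReg (h ε p : ℝ) : Prop :=
  3 / 4 ≤ h ∧ 0 ≤ p ∧ (p ≤ 13 / 25 * ε ∨ (39 / 50 ≤ h ∧ p ≤ 11 / 20 * ε))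

/-- parameter region where both are kept as virtual vertices. -/
def CheapReg (h ε p : ℝ) : Prop :=
  0 ≤ p ∧ ((h ≤ 3 / 4 ∧ p ≤ ε) ∨
    (3 / 4 ≤ h ∧ h ≤ 39 / 50 ∧ 13 / 25 * ε ≤ p ∧ p ≤ 17 / 25 * ε))

/-- parameter region of the linear (Lagrange) bound. -/
def LagReg (h ε p : ℝ) : Prop :=
  p ≤ ε ∧ ((3 / 4 ≤ h ∧ h ≤ 39 / 50 ∧ 17 / 25 * ε ≤ p) ∨ (39 / 50 ≤ h ∧ 11 / 20 * ε ≤ p))

/-- the total handicap: `Δ = p ε - p^2/2 + p κ` (with `κ = 1/(2n)`). -/
noncomputable def dl (ε κ p : ℝ) : ℝ := p * ε - p ^ 2 / 2 + p * κ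

end Pool.Agent.TriPack
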