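import Pool.Agent.TriPack.ParBasic

/-!
# Row EB: side conditions for the region DropReg, rows dropped (`c ≥ (ε-p)/2`)

`s, a, c, p ≥ 0`, `s+a+c+p = ε`, `c ≥ (ε-p)/2`. Sizes `S = 1-s`, `A' = 1-a-p`, `C = 1-c`.
`q := S A' - η = c + s(a+p)` (use `ε = 1-η`). `Δ = dl ε κ p = p(ε-p/2+κ)`.

Key inequality (EB'):  `(1-a-p) Δ ≤ c(η/2+a+s+p) + (1-c) s (a+p)`.
 Numerically (right - left) `≥ 0.077 η p`, extremal at `h ≈ 0.78, p = 0.55ε, s = 0, a = c = (ε-p)/2`.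
 (Left side decreases, right side increases in `a` and `s`..., note `c = ε-p-s-a`; it is concave in
 `(s,a)` up to the product terms.)
From (EB'), as `b ≤ η/2` and `C = η+s+a+p`: put `Y := C q - A' Δ`. Then
 `Y = c C + C s(a+p) - A'Δ ≥ c C - c(η/2+a+s+p) = cη/2`, and
 `(1-C^2) b^2 = c(1+C) b^2 ≤ 2c (η/2)^2 ≤ C (cη/2) ≤ C Y` (as `C ≥ η`), and
 `C Y = (A' C)(S C-Δ) - C^2 η` which is `EB2`; `A' Y ≥ 0` is `EB1`.
-/

namespace Pool.Agent.TriPack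

variable {h b η ε κ p s a c : ℝ}

lemma eb_v1a {h t : ℝ} (h1 : 3 / 4 ≤ h) (h2 : h ≤ 1) (t1 : 0 ≤ t)
    (t2 : t ≤ 13 / 25) : 0 ≤ h * (1 - t) * ((1 - h ^ 2) / 2 + (t * (h ^ 2 + h - 1))) -
      (h - (t * (h ^ 2 + h - 1))) * t *
      ((h ^ 2 + h - 1) - t * (h ^ 2 + h - 1) / 2 + h * (1 - h) ^ 2 / 100) := by
  obtain ⟨x, rfl⟩ : ∃ x, h = 3 / 4 + x := ⟨h - 3 / 4, by ring⟩
  have hx : 0 ≤ x := by linarith
  have hy : 0 ≤ 1 / 4 - x := by linarith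
  have hu : 0 ≤ t := by linarith
  have hv : 0 ≤ 13 / 25 - t := by linarith
  have key : (3 / 4 + x) * (1 - t) * ((1 - (3 / 4 + x) ^ 2) / 2 + (t * ((3 / 4 + x) ^ 2 + (3 / 4 + x) - 1))) -
      ((3 / 4 + x) - (t * ((3 / 4 + x) ^ 2 + (3 / 4 + x) - 1))) * t *
      (((3 / 4 + x) ^ 2 + (3 / 4 + x) - 1) - t * ((3 / 4 + x) ^ 2 + (3 / 4 + x) - 1) / 2 + (3 / 4 + x) * (1 - (3 / 4 + x)) ^ 2 / 100) =
      (2625000 / 2197) * (1 / 4 - x) ^ 5 * (13 / 25 - t) ^ 3 +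
      (11750000 / 2197) * x * (1 / 4 - x) ^ 4 * (13 / 25 - t) ^ 3 +
      (19625000 / 2197) * x ^ 2 * (1 / 4 - x) ^ 3 * (13 / 25 - t) ^ 3 +
      (14500000 / 2197) * x ^ 3 * (1 / 4 - x) ^ 2 * (13 / 25 - t) ^ 3 +
      (4000000 / 2197) * x ^ 4 * (1 / 4 - x) * (13 / 25 - t) ^ 3 +
      (6507075 / 2197) * (1 / 4 - x) ^ 5 * t * (13 / 25 - t) ^ 2 +
      (29129275 / 2197) * x * (1 / 4 - x) ^ 4 * t * (13 / 25 - t) ^ 2 +
      (48657000 / 2197) * x ^ 2 * (1 / 4 - x) ^ 3 * t * (13 / 25 - t) ^ 2 +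
      (35954800 / 2197) * x ^ 3 * (1 / 4 - x) ^ 2 * t * (13 / 25 - t) ^ 2 +
      (9920000 / 2197) * x ^ 4 * (1 / 4 - x) * t * (13 / 25 - t) ^ 2 +
      (20221135 / 8788) * (1 / 4 - x) ^ 5 * t ^ 2 * (13 / 25 - t) +
      (23096430 / 2197) * x * (1 / 4 - x) ^ 4 * t ^ 2 * (13 / 25 - t) +
      (41047008 / 2197) * x ^ 2 * (1 / 4 - x) ^ 3 * t ^ 2 * (13 / 25 - t) +
      (35172304 / 2197) * x ^ 3 * (1 / 4 - x) ^ 2 * t ^ 2 * (13 / 25 - t) +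
      (14329600 / 2197) * x ^ 4 * (1 / 4 - x) * t ^ 2 * (13 / 25 - t) +
      (12800 / 13) * x ^ 5 * t ^ 2 * (13 / 25 - t) +
      (4253435 / 8788) * (1 / 4 - x) ^ 5 * t ^ 3 +
      (4728505 / 2197) * x * (1 / 4 - x) ^ 4 * t ^ 3 +
      (8675568 / 2197) * x ^ 2 * (1 / 4 - x) ^ 3 * t ^ 3 +
      (8444704 / 2197) * x ^ 3 * (1 / 4 - x) ^ 2 * t ^ 3 +
      (4472576 / 2197) * x ^ 4 * (1 / 4 - x) * t ^ 3 + (6144 / 13) * x ^ 5 * t ^ 3 := by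
    ring
  rw [key]
  generalize 1 / 4 - x = y at *
  generalize 13 / 25 - t = v at *
  positivity

lemma eb_v1b {h t : ℝ} (h1 : 39 / 50 ≤ h) (h2 : h ≤ 1) (t1 : 0 ≤ t)
    (t2 : t ≤ 11 / 20) : 0 ≤ h * (1 - t) * ((1 - h ^ 2) / 2 + (t * (h ^ 2 + h - 1))) -
      (h - (t * (h ^ 2 + h - 1))) * t *
      ((h ^ 2 + h - 1) - t * (h ^ 2 + h - 1) / 2 + h * (1 - h) ^ 2 / 100) := by
  obtain ⟨x, rfl⟩ : ∃ x, h = 39 / 50 + x := ⟨h - 39 / 50, by ring⟩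
  have hx : 0 ≤ x := by linarith
  have hy : 0 ≤ 11 / 50 - x := by linarith
  have hu : 0 ≤ t := by linarith
  have hv : 0 ≤ 11 / 20 - t := by linarith
  have key : (39 / 50 + x) * (1 - t) * ((1 - (39 / 50 + x) ^ 2) / 2 + (t * ((39 / 50 + x) ^ 2 + (39 / 50 + x) - 1))) -
      ((39 / 50 + x) - (t * ((39 / 50 + x) ^ 2 + (39 / 50 + x) - 1))) * t *
      (((39 / 50 + x) ^ 2 + (39 / 50 + x) - 1) - t * ((39 / 50 + x) ^ 2 + (39 / 50 + x) - 1) / 2 + (39 / 50 + x) * (1 - (39 / 50 + x)) ^ 2 / 100) =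
      (34710000000 / 19487171) * (11 / 50 - x) ^ 5 * (11 / 20 - t) ^ 3 +
      (152920000000 / 19487171) * x * (11 / 50 - x) ^ 4 * (11 / 20 - t) ^ 3 +
      (251710000000 / 19487171) * x ^ 2 * (11 / 50 - x) ^ 3 * (11 / 20 - t) ^ 3 +
      (183500000000 / 19487171) * x ^ 3 * (11 / 50 - x) ^ 2 * (11 / 20 - t) ^ 3 +
      (50000000000 / 19487171) * x ^ 4 * (11 / 50 - x) * (11 / 20 - t) ^ 3 +
      (85002691800 / 19487171) * (11 / 50 - x) ^ 5 * t * (11 / 20 - t) ^ 2 +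
      (374522811800 / 19487171) * x * (11 / 50 - x) ^ 4 * t * (11 / 20 - t) ^ 2 +
      (616534620000 / 19487171) * x ^ 2 * (11 / 50 - x) ^ 3 * t * (11 / 20 - t) ^ 2 +
      (449514500000 / 19487171) * x ^ 3 * (11 / 50 - x) ^ 2 * t * (11 / 20 - t) ^ 2 +
      (122500000000 / 19487171) * x ^ 4 * (11 / 50 - x) * t * (11 / 20 - t) ^ 2 +
      (329213701639 / 97435855) * (11 / 50 - x) ^ 5 * t ^ 2 * (11 / 20 - t) +
      (302159327640 / 19487171) * x * (11 / 50 - x) ^ 4 * t ^ 2 * (11 / 20 - t) +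
      (544576008000 / 19487171) * x ^ 2 * (11 / 50 - x) ^ 3 * t ^ 2 * (11 / 20 - t) +
      (480259775000 / 19487171) * x ^ 3 * (11 / 50 - x) ^ 2 * t ^ 2 * (11 / 20 - t) +
      (206375000000 / 19487171) * x ^ 4 * (11 / 50 - x) * t ^ 2 * (11 / 20 - t) +
      (3125000000 / 1771561) * x ^ 5 * t ^ 2 * (11 / 20 - t) +
      (63489772514 / 97435855) * (11 / 50 - x) ^ 5 * t ^ 3 +
      (58024679315 / 19487171) * x * (11 / 50 - x) ^ 4 * t ^ 3 +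
      (111437208000 / 19487171) * x ^ 2 * (11 / 50 - x) ^ 3 * t ^ 3 +
      (114942087500 / 19487171) * x ^ 3 * (11 / 50 - x) ^ 2 * t ^ 3 +
      (64300000000 / 19487171) * x ^ 4 * (11 / 50 - x) * t ^ 3 +
      (1406250000 / 1771561) * x ^ 5 * t ^ 3 := by
    ring
  rw [key]
  generalize 11 / 50 - x = y at *
  generalize 11 / 20 - t = v at *
  positivity

lemma eb_v2a {h t : ℝ} (h1 : 3 / 4 ≤ h) (h2 : h ≤ 1) (t1 : 0 ≤ t)
    (t2 : t ≤ 13 / 25) : 0 ≤ h * ((1 - t) / 2) * ((1 - h ^ 2) / 2 + ((h ^ 2 + h - 1) + (t * (h ^ 2 + h - 1))) / 2) -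
      (h - ((h ^ 2 + h - 1) + (t * (h ^ 2 + h - 1))) / 2) * t *
      ((h ^ 2 + h - 1) - t * (h ^ 2 + h - 1) / 2 + h * (1 - h) ^ 2 / 100) := by
  obtain ⟨x, rfl⟩ : ∃ x, h = 3 / 4 + x := ⟨h - 3 / 4, by ring⟩
  have hx : 0 ≤ x := by linarith
  have hy : 0 ≤ 1 / 4 - x := by linarith
  have hu : 0 ≤ t := by linarith
  have hv : 0 ≤ 13 / 25 - t := by linarith
  have key : (3 / 4 + x) * ((1 - t) / 2) * ((1 - (3 / 4 + x) ^ 2) / 2 + (((3 / 4 + x) ^ 2 + (3 / 4 + x) - 1) + (t * ((3 / 4 + x) ^ 2 + (3 / 4 + x) - 1))) / 2) -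
      ((3 / 4 + x) - (((3 / 4 + x) ^ 2 + (3 / 4 + x) - 1) + (t * ((3 / 4 + x) ^ 2 + (3 / 4 + x) - 1))) / 2) * t *
      (((3 / 4 + x) ^ 2 + (3 / 4 + x) - 1) - t * ((3 / 4 + x) ^ 2 + (3 / 4 + x) - 1) / 2 + (3 / 4 + x) * (1 - (3 / 4 + x)) ^ 2 / 100) =
      (2250000 / 2197) * (1 / 4 - x) ^ 5 * (13 / 25 - t) ^ 3 +
      (12750000 / 2197) * x * (1 / 4 - x) ^ 4 * (13 / 25 - t) ^ 3 +
      (28750000 / 2197) * x ^ 2 * (1 / 4 - x) ^ 3 * (13 / 25 - t) ^ 3 +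
      (32250000 / 2197) * x ^ 3 * (1 / 4 - x) ^ 2 * (13 / 25 - t) ^ 3 +
      (18000000 / 2197) * x ^ 4 * (1 / 4 - x) * (13 / 25 - t) ^ 3 +
      (4000000 / 2197) * x ^ 5 * (13 / 25 - t) ^ 3 +
      (36171475 / 17576) * (1 / 4 - x) ^ 5 * t * (13 / 25 - t) ^ 2 +
      (24543775 / 2197) * x * (1 / 4 - x) ^ 4 * t * (13 / 25 - t) ^ 2 +
      (54099700 / 2197) * x ^ 2 * (1 / 4 - x) ^ 3 * t * (13 / 25 - t) ^ 2 +
      (60477400 / 2197) * x ^ 3 * (1 / 4 - x) ^ 2 * t * (13 / 25 - t) ^ 2 +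
      (34240000 / 2197) * x ^ 4 * (1 / 4 - x) * t * (13 / 25 - t) ^ 2 +
      (7840000 / 2197) * x ^ 5 * t * (13 / 25 - t) ^ 2 +
      (21218485 / 17576) * (1 / 4 - x) ^ 5 * t ^ 2 * (13 / 25 - t) +
      (13648865 / 2197) * x * (1 / 4 - x) ^ 4 * t ^ 2 * (13 / 25 - t) +
      (30283804 / 2197) * x ^ 2 * (1 / 4 - x) ^ 3 * t ^ 2 * (13 / 25 - t) +
      (36036152 / 2197) * x ^ 3 * (1 / 4 - x) ^ 2 * t ^ 2 * (13 / 25 - t) +
      (22592000 / 2197) * x ^ 4 * (1 / 4 - x) * t ^ 2 * (13 / 25 - t) +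
      (5843200 / 2197) * x ^ 5 * t ^ 2 * (13 / 25 - t) +
      (1303805 / 8788) * (1 / 4 - x) ^ 5 * t ^ 3 +
      (1360765 / 2197) * x * (1 / 4 - x) ^ 4 * t ^ 3 +
      (3264384 / 2197) * x ^ 2 * (1 / 4 - x) ^ 3 * t ^ 3 +
      (5172352 / 2197) * x ^ 3 * (1 / 4 - x) ^ 2 * t ^ 3 +
      (4383488 / 2197) * x ^ 4 * (1 / 4 - x) * t ^ 3 + (1440768 / 2197) * x ^ 5 * t ^ 3 := by
    ring
  rw [key]
  generalize 1 / 4 - x = y at *
  generalize 13 / 25 - t = v at *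
  positivity

lemma eb_v2b {h t : ℝ} (h1 : 39 / 50 ≤ h) (h2 : h ≤ 1) (t1 : 0 ≤ t)
    (t2 : t ≤ 11 / 20) : 0 ≤ h * ((1 - t) / 2) * ((1 - h ^ 2) / 2 + ((h ^ 2 + h - 1) + (t * (h ^ 2 + h - 1))) / 2) -
      (h - ((h ^ 2 + h - 1) + (t * (h ^ 2 + h - 1))) / 2) * t *
      ((h ^ 2 + h - 1) - t * (h ^ 2 + h - 1) / 2 + h * (1 - h) ^ 2 / 100) := by
  obtain ⟨x, rfl⟩ : ∃ x, h = 39 / 50 + x := ⟨h - 39 / 50, by ring⟩
  have hx : 0 ≤ x := by linarith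
  have hy : 0 ≤ 11 / 50 - x := by linarith
  have hu : 0 ≤ t := by linarith
  have hv : 0 ≤ 11 / 20 - t := by linarith
  have key : (39 / 50 + x) * ((1 - t) / 2) * ((1 - (39 / 50 + x) ^ 2) / 2 + (((39 / 50 + x) ^ 2 + (39 / 50 + x) - 1) + (t * ((39 / 50 + x) ^ 2 + (39 / 50 + x) - 1))) / 2) -
      ((39 / 50 + x) - (((39 / 50 + x) ^ 2 + (39 / 50 + x) - 1) + (t * ((39 / 50 + x) ^ 2 + (39 / 50 + x) - 1))) / 2) * t *
      (((39 / 50 + x) ^ 2 + (39 / 50 + x) - 1) - t * ((39 / 50 + x) ^ 2 + (39 / 50 + x) - 1) / 2 + (39 / 50 + x) * (1 - (39 / 50 + x)) ^ 2 / 100) =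
      (380250000000 / 214358881) * (11 / 50 - x) ^ 5 * (11 / 20 - t) ^ 3 +
      (2115750000000 / 214358881) * x * (11 / 50 - x) ^ 4 * (11 / 20 - t) ^ 3 +
      (4690750000000 / 214358881) * x ^ 2 * (11 / 50 - x) ^ 3 * (11 / 20 - t) ^ 3 +
      (5180250000000 / 214358881) * x ^ 3 * (11 / 50 - x) ^ 2 * (11 / 20 - t) ^ 3 +
      (2850000000000 / 214358881) * x ^ 4 * (11 / 50 - x) * (11 / 20 - t) ^ 3 +
      (625000000000 / 214358881) * x ^ 5 * (11 / 20 - t) ^ 3 +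
      (722601677078 / 214358881) * (11 / 50 - x) ^ 5 * t * (11 / 20 - t) ^ 2 +
      (3898722470200 / 214358881) * x * (11 / 50 - x) ^ 4 * t * (11 / 20 - t) ^ 2 +
      (8520022000000 / 214358881) * x ^ 2 * (11 / 50 - x) ^ 3 * t * (11 / 20 - t) ^ 2 +
      (9420154750000 / 214358881) * x ^ 3 * (11 / 50 - x) ^ 2 * t * (11 / 20 - t) ^ 2 +
      (5263750000000 / 214358881) * x ^ 4 * (11 / 50 - x) * t * (11 / 20 - t) ^ 2 +
      (1187500000000 / 214358881) * x ^ 5 * t * (11 / 20 - t) ^ 2 +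
      (3903066009089 / 2143588810) * (11 / 50 - x) ^ 5 * t ^ 2 * (11 / 20 - t) +
      (2061369397370 / 214358881) * x * (11 / 50 - x) ^ 4 * t ^ 2 * (11 / 20 - t) +
      (4651493149000 / 214358881) * x ^ 2 * (11 / 50 - x) ^ 3 * t ^ 2 * (11 / 20 - t) +
      (5554501887500 / 214358881) * x ^ 3 * (11 / 50 - x) ^ 2 * t ^ 2 * (11 / 20 - t) +
      (3452187500000 / 214358881) * x ^ 4 * (11 / 50 - x) * t ^ 2 * (11 / 20 - t) +
      (878125000000 / 214358881) * x ^ 5 * t ^ 2 * (11 / 20 - t) +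
      (161342033467 / 1071794405) * (11 / 50 - x) ^ 5 * t ^ 3 +
      (308943652565 / 428717762) * x * (11 / 50 - x) ^ 4 * t ^ 3 +
      (446493159000 / 214358881) * x ^ 2 * (11 / 50 - x) ^ 3 * t ^ 3 +
      (768429606250 / 214358881) * x ^ 3 * (11 / 50 - x) ^ 2 * t ^ 3 +
      (655775000000 / 214358881) * x ^ 4 * (11 / 50 - x) * t ^ 3 +
      (211640625000 / 214358881) * x ^ 5 * t ^ 3 := by
    ring
  rw [key]
  generalize 11 / 50 - x = y at *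
  generalize 11 / 20 - t = v at *
  positivity

lemma eb_v3a {h t : ℝ} (h1 : 3 / 4 ≤ h) (h2 : h ≤ 1) (t1 : 0 ≤ t)
    (t2 : t ≤ 13 / 25) : 0 ≤ h * ((1 - t) / 2) * ((1 - h ^ 2) / 2 + ((h ^ 2 + h - 1) + (t * (h ^ 2 + h - 1))) / 2) +
      (h - ((h ^ 2 + h - 1) - (t * (h ^ 2 + h - 1))) / 2) * (((h ^ 2 + h - 1) - (t * (h ^ 2 + h - 1))) / 2) * t -
      (h - (t * (h ^ 2 + h - 1))) * t *
      ((h ^ 2 + h - 1) - t * (h ^ 2 + h - 1) / 2 + h * (1 - h) ^ 2 / 100) := by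
  obtain ⟨x, rfl⟩ : ∃ x, h = 3 / 4 + x := ⟨h - 3 / 4, by ring⟩
  have hx : 0 ≤ x := by linarith
  have hy : 0 ≤ 1 / 4 - x := by linarith
  have hu : 0 ≤ t := by linarith
  have hv : 0 ≤ 13 / 25 - t := by linarith
  have key : (3 / 4 + x) * ((1 - t) / 2) * ((1 - (3 / 4 + x) ^ 2) / 2 + (((3 / 4 + x) ^ 2 + (3 / 4 + x) - 1) + (t * ((3 / 4 + x) ^ 2 + (3 / 4 + x) - 1))) / 2) +
      ((3 / 4 + x) - (((3 / 4 + x) ^ 2 + (3 / 4 + x) - 1) - (t * ((3 / 4 + x) ^ 2 + (3 / 4 + x) - 1))) / 2) * ((((3 / 4 + x) ^ 2 + (3 / 4 + x) - 1) - (t * ((3 / 4 + x) ^ 2 + (3 / 4 + x) - 1))) / 2) * t -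
      ((3 / 4 + x) - (t * ((3 / 4 + x) ^ 2 + (3 / 4 + x) - 1))) * t *
      (((3 / 4 + x) ^ 2 + (3 / 4 + x) - 1) - t * ((3 / 4 + x) ^ 2 + (3 / 4 + x) - 1) / 2 + (3 / 4 + x) * (1 - (3 / 4 + x)) ^ 2 / 100) =
      (2250000 / 2197) * (1 / 4 - x) ^ 5 * (13 / 25 - t) ^ 3 +
      (12750000 / 2197) * x * (1 / 4 - x) ^ 4 * (13 / 25 - t) ^ 3 +
      (28750000 / 2197) * x ^ 2 * (1 / 4 - x) ^ 3 * (13 / 25 - t) ^ 3 +
      (32250000 / 2197) * x ^ 3 * (1 / 4 - x) ^ 2 * (13 / 25 - t) ^ 3 +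
      (18000000 / 2197) * x ^ 4 * (1 / 4 - x) * (13 / 25 - t) ^ 3 +
      (4000000 / 2197) * x ^ 5 * (13 / 25 - t) ^ 3 +
      (4886450 / 2197) * (1 / 4 - x) ^ 5 * t * (13 / 25 - t) ^ 2 +
      (26206150 / 2197) * x * (1 / 4 - x) ^ 4 * t * (13 / 25 - t) ^ 2 +
      (55264500 / 2197) * x ^ 2 * (1 / 4 - x) ^ 3 * t * (13 / 25 - t) ^ 2 +
      (57224800 / 2197) * x ^ 3 * (1 / 4 - x) ^ 2 * t * (13 / 25 - t) ^ 2 +
      (29040000 / 2197) * x ^ 4 * (1 / 4 - x) * t * (13 / 25 - t) ^ 2 +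
      (5760000 / 2197) * x ^ 5 * t * (13 / 25 - t) ^ 2 +
      (13615135 / 8788) * (1 / 4 - x) ^ 5 * t ^ 2 * (13 / 25 - t) +
      (18010430 / 2197) * x * (1 / 4 - x) ^ 4 * t ^ 2 * (13 / 25 - t) +
      (38429708 / 2197) * x ^ 2 * (1 / 4 - x) ^ 3 * t ^ 2 * (13 / 25 - t) +
      (41362304 / 2197) * x ^ 3 * (1 / 4 - x) ^ 2 * t ^ 2 * (13 / 25 - t) +
      (22467200 / 2197) * x ^ 4 * (1 / 4 - x) * t ^ 2 * (13 / 25 - t) +
      (4928000 / 2197) * x ^ 5 * t ^ 2 * (13 / 25 - t) +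
      (2410235 / 8788) * (1 / 4 - x) ^ 5 * t ^ 3 +
      (3071305 / 2197) * x * (1 / 4 - x) ^ 4 * t ^ 3 +
      (6906048 / 2197) * x ^ 2 * (1 / 4 - x) ^ 3 * t ^ 3 +
      (8478304 / 2197) * x ^ 3 * (1 / 4 - x) ^ 2 * t ^ 3 +
      (5521664 / 2197) * x ^ 4 * (1 / 4 - x) * t ^ 3 + (1480704 / 2197) * x ^ 5 * t ^ 3 := by
    ring
  rw [key]
  generalize 1 / 4 - x = y at *
  generalize 13 / 25 - t = v at *
  positivity

lemma eb_v3b {h t : ℝ} (h1 : 39 / 50 ≤ h) (h2 : h ≤ 1) (t1 : 0 ≤ t)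
    (t2 : t ≤ 11 / 20) : 0 ≤ h * ((1 - t) / 2) * ((1 - h ^ 2) / 2 + ((h ^ 2 + h - 1) + (t * (h ^ 2 + h - 1))) / 2) +
      (h - ((h ^ 2 + h - 1) - (t * (h ^ 2 + h - 1))) / 2) * (((h ^ 2 + h - 1) - (t * (h ^ 2 + h - 1))) / 2) * t -
      (h - (t * (h ^ 2 + h - 1))) * t *
      ((h ^ 2 + h - 1) - t * (h ^ 2 + h - 1) / 2 + h * (1 - h) ^ 2 / 100) := by
  obtain ⟨x, rfl⟩ : ∃ x, h = 39 / 50 + x := ⟨h - 39 / 50, by ring⟩
  have hx : 0 ≤ x := by linarith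
  have hy : 0 ≤ 11 / 50 - x := by linarith
  have hu : 0 ≤ t := by linarith
  have hv : 0 ≤ 11 / 20 - t := by linarith
  have key : (39 / 50 + x) * ((1 - t) / 2) * ((1 - (39 / 50 + x) ^ 2) / 2 + (((39 / 50 + x) ^ 2 + (39 / 50 + x) - 1) + (t * ((39 / 50 + x) ^ 2 + (39 / 50 + x) - 1))) / 2) +
      ((39 / 50 + x) - (((39 / 50 + x) ^ 2 + (39 / 50 + x) - 1) - (t * ((39 / 50 + x) ^ 2 + (39 / 50 + x) - 1))) / 2) * ((((39 / 50 + x) ^ 2 + (39 / 50 + x) - 1) - (t * ((39 / 50 + x) ^ 2 + (39 / 50 + x) - 1))) / 2) * t -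
      ((39 / 50 + x) - (t * ((39 / 50 + x) ^ 2 + (39 / 50 + x) - 1))) * t *
      (((39 / 50 + x) ^ 2 + (39 / 50 + x) - 1) - t * ((39 / 50 + x) ^ 2 + (39 / 50 + x) - 1) / 2 + (39 / 50 + x) * (1 - (39 / 50 + x)) ^ 2 / 100) =
      (380250000000 / 214358881) * (11 / 50 - x) ^ 5 * (11 / 20 - t) ^ 3 +
      (2115750000000 / 214358881) * x * (11 / 50 - x) ^ 4 * (11 / 20 - t) ^ 3 +
      (4690750000000 / 214358881) * x ^ 2 * (11 / 50 - x) ^ 3 * (11 / 20 - t) ^ 3 +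
      (5180250000000 / 214358881) * x ^ 3 * (11 / 50 - x) ^ 2 * (11 / 20 - t) ^ 3 +
      (2850000000000 / 214358881) * x ^ 4 * (11 / 50 - x) * (11 / 20 - t) ^ 3 +
      (625000000000 / 214358881) * x ^ 5 * (11 / 20 - t) ^ 3 +
      (775211604800 / 214358881) * (11 / 50 - x) ^ 5 * t * (11 / 20 - t) ^ 2 +
      (4071395174800 / 214358881) * x * (11 / 50 - x) ^ 4 * t * (11 / 20 - t) ^ 2 +
      (8430068070000 / 214358881) * x ^ 2 * (11 / 50 - x) ^ 3 * t * (11 / 20 - t) ^ 2 +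
      (8591384500000 / 214358881) * x ^ 3 * (11 / 50 - x) ^ 2 * t * (11 / 20 - t) ^ 2 +
      (4301250000000 / 214358881) * x ^ 4 * (11 / 50 - x) * t * (11 / 20 - t) ^ 2 +
      (843750000000 / 214358881) * x ^ 5 * t * (11 / 20 - t) ^ 2 +
      (2618164383029 / 1071794405) * (11 / 50 - x) ^ 5 * t ^ 2 * (11 / 20 - t) +
      (2762381549540 / 214358881) * x * (11 / 50 - x) ^ 4 * t ^ 2 * (11 / 20 - t) +
      (5887343550500 / 214358881) * x ^ 2 * (11 / 50 - x) ^ 3 * t ^ 2 * (11 / 20 - t) +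
      (6338848775000 / 214358881) * x ^ 3 * (11 / 50 - x) ^ 2 * t ^ 2 * (11 / 20 - t) +
      (3448062500000 / 214358881) * x ^ 4 * (11 / 50 - x) * t ^ 2 * (11 / 20 - t) +
      (757812500000 / 214358881) * x ^ 5 * t ^ 2 * (11 / 20 - t) +
      (816117203933 / 2143588810) * (11 / 50 - x) ^ 5 * t ^ 3 +
      (869922144155 / 428717762) * x * (11 / 50 - x) ^ 4 * t ^ 3 +
      (1020841510500 / 214358881) * x ^ 2 * (11 / 50 - x) ^ 3 * t ^ 3 +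
      (1289211681250 / 214358881) * x ^ 3 * (11 / 50 - x) ^ 2 * t ^ 3 +
      (848825000000 / 214358881) * x ^ 4 * (11 / 50 - x) * t ^ 3 +
      (227109375000 / 214358881) * x ^ 5 * t ^ 3 := by
    ring
  rw [key]
  generalize 11 / 50 - x = y at *
  generalize 11 / 20 - t = v at *
  positivity

/-- parametrisation of `p` -/
lemma eb_par (H : Par h b η ε) (hr : DropReg h ε p) :
    ∃ t : ℝ, h * p = t * (h ^ 2 + h - 1) ∧ 0 ≤ t ∧ 0 < h ^ 2 + h - 1 ∧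
      ((3 / 4 ≤ h ∧ t ≤ 13 / 25) ∨ (39 / 50 ≤ h ∧ t ≤ 11 / 20)) := by
  have h0 := H.hpos
  have hhe : h * ε = h ^ 2 + h - 1 := by rw [H.hε]; linarith [H.hη]
  obtain ⟨h1, hp, hcase⟩ := hr
  have hE0 : 0 < h ^ 2 + h - 1 := by nlinarith
  refine ⟨h * p / (h ^ 2 + h - 1), (div_mul_cancel₀ _ hE0.ne').symm,
      div_nonneg (mul_nonneg h0.le hp) hE0.le, hE0, ?_⟩
  rcases hcase with hp1 | ⟨h2, hp1⟩
  · refine Or.inl ⟨h1, ?_⟩
    rw [div_le_iff₀ hE0, ← hhe]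
    nlinarith [mul_le_mul_of_nonneg_left hp1 h0.le]
  · refine Or.inr ⟨h2, ?_⟩
    rw [div_le_iff₀ hE0, ← hhe]
    nlinarith [mul_le_mul_of_nonneg_left hp1 h0.le]

/-- the three vertex inequalities -/
lemma eb_vert (H : Par h b η ε) (hr : DropReg h ε p) :
    (1 - p) * (p * (ε - p / 2 + b ^ 2 / 100)) ≤ (ε - p) * (η / 2 + p) ∧
    (1 - (ε - p) / 2 - p) * (p * (ε - p / 2 + b ^ 2 / 100)) ≤
      (ε - p) / 2 * (η / 2 + (ε - p) / 2 + p) ∧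
    (1 - p) * (p * (ε - p / 2 + b ^ 2 / 100)) ≤
      (ε - p) / 2 * (η / 2 + (ε - p) / 2 + p) + (1 - (ε - p) / 2) * ((ε - p) / 2) * p := by
  have h0 := H.hpos
  have hb := H.hb
  have hη := H.hη
  have hlt := H.hlt
  have hhe : h * ε = h ^ 2 + h - 1 := by rw [H.hε]; linarith [H.hη]
  obtain ⟨t, hP, ht0, hE0, ht⟩ := eb_par H hr
  have v1 : 0 ≤ h * (1 - t) * ((1 - h ^ 2) / 2 + (t * (h ^ 2 + h - 1))) -
      (h - (t * (h ^ 2 + h - 1))) * t *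
      ((h ^ 2 + h - 1) - t * (h ^ 2 + h - 1) / 2 + h * (1 - h) ^ 2 / 100) := by
    rcases ht with ⟨h1, ht1⟩ | ⟨h1, ht1⟩
    · exact eb_v1a h1 hlt.le ht0 ht1
    · exact eb_v1b h1 hlt.le ht0 ht1
  have v2 : 0 ≤ h * ((1 - t) / 2) * ((1 - h ^ 2) / 2 + ((h ^ 2 + h - 1) + (t * (h ^ 2 + h - 1))) / 2) -
      (h - ((h ^ 2 + h - 1) + (t * (h ^ 2 + h - 1))) / 2) * t *
      ((h ^ 2 + h - 1) - t * (h ^ 2 + h - 1) / 2 + h * (1 - h) ^ 2 / 100) := by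
    rcases ht with ⟨h1, ht1⟩ | ⟨h1, ht1⟩
    · exact eb_v2a h1 hlt.le ht0 ht1
    · exact eb_v2b h1 hlt.le ht0 ht1
  have v3 : 0 ≤ h * ((1 - t) / 2) * ((1 - h ^ 2) / 2 + ((h ^ 2 + h - 1) + (t * (h ^ 2 + h - 1))) / 2) +
      (h - ((h ^ 2 + h - 1) - (t * (h ^ 2 + h - 1))) / 2) * (((h ^ 2 + h - 1) - (t * (h ^ 2 + h - 1))) / 2) * t -
      (h - (t * (h ^ 2 + h - 1))) * t *
      ((h ^ 2 + h - 1) - t * (h ^ 2 + h - 1) / 2 + h * (1 - h) ^ 2 / 100) := by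
    rcases ht with ⟨h1, ht1⟩ | ⟨h1, ht1⟩
    · exact eb_v3a h1 hlt.le ht0 ht1
    · exact eb_v3b h1 hlt.le ht0 ht1
  set D : ℝ := ε - p / 2 + b ^ 2 / 100 with hD
  have hhD : h * D = (h ^ 2 + h - 1) - t * (h ^ 2 + h - 1) / 2 + h * (1 - h) ^ 2 / 100 := by
    rw [hD, hb]
    have : h * (ε - p / 2 + (1 - h) ^ 2 / 100) = h * ε - h * p / 2 + h * (1 - h) ^ 2 / 100 := by
      ring
    rw [this, hP, hhe]
  rw [← hhD] at v1 v2 v3
  have w1 := mul_nonneg hE0.le v1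
  have w2 := mul_nonneg hE0.le v2
  have w3 := mul_nonneg hE0.le v3
  have h3 : (0 : ℝ) < h ^ 3 := by positivity
  have hEe : h ^ 2 + h - 1 = h * ε := hhe.symm
  have htE : t * (h * ε) = h * p := by rw [hhe]; exact hP.symm
  rw [hEe] at w1 w2 w3
  refine ⟨?_, ?_, ?_⟩
  · have e : h * ε * (h * (1 - t) * ((1 - h ^ 2) / 2 + t * (h * ε)) -
        (h - t * (h * ε)) * t * (h * D)) =
        h * (h * ε - t * (h * ε)) * ((1 - h ^ 2) / 2 + t * (h * ε)) -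
          (h - t * (h * ε)) * (t * (h * ε)) * (h * D) := by ring
    rw [e, htE, ← hη] at w1
    have e' : h * (h * ε - h * p) * (h * η / 2 + h * p) - (h - h * p) * (h * p) * (h * D) =
        h ^ 3 * ((ε - p) * (η / 2 + p) - (1 - p) * (p * D)) := by ring
    rw [e'] at w1
    linarith [nonneg_of_mul_nonneg_right w1 h3]
  · have e : h * ε * (h * ((1 - t) / 2) * ((1 - h ^ 2) / 2 + (h * ε + t * (h * ε)) / 2) -
        (h - (h * ε + t * (h * ε)) / 2) * t * (h * D)) =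
        h * ((h * ε - t * (h * ε)) / 2) * ((1 - h ^ 2) / 2 + (h * ε + t * (h * ε)) / 2) -
          (h - (h * ε + t * (h * ε)) / 2) * (t * (h * ε)) * (h * D) := by ring
    rw [e, htE, ← hη] at w2
    have e' : h * ((h * ε - h * p) / 2) * (h * η / 2 + (h * ε + h * p) / 2) -
          (h - (h * ε + h * p) / 2) * (h * p) * (h * D) =
        h ^ 3 * ((ε - p) / 2 * (η / 2 + (ε - p) / 2 + p) -
          (1 - (ε - p) / 2 - p) * (p * D)) := by ring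
    rw [e'] at w2
    linarith [nonneg_of_mul_nonneg_right w2 h3]
  · have e : h * ε * (h * ((1 - t) / 2) * ((1 - h ^ 2) / 2 + (h * ε + t * (h * ε)) / 2) +
        (h - (h * ε - t * (h * ε)) / 2) * ((h * ε - t * (h * ε)) / 2) * t -
        (h - t * (h * ε)) * t * (h * D)) =
        h * ((h * ε - t * (h * ε)) / 2) * ((1 - h ^ 2) / 2 + (h * ε + t * (h * ε)) / 2) +
        (h - (h * ε - t * (h * ε)) / 2) * ((h * ε - t * (h * ε)) / 2) * (t * (h * ε)) -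
          (h - t * (h * ε)) * (t * (h * ε)) * (h * D) := by ring
    rw [e, htE, ← hη] at w3
    have e' : h * ((h * ε - h * p) / 2) * (h * η / 2 + (h * ε + h * p) / 2) +
        (h - (h * ε - h * p) / 2) * ((h * ε - h * p) / 2) * (h * p) -
          (h - h * p) * (h * p) * (h * D) =
        h ^ 3 * ((ε - p) / 2 * (η / 2 + (ε - p) / 2 + p) +
          (1 - (ε - p) / 2) * ((ε - p) / 2) * p - (1 - p) * (p * D)) := by ring
    rw [e'] at w3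
    linarith [nonneg_of_mul_nonneg_right w3 h3]

/-- concavity on the triangle `0 ≤ a ≤ r ≤ w / 2` -/
lemma eb_conc {X e w r a : ℝ} (v1 : (1 - p) * X ≤ w * (e + p))
    (v2 : (1 - w / 2 - p) * X ≤ w / 2 * (e + w / 2 + p))
    (v3 : (1 - p) * X ≤ w / 2 * (e + w / 2 + p) + (1 - w / 2) * (w / 2) * p)
    (ha : 0 ≤ a) (har : a ≤ r) (hrw : r ≤ w / 2) (hp1 : p ≤ 1) (hw1 : w ≤ 1) :
    (1 - a - p) * X ≤ (w - r) * (e + r + p) + (1 - w + r) * ((r - a) * (a + p)) := by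
  have hr0 : 0 ≤ r := ha.trans har
  have hw0 : 0 ≤ w := by linarith
  have hG0 : 0 ≤ (w - r) * (e + r + p) + (1 - w + r) * (r * p) - (1 - p) * X := by
    rcases hw0.eq_or_lt with h0 | h0
    · have : r = 0 := by linarith
      subst this
      rw [← h0] at v1 ⊢
      linarith
    · have e1 : (w / 2) * ((w - r) * (e + r + p) + (1 - w + r) * (r * p) - (1 - p) * X) =
          (w / 2 - r) * (w * (e + p) - (1 - p) * X) +
          r * (w / 2 * (e + w / 2 + p) + (1 - w / 2) * (w / 2) * p - (1 - p) * X) +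
          (w / 2) * ((1 - p) * (r * (w / 2 - r))) := by ring
      have e2 : 0 ≤ (w / 2) * ((w - r) * (e + r + p) + (1 - w + r) * (r * p) - (1 - p) * X) := by
        rw [e1]
        have a1 := mul_nonneg (sub_nonneg.2 hrw) (sub_nonneg.2 v1)
        have a2 := mul_nonneg hr0 (sub_nonneg.2 v3)
        have a3 := mul_nonneg (half_pos h0).le (mul_nonneg (sub_nonneg.2 hp1)
          (mul_nonneg hr0 (sub_nonneg.2 hrw)))
        linarith
      exact nonneg_of_mul_nonneg_right e2 (half_pos h0)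
  have hG1 : 0 ≤ (w - r) * (e + r + p) - (1 - r - p) * X := by
    rcases hw0.eq_or_lt with h0 | h0
    · have : r = 0 := by linarith
      subst this
      rw [← h0] at v1 ⊢
      linarith
    · have e1 : (w / 2) * ((w - r) * (e + r + p) - (1 - r - p) * X) =
          (w / 2 - r) * (w * (e + p) - (1 - p) * X) +
          r * (w / 2 * (e + w / 2 + p) - (1 - w / 2 - p) * X) +
          (w / 2) * (r * (w / 2 - r)) := by ring
      have e2 : 0 ≤ (w / 2) * ((w - r) * (e + r + p) - (1 - r - p) * X) := by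
        rw [e1]
        have a1 := mul_nonneg (sub_nonneg.2 hrw) (sub_nonneg.2 v1)
        have a2 := mul_nonneg hr0 (sub_nonneg.2 v2)
        have a3 := mul_nonneg (half_pos h0).le (mul_nonneg hr0 (sub_nonneg.2 hrw))
        linarith
      exact nonneg_of_mul_nonneg_right e2 (half_pos h0)
  rcases hr0.eq_or_lt with h0 | h0
  · have ha0 : a = 0 := by linarith
    subst ha0
    rw [← h0] at hG0 ⊢
    linarith
  · have e1 : r * ((w - r) * (e + r + p) + (1 - w + r) * ((r - a) * (a + p)) -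
          (1 - a - p) * X) =
        (r - a) * ((w - r) * (e + r + p) + (1 - w + r) * (r * p) - (1 - p) * X) +
        a * ((w - r) * (e + r + p) - (1 - r - p) * X) +
        r * ((1 - w + r) * ((r - a) * a)) := by ring
    have e2 : 0 ≤ r * ((w - r) * (e + r + p) + (1 - w + r) * ((r - a) * (a + p)) -
          (1 - a - p) * X) := by
      rw [e1]
      have a1 := mul_nonneg (sub_nonneg.2 har) hG0
      have a2 := mul_nonneg ha hG1
      have a3 := mul_nonneg h0.le (mul_nonneg (by linarith : 0 ≤ 1 - w + r)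
        (mul_nonneg (sub_nonneg.2 har) ha))
      linarith
    linarith [nonneg_of_mul_nonneg_right e2 h0]

theorem EBkey (H : Par h b η ε) (hκ0 : 0 ≤ κ) (hκ : κ ≤ b ^ 2 / 100) (hr : DropReg h ε p)
    (hs : 0 ≤ s) (ha : 0 ≤ a) (hc : 0 ≤ c) (hsum : s + a + c + p = ε) (hc2 : (ε - p) / 2 ≤ c) :
    (1 - a - p) * dl ε κ p ≤ c * (η / 2 + a + s + p) + (1 - c) * s * (a + p) := by
  have hp := hr.2.1
  have hε1 := H.ε_lt_one
  have hε0 := H.ε_nonneg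
  obtain ⟨v1, v2, v3⟩ := eb_vert H hr
  have hΔ : dl ε κ p ≤ p * (ε - p / 2 + b ^ 2 / 100) := by
    unfold dl
    nlinarith [mul_nonneg hp (sub_nonneg.2 hκ)]
  have hA : 0 ≤ 1 - a - p := by linarith
  have h1 := eb_conc (w := ε - p) (r := s + a) (a := a) (e := η / 2) v1 v2 v3 ha (by linarith)
    (by linarith) (by linarith) (by linarith)
  have hcw : ε - p - (s + a) = c := by linarith
  have hcw2 : 1 - (ε - p) + (s + a) = 1 - c := by linarith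
  have hs2 : s + a - a = s := by ring
  rw [hcw, hcw2, hs2] at h1
  have h2 : (1 - a - p) * dl ε κ p ≤ (1 - a - p) * (p * (ε - p / 2 + b ^ 2 / 100)) :=
    mul_le_mul_of_nonneg_left hΔ hA
  linarith

theorem EB1 (H : Par h b η ε) (hκ0 : 0 ≤ κ) (hκ : κ ≤ b ^ 2 / 100) (hr : DropReg h ε p)
    (hs : 0 ≤ s) (ha : 0 ≤ a) (hc : 0 ≤ c) (hsum : s + a + c + p = ε) (hc2 : (ε - p) / 2 ≤ c) :
    (1 - a - p) ^ 2 * dl ε κ p ≤ ((1 - a - p) * (1 - c)) * ((1 - s) * (1 - a - p) - η) := by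
  have key := EBkey H hκ0 hκ hr hs ha hc hsum hc2
  have hp := hr.2.1
  have hε1 := H.ε_lt_one
  have hη0 := H.η_pos
  have hε := H.hε
  have hA : 0 ≤ 1 - a - p := by linarith
  have e1 : (1 - s) * (1 - a - p) - η = c + s * (a + p) := by linear_combination -hε - hsum
  have hY : c * (η / 2) ≤ (1 - c) * (c + s * (a + p)) - (1 - a - p) * dl ε κ p := by
    have e2 : 1 - c = η + s + a + p := by linarith
    have e3 : (1 - c) * (c + s * (a + p)) =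
      c * (η + s + a + p) + (1 - c) * s * (a + p) := by rw [← e2]; ring
    rw [e3]
    linarith
  have hY0 : 0 ≤ (1 - c) * (c + s * (a + p)) - (1 - a - p) * dl ε κ p :=
    le_trans (mul_nonneg hc (by linarith)) hY
  rw [e1]
  have := mul_nonneg hA hY0
  linarith

theorem EB2 (H : Par h b η ε) (hκ0 : 0 ≤ κ) (hκ : κ ≤ b ^ 2 / 100) (hr : DropReg h ε p)
    (hs : 0 ≤ s) (ha : 0 ≤ a) (hc : 0 ≤ c) (hsum : s + a + c + p = ε) (hc2 : (ε - p) / 2 ≤ c) :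
    (1 - (1 - c) ^ 2) * b ^ 2 ≤
      ((1 - a - p) * (1 - c)) * ((1 - s) * (1 - c) - dl ε κ p) - (1 - c) ^ 2 * η := by
  have key := EBkey H hκ0 hκ hr hs ha hc hsum hc2
  have hp := hr.2.1
  have hε1 := H.ε_lt_one
  have hη0 := H.η_pos
  have hη1 := H.η_le_one
  have hε := H.hε
  have hb0 := H.b_pos
  have hb2 := H.two_b_le
  have hA : 0 ≤ 1 - a - p := by linarith
  have e1 : (1 - s) * (1 - a - p) - η = c + s * (a + p) := by linear_combination -hε - hsum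
  have e2 : 1 - c = η + s + a + p := by linarith
  have hY : c * (η / 2) ≤ (1 - c) * (c + s * (a + p)) - (1 - a - p) * dl ε κ p := by
    have e3 : (1 - c) * (c + s * (a + p)) =
      c * (η + s + a + p) + (1 - c) * s * (a + p) := by rw [← e2]; ring
    rw [e3]
    linarith
  have hC : η ≤ 1 - c := by linarith
  have hC0 : 0 ≤ 1 - c := by linarith
  have e4 : ((1 - a - p) * (1 - c)) * ((1 - s) * (1 - c) - dl ε κ p) - (1 - c) ^ 2 * η =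
      (1 - c) * ((1 - c) * (c + s * (a + p)) - (1 - a - p) * dl ε κ p) := by
    rw [← e1]; ring
  rw [e4]
  have h1 : (1 - c) * (c * (η / 2)) ≤
      (1 - c) * ((1 - c) * (c + s * (a + p)) - (1 - a - p) * dl ε κ p) :=
    mul_le_mul_of_nonneg_left hY hC0
  refine le_trans ?_ h1
  have h2 : b ^ 2 ≤ (η / 2) ^ 2 := pow_le_pow_left₀ hb0.le (by linarith) 2
  have h3 : (1 - (1 - c) ^ 2) * b ^ 2 ≤ (2 * c) * (η / 2) ^ 2 := by
    have h4 : 1 - (1 - c) ^ 2 ≤ 2 * c := by nlinarith [sq_nonneg c]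
    exact mul_le_mul h4 h2 (sq_nonneg b) (by linarith)
  refine h3.trans ?_
  have h5 : c * η * η ≤ c * η * (1 - c) :=
    mul_le_mul_of_nonneg_left hC (mul_nonneg hc hη0.le)
  linarith

end Pool.Agent.TriPack
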