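import Pool.Agent.TriPack.ParBasic

/-!
# Row EX1: side conditions for the region CheapReg

`s, a, c, p ≥ 0`, `s+a+c+p = ε`. Sizes `S = 1-s`, `A' = 1-a`, `C = 1-c`, so
`S+A'+C = 2+η+p`, `A'C ≥ 1-a-c = η+p+s`, `S A' - η = p+c+sa`. `Δ = dl ε κ p = p(ε-p/2+κ)`,
`P = A'C-p^2`, `Q = SC-Δ`, `R = SA'-Δ`, `0 ≤ κ ≤ b^2/100`. In the whole region `η ≥ 1/2 ≥ ε ≥ p`
(`h ≤ 39/50` gives `η = 1/h-h ≥ 0.502`).

* `EX1`: `C^2(1+η-2b) ≤ P+Q-2b`. As `A'+S = 2+η+p-C`, `RHS-LHS = V(C)` with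
  `V(C) = C(2+η+p) - C^2(2+η-2b) - p^2-Δ-2b`, concave in `C ∈ [η+p, 1]`;
  `V(1) = p-p^2-Δ = p(η-κ-p/2) ≥ 0`; `V(η+p) ≥ 0` (for example
  `V(C) = V(1) + (1-C)[(2+η-2b)(1+C)-(2+η+p)]` and the bracket is `≥ 0`:
  `(2+η-2b)(1+η+p) ≥ 2+η+p` since `2b ≤ η`).
* `EX2`: `A'^2 Δ ≤ P(R-η)`. `R-η ≥ c+(p-Δ)`; `(A'(1-c)-p^2)(c+p-Δ) - (A'-p^2)(p-Δ)
  = c[A'(1-c-p+Δ)-p^2] ≥ 0` (`1-c-p ≥ η`, `A' ≥ η ≥ p`), and `(A'-p^2)(p-Δ) ≥ A'^2Δ`: with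
  `p-Δ = p(η-κ+p/2)` and `A'^2 ≤ A'`, divide by `p`:
  `A'(η-ε+p-2κ) ≥ p^2(η-κ+p/2)` (`η-ε ≥ 2κ`, `A' ≥ η+p`, `η+p ≥ p(η+p/2)`).
* `EX3`: `S^2p^2 ≤ Q(R-η)`. `R-η ≥ c+p-Δ`, `Q = SC-Δ`. Reduce to `c = 0` in the same way, then
  `(S-Δ)(η-κ+p/2) ≥ S^2 p`.
Normalised slacks (divided by `η p`): 0.618, 0.235, 0.49 (away from `ε = 0`).
-/

namespace Pool.Agent.TriPack

variable {h b η ε κ p s a c : ℝ}

theorem EX1 (H : Par h b η ε) (hκ0 : 0 ≤ κ) (hκ : κ ≤ b ^ 2 / 100) (hr : CheapReg h ε p)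
    (hs : 0 ≤ s) (ha : 0 ≤ a) (hc : 0 ≤ c) (hsum : s + a + c + p = ε) :
    (1 - c) ^ 2 * (1 + η - 2 * b) ≤
      ((1 - a) * (1 - c) - p ^ 2) + ((1 - s) * (1 - c) - dl ε κ p) - 2 * b := by
  have hη0 := H.η_pos
  have h2b := H.two_b_le
  have hb0 := H.b_pos
  have hble := H.b_le
  have hεd := H.hε
  have hε0 := H.ε_nonneg
  have hh0 := H.hpos
  have hhη := H.hη
  have hp0 : 0 ≤ p := hr.1
  have hh : h ≤ 39 / 50 := by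
    rcases hr.2 with h1 | h1
    · linarith [h1.1]
    · exact h1.2.1
  have hpε : p ≤ ε := by
    rcases hr.2 with h1 | h1
    · exact h1.2
    · linarith [h1.2.2.2]
  have hη : 1 / 2 ≤ η := by
    by_contra hc'
    push Not at hc'
    nlinarith
  have hκ' : κ ≤ 1 / 100 := by nlinarith
  have hC : 1 - c = η + p + s + a := by linarith
  have hC1 : 0 ≤ c := hc
  have hV1 : 0 ≤ p * (η - p / 2 - κ) := mul_nonneg hp0 (by linarith)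
  have hbr : 0 ≤ (2 + η - 2 * b) * (1 + (1 - c)) - (2 + η + p) := by
    have h1 : 0 ≤ (η - 2 * b) * (1 - c) := mul_nonneg (by linarith) (by linarith)
    nlinarith
  have hmain := mul_nonneg hc hbr
  have key : ((1 - a) * (1 - c) - p ^ 2) + ((1 - s) * (1 - c) - dl ε κ p) - 2 * b -
      (1 - c) ^ 2 * (1 + η - 2 * b) =
      p * (η - p / 2 - κ) + c * ((2 + η - 2 * b) * (1 + (1 - c)) - (2 + η + p)) := by
    have e1 : a = 1 - c - η - p - s := by linarith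
    have e2 : ε = 1 - η := hεd
    unfold dl
    rw [e1, e2]
    ring
  linarith

end Pool.Agent.TriPack
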