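import Pool.Agent.TriPack.ParBasic

/-!
# Row EX2: side conditions for the region CheapReg

`s, a, c, p ≥ 0`, `s+a+c+p = ε`. Sizes `S = 1-s`, `A' = 1-a`, `C = 1-c`, so
`S+A'+C = 2+η+p`, `A'C ≥ 1-a-c = η+p+s`, `S A' - η = p+c+sa`. `Δ = dl ε κ p = p(ε-p/2+κ)`,
`P = A'C-p^2`, `Q = SC-Δ`, `R = SA'-Δ`, `0 ≤ κ ≤ b^2/100`. In the whole region `η ≥ 1/2 ≥ ε ≥ p`
(`h ≤ 39/50` gives `η = 1/h-h ≥ 0.502`).
-/

namespace Pool.Agent.TriPack

variable {h b η ε κ p s a c : ℝ}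

theorem ex2_facts (H : Par h b η ε) (hκ : κ ≤ b ^ 2 / 100) (hr : CheapReg h ε p) :
    251 / 500 ≤ η ∧ κ ≤ 1 / 625 ∧ p ≤ ε ∧ 0 ≤ p := by
  have hh : h ≤ 39 / 50 := by
    rcases hr.2 with ⟨h1, _⟩ | ⟨_, h1, _⟩
    · linarith
    · exact h1
  refine ⟨?_, ?_, ?_, hr.1⟩
  · have h1 := H.hη
    have h2 := H.hpos
    by_contra hc
    push Not at hc
    have h3 : h * η < h * (251 / 500) := mul_lt_mul_of_pos_left hc h2
    nlinarith
  · have h1 := H.b_pos
    have h2 := H.b_le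
    nlinarith
  · have h1 := H.ε_nonneg
    rcases hr.2 with ⟨_, h2⟩ | ⟨_, _, _, h2⟩
    · exact h2
    · linarith

theorem EX2 (H : Par h b η ε) (hκ0 : 0 ≤ κ) (hκ : κ ≤ b ^ 2 / 100) (hr : CheapReg h ε p)
    (hs : 0 ≤ s) (ha : 0 ≤ a) (hc : 0 ≤ c) (hsum : s + a + c + p = ε) :
    (1 - a) ^ 2 * dl ε κ p ≤
      ((1 - a) * (1 - c) - p ^ 2) * ((1 - s) * (1 - a) - dl ε κ p - η) := by
  obtain ⟨hη, hk, hp, hp0⟩ := ex2_facts H hκ hr
  have hε := H.hε
  have hη1 := H.η_le_one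
  set D := dl ε κ p with hD
  have hDe : D = p * (ε - p / 2 + κ) := by rw [hD]; unfold dl; ring
  have hA : η + p ≤ 1 - a := by linarith
  have hA1 : 1 - a ≤ 1 := by linarith
  have hD0 : 0 ≤ D := by rw [hDe]; apply mul_nonneg hp0; linarith
  have hpD : p - D = p * (η - κ + p / 2) := by rw [hDe, hε]; ring
  have hpD0 : 0 ≤ p - D := by rw [hpD]; apply mul_nonneg hp0; linarith
  have hp2 : p ^ 2 ≤ η * η := by nlinarith
  -- P ≥ 0
  have hP : 0 ≤ (1 - a) * (1 - c) - p ^ 2 := by nlinarith [mul_nonneg ha hc]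
  -- step 1
  have h1 : c + (p - D) ≤ (1 - s) * (1 - a) - D - η := by nlinarith [mul_nonneg hs ha]
  have h2 : ((1 - a) * (1 - c) - p ^ 2) * (c + (p - D)) ≤
      ((1 - a) * (1 - c) - p ^ 2) * ((1 - s) * (1 - a) - D - η) := mul_le_mul_of_nonneg_left h1 hP
  -- step 2
  have h3 : 0 ≤ c * ((1 - a) * (1 - c - p + D) - p ^ 2) := by
    apply mul_nonneg hc
    have e1 : η ≤ 1 - a := by linarith
    have e2 : η ≤ 1 - c - p + D := by linarith
    have e3 : η * η ≤ (1 - a) * (1 - c - p + D) := mul_le_mul e1 e2 (by linarith) (by linarith)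
    linarith
  have h4 : (1 - a - p ^ 2) * (p - D) ≤ ((1 - a) * (1 - c) - p ^ 2) * (c + (p - D)) := by
    nlinarith
  -- step 3
  have h5 : (1 - a) ^ 2 * D ≤ (1 - a - p ^ 2) * (p - D) := by
    have e1 : (1 - a) ^ 2 * D ≤ (1 - a) * D := by
      apply mul_le_mul_of_nonneg_right _ hD0
      nlinarith
    have e2 : (1 - a) * D ≤ (1 - a - p ^ 2) * (p - D) := by
      rw [hpD, hDe]
      have e3 : (1 - a) * (ε - p / 2 + κ) ≤ (1 - a - p ^ 2) * (η - κ + p / 2) := by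
        have e4 : (η + p) * p ≤ (1 - a) * (η - ε + p - 2 * κ) :=
          mul_le_mul hA (by linarith) hp0 (by linarith)
        have e5 : p ^ 2 * (η - κ + p / 2) ≤ (η + p) * p := by
          have e6 : p * (η - κ + p / 2) ≤ η + p := by nlinarith
          nlinarith
        nlinarith
      nlinarith [mul_le_mul_of_nonneg_left e3 hp0]
    linarith
  linarith

theorem EX3 (H : Par h b η ε) (hκ0 : 0 ≤ κ) (hκ : κ ≤ b ^ 2 / 100) (hr : CheapReg h ε p)
    (hs : 0 ≤ s) (ha : 0 ≤ a) (hc : 0 ≤ c) (hsum : s + a + c + p = ε) :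
    (1 - s) ^ 2 * p ^ 2 ≤
      ((1 - s) * (1 - c) - dl ε κ p) * ((1 - s) * (1 - a) - dl ε κ p - η) := by
  obtain ⟨hη, hk, hp, hp0⟩ := ex2_facts H hκ hr
  have hε := H.hε
  have hη1 := H.η_le_one
  set D := dl ε κ p with hD
  have hDe : D = p * (ε - p / 2 + κ) := by rw [hD]; unfold dl; ring
  have hS : η + p ≤ 1 - s := by linarith
  have hS1 : 1 - s ≤ 1 := by linarith
  have hD0 : 0 ≤ D := by rw [hDe]; apply mul_nonneg hp0; linarith
  have hD1 : D ≤ p * (1 / 2) := by rw [hDe]; apply mul_le_mul_of_nonneg_left _ hp0; linarith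
  have hpD : p - D = p * (η - κ + p / 2) := by rw [hDe, hε]; ring
  have hpD0 : 0 ≤ p - D := by rw [hpD]; apply mul_nonneg hp0; linarith
  have hQ : 0 ≤ (1 - s) * (1 - c) - D := by nlinarith [mul_nonneg hs hc]
  have h1 : c + (p - D) ≤ (1 - s) * (1 - a) - D - η := by nlinarith [mul_nonneg hs ha]
  have h2 : ((1 - s) * (1 - c) - D) * (c + (p - D)) ≤
      ((1 - s) * (1 - c) - D) * ((1 - s) * (1 - a) - D - η) := mul_le_mul_of_nonneg_left h1 hQ
  have h3 : 0 ≤ c * ((1 - s) * (1 - c - p + D) - D) := by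
    apply mul_nonneg hc
    have e2 : η ≤ 1 - c - p + D := by linarith
    have e3 : (η + p) * η ≤ (1 - s) * (1 - c - p + D) := mul_le_mul hS e2 (by linarith) (by linarith)
    nlinarith
  have h4 : (1 - s - D) * (p - D) ≤ ((1 - s) * (1 - c) - D) * (c + (p - D)) := by
    nlinarith
  have h5 : (1 - s) ^ 2 * p ^ 2 ≤ (1 - s - D) * (p - D) := by
    rw [hpD]
    have e1 : (1 - s) ^ 2 * p ≤ (1 - s - D) * (η - κ + p / 2) := by
      have e2 : (1 - s) ^ 2 * p ≤ (1 - s) * p := by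
        apply mul_le_mul_of_nonneg_right _ hp0
        nlinarith
      have e3 : (η + p) * (η - κ - p / 2) ≤ (1 - s) * (η - κ - p / 2) :=
        mul_le_mul_of_nonneg_right hS (by linarith)
      have e4 : D * (η - κ + p / 2) ≤ (p * (1 / 2)) * (η - κ + p / 2) :=
        mul_le_mul_of_nonneg_right hD1 (by linarith)
      have e5 : (p * (1 / 2)) * (η - κ + p / 2) ≤ (η + p) * (η - κ - p / 2) := by
        have hpη : p ≤ η := by linarith
        nlinarith [mul_nonneg hp0 hκ0, mul_nonneg (sub_nonneg.2 hpη) hp0,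
          mul_nonneg (sub_nonneg.2 hpη) (sub_nonneg.2 hpη)]
      nlinarith
    nlinarith [mul_le_mul_of_nonneg_left e1 hp0]
  linarith

end Pool.Agent.TriPack
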