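import Pool.Agent.TriPack.Defs

/-!
# Row HUB: the function `hub N u = ∫_0^u min(N, v) dv` (0 for `u ≤ 0`) and the sum over levels

All lemmas by case distinction. `hub_sum`: for `P` a finite set of naturals `≤ k` with
`|P| = p`, the numbers `n-l+1`, `l ∈ P`, are distinct and `≥ n-k+1`; the function
`θ ↦ min N (max (θ-u) 0)` is nondecreasing, so the sum is `≥ Σ_{q=1}^{p} min N (max (n-k+q-u) 0)`
(the `q`-th smallest value of `n-l+1` is `≥ n-k+q`; induction on `p`, removing the smallest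
`l ∈ P`, which is `≤ k-p+1`), and `min N (max t 0) ≥ hub N t - hub N (t-1)` (`hub_step`), telescoping.
-/

namespace Pool.Agent.TriPack

noncomputable def hub (N u : ℝ) : ℝ :=
  if u ≤ 0 then 0 else if u ≤ N then u ^ 2 / 2 else N * u - N ^ 2 / 2

/-- tangent lines. -/
theorem hub_tangent {N m u : ℝ} (hm0 : 0 ≤ m) (hmN : m ≤ N) : m * u - m ^ 2 / 2 ≤ hub N u := by
  unfold hub
  split_ifs with h1 h2
  · nlinarith [mul_nonneg hm0 (neg_nonneg.2 h1), sq_nonneg m]
  · nlinarith [sq_nonneg (u - m)]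
  · push Not at h1 h2
    nlinarith [mul_nonneg (sub_nonneg.2 hmN) (sub_nonneg.2 h2.le),
      mul_nonneg (sub_nonneg.2 hmN) (sub_nonneg.2 hmN)]

theorem hub_nonneg {N u : ℝ} (hN : 0 ≤ N) : 0 ≤ hub N u := by
  have h := hub_tangent (m := 0) (u := u) le_rfl hN
  simpa using h

theorem hub_of_nonpos {N u : ℝ} (hu : u ≤ 0) : hub N u = 0 := by
  unfold hub
  rw [if_pos hu]

theorem hub_of_le {N u : ℝ} (hu : 0 ≤ u) (huN : u ≤ N) : hub N u = u ^ 2 / 2 := by
  unfold hub
  split_ifs with h1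
  · have : u = 0 := le_antisymm h1 hu
    subst this; norm_num
  · rfl

theorem hub_of_ge {N u : ℝ} (hN : 0 ≤ N) (huN : N ≤ u) : hub N u = N * u - N ^ 2 / 2 := by
  unfold hub
  split_ifs with h1 h2
  · have h3 : u = 0 := le_antisymm h1 (hN.trans huN)
    have h4 : N = 0 := le_antisymm (h3 ▸ huN) hN
    subst h3; subst h4; norm_num
  · have h3 : u = N := le_antisymm h2 huN
    subst h3; ring
  · rfl

/-- the maximizing slope. -/
theorem hub_exists_slope {N u : ℝ} (hN : 0 ≤ N) :
    ∃ m, 0 ≤ m ∧ m ≤ N ∧ m ≤ max u 0 ∧ hub N u = m * u - m ^ 2 / 2 := by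
  rcases le_total u 0 with h1 | h1
  · exact ⟨0, le_rfl, hN, le_max_right _ _, by rw [hub_of_nonpos h1]; ring⟩
  · rcases le_total u N with h2 | h2
    · exact ⟨u, h1, h2, le_max_left _ _, by rw [hub_of_le h1 h2]; ring⟩
    · exact ⟨N, hN, le_rfl, h2.trans (le_max_left _ _), hub_of_ge hN h2⟩

theorem hub_le_sq {N u : ℝ} (hN : 0 ≤ N) : hub N u ≤ u ^ 2 / 2 := by
  obtain ⟨m, hm0, hmN, -, h⟩ := hub_exists_slope (u := u) hN
  rw [h]
  nlinarith [sq_nonneg (u - m)]

theorem hub_mono {N u v : ℝ} (hN : 0 ≤ N) (huv : u ≤ v) : hub N u ≤ hub N v := by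
  obtain ⟨m, hm0, hmN, -, h⟩ := hub_exists_slope (u := u) hN
  have h2 := hub_tangent (u := v) hm0 hmN
  rw [h]
  nlinarith [mul_nonneg hm0 (sub_nonneg.2 huv)]

/-- slope at most `N`. -/
theorem hub_lip {N u v : ℝ} (hN : 0 ≤ N) (huv : u ≤ v) : hub N v - hub N u ≤ N * (v - u) := by
  obtain ⟨m, hm0, hmN, -, h⟩ := hub_exists_slope (u := v) hN
  have h2 := hub_tangent (u := u) hm0 hmN
  rw [h]
  nlinarith [mul_nonneg (sub_nonneg.2 hmN) (sub_nonneg.2 huv)]

/-- slope at most `1` in the slope: `v ≥ u` gives `hub N v - hub N u ≤ v (v-u)` for `v ≥ 0`. -/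
theorem hub_lip' {N u v : ℝ} (hN : 0 ≤ N) (hv : 0 ≤ v) (huv : u ≤ v) :
    hub N v - hub N u ≤ v * (v - u) := by
  obtain ⟨m, hm0, hmN, hmv, h⟩ := hub_exists_slope (u := v) hN
  rw [max_eq_left hv] at hmv
  have h2 := hub_tangent (u := u) hm0 hmN
  rw [h]
  nlinarith [mul_nonneg (sub_nonneg.2 hmv) (sub_nonneg.2 huv)]

/-- the difference of two of these functions is again one of them. -/
theorem hub_sub_hub {N N' u : ℝ} (hN : 0 ≤ N) (hNN : N ≤ N') :
    hub N' u - hub N u = hub (N' - N) (u - N) := by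
  rcases le_total u 0 with h1 | h1
  · rw [hub_of_nonpos h1, hub_of_nonpos h1, hub_of_nonpos (by linarith)]; ring
  · rcases le_total u N with h2 | h2
    · rw [hub_of_le h1 h2, hub_of_le h1 (h2.trans hNN), hub_of_nonpos (by linarith)]; ring
    · rcases le_total u N' with h3 | h3
      · rw [hub_of_le h1 h3, hub_of_ge hN h2, hub_of_le (by linarith) (by linarith)]; ring
      · rw [hub_of_ge hN h2, hub_of_ge (hN.trans hNN) h3,
          hub_of_ge (by linarith) (by linarith)]; ring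

/-- increments are nondecreasing in `N`. -/
theorem hub_incr_mono {N N' u v : ℝ} (hN : 0 ≤ N) (hNN : N ≤ N') (huv : u ≤ v) :
    hub N v - hub N u ≤ hub N' v - hub N' u := by
  have h1 := hub_sub_hub (u := u) hN hNN
  have h2 := hub_sub_hub (u := v) hN hNN
  have h3 := hub_mono (N := N' - N) (u := u - N) (v := v - N) (by linarith) (by linarith)
  linarith

theorem hub_step {N t : ℝ} (hN : 0 ≤ N) : hub N t - hub N (t - 1) ≤ min N (max t 0) := by
  refine le_min ?_ ?_
  · have h := hub_lip (N := N) (u := t - 1) (v := t) hN (by linarith)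
    linarith
  · rcases le_total t 0 with h1 | h1
    · rw [hub_of_nonpos h1, hub_of_nonpos (by linarith), max_eq_right h1]; norm_num
    · rw [max_eq_left h1]
      have h := hub_lip' (N := N) (u := t - 1) (v := t) hN h1 (by linarith)
      linarith

theorem hub_refl_aux {e w : ℝ} (he : 0 ≤ e) : hub e (e - w) = hub e w - e * w + e ^ 2 / 2 := by
  rcases le_total w 0 with h1 | h1
  · rw [hub_of_nonpos h1, hub_of_ge he (by linarith)]; ring
  · rcases le_total w e with h2 | h2
    · rw [hub_of_le h1 h2, hub_of_le (by linarith) (by linarith)]; ring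
    · rw [hub_of_ge he h2, hub_of_nonpos (by linarith)]; ring

/-- `∫_0^p min(e, (e+τ-u)^+) dτ`, first form. -/
theorem hub_reflect {e p u : ℝ} (he : 0 ≤ e) (hp : 0 ≤ p) :
    hub e (e + p - u) - hub e (e - u) = p * e - hub e u + hub e (u - p) := by
  have h1 := hub_refl_aux (w := u - p) he
  have h2 := hub_refl_aux (w := u) he
  have h3 : e + p - u = e - (u - p) := by ring
  rw [h3, h1, h2]; ring

theorem hub_sum {N u : ℝ} (hN : 0 ≤ N) (n k : ℕ) (P : Finset ℕ) (hP : ∀ l ∈ P, l ≤ k) :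
    hub N ((n : ℝ) - k + P.card - u) - hub N ((n : ℝ) - k - u) ≤
      ∑ l ∈ P, min N (max ((n : ℝ) - l + 1 - u) 0) := by
  induction hp : P.card generalizing P with
  | zero =>
    have : P = ∅ := Finset.card_eq_zero.1 hp
    subst this
    simp
  | succ p ih =>
    have hne : P.Nonempty := by
      rw [← Finset.card_pos, hp]; exact Nat.succ_pos _
    set l0 := P.min' hne with hl0
    have hl0P : l0 ∈ P := P.min'_mem hne
    have hsub : P ⊆ Finset.Icc l0 k := by
      intro l hl
      rw [Finset.mem_Icc]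
      exact ⟨Finset.min'_le P l hl, hP l hl⟩
    have hc := Finset.card_le_card hsub
    rw [Nat.card_Icc, hp] at hc
    have hle : l0 ≤ k := hP l0 hl0P
    have hc' : l0 + p ≤ k := by omega
    have hcard : (P.erase l0).card = p := by
      rw [Finset.card_erase_of_mem hl0P, hp]; rfl
    have h1 := ih (P.erase l0) (fun l hl => hP l (Finset.mem_of_mem_erase hl)) hcard
    rw [← Finset.add_sum_erase P _ hl0P]
    have h2 := hub_step (N := N) (t := (n : ℝ) - k + ((p + 1 : ℕ) : ℝ) - u) hN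
    have h3 : min N (max ((n : ℝ) - k + ((p + 1 : ℕ) : ℝ) - u) 0) ≤
        min N (max ((n : ℝ) - l0 + 1 - u) 0) := by
      have h4 : (l0 : ℝ) + p ≤ k := by exact_mod_cast hc'
      refine min_le_min le_rfl (max_le_max ?_ le_rfl)
      push_cast
      linarith
    have h5 : (n : ℝ) - k + ((p + 1 : ℕ) : ℝ) - u - 1 = (n : ℝ) - k + p - u := by
      push_cast; ring
    rw [h5] at h2
    linarith

end Pool.Agent.TriPack
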