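import Pool.Agent.TriPack.ObsDef

/-!
# Row LA: linear bound, averaging

Let `O : Obs n k E x y`, `NB = |B0| > 0`, `NC = |C0| > 0`, and for a level `l` put
`θ l = n - l + 1` (a real number). By K1-K3 (all quantities are integers):
 `b ∈ B0, c ∈ C0, x b + y c + s < n` implies `¬ E b c`;
 `b ∈ B0, l ∈ P, x b + y (cP l) < θ l` implies `¬ E b (cP l)`;
 `l ∈ P, c ∈ C0, x (bP l) + y c < θ l` implies `¬ E (bP l) c`.
These pairs are distinct (`bP l ∉ B0`, `cP l ∉ C0`, injectivity). So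
 `#nonE + Σ x + Σ y ≥ #{(b,c) ∈ B0×C0 : x b + y c + s < n} + Σ_{B0} x + Σ_{C0} y
   + Σ_{l∈P} ( #{b ∈ B0 : x b + y (cP l) < θ l} + y (cP l) )
   + Σ_{l∈P} ( #{c ∈ C0 : x (bP l) + y c < θ l} + x (bP l) )`.
For fixed `l` and `τ = θ l - y (cP l)`:
 `#{b ∈ B0 : x b < τ} + y (cP l) ≥ (1/NB) Σ_{b ∈ B0} min NB (max (θ l - x b) 0)`,
because for each `b`: `NB·[x b < τ] + y (cP l) ≥ min NB (max (θ l - x b) 0)` (if `x b ≥ τ` then
`θ l - x b ≤ y (cP l)`). Similarly for the columns. Hence the left side is at least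
 `(1/(NB NC)) Σ_{b∈B0, c∈C0} W(x b, y c)` with
 `W(u,v) = NB NC [u+v+s<n] + NB u + NC v + Σ_{l∈P} (min NB (max (θ l-u) 0) + min NC (max (θ l-v) 0))`,
and some pair `(b,c)` has `W(x b, y c)` at most the average.
-/

namespace Pool.Agent.TriPack

theorem la_row {n : ℕ} (B : Finset (Fin n)) (w : Fin n → ℕ) (t l : ℕ) :
    ∑ b ∈ B, min (B.card : ℝ) (max ((n : ℝ) - l + 1 - w b) 0) ≤
      (B.card : ℝ) * ((B.filter (fun b => w b + t + l < n + 1)).card + t) := by
  have h1 : ∀ b ∈ B, min (B.card : ℝ) (max ((n : ℝ) - l + 1 - w b) 0) ≤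
      (B.card : ℝ) * (if w b + t + l < n + 1 then 1 else 0) + t := by
    intro b _
    have ht : (0 : ℝ) ≤ t := Nat.cast_nonneg _
    by_cases h : w b + t + l < n + 1
    · rw [if_pos h]
      have := min_le_left (B.card : ℝ) (max ((n : ℝ) - l + 1 - w b) 0)
      linarith
    · rw [if_neg h]
      have h2 : n + 1 ≤ w b + t + l := not_lt.1 h
      have h3 : (n : ℝ) + 1 ≤ w b + t + l := by exact_mod_cast h2
      have h4 : max ((n : ℝ) - l + 1 - w b) 0 ≤ t := max_le (by linarith) ht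
      have := min_le_right (B.card : ℝ) (max ((n : ℝ) - l + 1 - w b) 0)
      linarith
  refine (Finset.sum_le_sum h1).trans (le_of_eq ?_)
  rw [Finset.sum_add_distrib, ← Finset.mul_sum, Finset.sum_boole, Finset.sum_const, nsmul_eq_mul]
  ring

open Classical in
theorem la_count {n k : ℕ} (E : Fin n → Fin n → Prop) (x y : Fin n → ℕ)
    (O : Obs n k E x y) :
    ((O.B0 ×ˢ O.C0).filter (fun q => x q.1 + y q.2 + O.s < n)).card
      + ∑ l ∈ O.P, (O.B0.filter (fun b => x b + y (O.cP l) + l < n + 1)).card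
      + ∑ l ∈ O.P, (O.C0.filter (fun c => y c + x (O.bP l) + l < n + 1)).card
      ≤ Nat.card {q : Fin n × Fin n // ¬ E q.1 q.2} := by
  set N : Finset (Fin n × Fin n) := Finset.univ.filter (fun q => ¬ E q.1 q.2) with hN
  have hNc : Nat.card {q : Fin n × Fin n // ¬ E q.1 q.2} = N.card := by
    rw [Nat.card_eq_fintype_card, Fintype.card_subtype]
  set F1 := (O.B0 ×ˢ O.C0).filter (fun q => x q.1 + y q.2 + O.s < n) with hF1
  set F2 := (O.P ×ˢ O.B0).filter (fun q => x q.2 + y (O.cP q.1) + q.1 < n + 1) with hF2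
  set F3 := (O.P ×ˢ O.C0).filter (fun q => y q.2 + x (O.bP q.1) + q.1 < n + 1) with hF3
  set N2 : Finset (Fin n × Fin n) := F2.image (fun q => (q.2, O.cP q.1)) with hN2
  set N3 : Finset (Fin n × Fin n) := F3.image (fun q => (O.bP q.1, q.2)) with hN3
  have c2 : F2.card = ∑ l ∈ O.P, (O.B0.filter (fun b => x b + y (O.cP l) + l < n + 1)).card := by
    rw [hF2, Finset.card_filter, Finset.sum_product]
    exact Finset.sum_congr rfl (fun l _ => (Finset.card_filter _ _).symm)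
  have c3 : F3.card = ∑ l ∈ O.P, (O.C0.filter (fun c => y c + x (O.bP l) + l < n + 1)).card := by
    rw [hF3, Finset.card_filter, Finset.sum_product]
    exact Finset.sum_congr rfl (fun l _ => (Finset.card_filter _ _).symm)
  have d2 : N2.card = F2.card := by
    rw [hN2]
    refine Finset.card_image_of_injOn ?_
    intro q hq r hr h
    rw [Finset.mem_coe, hF2, Finset.mem_filter, Finset.mem_product] at hq hr
    have e := Prod.mk.inj h
    exact Prod.ext (O.injC hq.1.1 hr.1.1 e.2) e.1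
  have d3 : N3.card = F3.card := by
    rw [hN3]
    refine Finset.card_image_of_injOn ?_
    intro q hq r hr h
    rw [Finset.mem_coe, hF3, Finset.mem_filter, Finset.mem_product] at hq hr
    have e := Prod.mk.inj h
    exact Prod.ext (O.injB hq.1.1 hr.1.1 e.1) e.2
  have s1 : F1 ⊆ N := by
    intro q hq
    rw [hF1, Finset.mem_filter, Finset.mem_product] at hq
    rw [hN, Finset.mem_filter]
    refine ⟨Finset.mem_univ _, fun hE => ?_⟩
    have := O.K1 q.1 hq.1.1 q.2 hq.1.2 hE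
    omega
  have s2 : N2 ⊆ N := by
    intro q hq
    rw [hN2, Finset.mem_image] at hq
    obtain ⟨r, hr, rfl⟩ := hq
    rw [hF2, Finset.mem_filter, Finset.mem_product] at hr
    rw [hN, Finset.mem_filter]
    refine ⟨Finset.mem_univ _, fun hE => ?_⟩
    have := O.K2 r.2 hr.1.2 r.1 hr.1.1 hE
    omega
  have s3 : N3 ⊆ N := by
    intro q hq
    rw [hN3, Finset.mem_image] at hq
    obtain ⟨r, hr, rfl⟩ := hq
    rw [hF3, Finset.mem_filter, Finset.mem_product] at hr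
    rw [hN, Finset.mem_filter]
    refine ⟨Finset.mem_univ _, fun hE => ?_⟩
    have := O.K3 r.1 hr.1.1 r.2 hr.1.2 hE
    omega
  have j12 : Disjoint F1 N2 := by
    rw [Finset.disjoint_right]
    intro q hq hq1
    rw [hN2, Finset.mem_image] at hq
    obtain ⟨r, hr, rfl⟩ := hq
    rw [hF2, Finset.mem_filter, Finset.mem_product] at hr
    rw [hF1, Finset.mem_filter, Finset.mem_product] at hq1
    exact O.cP_not r.1 hr.1.1 hq1.1.2
  have j13 : Disjoint F1 N3 := by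
    rw [Finset.disjoint_right]
    intro q hq hq1
    rw [hN3, Finset.mem_image] at hq
    obtain ⟨r, hr, rfl⟩ := hq
    rw [hF3, Finset.mem_filter, Finset.mem_product] at hr
    rw [hF1, Finset.mem_filter, Finset.mem_product] at hq1
    exact O.bP_not r.1 hr.1.1 hq1.1.1
  have j23 : Disjoint N2 N3 := by
    rw [Finset.disjoint_right]
    intro q hq hq1
    rw [hN3, Finset.mem_image] at hq
    obtain ⟨r, hr, rfl⟩ := hq
    rw [hN2, Finset.mem_image] at hq1
    obtain ⟨r', hr', he⟩ := hq1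
    rw [hF3, Finset.mem_filter, Finset.mem_product] at hr
    rw [hF2, Finset.mem_filter, Finset.mem_product] at hr'
    have e := (Prod.mk.inj he).1
    exact O.bP_not r.1 hr.1.1 (e ▸ hr'.1.2)
  rw [← c2, ← c3, ← d2, ← d3, hNc, ← Finset.card_union_of_disjoint j12,
    ← Finset.card_union_of_disjoint (Finset.disjoint_union_left.2 ⟨j13, j23⟩)]
  exact Finset.card_le_card (Finset.union_subset (Finset.union_subset s1 s2) s3)

theorem la_sum {n : ℕ} (B : Finset (Fin n)) (P : Finset ℕ) (f : ℕ → Fin n) (w : Fin n → ℕ)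
    (hf : Set.InjOn f P) (hfB : ∀ l ∈ P, f l ∉ B) :
    ∑ b ∈ B, (w b : ℝ) + ∑ l ∈ P, (w (f l) : ℝ) ≤ ∑ b, (w b : ℝ) := by
  classical
  have e1 : ∑ l ∈ P, (w (f l) : ℝ) = ∑ b ∈ P.image f, (w b : ℝ) :=
    (Finset.sum_image (f := fun b => (w b : ℝ)) (fun a ha b hb h => hf ha hb h)).symm
  have e2 : Disjoint B (P.image f) := by
    rw [Finset.disjoint_right]
    intro b hb
    obtain ⟨l, hl, rfl⟩ := Finset.mem_image.1 hb
    exact hfB l hl
  rw [e1, ← Finset.sum_union e2]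
  exact Finset.sum_le_sum_of_subset_of_nonneg (Finset.subset_univ _)
    (fun _ _ _ => Nat.cast_nonneg _)

open Classical in
theorem lag_avg {n k : ℕ} (E : Fin n → Fin n → Prop) (x y : Fin n → ℕ)
    (O : Obs n k E x y) (hB : O.B0.Nonempty) (hC : O.C0.Nonempty) :
    ∃ u v : ℕ,
      (if u + v + O.s < n then (O.B0.card : ℝ) * O.C0.card else 0)
        + (O.B0.card : ℝ) * u + (O.C0.card : ℝ) * v
        + ∑ l ∈ O.P, (min (O.B0.card : ℝ) (max ((n : ℝ) - l + 1 - u) 0)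
            + min (O.C0.card : ℝ) (max ((n : ℝ) - l + 1 - v) 0))
      ≤ (Nat.card {q : Fin n × Fin n // ¬ E q.1 q.2} : ℝ) + ∑ b, (x b : ℝ) + ∑ c, (y c : ℝ) := by
  set B := O.B0 with hB0
  set C := O.C0 with hC0
  set f : Fin n × Fin n → ℝ := fun q =>
    (if x q.1 + y q.2 + O.s < n then (B.card : ℝ) * C.card else 0)
        + (B.card : ℝ) * (x q.1 : ℝ) + (C.card : ℝ) * (y q.2 : ℝ)
        + ∑ l ∈ O.P, (min (B.card : ℝ) (max ((n : ℝ) - l + 1 - (x q.1 : ℝ)) 0)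
            + min (C.card : ℝ) (max ((n : ℝ) - l + 1 - (y q.2 : ℝ)) 0)) with hf
  set T : ℝ := (Nat.card {q : Fin n × Fin n // ¬ E q.1 q.2} : ℝ) + ∑ b, (x b : ℝ)
    + ∑ c, (y c : ℝ) with hT
  suffices h : ∑ q ∈ B ×ˢ C, f q ≤ ∑ _q ∈ B ×ˢ C, T by
    obtain ⟨q, _, hq⟩ := Finset.exists_le_of_sum_le (hB.product hC) h
    exact ⟨x q.1, y q.2, hq⟩
  have hBr : (0 : ℝ) ≤ (B.card : ℝ) := Nat.cast_nonneg _
  have hCr : (0 : ℝ) ≤ (C.card : ℝ) := Nat.cast_nonneg _
  have e1 : ∑ q ∈ B ×ˢ C, (if x q.1 + y q.2 + O.s < n then (B.card : ℝ) * C.card else 0) =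
      (B.card : ℝ) * C.card *
        (((B ×ˢ C).filter (fun q => x q.1 + y q.2 + O.s < n)).card : ℝ) := by
    rw [← Finset.sum_filter, Finset.sum_const, nsmul_eq_mul]; ring
  have e2 : ∑ q ∈ B ×ˢ C, (B.card : ℝ) * (x q.1 : ℝ) =
      (B.card : ℝ) * C.card * ∑ b ∈ B, (x b : ℝ) := by
    rw [Finset.sum_product]
    simp only [Finset.sum_const, nsmul_eq_mul]
    rw [Finset.mul_sum]
    exact Finset.sum_congr rfl (fun b _ => by ring)
  have e3 : ∑ q ∈ B ×ˢ C, (C.card : ℝ) * (y q.2 : ℝ) =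
      (B.card : ℝ) * C.card * ∑ c ∈ C, (y c : ℝ) := by
    rw [Finset.sum_product]
    simp only [Finset.sum_const, nsmul_eq_mul]
    rw [← Finset.mul_sum]; ring
  have e4 : ∑ q ∈ B ×ˢ C, ∑ l ∈ O.P,
      (min (B.card : ℝ) (max ((n : ℝ) - l + 1 - (x q.1 : ℝ)) 0)
            + min (C.card : ℝ) (max ((n : ℝ) - l + 1 - (y q.2 : ℝ)) 0)) =
      ∑ l ∈ O.P, ((C.card : ℝ) * ∑ b ∈ B, min (B.card : ℝ) (max ((n : ℝ) - l + 1 - (x b : ℝ)) 0)
        + (B.card : ℝ) * ∑ c ∈ C, min (C.card : ℝ) (max ((n : ℝ) - l + 1 - (y c : ℝ)) 0)) := by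
    rw [Finset.sum_comm]
    refine Finset.sum_congr rfl (fun l _ => ?_)
    rw [Finset.sum_add_distrib, Finset.sum_product, Finset.sum_product]
    simp only [Finset.sum_const, nsmul_eq_mul, Finset.mul_sum]
  have e5 : ∑ q ∈ B ×ˢ C, f q = (B.card : ℝ) * C.card *
        (((B ×ˢ C).filter (fun q => x q.1 + y q.2 + O.s < n)).card : ℝ)
      + (B.card : ℝ) * C.card * ∑ b ∈ B, (x b : ℝ)
      + (B.card : ℝ) * C.card * ∑ c ∈ C, (y c : ℝ)
      + ∑ l ∈ O.P, ((C.card : ℝ) * ∑ b ∈ B, min (B.card : ℝ) (max ((n : ℝ) - l + 1 - (x b : ℝ)) 0)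
        + (B.card : ℝ) * ∑ c ∈ C, min (C.card : ℝ) (max ((n : ℝ) - l + 1 - (y c : ℝ)) 0)) := by
    rw [← e1, ← e2, ← e3, ← e4, ← Finset.sum_add_distrib, ← Finset.sum_add_distrib,
      ← Finset.sum_add_distrib]
  have e6 : ∑ l ∈ O.P, ((C.card : ℝ) * ∑ b ∈ B, min (B.card : ℝ) (max ((n : ℝ) - l + 1 - (x b : ℝ)) 0)
        + (B.card : ℝ) * ∑ c ∈ C, min (C.card : ℝ) (max ((n : ℝ) - l + 1 - (y c : ℝ)) 0)) ≤
      (B.card : ℝ) * C.card * (
        ∑ l ∈ O.P, ((B.filter (fun b => x b + y (O.cP l) + l < n + 1)).card : ℝ)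
        + ∑ l ∈ O.P, (y (O.cP l) : ℝ)
        + ∑ l ∈ O.P, ((C.filter (fun c => y c + x (O.bP l) + l < n + 1)).card : ℝ)
        + ∑ l ∈ O.P, (x (O.bP l) : ℝ)) := by
    rw [← Finset.sum_add_distrib, ← Finset.sum_add_distrib, ← Finset.sum_add_distrib,
      Finset.mul_sum]
    refine Finset.sum_le_sum (fun l _ => ?_)
    have r1 := mul_le_mul_of_nonneg_left (la_row B x (y (O.cP l)) l) hCr
    have r2 := mul_le_mul_of_nonneg_left (la_row C y (x (O.bP l)) l) hBr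
    nlinarith
  have hcount := la_count E x y O
  rw [← hB0, ← hC0] at hcount
  have hcr : (((B ×ˢ C).filter (fun q => x q.1 + y q.2 + O.s < n)).card : ℝ)
      + ∑ l ∈ O.P, ((B.filter (fun b => x b + y (O.cP l) + l < n + 1)).card : ℝ)
      + ∑ l ∈ O.P, ((C.filter (fun c => y c + x (O.bP l) + l < n + 1)).card : ℝ)
      ≤ (Nat.card {q : Fin n × Fin n // ¬ E q.1 q.2} : ℝ) := by
    exact_mod_cast hcount
  have hx := la_sum B O.P O.bP x O.injB O.bP_not
  have hy := la_sum C O.P O.cP y O.injC O.cP_not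
  rw [Finset.sum_const, nsmul_eq_mul, Finset.card_product, e5]
  push_cast
  have hBC : (0 : ℝ) ≤ (B.card : ℝ) * C.card := mul_nonneg hBr hCr
  have hfin := mul_le_mul_of_nonneg_left
    (show (((B ×ˢ C).filter (fun q => x q.1 + y q.2 + O.s < n)).card : ℝ)
      + ∑ b ∈ B, (x b : ℝ) + ∑ c ∈ C, (y c : ℝ)
      + (∑ l ∈ O.P, ((B.filter (fun b => x b + y (O.cP l) + l < n + 1)).card : ℝ)
        + ∑ l ∈ O.P, (y (O.cP l) : ℝ)
        + ∑ l ∈ O.P, ((C.filter (fun c => y c + x (O.bP l) + l < n + 1)).card : ℝ)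
        + ∑ l ∈ O.P, (x (O.bP l) : ℝ)) ≤ T by rw [hT]; linarith) hBC
  linarith

end Pool.Agent.TriPack
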