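import Pool.Agent.TriPack.HUB

/-!
# Row LC1: linear bound, analysis

`e, s, a, c, p ≥ 0`, `g := a+c`, `r := s+g ≤ p`, `NB ≥ e+s+c`, `NC ≥ e+s+a`, `M ≥ e+g+p`.
`φ_N(u) := N u + hub N (e+p-u) - hub N (e-u)`.

(0) `φ_N(u)` is nondecreasing in `u` (`hub_lip` for the first, `hub_mono` for the second
difference: `N(u-u') ≥ hub N (e+p-u') - hub N (e+p-u)`) and, for `u ≥ 0`, in `N`
(`hub_incr_mono`). So we may take `NB = e+s+c`, `NC = e+s+a`; and if `u+v ≥ M` we may lower `u, v`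
to `u, v ≥ 0` with `u+v = e+g+p`.

(A) `lin_core` (case `u+v < M`): by (0) it suffices to treat `u = v = 0`:
 `hub NB (e+p) - hub NB e ≥ e p + (c+s) p - (c+s)^2/2` (for `NB = e+s+c`: `hub NB e = e^2/2`, and
 `hub_tangent` with `m = e+s+c`). With `x = s+c`, `y = s+a` (`x, y ≤ r ≤ p`):
 `NB NC + ... ≥ (e+x)(e+y) + 2ep + (x+y)p - (x^2+y^2)/2`, and
 `(e+x)(e+y) = e^2+e(2s+g)+xy`, so the claim follows from
 `es + (x+y)p - (x-y)^2/2 ≥ (x+y) r - r^2/2 ≥ r^2/2` (`x+y ≥ r`, `|x-y| ≤ r`).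

(B) `lin_far` (case `u+v = e+g+p`). Subtracting, the claim is `EX ≥ r^2/2` with
 `EX = s(g+p) + c u + a v + KB + KC - e p`, `KB = hub NB (e+p-u) - hub NB (e-u)`, `KC` similar
 (because `(e+s)(u+v) + ... - e(e+s+g+2p) = s(g+p) - ep`). As `r = s+g ≤ p`:
 `r^2/2 ≤ s(p+g) + g^2/2`, so it is enough to show `EX ≥ s(p+g)+g^2/2` or `EX ≥ r^2/2`.
 Only caps `e` (`hub_incr_mono`, `hub_reflect`): `KB ≥ pe - hub e u + hub e (u-p)`, and
 `KC ≥ hub e (u-g) - hub e (u-g-p)` (as `e+p-v = u-g`), so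
 `EX ≥ EX1 := s(p+g)+cu+av-hub e u+hub e (u-p)+hub e (u-g)-hub e (u-g-p)`.
 By symmetry (`u ↔ v`, `a ↔ c`; note `KB ≥ hub e (v-g) - hub e (v-g-p)` too) assume `c ≥ a`.
 (B1) `g ≤ u ≤ e`, `v ≥ e`: `-hub e u + hub e (u-g) = -gu+g^2/2`; `cu+av-gu = a(v-u) ≥ 0`.
 (B2) `e ≤ u ≤ e+g`, `v ≥ e`: put `w = u-e ∈ [0,g]`, `z = e-p`, `v-e = g-w-z ≥ 0`. Then
   `cu+av-hub e u+hub e (u-g)+hub e (u-p) = cw+a(g-w-z)+(g-w)^2/2+hub e (w+z)`, `a = g-c`,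
   `g/2 ≤ c ≤ g`; affine in `c`. If `z ≥ 0`: `hub e (w+z) = (w+z)^2/2` (`w ≤ g ≤ p`); at `c = g`:
   `gw+(g-w)^2/2+(w+z)^2/2 ≥ g^2/2`; at `c = g/2`: `(g/2)(g-z)+((g-w)^2+(w+z)^2)/2 ≥
   (g/2)(g-z)+(g+z)^2/4 ≥ g^2/2`. If `z < 0`: use `a(g-w-z) ≥ a(g-w)` and `hub ≥ 0`; at `c = g`
   `gw+(g-w)^2/2 ≥ g^2/2`; at `c = g/2`: `g^2/2+(g-w)^2/2`. (For `u < g` use (B5).)
 (B3) `u ≥ e+g`, `v ≥ e`: `hub e u - hub e (u-g) = eg`, and `c(u-e)+a(v-e) ≥ cg ≥ g^2/2`.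
   (In (B1)-(B3) `v ≥ e` means `u ≤ g+p`, so `hub e (u-g-p) = 0`.)
 (B4) `v ≤ e`, `v ≥ g`: in terms of `v`: `-hub e v+hub e (v-g) = -gv+g^2/2`; if `v ≤ g+p`:
   `u = e+g+p-v ≥ v`, `cu+av-gv = c(u-v) ≥ 0`. If `v > g+p`: then either `u ≥ v` (same bound: the
   extra terms `hub e (v-p) - hub e (v-g-p) ≥ 0`) or `u < v ≤ e`, and if also `u > g+p` all terms
   are quadratic: `EX1 = s(p+g)+cu+av-pg ≥ s(p+g)+g(g+p)-pg`; `u ≤ g+p` means `v ≥ e`.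
 (B5) `u < g` (so `v > e+p`, `KC ≥ 0`), `x := s+c`: with tangent lines,
   `KB ≥ pe - u^2/2 + hub x (p-u)` (because `min(e+x, (e+τ-u)^+) ≥ e+min(x, τ-u)`; `hub` form:
   `hub (e+x) (e+p-u) ≥ e(p-u)+e^2/2+hub x (p-u)` for `u ≤ p`, and
   `hub (e+x) (e-u) ≤ (e-u)^2/2`). If `p-u ≥ x`: `hub x (p-u) = x(p-u)-x^2/2` and
   `EX ≥ p(r+s)+(a+s)(g-u)-x^2/2-u^2/2 ≥ p(r+s)-x^2/2-u^2/2`, `u ≤ min(g, p-x)`; this is
   `≥ r^2/2`: if `p ≥ x+g` use `u ≤ g`, `p r ≥ (x+g) r`, `x, g ≤ r`, `x+g ≥ r`; if `p < x+g` use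
   `u ≤ p-x`: `q(p) = p(r+s)-x^2-p^2/2+px` is concave in `p ∈ [r, x+g]`,
   `q(r) = r^2/2+rs+x(r-x)`, `q(x+g) ≥ r^2/2`. If `p-u < x`: `hub x (p-u) = (p-u)^2/2` and
   `EX ≥ s(p+g)+a(g+p)+p^2/2-(p-c+a)u ≥ (u ≤ g) s(p+g)+a(p-g)+((p-g)^2+g^2)/2`.
   (Here `v = e+g+p-u`, `a v ≥ a(g+p-u)`.)
 (B6) `v < g`: symmetric to (B5).
The statement was tested numerically (5*10^7 random points, equality cases found, no violation).
-/

namespace Pool.Agent.TriPack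

theorem phi_mono {N N' e p u u' : ℝ} (hN : 0 ≤ N) (hNN : N ≤ N') (hp : 0 ≤ p) (hu : 0 ≤ u)
    (huu : u ≤ u') :
    N * u + (hub N (e + p - u) - hub N (e - u)) ≤
      N' * u' + (hub N' (e + p - u') - hub N' (e - u')) := by
  have h1 : hub N (e + p - u) - hub N (e + p - u') ≤ N * ((e + p - u) - (e + p - u')) :=
    hub_lip hN (by linarith)
  have h2 : hub N (e - u') ≤ hub N (e - u) := hub_mono hN (by linarith)
  have h3 : hub N (e + p - u') - hub N (e - u') ≤ hub N' (e + p - u') - hub N' (e - u') :=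
    hub_incr_mono hN hNN (by linarith)
  have h4 : N * u' ≤ N' * u' := mul_le_mul_of_nonneg_right hNN (by linarith)
  have h5 : N * ((e + p - u) - (e + p - u')) = N * u' - N * u := by ring
  linarith

theorem lin_core {e s a c p NB NC u v : ℝ} (he : 0 ≤ e) (hs : 0 ≤ s) (ha : 0 ≤ a) (hc : 0 ≤ c)
    (hr : s + a + c ≤ p) (hNB : e + s + c ≤ NB) (hNC : e + s + a ≤ NC)
    (hu : 0 ≤ u) (hv : 0 ≤ v) :
    e * (e + s + a + c + 2 * p) + (s + a + c) ^ 2 / 2 ≤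
      NB * NC + NB * u + NC * v + (hub NB (e + p - u) - hub NB (e - u)) +
        (hub NC (e + p - v) - hub NC (e - v)) := by
  have hp : 0 ≤ p := by linarith
  have hB := phi_mono (e := e) (p := p) (N := e + s + c) (N' := NB) (u := 0) (u' := u)
    (by linarith) hNB hp le_rfl hu
  have hC := phi_mono (e := e) (p := p) (N := e + s + a) (N' := NC) (u := 0) (u' := v)
    (by linarith) hNC hp le_rfl hv
  have hBC : (e + s + c) * (e + s + a) ≤ NB * NC :=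
    mul_le_mul hNB hNC (by linarith) (by linarith)
  have tB : (e + s + c) * (e + p - 0) - (e + s + c) ^ 2 / 2 ≤ hub (e + s + c) (e + p - 0) :=
    hub_tangent (by linarith) le_rfl
  have tC : (e + s + a) * (e + p - 0) - (e + s + a) ^ 2 / 2 ≤ hub (e + s + a) (e + p - 0) :=
    hub_tangent (by linarith) le_rfl
  have qB : hub (e + s + c) (e - 0) = (e - 0) ^ 2 / 2 := hub_of_le (by linarith) (by linarith)
  have qC : hub (e + s + a) (e - 0) = (e - 0) ^ 2 / 2 := hub_of_le (by linarith) (by linarith)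
  have k1 : 0 ≤ (2 * s + a + c) * (p - (s + a + c)) :=
    mul_nonneg (by linarith) (by linarith)
  have k2 : 0 ≤ e * s := mul_nonneg he hs
  have k3 : 0 ≤ s * (s + a + c) := mul_nonneg hs (by linarith)
  have k4 : 0 ≤ a * c := mul_nonneg ha hc
  have k5 : 0 ≤ s * a := mul_nonneg hs ha
  have k6 : 0 ≤ s * c := mul_nonneg hs hc
  have key : e * (e + s + a + c + 2 * p) + (s + a + c) ^ 2 / 2 ≤
      (e + s + c) * (e + s + a) +
      ((e + s + c) * (e + p - 0) - (e + s + c) ^ 2 / 2 - (e - 0) ^ 2 / 2) +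
      ((e + s + a) * (e + p - 0) - (e + s + a) ^ 2 / 2 - (e - 0) ^ 2 / 2) := by
    nlinarith [sq_nonneg s]
  linarith

end Pool.Agent.TriPack
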