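import Pool.Agent.TriPack.ParBasic

/-!
# Row PC1: the three inequalities at the vertex of type `ac` (region DropReg)

`c1 = (1+η-p)/2`, `a1 = (1+η+p)/2`, `a1 c1 = ((1+η)^2-p^2)/4`, `Δ = dl ε κ p = pε-p^2/2+pκ`,
`0 ≤ κ ≤ b^2/100`, `η = 1/h-h`, `b = 1-h`, `ε = 1-η`; `p ≤ 13/25 ε` (any `h ≥ 3/4`) or
`p ≤ 11/20 ε` (`h ≥ 39/50`). Values of `RHS-LHS` (κ = 0):
 `h = 3/4, p = 13/25 ε`: Dc1 0.0102, Dc2 0.0104, Dc3 0.0027;
 `h = 0.78, p = 11/20 ε`: 0.0079, 0.0117, 0.0043; `h = 0.82, p = 11/20 ε`: 0.0076, 0.018, 0.0119;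
 `h = 0.9`: 0.011, 0.037, 0.037; `h → 1, p = 0.55`: 0.023, 0.062, 0.076; larger for smaller `p`
 (all three are decreasing in `p` on the region; e.g. Dc3 at `p = 0`: `((1+η)/2-b)^2 - b`).
Idea: for fixed `h` show monotonicity/concavity in `p` (each is a polynomial in `p` with
coefficients depending on `h`), then a one-variable inequality at `p = 13/25 ε`, `11/20 ε`.
Multiply by `h^j` to get polynomials in `h` (`h ε = h^2+h-1`, `h η = 1-h^2`).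
Checked numerically on a fine grid.
-/

namespace Pool.Agent.TriPack

variable {h b η ε κ p : ℝ}

theorem pc1_Dc1_c1 (h t : ℝ) (hx : 0 ≤ h - 3/4) (hy : 0 ≤ 39/50 - h) (ht : 0 ≤ t) (hs : 0 ≤ 1 - t) :
    0 ≤ (((h + 1 - h * h + (13/25 * t * (h * h + h - 1))) / 2) * ((h + 1 - h * h - (13/25 * t * (h * h + h - 1))) / 2) - h * h * (1 - h)) * (((h + 1 - h * h - (13/25 * t * (h * h + h - 1))) / 2) - h * (1 - h)) * h - ((h + 1 - h * h - (13/25 * t * (h * h + h - 1))) / 2) * ((h + 1 - h * h - (13/25 * t * (h * h + h - 1))) / 2) * (h * h * (1 - h) + (13/25 * t * (h * h + h - 1)) * (h * h + h - 1) - (13/25 * t * (h * h + h - 1)) * (13/25 * t * (h * h + h - 1)) / 2 + h * ((1 - h) ^ 2 / 100) * (13/25 * t * (h * h + h - 1))) := by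
  have e : (((h + 1 - h * h + (13/25 * t * (h * h + h - 1))) / 2) * ((h + 1 - h * h - (13/25 * t * (h * h + h - 1))) / 2) - h * h * (1 - h)) * (((h + 1 - h * h - (13/25 * t * (h * h + h - 1))) / 2) - h * (1 - h)) * h - ((h + 1 - h * h - (13/25 * t * (h * h + h - 1))) / 2) * ((h + 1 - h * h - (13/25 * t * (h * h + h - 1))) / 2) * (h * h * (1 - h) + (13/25 * t * (h * h + h - 1)) * (h * h + h - 1) - (13/25 * t * (h * h + h - 1)) * (13/25 * t * (h * h + h - 1)) / 2 + h * ((1 - h) ^ 2 / 100) * (13/25 * t * (h * h + h - 1))) =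
      4997253417968750/6561 * (39/50 - h) ^ 9 * (1 - t) ^ 4 +
      683078643798828125/314928 * (39/50 - h) ^ 9 * t ^ 1 * (1 - t) ^ 3 +
      238658612060546875/104976 * (39/50 - h) ^ 9 * t ^ 2 * (1 - t) ^ 2 +
      2242158203125000/2187 * (39/50 - h) ^ 9 * t ^ 3 * (1 - t) ^ 1 +
      12875001220703125/78732 * (39/50 - h) ^ 9 * t ^ 4 +
      46978759765625000/6561 * (h - 3/4) ^ 1 * (39/50 - h) ^ 8 * (1 - t) ^ 4 +
      1064689664306640625/52488 * (h - 3/4) ^ 1 * (39/50 - h) ^ 8 * t ^ 1 * (1 - t) ^ 3 +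
      1108926179931640625/52488 * (h - 3/4) ^ 1 * (39/50 - h) ^ 8 * t ^ 2 * (1 - t) ^ 2 +
      61960084912109375/6561 * (h - 3/4) ^ 1 * (39/50 - h) ^ 8 * t ^ 3 * (1 - t) ^ 1 +
      19482272119140625/13122 * (h - 3/4) ^ 1 * (39/50 - h) ^ 8 * t ^ 4 +
      196152819824218750/6561 * (h - 3/4) ^ 2 * (39/50 - h) ^ 7 * (1 - t) ^ 4 +
      552849255449218750/6561 * (h - 3/4) ^ 2 * (39/50 - h) ^ 7 * t ^ 1 * (1 - t) ^ 3 +
      572290657765625000/6561 * (h - 3/4) ^ 2 * (39/50 - h) ^ 7 * t ^ 2 * (1 - t) ^ 2 +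
      253625457310937500/6561 * (h - 3/4) ^ 2 * (39/50 - h) ^ 7 * t ^ 3 * (1 - t) ^ 1 +
      39310678717187500/6561 * (h - 3/4) ^ 2 * (39/50 - h) ^ 7 * t ^ 4 +
      477439979492187500/6561 * (h - 3/4) ^ 3 * (39/50 - h) ^ 6 * (1 - t) ^ 4 +
      1338934605545312500/6561 * (h - 3/4) ^ 3 * (39/50 - h) ^ 6 * t ^ 1 * (1 - t) ^ 3 +
      1377782320052500000/6561 * (h - 3/4) ^ 3 * (39/50 - h) ^ 6 * t ^ 2 * (1 - t) ^ 2 +
      605549669106125000/6561 * (h - 3/4) ^ 3 * (39/50 - h) ^ 6 * t ^ 3 * (1 - t) ^ 1 +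
      10284214706375000/729 * (h - 3/4) ^ 3 * (39/50 - h) ^ 6 * t ^ 4 +
      746587348046875000/6561 * (h - 3/4) ^ 4 * (39/50 - h) ^ 5 * (1 - t) ^ 4 +
      2083519888316968750/6561 * (h - 3/4) ^ 4 * (39/50 - h) ^ 5 * t ^ 1 * (1 - t) ^ 3 +
      2131637744710088750/6561 * (h - 3/4) ^ 4 * (39/50 - h) ^ 5 * t ^ 2 * (1 - t) ^ 2 +
      929392819021798000/6561 * (h - 3/4) ^ 4 * (39/50 - h) ^ 5 * t ^ 3 * (1 - t) ^ 1 +
      140139447079213000/6561 * (h - 3/4) ^ 4 * (39/50 - h) ^ 5 * t ^ 4 +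
      777826497818750000/6561 * (h - 3/4) ^ 5 * (39/50 - h) ^ 4 * (1 - t) ^ 4 +
      2160351214068702500/6561 * (h - 3/4) ^ 5 * (39/50 - h) ^ 4 * t ^ 1 * (1 - t) ^ 3 +
      2197959478078825300/6561 * (h - 3/4) ^ 5 * (39/50 - h) ^ 4 * t ^ 2 * (1 - t) ^ 2 +
      950939909635944320/6561 * (h - 3/4) ^ 5 * (39/50 - h) ^ 4 * t ^ 3 * (1 - t) ^ 1 +
      141509978066598320/6561 * (h - 3/4) ^ 5 * (39/50 - h) ^ 4 * t ^ 4 +
      539924666894500000/6561 * (h - 3/4) ^ 6 * (39/50 - h) ^ 3 * (1 - t) ^ 4 +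
      497538055975270400/2187 * (h - 3/4) ^ 6 * (39/50 - h) ^ 3 * t ^ 1 * (1 - t) ^ 3 +
      1510459391528250464/6561 * (h - 3/4) ^ 6 * (39/50 - h) ^ 3 * t ^ 2 * (1 - t) ^ 2 +
      16216867798827164992/164025 * (h - 3/4) ^ 6 * (39/50 - h) ^ 3 * t ^ 3 * (1 - t) ^ 1 +
      2382723596229582272/164025 * (h - 3/4) ^ 6 * (39/50 - h) ^ 3 * t ^ 4 +
      240793867777640000/6561 * (h - 3/4) ^ 7 * (39/50 - h) ^ 2 * (1 - t) ^ 4 +
      662644541571349760/6561 * (h - 3/4) ^ 7 * (39/50 - h) ^ 2 * t ^ 1 * (1 - t) ^ 3 +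
      16677700321903054144/164025 * (h - 3/4) ^ 7 * (39/50 - h) ^ 2 * t ^ 2 * (1 - t) ^ 2 +
      35559142947873513856/820125 * (h - 3/4) ^ 7 * (39/50 - h) ^ 2 * t ^ 3 * (1 - t) ^ 1 +
      5161236953372067712/820125 * (h - 3/4) ^ 7 * (39/50 - h) ^ 2 * t ^ 4 +
      62607921459280000/6561 * (h - 3/4) ^ 8 * (39/50 - h) ^ 1 * (1 - t) ^ 4 +
      857636288884533872/32805 * (h - 3/4) ^ 8 * (39/50 - h) ^ 1 * t ^ 1 * (1 - t) ^ 3 +
      107391916584653768432/4100625 * (h - 3/4) ^ 8 * (39/50 - h) ^ 1 * t ^ 2 * (1 - t) ^ 2 +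
      1137186187719599416576/102515625 * (h - 3/4) ^ 8 * (39/50 - h) ^ 1 * t ^ 3 * (1 - t) ^ 1 +
      163145582213315257792/102515625 * (h - 3/4) ^ 8 * (39/50 - h) ^ 1 * t ^ 4 +
      7230904788640000/6561 * (h - 3/4) ^ 9 * (1 - t) ^ 4 +
      36984009983161650656/12301875 * (h - 3/4) ^ 9 * t ^ 1 * (1 - t) ^ 3 +
      307272504598310075552/102515625 * (h - 3/4) ^ 9 * t ^ 2 * (1 - t) ^ 2 +
      3233035809408051116288/2562890625 * (h - 3/4) ^ 9 * t ^ 3 * (1 - t) ^ 1 +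
      1376204959110586593664/7688671875 * (h - 3/4) ^ 9 * t ^ 4 := by
    ring
  rw [e]
  positivity

theorem pc1_Dc1_c2 (h t : ℝ) (hx : 0 ≤ h - 39/50) (hy : 0 ≤ 1 - h) (ht : 0 ≤ t) (hs : 0 ≤ 1 - t) :
    0 ≤ (((h + 1 - h * h + (11/20 * t * (h * h + h - 1))) / 2) * ((h + 1 - h * h - (11/20 * t * (h * h + h - 1))) / 2) - h * h * (1 - h)) * (((h + 1 - h * h - (11/20 * t * (h * h + h - 1))) / 2) - h * (1 - h)) * h - ((h + 1 - h * h - (11/20 * t * (h * h + h - 1))) / 2) * ((h + 1 - h * h - (11/20 * t * (h * h + h - 1))) / 2) * (h * h * (1 - h) + (11/20 * t * (h * h + h - 1)) * (h * h + h - 1) - (11/20 * t * (h * h + h - 1)) * (11/20 * t * (h * h + h - 1)) / 2 + h * ((1 - h) ^ 2 / 100) * (11/20 * t * (h * h + h - 1))) := by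
  have e : (((h + 1 - h * h + (11/20 * t * (h * h + h - 1))) / 2) * ((h + 1 - h * h - (11/20 * t * (h * h + h - 1))) / 2) - h * h * (1 - h)) * (((h + 1 - h * h - (11/20 * t * (h * h + h - 1))) / 2) - h * (1 - h)) * h - ((h + 1 - h * h - (11/20 * t * (h * h + h - 1))) / 2) * ((h + 1 - h * h - (11/20 * t * (h * h + h - 1))) / 2) * (h * h * (1 - h) + (11/20 * t * (h * h + h - 1)) * (h * h + h - 1) - (11/20 * t * (h * h + h - 1)) * (11/20 * t * (h * h + h - 1)) / 2 + h * ((1 - h) ^ 2 / 100) * (11/20 * t * (h * h + h - 1))) =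
      84737165491875/4715895382 * (1 - h) ^ 9 * (1 - t) ^ 4 +
      899723649677639801/18863581528000 * (1 - h) ^ 9 * t ^ 1 * (1 - t) ^ 3 +
      8687589065955190491/188635815280000 * (1 - h) ^ 9 * t ^ 2 * (1 - t) ^ 2 +
      139829873050142646801/7545432611200000 * (1 - h) ^ 9 * t ^ 3 * (1 - t) ^ 1 +
      9131596780739543843/3772716305600000 * (1 - h) ^ 9 * t ^ 4 +
      487459580741875/2357947691 * (h - 39/50) ^ 1 * (1 - h) ^ 8 * (1 - t) ^ 4 +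
      100815902388015677/188635815280 * (h - 39/50) ^ 1 * (1 - h) ^ 8 * t ^ 1 * (1 - t) ^ 3 +
      1888704175581913037/3772716305600 * (h - 39/50) ^ 1 * (1 - h) ^ 8 * t ^ 2 * (1 - t) ^ 2 +
      581353949721749669/3018173044480 * (h - 39/50) ^ 1 * (1 - h) ^ 8 * t ^ 3 * (1 - t) ^ 1 +
      1382561910014229949/60363460889600 * (h - 39/50) ^ 1 * (1 - h) ^ 8 * t ^ 4 +
      4901999124929375/4715895382 * (h - 39/50) ^ 2 * (1 - h) ^ 7 * (1 - t) ^ 4 +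
      99012636131656955/37727163056 * (h - 39/50) ^ 2 * (1 - h) ^ 7 * t ^ 1 * (1 - t) ^ 3 +
      90613753819766799/37727163056 * (h - 39/50) ^ 2 * (1 - h) ^ 7 * t ^ 2 * (1 - t) ^ 2 +
      2706994976753094479/3018173044480 * (h - 39/50) ^ 2 * (1 - h) ^ 7 * t ^ 3 * (1 - t) ^ 1 +
      303783657274935379/3018173044480 * (h - 39/50) ^ 2 * (1 - h) ^ 7 * t ^ 4 +
      7082361315250000/2357947691 * (h - 39/50) ^ 3 * (1 - h) ^ 6 * (1 - t) ^ 4 +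
      140161267377648375/18863581528 * (h - 39/50) ^ 3 * (1 - h) ^ 6 * t ^ 1 * (1 - t) ^ 3 +
      252774875719204325/37727163056 * (h - 39/50) ^ 3 * (1 - h) ^ 6 * t ^ 2 * (1 - t) ^ 2 +
      746703272548880575/301817304448 * (h - 39/50) ^ 3 * (1 - h) ^ 6 * t ^ 3 * (1 - t) ^ 1 +
      2608937448574475/9431790764 * (h - 39/50) ^ 3 * (1 - h) ^ 6 * t ^ 4 +
      12984529899218750/2357947691 * (h - 39/50) ^ 4 * (1 - h) ^ 5 * (1 - t) ^ 4 +
      126311581870471875/9431790764 * (h - 39/50) ^ 4 * (1 - h) ^ 5 * t ^ 1 * (1 - t) ^ 3 +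
      28301662075293125/2357947691 * (h - 39/50) ^ 4 * (1 - h) ^ 5 * t ^ 2 * (1 - t) ^ 2 +
      673527458916141875/150908652224 * (h - 39/50) ^ 4 * (1 - h) ^ 5 * t ^ 3 * (1 - t) ^ 1 +
      39439640664223125/75454326112 * (h - 39/50) ^ 4 * (1 - h) ^ 5 * t ^ 4 +
      15689860351562500/2357947691 * (h - 39/50) ^ 5 * (1 - h) ^ 4 * (1 - t) ^ 4 +
      75279046062890625/4715895382 * (h - 39/50) ^ 5 * (1 - h) ^ 4 * t ^ 1 * (1 - t) ^ 3 +
      135226358216390625/9431790764 * (h - 39/50) ^ 5 * (1 - h) ^ 4 * t ^ 2 * (1 - t) ^ 2 +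
      411027219918753125/75454326112 * (h - 39/50) ^ 5 * (1 - h) ^ 4 * t ^ 3 * (1 - t) ^ 1 +
      103771447068928125/150908652224 * (h - 39/50) ^ 5 * (1 - h) ^ 4 * t ^ 4 +
      12515474609375000/2357947691 * (h - 39/50) ^ 6 * (1 - h) ^ 3 * (1 - t) ^ 4 +
      29717266566406250/2357947691 * (h - 39/50) ^ 6 * (1 - h) ^ 3 * t ^ 1 * (1 - t) ^ 3 +
      53888166886328125/4715895382 * (h - 39/50) ^ 6 * (1 - h) ^ 3 * t ^ 2 * (1 - t) ^ 2 +
      84445479938671875/18863581528 * (h - 39/50) ^ 6 * (1 - h) ^ 3 * t ^ 3 * (1 - t) ^ 1 +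
      5773310141796875/9431790764 * (h - 39/50) ^ 6 * (1 - h) ^ 3 * t ^ 4 +
      6364550781250000/2357947691 * (h - 39/50) ^ 7 * (1 - h) ^ 2 * (1 - t) ^ 4 +
      15008556542968750/2357947691 * (h - 39/50) ^ 7 * (1 - h) ^ 2 * t ^ 1 * (1 - t) ^ 3 +
      13820497421875000/2357947691 * (h - 39/50) ^ 7 * (1 - h) ^ 2 * t ^ 2 * (1 - t) ^ 2 +
      44810473982421875/18863581528 * (h - 39/50) ^ 7 * (1 - h) ^ 2 * t ^ 3 * (1 - t) ^ 1 +
      819956587890625/2357947691 * (h - 39/50) ^ 7 * (1 - h) ^ 2 * t ^ 4 +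
      1875000000000000/2357947691 * (h - 39/50) ^ 8 * (1 - h) ^ 1 * (1 - t) ^ 4 +
      4406250000000000/2357947691 * (h - 39/50) ^ 8 * (1 - h) ^ 1 * t ^ 1 * (1 - t) ^ 3 +
      4140014648437500/2357947691 * (h - 39/50) ^ 8 * (1 - h) ^ 1 * t ^ 2 * (1 - t) ^ 2 +
      1732653808593750/2357947691 * (h - 39/50) ^ 8 * (1 - h) ^ 1 * t ^ 3 * (1 - t) ^ 1 +
      1063896240234375/9431790764 * (h - 39/50) ^ 8 * (1 - h) ^ 1 * t ^ 4 +
      244140625000000/2357947691 * (h - 39/50) ^ 9 * (1 - t) ^ 4 +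
      573730468750000/2357947691 * (h - 39/50) ^ 9 * t ^ 1 * (1 - t) ^ 3 +
      551757812500000/2357947691 * (h - 39/50) ^ 9 * t ^ 2 * (1 - t) ^ 2 +
      237030029296875/2357947691 * (h - 39/50) ^ 9 * t ^ 3 * (1 - t) ^ 1 +
      148809814453125/9431790764 * (h - 39/50) ^ 9 * t ^ 4 := by
    ring
  rw [e]
  positivity


theorem pc1_red (H : Par h b η ε) (hr : DropReg h ε p) :
    0 ≤ p ∧ p ≤ h ∧ h * p ≤ h * h + h - 1 ∧ ((0 ≤ h - 3/4 ∧ 0 ≤ 39/50 - h ∧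
        ∃ t : ℝ, 0 ≤ t ∧ 0 ≤ 1 - t ∧ h * p = 13/25 * t * (h * h + h - 1)) ∨
      (0 ≤ h - 39/50 ∧ 0 ≤ 1 - h ∧
        ∃ t : ℝ, 0 ≤ t ∧ 0 ≤ 1 - t ∧ h * p = 11/20 * t * (h * h + h - 1))) := by
  obtain ⟨h34, hp0, hr⟩ := hr
  have hh := H.hpos
  have hlt := H.hlt
  have hε0 := H.ε_nonneg
  have hεh := H.ε_le_h
  have hE : h * ε = h * h + h - 1 := by
    rw [H.hε]
    have := H.hη
    nlinarith
  have hEpos : 0 < h * h + h - 1 := by nlinarith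
  have aux : ∀ c : ℝ, 0 < c → p ≤ c * ε →
      ∃ t : ℝ, 0 ≤ t ∧ 0 ≤ 1 - t ∧ h * p = c * t * (h * h + h - 1) := by
    intro c hc hpc
    refine ⟨h * p / (c * (h * h + h - 1)), by positivity, ?_, ?_⟩
    · rw [sub_nonneg, div_le_one (by positivity), ← hE]
      nlinarith
    · rw [show c * (h * p / (c * (h * h + h - 1))) * (h * h + h - 1) =
        h * p * ((c * (h * h + h - 1)) / (c * (h * h + h - 1))) by ring,
        div_self (by positivity), mul_one]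
  refine ⟨hp0, ?_, ?_, ?_⟩
  · rcases hr with h1 | ⟨_, h1⟩ <;> nlinarith
  · rw [← hE]
    have : p ≤ ε := by rcases hr with h1 | ⟨_, h1⟩ <;> nlinarith
    exact mul_le_mul_of_nonneg_left this hh.le
  · rcases hr with h1 | ⟨h2, h1⟩
    · rcases le_total h (39/50) with h3 | h3
      · left
        exact ⟨by linarith, by linarith, aux _ (by norm_num) h1⟩
      · right
        exact ⟨by linarith, by linarith, aux _ (by norm_num) (by nlinarith)⟩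
    · right
      exact ⟨by linarith, by linarith, aux _ (by norm_num) h1⟩

theorem pc1_m (H : Par h b η ε) (hp0 : 0 ≤ p) (hκ : κ ≤ b ^ 2 / 100) (P : ℝ)
    (hP : h * p = P)
    (hG : 0 ≤ (((h + 1 - h * h + P) / 2) * ((h + 1 - h * h - P) / 2) - h * h * (1 - h)) *
      (((h + 1 - h * h - P) / 2) - h * (1 - h)) * h -
      ((h + 1 - h * h - P) / 2) * ((h + 1 - h * h - P) / 2) *
      (h * h * (1 - h) + P * (h * h + h - 1) - P * P / 2 + h * ((1 - h) ^ 2 / 100) * P)) :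
    ((1 + η - p) / 2) ^ 2 * (b + dl ε κ p) ≤
      ((1 + η + p) / 2 * ((1 + η - p) / 2) - b) * ((1 + η - p) / 2 - b) := by
  have hh := H.hpos
  have hlt := H.hlt
  have h1 : η = (1 - h ^ 2) / h := H.η_eq
  have h2 := H.hε
  have h3 := H.hb
  subst hP
  rw [h3] at hκ
  have key : ((1 + η + p) / 2 * ((1 + η - p) / 2) - b) * ((1 + η - p) / 2 - b) -
      ((1 + η - p) / 2) ^ 2 * (b + dl ε κ p) =
      1 / h ^ 4 * (((((h + 1 - h * h + h * p) / 2) * ((h + 1 - h * h - h * p) / 2) -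
        h * h * (1 - h)) * (((h + 1 - h * h - h * p) / 2) - h * (1 - h)) * h -
      ((h + 1 - h * h - h * p) / 2) * ((h + 1 - h * h - h * p) / 2) *
      (h * h * (1 - h) + h * p * (h * h + h - 1) - h * p * (h * p) / 2 +
        h * ((1 - h) ^ 2 / 100) * (h * p))) +
        ((h + 1 - h * h - h * p) / 2) ^ 2 * h * (h * p) * ((1 - h) ^ 2 / 100 - κ)) := by
    unfold dl
    rw [h2, h1, h3]
    field_simp
    ring
  have h5 : 0 ≤ (1 - h) ^ 2 / 100 - κ := by linarith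
  have h6 : 0 ≤ ((h + 1 - h * h - h * p) / 2) ^ 2 * h * (h * p) * ((1 - h) ^ 2 / 100 - κ) := by
    positivity
  have h7 : 0 ≤ 1 / h ^ 4 := by positivity
  have h10 := mul_nonneg h7 (add_nonneg hG h6)
  linarith

theorem Dc1 (H : Par h b η ε) (hκ0 : 0 ≤ κ) (hκ : κ ≤ b ^ 2 / 100) (hr : DropReg h ε p) :
    ((1 + η - p) / 2) ^ 2 * (b + dl ε κ p) ≤
      ((1 + η + p) / 2 * ((1 + η - p) / 2) - b) * ((1 + η - p) / 2 - b) := by
  obtain ⟨hp0, _, _, ⟨hx, hy, t, ht, hs, hP⟩ | ⟨hx, hy, t, ht, hs, hP⟩⟩ := pc1_red H hr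
  · exact pc1_m H hp0 hκ _ hP (pc1_Dc1_c1 h t hx hy ht hs)
  · exact pc1_m H hp0 hκ _ hP (pc1_Dc1_c2 h t hx hy ht hs)

end Pool.Agent.TriPack
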