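import Pool.Agent.TriPack.ParBasic

/-!
# Row PC2: the three inequalities at the vertex of type `ac` (region DropReg)

`c1 = (1+η-p)/2`, `a1 = (1+η+p)/2`, `a1 c1 = ((1+η)^2-p^2)/4`, `Δ = dl ε κ p = pε-p^2/2+pκ`,
`0 ≤ κ ≤ b^2/100`, `η = 1/h-h`, `b = 1-h`, `ε = 1-η`; `p ≤ 13/25 ε` (any `h ≥ 3/4`) or
`p ≤ 11/20 ε` (`h ≥ 39/50`). Values of `RHS-LHS` (κ = 0):
 `h = 3/4, p = 13/25 ε`: Dc1 0.0102, Dc2 0.0104, Dc3 0.0027;
 `h = 0.78, p = 11/20 ε`: 0.0079, 0.0117, 0.0043; `h = 0.82, p = 11/20 ε`: 0.0076, 0.018, 0.0119;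
 `h = 0.9`: 0.011, 0.037, 0.037; `h → 1, p = 0.55`: 0.023, 0.062, 0.076; larger for smaller `p`
 (all three are decreasing in `p` on the region; e.g. Dc3 at `p = 0`: `((1+η)/2-b)^2 - b`).
Idea: for fixed `h` show monotonicity/concavity in `p` (each is a polynomial in `p` with
coefficients depending on `h`), then a one-variable inequality at `p = 13/25 ε`, `11/20 ε`.
Multiply by `h^j` to get polynomials in `h` (`h ε = h^2+h-1`, `h η = 1-h^2`).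
Checked numerically on a fine grid.
-/

namespace Pool.Agent.TriPack

variable {h b η ε κ p : ℝ}

theorem pc2_a_g0 (b : ℝ) (h0 : 0 ≤ b) (h1 : b ≤ (1/4)) :
    0 ≤ (1/8) + (-3/4) * b ^ 1 + (13/8) * b ^ 2 + (-17/8) * b ^ 3 + (25/8) * b ^ 4 + (-29/8) * b ^ 5 + (2) * b ^ 6 + (-3/8) * b ^ 7 := by
  obtain ⟨v, hv⟩ : ∃ v : ℝ, v = (1/4) - b := ⟨_, rfl⟩
  have hv0 : 0 ≤ v := by rw [hv]; linarith
  have e : (1/8) + (-3/4) * b ^ 1 + (13/8) * b ^ 2 + (-17/8) * b ^ 3 + (25/8) * b ^ 4 + (-29/8) * b ^ 5 + (2) * b ^ 6 + (-3/8) * b ^ 7 =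
      (2048) * (b ^ 0 * v ^ 7) + (11264) * (b ^ 1 * v ^ 6) + (26240) * (b ^ 2 * v ^ 5) + (33376) * (b ^ 3 * v ^ 4) + (24904) * (b ^ 4 * v ^ 3) + (10846) * (b ^ 5 * v ^ 2) + (2540) * (b ^ 6 * v ^ 1) + (1965/8) * (b ^ 7 * v ^ 0) := by
    rw [hv]; ring
  rw [e]; positivity

theorem pc2_a_g1 (b : ℝ) (h0 : 0 ≤ b) (h1 : b ≤ (1/4)) :
    0 ≤ (87/800) + (-261/400) * b ^ 1 + (48737/40000) * b ^ 2 + (-2409/5000) * b ^ 3 + (-25397/40000) * b ^ 4 + (14809/40000) * b ^ 5 + (-3/8000) * b ^ 6 + (601/8000) * b ^ 7 + (-143/4000) * b ^ 8 + (13/40000) * b ^ 9 := by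
  obtain ⟨v, hv⟩ : ∃ v : ℝ, v = (1/4) - b := ⟨_, rfl⟩
  have hv0 : 0 ≤ v := by rw [hv]; linarith
  have e : (87/800) + (-261/400) * b ^ 1 + (48737/40000) * b ^ 2 + (-2409/5000) * b ^ 3 + (-25397/40000) * b ^ 4 + (14809/40000) * b ^ 5 + (-3/8000) * b ^ 6 + (601/8000) * b ^ 7 + (-143/4000) * b ^ 8 + (13/40000) * b ^ 9 =
      (712704/25) * (b ^ 0 * v ^ 9) + (1069056/5) * (b ^ 1 * v ^ 8) + (440099072/625) * (b ^ 2 * v ^ 7) + (834442496/625) * (b ^ 3 * v ^ 6) + (1002542512/625) * (b ^ 4 * v ^ 5) + (790379476/625) * (b ^ 5 * v ^ 4) + (408188769/625) * (b ^ 6 * v ^ 3) + (531583977/2500) * (b ^ 7 * v ^ 2) + (39504013/1000) * (b ^ 8 * v ^ 1) + (25446337/8000) * (b ^ 9 * v ^ 0) := by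
    rw [hv]; ring
  rw [e]; positivity

theorem pc2_a_g2 (b : ℝ) (h0 : 0 ≤ b) (h1 : b ≤ (1/4)) :
    0 ≤ (37/400) + (-4247/7500) * b ^ 1 + (18603/20000) * b ^ 2 + (4163/6000) * b ^ 3 + (-211639/60000) * b ^ 4 + (42989/12000) * b ^ 5 + (-99089/60000) * b ^ 6 + (27121/60000) * b ^ 7 + (-247/3750) * b ^ 8 + (13/20000) * b ^ 9 := by
  obtain ⟨v, hv⟩ : ∃ v : ℝ, v = (1/4) - b := ⟨_, rfl⟩
  have hv0 : 0 ≤ v := by rw [hv]; linarith
  have e : (37/400) + (-4247/7500) * b ^ 1 + (18603/20000) * b ^ 2 + (4163/6000) * b ^ 3 + (-211639/60000) * b ^ 4 + (42989/12000) * b ^ 5 + (-99089/60000) * b ^ 6 + (27121/60000) * b ^ 7 + (-247/3750) * b ^ 8 + (13/20000) * b ^ 9 =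
      (606208/25) * (b ^ 0 * v ^ 9) + (339607552/1875) * (b ^ 1 * v ^ 8) + (1108673024/1875) * (b ^ 2 * v ^ 7) + (2076138752/1875) * (b ^ 3 * v ^ 6) + (819094624/625) * (b ^ 4 * v ^ 5) + (381150088/375) * (b ^ 5 * v ^ 4) + (322698858/625) * (b ^ 6 * v ^ 3) + (620883461/3750) * (b ^ 7 * v ^ 2) + (11393401/375) * (b ^ 8 * v ^ 1) + (29104651/12000) * (b ^ 9 * v ^ 0) := by
    rw [hv]; ring
  rw [e]; positivity

theorem pc2_a_g3 (b : ℝ) (h0 : 0 ≤ b) (h1 : b ≤ (1/4)) :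
    0 ≤ (20161/250000) + (-34551/62500) * b ^ 1 + (13732511/12500000) * b ^ 2 + (290687/625000) * b ^ 3 + (-52057971/12500000) * b ^ 4 + (2455439/500000) * b ^ 5 + (-248097/100000) * b ^ 6 + (8139821/12500000) * b ^ 7 + (-50427/625000) * b ^ 8 + (11089/12500000) * b ^ 9 := by
  obtain ⟨v, hv⟩ : ∃ v : ℝ, v = (1/4) - b := ⟨_, rfl⟩
  have hv0 : 0 ≤ v := by rw [hv]; linarith
  have e : (20161/250000) + (-34551/62500) * b ^ 1 + (13732511/12500000) * b ^ 2 + (290687/625000) * b ^ 3 + (-52057971/12500000) * b ^ 4 + (2455439/500000) * b ^ 5 + (-248097/100000) * b ^ 6 + (8139821/12500000) * b ^ 7 + (-50427/625000) * b ^ 8 + (11089/12500000) * b ^ 9 =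
      (330317824/15625) * (b ^ 0 * v ^ 9) + (2406776832/15625) * (b ^ 1 * v ^ 8) + (191100370432/390625) * (b ^ 2 * v ^ 7) + (347370399744/390625) * (b ^ 3 * v ^ 6) + (79687036704/78125) * (b ^ 4 * v ^ 5) + (59853132792/78125) * (b ^ 5 * v ^ 4) + (5894558422/15625) * (b ^ 6 * v ^ 3) + (3675827609/31250) * (b ^ 7 * v ^ 2) + (26381063/1250) * (b ^ 8 * v ^ 1) + (165942533/100000) * (b ^ 9 * v ^ 0) := by
    rw [hv]; ring
  rw [e]; positivity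

theorem pc2_a_g4 (b : ℝ) (h0 : 0 ≤ b) (h1 : b ≤ (1/4)) :
    0 ≤ (26733/390625) + (-440617/781250) * b ^ 1 + (598481/390625) * b ^ 2 + (-1232363/1562500) * b ^ 3 + (-4596183/1562500) * b ^ 4 + (1785548/390625) * b ^ 5 + (-3979019/1562500) * b ^ 6 + (1059089/1562500) * b ^ 7 + (-31122/390625) * b ^ 8 + (741/781250) * b ^ 9 := by
  obtain ⟨v, hv⟩ : ∃ v : ℝ, v = (1/4) - b := ⟨_, rfl⟩
  have hv0 : 0 ≤ v := by rw [hv]; linarith
  have e : (26733/390625) + (-440617/781250) * b ^ 1 + (598481/390625) * b ^ 2 + (-1232363/1562500) * b ^ 3 + (-4596183/1562500) * b ^ 4 + (1785548/390625) * b ^ 5 + (-3979019/1562500) * b ^ 6 + (1059089/1562500) * b ^ 7 + (-31122/390625) * b ^ 8 + (741/781250) * b ^ 9 =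
      (7007895552/390625) * (b ^ 0 * v ^ 9) + (48632922112/390625) * (b ^ 1 * v ^ 8) + (146584649728/390625) * (b ^ 2 * v ^ 7) + (251772015616/390625) * (b ^ 3 * v ^ 6) + (54325325056/78125) * (b ^ 4 * v ^ 5) + (38232604928/78125) * (b ^ 5 * v ^ 4) + (3523206608/15625) * (b ^ 6 * v ^ 3) + (1031706708/15625) * (b ^ 7 * v ^ 2) + (1406576/125) * (b ^ 8 * v ^ 1) + (5348097/6250) * (b ^ 9 * v ^ 0) := by
    rw [hv]; ring
  rw [e]; positivity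

theorem pc2_b_g0 (b : ℝ) (h0 : 0 ≤ b) (h1 : b ≤ (11/50)) :
    0 ≤ (1/8) + (-3/4) * b ^ 1 + (13/8) * b ^ 2 + (-17/8) * b ^ 3 + (25/8) * b ^ 4 + (-29/8) * b ^ 5 + (2) * b ^ 6 + (-3/8) * b ^ 7 := by
  obtain ⟨v, hv⟩ : ∃ v : ℝ, v = (11/50) - b := ⟨_, rfl⟩
  have hv0 : 0 ≤ v := by rw [hv]; linarith
  have e : (1/8) + (-3/4) * b ^ 1 + (13/8) * b ^ 2 + (-17/8) * b ^ 3 + (25/8) * b ^ 4 + (-29/8) * b ^ 5 + (2) * b ^ 6 + (-3/8) * b ^ 7 =
      (97656250000/19487171) * (b ^ 0 * v ^ 7) + (554687500000/19487171) * (b ^ 1 * v ^ 6) + (1338789062500/19487171) * (b ^ 2 * v ^ 5) + (1773924218750/19487171) * (b ^ 3 * v ^ 4) + (1389306640625/19487171) * (b ^ 4 * v ^ 3) + (1282548919375/38974342) * (b ^ 5 * v ^ 2) + (161088966100/19487171) * (b ^ 6 * v ^ 1) + (135579464787/155897368) * (b ^ 7 * v ^ 0) := by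
    rw [hv]; ring
  rw [e]; positivity

theorem pc2_b_g1 (b : ℝ) (h0 : 0 ≤ b) (h1 : b ≤ (11/50)) :
    0 ≤ (69/640) + (-207/320) * b ^ 1 + (38239/32000) * b ^ 2 + (-387/1000) * b ^ 3 + (-27259/32000) * b ^ 4 + (19223/32000) * b ^ 5 + (-741/6400) * b ^ 6 + (647/6400) * b ^ 7 + (-121/3200) * b ^ 8 + (11/32000) * b ^ 9 := by
  obtain ⟨v, hv⟩ : ∃ v : ℝ, v = (11/50) - b := ⟨_, rfl⟩
  have hv0 : 0 ≤ v := by rw [hv]; linarith
  have e : (69/640) + (-207/320) * b ^ 1 + (38239/32000) * b ^ 2 + (-387/1000) * b ^ 3 + (-27259/32000) * b ^ 4 + (19223/32000) * b ^ 5 + (-741/6400) * b ^ 6 + (647/6400) * b ^ 7 + (-121/3200) * b ^ 8 + (11/32000) * b ^ 9 =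
      (210571289062500/2357947691) * (b ^ 0 * v ^ 9) + (1617187500000000/2357947691) * (b ^ 1 * v ^ 8) + (10939790966796875/4715895382) * (b ^ 2 * v ^ 7) + (21375916548828125/4715895382) * (b ^ 3 * v ^ 6) + (106292516975078125/18863581528) * (b ^ 4 * v ^ 5) + (174228047980071875/37727163056) * (b ^ 5 * v ^ 4) + (188117613602011875/75454326112) * (b ^ 6 * v ^ 3) + (128890039551587175/150908652224) * (b ^ 7 * v ^ 2) + (25396198544203499/150908652224) * (b ^ 8 * v ^ 1) + (1094937001926211601/75454326112000) * (b ^ 9 * v ^ 0) := by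
    rw [hv]; ring
  rw [e]; positivity

theorem pc2_b_g2 (b : ℝ) (h0 : 0 ≤ b) (h1 : b ≤ (11/50)) :
    0 ≤ (29/320) + (-5341/9600) * b ^ 1 + (28713/32000) * b ^ 2 + (79481/96000) * b ^ 3 + (-23149/6000) * b ^ 4 + (379243/96000) * b ^ 5 + (-2209/1200) * b ^ 6 + (9509/19200) * b ^ 7 + (-1331/19200) * b ^ 8 + (11/16000) * b ^ 9 := by
  obtain ⟨v, hv⟩ : ∃ v : ℝ, v = (11/50) - b := ⟨_, rfl⟩
  have hv0 : 0 ≤ v := by rw [hv]; linarith
  have e : (29/320) + (-5341/9600) * b ^ 1 + (28713/32000) * b ^ 2 + (79481/96000) * b ^ 3 + (-23149/6000) * b ^ 4 + (379243/96000) * b ^ 5 + (-2209/1200) * b ^ 6 + (9509/19200) * b ^ 7 + (-1331/19200) * b ^ 8 + (11/16000) * b ^ 9 =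
      (177001953125000/2357947691) * (b ^ 0 * v ^ 9) + (4061877441406250/7073843073) * (b ^ 1 * v ^ 8) + (27266543896484375/14147686146) * (b ^ 2 * v ^ 7) + (105425929416015625/28295372292) * (b ^ 3 * v ^ 6) + (10781874897968750/2357947691) * (b ^ 4 * v ^ 5) + (418122446768415625/113181489168) * (b ^ 5 * v ^ 4) + (18531886993586875/9431790764) * (b ^ 6 * v ^ 3) + (300305004916010975/452725956672) * (b ^ 7 * v ^ 2) + (116765304938653289/905451913344) * (b ^ 8 * v ^ 1) + (622146209290283089/56590744584000) * (b ^ 9 * v ^ 0) := by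
    rw [hv]; ring
  rw [e]; positivity

theorem pc2_b_g3 (b : ℝ) (h0 : 0 ≤ b) (h1 : b ≤ (11/50)) :
    0 ≤ (20131/256000) + (-70557/128000) * b ^ 1 + (14494481/12800000) * b ^ 2 + (263237/640000) * b ^ 3 + (-54427641/12800000) * b ^ 4 + (2622353/512000) * b ^ 5 + (-267903/102400) * b ^ 6 + (8753441/12800000) * b ^ 7 + (-106359/1280000) * b ^ 8 + (11869/12800000) * b ^ 9 := by
  obtain ⟨v, hv⟩ : ∃ v : ℝ, v = (11/50) - b := ⟨_, rfl⟩
  have hv0 : 0 ≤ v := by rw [hv]; linarith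
  have e : (20131/256000) + (-70557/128000) * b ^ 1 + (14494481/12800000) * b ^ 2 + (263237/640000) * b ^ 3 + (-54427641/12800000) * b ^ 4 + (2622353/512000) * b ^ 5 + (-267903/102400) * b ^ 6 + (8753441/12800000) * b ^ 7 + (-106359/1280000) * b ^ 8 + (11869/12800000) * b ^ 9 =
      (614349365234375/9431790764) * (b ^ 0 * v ^ 9) + (1145430908203125/2357947691) * (b ^ 1 * v ^ 8) + (119723148830078125/75454326112) * (b ^ 2 * v ^ 7) + (224872446847265625/75454326112) * (b ^ 3 * v ^ 6) + (1071096097320684375/301817304448) * (b ^ 4 * v ^ 5) + (1678060219497478125/603634608896) * (b ^ 5 * v ^ 4) + (1730871505367085625/1207269217792) * (b ^ 6 * v ^ 3) + (5673679715015549161/12072692177920) * (b ^ 7 * v ^ 2) + (5369877005340798581/60363460889600) * (b ^ 8 * v ^ 1) + (223808771364679407479/30181730444800000) * (b ^ 9 * v ^ 0) := by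
    rw [hv]; ring
  rw [e]; positivity

theorem pc2_b_g4 (b : ℝ) (h0 : 0 ≤ b) (h1 : b ≤ (11/50)) :
    0 ≤ (83979/1280000) + (-181447/320000) * b ^ 1 + (654917/400000) * b ^ 2 + (-35143/32000) * b ^ 3 + (-16783857/6400000) * b ^ 4 + (2854037/640000) * b ^ 5 + (-407441/160000) * b ^ 6 + (2177671/3200000) * b ^ 7 + (-101277/1280000) * b ^ 8 + (3069/3200000) * b ^ 9 := by
  obtain ⟨v, hv⟩ : ∃ v : ℝ, v = (11/50) - b := ⟨_, rfl⟩
  have hv0 : 0 ≤ v := by rw [hv]; linarith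
  have e : (83979/1280000) + (-181447/320000) * b ^ 1 + (654917/400000) * b ^ 2 + (-35143/32000) * b ^ 3 + (-16783857/6400000) * b ^ 4 + (2854037/640000) * b ^ 5 + (-407441/160000) * b ^ 6 + (2177671/3200000) * b ^ 7 + (-101277/1280000) * b ^ 8 + (3069/3200000) * b ^ 9 =
      (512567138671875/9431790764) * (b ^ 0 * v ^ 9) + (3638535400390625/9431790764) * (b ^ 1 * v ^ 8) + (2818741859375000/2357947691) * (b ^ 2 * v ^ 7) + (20010062427734375/9431790764) * (b ^ 3 * v ^ 6) + (358601387342696875/150908652224) * (b ^ 4 * v ^ 5) + (131518350313894375/75454326112) * (b ^ 5 * v ^ 4) + (15821566875614525/18863581528) * (b ^ 6 * v ^ 3) + (773245707021855741/3018173044480) * (b ^ 7 * v ^ 2) + (2735712221918648603/60363460889600) * (b ^ 8 * v ^ 1) + (13430125925224718277/3772716305600000) * (b ^ 9 * v ^ 0) := by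
    rw [hv]; ring
  rw [e]; positivity

theorem pc2_a (b q : ℝ) (h0 : 0 ≤ b) (h1 : b ≤ (1/4)) (q0 : 0 ≤ q) (q1 : q ≤ (13/25)) :
    0 ≤ ((1 + b - b ^ 2 + q * (1 - 3 * b + b ^ 2)) / 2 * ((1 + b - b ^ 2 - q * (1 - 3 * b + b ^ 2)) / 2) - (1 - b) ^ 2 * b) *
      ((1 - b) * ((1 + b - b ^ 2 + q * (1 - 3 * b + b ^ 2)) / 2) -
        (q * (1 - 3 * b + b ^ 2) ^ 2 - (q * (1 - 3 * b + b ^ 2)) ^ 2 / 2 + q * (1 - 3 * b + b ^ 2) * (1 - b) * (b ^ 2 / 100)) -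
        (1 - b) ^ 2 * b) -
      (1 - b) ^ 2 * ((1 + b - b ^ 2 + q * (1 - 3 * b + b ^ 2)) / 2) ^ 2 * b := by
  obtain ⟨v, hv⟩ : ∃ v : ℝ, v = (13/25) - q := ⟨_, rfl⟩
  have hv0 : 0 ≤ v := by rw [hv]; linarith
  have g0 := pc2_a_g0 b h0 h1
  have g1 := pc2_a_g1 b h0 h1
  have g2 := pc2_a_g2 b h0 h1
  have g3 := pc2_a_g3 b h0 h1
  have g4 := pc2_a_g4 b h0 h1
  have e : ((1 + b - b ^ 2 + q * (1 - 3 * b + b ^ 2)) / 2 * ((1 + b - b ^ 2 - q * (1 - 3 * b + b ^ 2)) / 2) - (1 - b) ^ 2 * b) *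
      ((1 - b) * ((1 + b - b ^ 2 + q * (1 - 3 * b + b ^ 2)) / 2) -
        (q * (1 - 3 * b + b ^ 2) ^ 2 - (q * (1 - 3 * b + b ^ 2)) ^ 2 / 2 + q * (1 - 3 * b + b ^ 2) * (1 - b) * (b ^ 2 / 100)) -
        (1 - b) ^ 2 * b) -
      (1 - b) ^ 2 * ((1 + b - b ^ 2 + q * (1 - 3 * b + b ^ 2)) / 2) ^ 2 * b =
      ((1/8) + (-3/4) * b ^ 1 + (13/8) * b ^ 2 + (-17/8) * b ^ 3 + (25/8) * b ^ 4 + (-29/8) * b ^ 5 + (2) * b ^ 6 + (-3/8) * b ^ 7) * ((390625/28561) * (q ^ 0 * v ^ 4)) +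
      ((87/800) + (-261/400) * b ^ 1 + (48737/40000) * b ^ 2 + (-2409/5000) * b ^ 3 + (-25397/40000) * b ^ 4 + (14809/40000) * b ^ 5 + (-3/8000) * b ^ 6 + (601/8000) * b ^ 7 + (-143/4000) * b ^ 8 + (13/40000) * b ^ 9) * ((1562500/28561) * (q ^ 1 * v ^ 3)) +
      ((37/400) + (-4247/7500) * b ^ 1 + (18603/20000) * b ^ 2 + (4163/6000) * b ^ 3 + (-211639/60000) * b ^ 4 + (42989/12000) * b ^ 5 + (-99089/60000) * b ^ 6 + (27121/60000) * b ^ 7 + (-247/3750) * b ^ 8 + (13/20000) * b ^ 9) * ((2343750/28561) * (q ^ 2 * v ^ 2)) +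
      ((20161/250000) + (-34551/62500) * b ^ 1 + (13732511/12500000) * b ^ 2 + (290687/625000) * b ^ 3 + (-52057971/12500000) * b ^ 4 + (2455439/500000) * b ^ 5 + (-248097/100000) * b ^ 6 + (8139821/12500000) * b ^ 7 + (-50427/625000) * b ^ 8 + (11089/12500000) * b ^ 9) * ((1562500/28561) * (q ^ 3 * v ^ 1)) +
      ((26733/390625) + (-440617/781250) * b ^ 1 + (598481/390625) * b ^ 2 + (-1232363/1562500) * b ^ 3 + (-4596183/1562500) * b ^ 4 + (1785548/390625) * b ^ 5 + (-3979019/1562500) * b ^ 6 + (1059089/1562500) * b ^ 7 + (-31122/390625) * b ^ 8 + (741/781250) * b ^ 9) * ((390625/28561) * (q ^ 4 * v ^ 0)) := by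
    rw [hv]; ring
  rw [e]
  have w : ∀ i j : ℕ, 0 ≤ q ^ i * v ^ j := fun i j => by positivity
  have t0 := mul_nonneg g0 (mul_nonneg (by norm_num : (0:ℝ) ≤ (390625/28561)) (w 0 4))
  have t1 := mul_nonneg g1 (mul_nonneg (by norm_num : (0:ℝ) ≤ (1562500/28561)) (w 1 3))
  have t2 := mul_nonneg g2 (mul_nonneg (by norm_num : (0:ℝ) ≤ (2343750/28561)) (w 2 2))
  have t3 := mul_nonneg g3 (mul_nonneg (by norm_num : (0:ℝ) ≤ (1562500/28561)) (w 3 1))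
  have t4 := mul_nonneg g4 (mul_nonneg (by norm_num : (0:ℝ) ≤ (390625/28561)) (w 4 0))
  exact (add_nonneg (add_nonneg (add_nonneg (add_nonneg t0 t1) t2) t3) t4)

theorem pc2_b (b q : ℝ) (h0 : 0 ≤ b) (h1 : b ≤ (11/50)) (q0 : 0 ≤ q) (q1 : q ≤ (11/20)) :
    0 ≤ ((1 + b - b ^ 2 + q * (1 - 3 * b + b ^ 2)) / 2 * ((1 + b - b ^ 2 - q * (1 - 3 * b + b ^ 2)) / 2) - (1 - b) ^ 2 * b) *
      ((1 - b) * ((1 + b - b ^ 2 + q * (1 - 3 * b + b ^ 2)) / 2) -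
        (q * (1 - 3 * b + b ^ 2) ^ 2 - (q * (1 - 3 * b + b ^ 2)) ^ 2 / 2 + q * (1 - 3 * b + b ^ 2) * (1 - b) * (b ^ 2 / 100)) -
        (1 - b) ^ 2 * b) -
      (1 - b) ^ 2 * ((1 + b - b ^ 2 + q * (1 - 3 * b + b ^ 2)) / 2) ^ 2 * b := by
  obtain ⟨v, hv⟩ : ∃ v : ℝ, v = (11/20) - q := ⟨_, rfl⟩
  have hv0 : 0 ≤ v := by rw [hv]; linarith
  have g0 := pc2_b_g0 b h0 h1
  have g1 := pc2_b_g1 b h0 h1
  have g2 := pc2_b_g2 b h0 h1
  have g3 := pc2_b_g3 b h0 h1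
  have g4 := pc2_b_g4 b h0 h1
  have e : ((1 + b - b ^ 2 + q * (1 - 3 * b + b ^ 2)) / 2 * ((1 + b - b ^ 2 - q * (1 - 3 * b + b ^ 2)) / 2) - (1 - b) ^ 2 * b) *
      ((1 - b) * ((1 + b - b ^ 2 + q * (1 - 3 * b + b ^ 2)) / 2) -
        (q * (1 - 3 * b + b ^ 2) ^ 2 - (q * (1 - 3 * b + b ^ 2)) ^ 2 / 2 + q * (1 - 3 * b + b ^ 2) * (1 - b) * (b ^ 2 / 100)) -
        (1 - b) ^ 2 * b) -
      (1 - b) ^ 2 * ((1 + b - b ^ 2 + q * (1 - 3 * b + b ^ 2)) / 2) ^ 2 * b =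
      ((1/8) + (-3/4) * b ^ 1 + (13/8) * b ^ 2 + (-17/8) * b ^ 3 + (25/8) * b ^ 4 + (-29/8) * b ^ 5 + (2) * b ^ 6 + (-3/8) * b ^ 7) * ((160000/14641) * (q ^ 0 * v ^ 4)) +
      ((69/640) + (-207/320) * b ^ 1 + (38239/32000) * b ^ 2 + (-387/1000) * b ^ 3 + (-27259/32000) * b ^ 4 + (19223/32000) * b ^ 5 + (-741/6400) * b ^ 6 + (647/6400) * b ^ 7 + (-121/3200) * b ^ 8 + (11/32000) * b ^ 9) * ((640000/14641) * (q ^ 1 * v ^ 3)) +
      ((29/320) + (-5341/9600) * b ^ 1 + (28713/32000) * b ^ 2 + (79481/96000) * b ^ 3 + (-23149/6000) * b ^ 4 + (379243/96000) * b ^ 5 + (-2209/1200) * b ^ 6 + (9509/19200) * b ^ 7 + (-1331/19200) * b ^ 8 + (11/16000) * b ^ 9) * ((960000/14641) * (q ^ 2 * v ^ 2)) +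
      ((20131/256000) + (-70557/128000) * b ^ 1 + (14494481/12800000) * b ^ 2 + (263237/640000) * b ^ 3 + (-54427641/12800000) * b ^ 4 + (2622353/512000) * b ^ 5 + (-267903/102400) * b ^ 6 + (8753441/12800000) * b ^ 7 + (-106359/1280000) * b ^ 8 + (11869/12800000) * b ^ 9) * ((640000/14641) * (q ^ 3 * v ^ 1)) +
      ((83979/1280000) + (-181447/320000) * b ^ 1 + (654917/400000) * b ^ 2 + (-35143/32000) * b ^ 3 + (-16783857/6400000) * b ^ 4 + (2854037/640000) * b ^ 5 + (-407441/160000) * b ^ 6 + (2177671/3200000) * b ^ 7 + (-101277/1280000) * b ^ 8 + (3069/3200000) * b ^ 9) * ((160000/14641) * (q ^ 4 * v ^ 0)) := by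
    rw [hv]; ring
  rw [e]
  have w : ∀ i j : ℕ, 0 ≤ q ^ i * v ^ j := fun i j => by positivity
  have t0 := mul_nonneg g0 (mul_nonneg (by norm_num : (0:ℝ) ≤ (160000/14641)) (w 0 4))
  have t1 := mul_nonneg g1 (mul_nonneg (by norm_num : (0:ℝ) ≤ (640000/14641)) (w 1 3))
  have t2 := mul_nonneg g2 (mul_nonneg (by norm_num : (0:ℝ) ≤ (960000/14641)) (w 2 2))
  have t3 := mul_nonneg g3 (mul_nonneg (by norm_num : (0:ℝ) ≤ (640000/14641)) (w 3 1))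
  have t4 := mul_nonneg g4 (mul_nonneg (by norm_num : (0:ℝ) ≤ (160000/14641)) (w 4 0))
  exact (add_nonneg (add_nonneg (add_nonneg (add_nonneg t0 t1) t2) t3) t4)


theorem pc2_main (b q : ℝ) (h0 : 0 ≤ b) (q0 : 0 ≤ q)
    (hr : (b ≤ 1 / 4 ∧ q ≤ 13 / 25) ∨ (b ≤ 11 / 50 ∧ q ≤ 11 / 20)) :
    0 ≤ ((1 + b - b ^ 2 + q * (1 - 3 * b + b ^ 2)) / 2 * ((1 + b - b ^ 2 - q * (1 - 3 * b + b ^ 2)) / 2) - (1 - b) ^ 2 * b) *
      ((1 - b) * ((1 + b - b ^ 2 + q * (1 - 3 * b + b ^ 2)) / 2) -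
        (q * (1 - 3 * b + b ^ 2) ^ 2 - (q * (1 - 3 * b + b ^ 2)) ^ 2 / 2 + q * (1 - 3 * b + b ^ 2) * (1 - b) * (b ^ 2 / 100)) -
        (1 - b) ^ 2 * b) -
      (1 - b) ^ 2 * ((1 + b - b ^ 2 + q * (1 - 3 * b + b ^ 2)) / 2) ^ 2 * b := by
  rcases hr with ⟨h1, h2⟩ | ⟨h1, h2⟩
  · exact pc2_a b q h0 h1 q0 h2
  · exact pc2_b b q h0 h1 q0 h2

theorem Dc2 (H : Par h b η ε) (hκ0 : 0 ≤ κ) (hκ : κ ≤ b ^ 2 / 100) (hr : DropReg h ε p) :
    ((1 + η + p) / 2) ^ 2 * b ≤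
      ((1 + η + p) / 2 * ((1 + η - p) / 2) - b) * ((1 + η + p) / 2 - dl ε κ p - b) := by
  obtain ⟨hh, hp0, hr⟩ := hr
  have hbp := H.b_pos
  have hb := H.hb
  have hhp := H.hpos
  have hhb : h = 1 - b := by linarith
  have hη := H.hη
  have hεη := H.hε
  have hb4 : b ≤ 1 / 4 := by linarith
  have hE : h * ε = 1 - 3 * b + b ^ 2 := by
    rw [hεη]
    have : h * (1 - η) = h - h * η := by ring
    rw [this, hη, hhb]; ring
  have hE0 : 0 < h * ε := by rw [hE]; nlinarith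
  have hε0 : 0 < ε := by
    by_contra hc
    push Not at hc
    nlinarith
  obtain ⟨q, hq⟩ : ∃ q, p = q * ε := ⟨p / ε, by field_simp⟩
  have hq0 : 0 ≤ q := by
    by_contra hc
    push Not at hc
    nlinarith
  have hr' : (b ≤ 1 / 4 ∧ q ≤ 13 / 25) ∨ (b ≤ 11 / 50 ∧ q ≤ 11 / 20) := by
    rcases hr with hr | ⟨h1, h2⟩
    · left
      refine ⟨hb4, ?_⟩
      rw [hq] at hr
      exact le_of_mul_le_mul_right hr hε0
    · right
      refine ⟨by linarith, ?_⟩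
      rw [hq] at h2
      exact le_of_mul_le_mul_right h2 hε0
  have hq1 : q ≤ 11 / 20 := by
    rcases hr' with ⟨_, h2⟩ | ⟨_, h2⟩ <;> linarith
  have main := pc2_main b q hbp.le hq0 hr'
  have hP : h * p = q * (1 - 3 * b + b ^ 2) := by
    rw [hq, ← hE]; ring
  have hA : h * (1 + η) = 1 + b - b ^ 2 := by
    have : h * (1 + η) = h + h * η := by ring
    rw [this, hη, hhb]; ring
  have hX : 0 ≤ (1 + η + p) / 2 * ((1 + η - p) / 2) - b := by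
    have e : h ^ 2 * ((1 + η + p) / 2 * ((1 + η - p) / 2) - b) =
        ((1 + b - b ^ 2) ^ 2 - (q * (1 - 3 * b + b ^ 2)) ^ 2) / 4 - (1 - b) ^ 2 * b := by
      rw [← hP, ← hA, ← hhb]; ring
    have hE1 : 1 - 3 * b + b ^ 2 ≤ 1 := by nlinarith
    have hE2 : 0 < 1 - 3 * b + b ^ 2 := by rw [← hE]; exact hE0
    have g1 : q * (1 - 3 * b + b ^ 2) ≤ 11 / 20 := by
      calc q * (1 - 3 * b + b ^ 2) ≤ q * 1 := by gcongr
        _ ≤ 11 / 20 := by linarith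
    have g2 : (q * (1 - 3 * b + b ^ 2)) ^ 2 ≤ (11 / 20) ^ 2 := by
      have : 0 ≤ q * (1 - 3 * b + b ^ 2) := by positivity
      gcongr
    have g3 : (1:ℝ) ≤ (1 + b - b ^ 2) ^ 2 := by
      have : (1:ℝ) ≤ 1 + b - b ^ 2 := by nlinarith
      nlinarith
    have g4 : (1 - b) ^ 2 * b ≤ 4 / 27 := by
      nlinarith [sq_nonneg (b - 1 / 3), mul_nonneg hbp.le (sq_nonneg (b - 1 / 3))]
    have g5 : 0 ≤ h ^ 2 * ((1 + η + p) / 2 * ((1 + η - p) / 2) - b) := by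
      rw [e]; linarith
    exact nonneg_of_mul_nonneg_right g5 (by positivity)
  have hk : 0 ≤ ((1 + η + p) / 2 * ((1 + η - p) / 2) - b) * (p * (b ^ 2 / 100 - κ)) :=
    mul_nonneg hX (mul_nonneg hp0 (by linarith))
  have main2 : 0 ≤ h ^ 4 * (((1 + η + p) / 2 * ((1 + η - p) / 2) - b) *
      ((1 + η + p) / 2 - dl ε (b ^ 2 / 100) p - b) - ((1 + η + p) / 2) ^ 2 * b) := by
    have e : h ^ 4 * (((1 + η + p) / 2 * ((1 + η - p) / 2) - b) *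
      ((1 + η + p) / 2 - dl ε (b ^ 2 / 100) p - b) - ((1 + η + p) / 2) ^ 2 * b) =
      ((h * (1 + η) + h * p) / 2 * ((h * (1 + η) - h * p) / 2) - h ^ 2 * b) *
      (h * ((h * (1 + η) + h * p) / 2) -
        ((h * p) * (h * ε) - (h * p) ^ 2 / 2 + (h * p) * h * (b ^ 2 / 100)) -
        h ^ 2 * b) -
      h ^ 2 * ((h * (1 + η) + h * p) / 2) ^ 2 * b := by
      unfold dl; ring
    rw [e, hA, hP, hE, hhb]
    have e2 : q * (1 - 3 * b + b ^ 2) * (1 - 3 * b + b ^ 2) = q * (1 - 3 * b + b ^ 2) ^ 2 := by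
      ring
    rw [e2]
    exact main
  have main3 := nonneg_of_mul_nonneg_right main2 (by positivity)
  have e3 : ((1 + η + p) / 2 * ((1 + η - p) / 2) - b) * ((1 + η + p) / 2 - dl ε κ p - b) =
      ((1 + η + p) / 2 * ((1 + η - p) / 2) - b) *
      ((1 + η + p) / 2 - dl ε (b ^ 2 / 100) p - b) +
      ((1 + η + p) / 2 * ((1 + η - p) / 2) - b) * (p * (b ^ 2 / 100 - κ)) := by
    unfold dl; ring
  rw [e3]
  linarith

end Pool.Agent.TriPack
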