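import Pool.Agent.TriPack.ParBasic

/-!
# Row PC3: the three inequalities at the vertex of type `ac` (region DropReg)

`c1 = (1+η-p)/2`, `a1 = (1+η+p)/2`, `a1 c1 = ((1+η)^2-p^2)/4`, `Δ = dl ε κ p = pε-p^2/2+pκ`,
`0 ≤ κ ≤ b^2/100`, `η = 1/h-h`, `b = 1-h`, `ε = 1-η`; `p ≤ 13/25 ε` (any `h ≥ 3/4`) or
`p ≤ 11/20 ε` (`h ≥ 39/50`). Values of `RHS-LHS` (κ = 0):
 `h = 3/4, p = 13/25 ε`: Dc1 0.0102, Dc2 0.0104, Dc3 0.0027;
 `h = 0.78, p = 11/20 ε`: 0.0079, 0.0117, 0.0043; `h = 0.82, p = 11/20 ε`: 0.0076, 0.018, 0.0119;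
 `h = 0.9`: 0.011, 0.037, 0.037; `h → 1, p = 0.55`: 0.023, 0.062, 0.076; larger for smaller `p`
 (all three are decreasing in `p` on the region; e.g. Dc3 at `p = 0`: `((1+η)/2-b)^2 - b`).
Idea: for fixed `h` show monotonicity/concavity in `p` (each is a polynomial in `p` with
coefficients depending on `h`), then a one-variable inequality at `p = 13/25 ε`, `11/20 ε`.
Multiply by `h^j` to get polynomials in `h` (`h ε = h^2+h-1`, `h η = 1-h^2`).
Checked numerically on a fine grid.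
-/

namespace Pool.Agent.TriPack

variable {h b η ε κ p : ℝ}

theorem pc3_auxA (h t x y u v : ℝ) (hx : 0 ≤ x) (hy : 0 ≤ y) (hu : 0 ≤ u) (hv : 0 ≤ v)
    (e1 : x = h - 3 / 4) (e2 : y = 1 - h) (e3 : u = t) (e4 : v = 13 / 25 - t) :
    0 ≤ ((1 - h + h ^ 2) * h + t * (h ^ 2 + h - 1) * h - 2 * t * (h ^ 2 + h - 1) ^ 2 +
      t ^ 2 * (h ^ 2 + h - 1) ^ 2 - t * (h ^ 2 + h - 1) * h * (1 - h) ^ 2 / 50) *
        ((1 - h + h ^ 2) - t * (h ^ 2 + h - 1)) - 4 * h ^ 3 * (1 - h) := by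
  have key : ((1 - h + h ^ 2) * h + t * (h ^ 2 + h - 1) * h - 2 * t * (h ^ 2 + h - 1) ^ 2 +
      t ^ 2 * (h ^ 2 + h - 1) ^ 2 - t * (h ^ 2 + h - 1) * h * (1 - h) ^ 2 / 50) *
        ((1 - h + h ^ 2) - t * (h ^ 2 + h - 1)) - 4 * h ^ 3 * (1 - h) =
      (18750000 / 2197) * y ^ 7 * v ^ 3 +
      (212500000 / 2197) * x * y ^ 6 * v ^ 3 +
      (988750000 / 2197) * x ^ 2 * y ^ 5 * v ^ 3 +
      (2455000000 / 2197) * x ^ 3 * y ^ 4 * v ^ 3 +
      (3532000000 / 2197) * x ^ 4 * y ^ 3 * v ^ 3 +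
      (2960000000 / 2197) * x ^ 5 * y ^ 2 * v ^ 3 +
      (1344000000 / 2197) * x ^ 6 * y * v ^ 3 +
      (256000000 / 2197) * x ^ 7 * v ^ 3 +
      (70186625 / 4394) * y ^ 7 * u * v ^ 2 +
      (401637750 / 2197) * x * y ^ 6 * u * v ^ 2 +
      (1887876600 / 2197) * x ^ 2 * y ^ 5 * u * v ^ 2 +
      (4732874400 / 2197) * x ^ 3 * y ^ 4 * u * v ^ 2 +
      (6863856000 / 2197) * x ^ 4 * y ^ 3 * u * v ^ 2 +
      (5784793600 / 2197) * x ^ 5 * y ^ 2 * u * v ^ 2 +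
      (2634240000 / 2197) * x ^ 6 * y * u * v ^ 2 +
      (501760000 / 2197) * x ^ 7 * u * v ^ 2 +
      (37180925 / 4394) * y ^ 7 * u ^ 2 * v +
      (224562150 / 2197) * x * y ^ 6 * u ^ 2 * v +
      (1116616760 / 2197) * x ^ 2 * y ^ 5 * u ^ 2 * v +
      (2959620320 / 2197) * x ^ 3 * y ^ 4 * u ^ 2 * v +
      (4520767616 / 2197) * x ^ 4 * y ^ 3 * u ^ 2 * v +
      (3991920128 / 2197) * x ^ 5 * y ^ 2 * u ^ 2 * v +
      (1894092800 / 2197) * x ^ 6 * y * u ^ 2 * v +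
      (373964800 / 2197) * x ^ 7 * u ^ 2 * v +
      (1148650 / 2197) * y ^ 7 * u ^ 3 +
      (21143900 / 2197) * x * y ^ 6 * u ^ 3 +
      (141034560 / 2197) * x ^ 2 * y ^ 5 * u ^ 3 +
      (463803520 / 2197) * x ^ 3 * y ^ 4 * u ^ 3 +
      (831767296 / 2197) * x ^ 4 * y ^ 3 * u ^ 3 +
      (829667328 / 2197) * x ^ 5 * y ^ 2 * u ^ 3 +
      (432873472 / 2197) * x ^ 6 * y * u ^ 3 +
      (92209152 / 2197) * x ^ 7 * u ^ 3 := by
    subst e1 e2 e3 e4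
    ring
  rw [key]
  positivity

theorem pc3_auxB (h t x y u v : ℝ) (hx : 0 ≤ x) (hy : 0 ≤ y) (hu : 0 ≤ u) (hv : 0 ≤ v)
    (e1 : x = h - 39 / 50) (e2 : y = 1 - h) (e3 : u = t) (e4 : v = 11 / 20 - t) :
    0 ≤ ((1 - h + h ^ 2) * h + t * (h ^ 2 + h - 1) * h - 2 * t * (h ^ 2 + h - 1) ^ 2 +
      t ^ 2 * (h ^ 2 + h - 1) ^ 2 - t * (h ^ 2 + h - 1) * h * (1 - h) ^ 2 / 50) *
        ((1 - h + h ^ 2) - t * (h ^ 2 + h - 1)) - 4 * h ^ 3 * (1 - h) := by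
  have key : ((1 - h + h ^ 2) * h + t * (h ^ 2 + h - 1) * h - 2 * t * (h ^ 2 + h - 1) ^ 2 +
      t ^ 2 * (h ^ 2 + h - 1) ^ 2 - t * (h ^ 2 + h - 1) * h * (1 - h) ^ 2 / 50) *
        ((1 - h + h ^ 2) - t * (h ^ 2 + h - 1)) - 4 * h ^ 3 * (1 - h) =
      (735415980000000 / 25937424601) * y ^ 7 * v ^ 3 +
      (7488118960000000 / 25937424601) * x * y ^ 6 * v ^ 3 +
      (31816139980000000 / 25937424601) * x ^ 2 * y ^ 5 * v ^ 3 +
      (73252087000000000 / 25937424601) * x ^ 3 * y ^ 4 * v ^ 3 +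
      (98956150000000000 / 25937424601) * x ^ 4 * y ^ 3 * v ^ 3 +
      (78642500000000000 / 25937424601) * x ^ 5 * y ^ 2 * v ^ 3 +
      (34125000000000000 / 25937424601) * x ^ 6 * y * v ^ 3 +
      (6250000000000000 / 25937424601) * x ^ 7 * v ^ 3 +
      (1346258419669048 / 25937424601) * y ^ 7 * u * v ^ 2 +
      (13825119611778000 / 25937424601) * x * y ^ 6 * u * v ^ 2 +
      (59232993397980000 / 25937424601) * x ^ 2 * y ^ 5 * u * v ^ 2 +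
      (137411145741000000 / 25937424601) * x ^ 3 * y ^ 4 * u * v ^ 2 +
      (186779187750000000 / 25937424601) * x ^ 4 * y ^ 3 * u * v ^ 2 +
      (149084672500000000 / 25937424601) * x ^ 5 * y ^ 2 * u * v ^ 2 +
      (64837500000000000 / 25937424601) * x ^ 6 * y * u * v ^ 2 +
      (11875000000000000 / 25937424601) * x ^ 7 * u * v ^ 2 +
      (3609195213941798 / 129687123005) * y ^ 7 * u ^ 2 * v +
      (7811332674278340 / 25937424601) * x * y ^ 6 * u ^ 2 * v +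
      (35269381076903000 / 25937424601) * x ^ 2 * y ^ 5 * u ^ 2 * v +
      (86083630566350000 / 25937424601) * x ^ 3 * y ^ 4 * u ^ 2 * v +
      (122713676982500000 / 25937424601) * x ^ 4 * y ^ 3 * u ^ 2 * v +
      (102310556375000000 / 25937424601) * x ^ 5 * y ^ 2 * u ^ 2 * v +
      (46281875000000000 / 25937424601) * x ^ 6 * y * u ^ 2 * v +
      (8781250000000000 / 25937424601) * x ^ 7 * u ^ 2 * v +
      (250350852786308 / 129687123005) * y ^ 7 * u ^ 3 +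
      (782807601010790 / 25937424601) * x * y ^ 6 * u ^ 3 +
      (4575738622495500 / 25937424601) * x ^ 2 * y ^ 5 * u ^ 3 +
      (13529251059100000 / 25937424601) * x ^ 3 * y ^ 4 * u ^ 3 +
      (22328453263750000 / 25937424601) * x ^ 4 * y ^ 3 * u ^ 3 +
      (20875155750000000 / 25937424601) * x ^ 5 * y ^ 2 * u ^ 3 +
      (10349359375000000 / 25937424601) * x ^ 6 * y * u ^ 3 +
      (2116406250000000 / 25937424601) * x ^ 7 * u ^ 3 := by
    subst e1 e2 e3 e4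
    ring
  rw [key]
  positivity


theorem Dc3 (H : Par h b η ε) (hκ0 : 0 ≤ κ) (hκ : κ ≤ b ^ 2 / 100) (hr : DropReg h ε p) :
    b ≤ ((1 + η + p) / 2 - dl ε κ p - b) * ((1 + η - p) / 2 - b) := by
  obtain ⟨h34, hp0, hcase⟩ := hr
  have hh := H.hpos
  have hlt := H.hlt
  have hη := H.hη
  have hb := H.hb
  have hhε : h * ε = h ^ 2 + h - 1 := by
    rw [H.hε]
    linarith
  have hE : 0 < h ^ 2 + h - 1 := by nlinarith
  have hε : 0 < ε := by
    by_contra hc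
    push Not at hc
    nlinarith
  obtain ⟨t, ht⟩ : ∃ t : ℝ, t = p / ε := ⟨_, rfl⟩
  have hpt : p = t * ε := by
    rw [ht]
    field_simp
  have ht0 : 0 ≤ t := by
    rw [ht]
    positivity
  have hG : 0 ≤ ((1 - h + h ^ 2) * h + t * (h ^ 2 + h - 1) * h - 2 * t * (h ^ 2 + h - 1) ^ 2 +
      t ^ 2 * (h ^ 2 + h - 1) ^ 2 - t * (h ^ 2 + h - 1) * h * (1 - h) ^ 2 / 50) *
        ((1 - h + h ^ 2) - t * (h ^ 2 + h - 1)) - 4 * h ^ 3 * (1 - h) := by
    rcases hcase with hc | ⟨h39, hc⟩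
    · have htc : t ≤ 13 / 25 := by
        rw [ht, div_le_iff₀ hε]
        exact hc
      exact pc3_auxA h t (h - 3 / 4) (1 - h) t (13 / 25 - t) (by linarith) (by linarith) ht0
        (by linarith) rfl rfl rfl rfl
    · have htc : t ≤ 11 / 20 := by
        rw [ht, div_le_iff₀ hε]
        exact hc
      exact pc3_auxB h t (h - 39 / 50) (1 - h) t (11 / 20 - t) (by linarith) (by linarith) ht0
        (by linarith) rfl rfl rfl rfl
  have ht1 : t ≤ 11 / 20 := by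
    rcases hcase with hc | ⟨h39, hc⟩
    · have htc : t ≤ 13 / 25 := by
        rw [ht, div_le_iff₀ hε]
        exact hc
      linarith
    · rw [ht, div_le_iff₀ hε]
      exact hc
  have hhp : h * p = t * (h ^ 2 + h - 1) := by
    rw [hpt, ← hhε]
    ring
  -- the two factors
  have h2 : 2 * h * ((1 + η - p) / 2 - b) = (1 - h + h ^ 2) - t * (h ^ 2 + h - 1) := by
    rw [← hhp, hb]
    linear_combination hη
  have h1 : 2 * h ^ 2 * ((1 + η + p) / 2 - dl ε κ p - b) =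
      (1 - h + h ^ 2) * h + t * (h ^ 2 + h - 1) * h - 2 * t * (h ^ 2 + h - 1) ^ 2 +
      t ^ 2 * (h ^ 2 + h - 1) ^ 2 - 2 * κ * (t * (h ^ 2 + h - 1) * h) := by
    have e1 : t * (h ^ 2 + h - 1) * h = (h * p) * h := by rw [hhp]
    have e2 : 2 * t * (h ^ 2 + h - 1) ^ 2 = 2 * (h * p) * (h * ε) := by
      rw [hhp, hhε]
      ring
    have e3 : t ^ 2 * (h ^ 2 + h - 1) ^ 2 = (h * p) ^ 2 := by
      rw [hhp]
      ring
    rw [e1, e2, e3, hb]
    unfold dl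
    linear_combination h * hη
  have hP2 : 0 ≤ (1 - h + h ^ 2) - t * (h ^ 2 + h - 1) := by nlinarith
  have hκ1 : 2 * κ * (t * (h ^ 2 + h - 1) * h) ≤ t * (h ^ 2 + h - 1) * h * (1 - h) ^ 2 / 50 := by
    have h3 : 0 ≤ t * (h ^ 2 + h - 1) * h := by positivity
    rw [hb] at hκ
    have h4 := mul_le_mul_of_nonneg_right hκ h3
    linarith
  have hprod : 4 * h ^ 3 * (1 - h) ≤ (2 * h ^ 2 * ((1 + η + p) / 2 - dl ε κ p - b)) *
      (2 * h * ((1 + η - p) / 2 - b)) := by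
    rw [h1, h2]
    refine le_trans (by linarith [hG]) (mul_le_mul_of_nonneg_right
      (show (1 - h + h ^ 2) * h + t * (h ^ 2 + h - 1) * h - 2 * t * (h ^ 2 + h - 1) ^ 2 +
        t ^ 2 * (h ^ 2 + h - 1) ^ 2 - t * (h ^ 2 + h - 1) * h * (1 - h) ^ 2 / 50 ≤ _ by linarith) hP2)
  have h3 : (0 : ℝ) < 4 * h ^ 3 := by positivity
  have h4 : 4 * h ^ 3 * b ≤ 4 * h ^ 3 *
      (((1 + η + p) / 2 - dl ε κ p - b) * ((1 + η - p) / 2 - b)) := by
    rw [hb] at hprod ⊢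
    linarith
  exact le_of_mul_le_mul_left h4 h3

end Pool.Agent.TriPack
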