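import Pool.Agent.TriPack.ParBasic

/-!
# Row PD1: the three inequalities at the vertex of type `a` (region DropReg)

`k := η - b = b/h` (`Par.key`), `ε = 1-η`, `Δ = dl ε κ p = pε - p^2/2 + pκ`, `0 ≤ κ ≤ b^2/100`,
`p ≤ 13/25 ε` (any `h ≥ 3/4`) or `p ≤ 11/20 ε` (`h ≥ 39/50`). (`h = 3/4 ↔ b = 1/4, η = 7/12`.)

* `Da1`: `RHS - LHS = p F`, `F = b^2 - κ(1-p)^2 + p(1-p)(ε-(1+p)/2)` (use `b^2 = (2+η)b-η`).
  `F ≥ 0`: for `ε ≥ (1+p)/2` clear; otherwise `p(1-p)((1+p)/2-ε) ≤ b^2 - κ` (slack: the left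
  side is at most about `0.033` at `h = 3/4`, where `b^2 = 0.0625`; for small `b` one has
  `ε ≥ (1+p)/2` because `p ≤ 11/20 ε`, `ε → 1`).
* `Da3`: `RHS - LHS = p [(h-p)(η-κ+p/2) - (η-b)]`; the bracket is concave in `p`, at `p = 0` it is
  `bε - hκ ≥ 0` (use `h(η-b) = b`), at `p = 13/25 ε` resp. `11/20 ε` it is a function of `h`
  alone (minimal value about `0.036` at `h = 3/4`, `p = 0.2167`).
* `Da2`: `(η+p)(1-p)-b = k + p(ε-p)`, `η+p-Δ-b = k + p(η-κ) + p^2/2`, so the claim is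
  `(k+p(ε-p))(k+p(η-κ)+p^2/2) ≥ b(η+p)^2`; at `p = 0`: `k^2 ≥ bη^2 ⟺ 1 ≥ b(1+h)^2`.
  Relative slack is large (`RHS-LHS ≥ 0.17 η p`).
All three checked numerically on a fine grid.
-/

namespace Pool.Agent.TriPack

variable {h b η ε κ p : ℝ}

theorem pd1_Da1_c1 (h t : ℝ) (hx : 0 ≤ h - 3/4) (hy : 0 ≤ 39/50 - h) (ht : 0 ≤ t) (hs : 0 ≤ 1 - t) :
    0 ≤ (1 - h) ^ 2 * h ^ 3 - ((1 - h) ^ 2 / 100) * (h - (13/25 * t * (h * h + h - 1))) ^ 2 * h + (13/25 * t * (h * h + h - 1)) * (h - (13/25 * t * (h * h + h - 1))) * ((h * h + h - 1) - (h + (13/25 * t * (h * h + h - 1))) / 2) := by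
  have e : (1 - h) ^ 2 * h ^ 3 - ((1 - h) ^ 2 / 100) * (h - (13/25 * t * (h * h + h - 1))) ^ 2 * h + (13/25 * t * (h * h + h - 1)) * (h - (13/25 * t * (h * h + h - 1))) * ((h * h + h - 1) - (h + (13/25 * t * (h * h + h - 1))) / 2) =
      10742187500/9 * (39/50 - h) ^ 7 * (1 - t) ^ 3 +
      2360253906250/729 * (39/50 - h) ^ 7 * t ^ 1 * (1 - t) ^ 2 +
      22016142578125/8748 * (39/50 - h) ^ 7 * t ^ 2 * (1 - t) ^ 1 +
      4992705078125/8748 * (39/50 - h) ^ 7 * t ^ 3 +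
      73906250000/9 * (h - 3/4) ^ 1 * (39/50 - h) ^ 6 * (1 - t) ^ 3 +
      16381496093750/729 * (h - 3/4) ^ 1 * (39/50 - h) ^ 6 * t ^ 1 * (1 - t) ^ 2 +
      76063602734375/4374 * (h - 3/4) ^ 1 * (39/50 - h) ^ 6 * t ^ 2 * (1 - t) ^ 1 +
      17005727734375/4374 * (h - 3/4) ^ 1 * (39/50 - h) ^ 6 * t ^ 3 +
      72582812500/3 * (h - 3/4) ^ 2 * (39/50 - h) ^ 5 * (1 - t) ^ 3 +
      16255725062500/243 * (h - 3/4) ^ 2 * (39/50 - h) ^ 5 * t ^ 1 * (1 - t) ^ 2 +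
      37597577584375/729 * (h - 3/4) ^ 2 * (39/50 - h) ^ 5 * t ^ 2 * (1 - t) ^ 1 +
      8291810459375/729 * (h - 3/4) ^ 2 * (39/50 - h) ^ 5 * t ^ 3 +
      118710625000/3 * (h - 3/4) ^ 3 * (39/50 - h) ^ 4 * (1 - t) ^ 3 +
      80728026620000/729 * (h - 3/4) ^ 3 * (39/50 - h) ^ 4 * t ^ 1 * (1 - t) ^ 2 +
      186142291820750/2187 * (h - 3/4) ^ 3 * (39/50 - h) ^ 4 * t ^ 2 * (1 - t) ^ 1 +
      40523179570750/2187 * (h - 3/4) ^ 3 * (39/50 - h) ^ 4 * t ^ 3 +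
      116397380000/3 * (h - 3/4) ^ 4 * (39/50 - h) ^ 3 * (1 - t) ^ 3 +
      80261604558400/729 * (h - 3/4) ^ 4 * (39/50 - h) ^ 3 * t ^ 1 * (1 - t) ^ 2 +
      184637055732092/2187 * (h - 3/4) ^ 4 * (39/50 - h) ^ 3 * t ^ 2 * (1 - t) ^ 1 +
      39709556661052/2187 * (h - 3/4) ^ 4 * (39/50 - h) ^ 3 * t ^ 3 +
      68420580800/3 * (h - 3/4) ^ 5 * (39/50 - h) ^ 2 * (1 - t) ^ 3 +
      15977099770528/243 * (h - 3/4) ^ 5 * (39/50 - h) ^ 2 * t ^ 1 * (1 - t) ^ 2 +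
      36697492257400/729 * (h - 3/4) ^ 5 * (39/50 - h) ^ 2 * t ^ 2 * (1 - t) ^ 1 +
      39021083419864/3645 * (h - 3/4) ^ 5 * (39/50 - h) ^ 2 * t ^ 3 +
      66974564800/9 * (h - 3/4) ^ 6 * (39/50 - h) ^ 1 * (1 - t) ^ 3 +
      398030367736768/18225 * (h - 3/4) ^ 6 * (39/50 - h) ^ 1 * t ^ 1 * (1 - t) ^ 2 +
      22838655336046576/1366875 * (h - 3/4) ^ 6 * (39/50 - h) ^ 1 * t ^ 2 * (1 - t) ^ 1 +
      4807588009123952/1366875 * (h - 3/4) ^ 6 * (39/50 - h) ^ 1 * t ^ 3 +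
      9357462400/9 * (h - 3/4) ^ 7 * (1 - t) ^ 3 +
      56735658407168/18225 * (h - 3/4) ^ 7 * t ^ 1 * (1 - t) ^ 2 +
      81392229801239968/34171875 * (h - 3/4) ^ 7 * t ^ 2 * (1 - t) ^ 1 +
      16978306772574368/34171875 * (h - 3/4) ^ 7 * t ^ 3 := by
    ring
  rw [e]
  positivity

theorem pd1_Da1_c2 (h t : ℝ) (hx : 0 ≤ h - 39/50) (hy : 0 ≤ 1 - h) (ht : 0 ≤ t) (hs : 0 ≤ 1 - t) :
    0 ≤ (1 - h) ^ 2 * h ^ 3 - ((1 - h) ^ 2 / 100) * (h - (11/20 * t * (h * h + h - 1))) ^ 2 * h + (11/20 * t * (h * h + h - 1)) * (h - (11/20 * t * (h * h + h - 1))) * ((h * h + h - 1) - (h + (11/20 * t * (h * h + h - 1))) / 2) := by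
  have e : (1 - h) ^ 2 * h ^ 3 - ((1 - h) ^ 2 / 100) * (h - (11/20 * t * (h * h + h - 1))) ^ 2 * h + (11/20 * t * (h * h + h - 1)) * (h - (11/20 * t * (h * h + h - 1))) * ((h * h + h - 1) - (h + (11/20 * t * (h * h + h - 1))) / 2) =
      13346775/14641 * (1 - h) ^ 7 * (1 - t) ^ 3 +
      96697600311/35431220 * (1 - h) ^ 7 * t ^ 1 * (1 - t) ^ 2 +
      142593862705531/70862440000 * (1 - h) ^ 7 * t ^ 2 * (1 - t) ^ 1 +
      13821984787453/35431220000 * (1 - h) ^ 7 * t ^ 3 +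
      78027300/14641 * (h - 39/50) ^ 1 * (1 - h) ^ 6 * (1 - t) ^ 3 +
      671688836561/35431220 * (h - 39/50) ^ 1 * (1 - h) ^ 6 * t ^ 1 * (1 - t) ^ 2 +
      19637814268783/1417248800 * (h - 39/50) ^ 1 * (1 - h) ^ 6 * t ^ 2 * (1 - t) ^ 1 +
      6933192542591/2834497600 * (h - 39/50) ^ 1 * (1 - h) ^ 6 * t ^ 3 +
      181826775/14641 * (h - 39/50) ^ 2 * (1 - h) ^ 5 * (1 - t) ^ 3 +
      215221289375/3543122 * (h - 39/50) ^ 2 * (1 - h) ^ 5 * t ^ 1 * (1 - t) ^ 2 +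
      1303747667187/28344976 * (h - 39/50) ^ 2 * (1 - h) ^ 5 * t ^ 2 * (1 - t) ^ 1 +
      463767801979/56689952 * (h - 39/50) ^ 2 * (1 - h) ^ 5 * t ^ 3 +
      211083750/14641 * (h - 39/50) ^ 3 * (1 - h) ^ 4 * (1 - t) ^ 3 +
      209257707875/1771561 * (h - 39/50) ^ 3 * (1 - h) ^ 4 * t ^ 1 * (1 - t) ^ 2 +
      1347091904325/14172488 * (h - 39/50) ^ 3 * (1 - h) ^ 4 * t ^ 2 * (1 - t) ^ 1 +
      64741200175/3543122 * (h - 39/50) ^ 3 * (1 - h) ^ 4 * t ^ 3 +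
      122062500/14641 * (h - 39/50) ^ 4 * (1 - h) ^ 3 * (1 - t) ^ 3 +
      264831312500/1771561 * (h - 39/50) ^ 4 * (1 - h) ^ 3 * t ^ 1 * (1 - t) ^ 2 +
      903074648125/7086244 * (h - 39/50) ^ 4 * (1 - h) ^ 3 * t ^ 2 * (1 - t) ^ 1 +
      376663749375/14172488 * (h - 39/50) ^ 4 * (1 - h) ^ 3 * t ^ 3 +
      28125000/14641 * (h - 39/50) ^ 5 * (1 - h) ^ 2 * (1 - t) ^ 3 +
      212950312500/1771561 * (h - 39/50) ^ 5 * (1 - h) ^ 2 * t ^ 1 * (1 - t) ^ 2 +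
      377096078125/3543122 * (h - 39/50) ^ 5 * (1 - h) ^ 2 * t ^ 2 * (1 - t) ^ 1 +
      41462375000/1771561 * (h - 39/50) ^ 5 * (1 - h) ^ 2 * t ^ 3 +
      98046875000/1771561 * (h - 39/50) ^ 6 * (1 - h) ^ 1 * t ^ 1 * (1 - t) ^ 2 +
      88242187500/1771561 * (h - 39/50) ^ 6 * (1 - h) ^ 1 * t ^ 2 * (1 - t) ^ 1 +
      39708984375/3543122 * (h - 39/50) ^ 6 * (1 - h) ^ 1 * t ^ 3 +
      19531250000/1771561 * (h - 39/50) ^ 7 * t ^ 1 * (1 - t) ^ 2 +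
      17578125000/1771561 * (h - 39/50) ^ 7 * t ^ 2 * (1 - t) ^ 1 +
      3955078125/1771561 * (h - 39/50) ^ 7 * t ^ 3 := by
    ring
  rw [e]
  positivity


theorem pd1_Da3_c1 (h t : ℝ) (hx : 0 ≤ h - 3/4) (hy : 0 ≤ 39/50 - h) (ht : 0 ≤ t) (hs : 0 ≤ 1 - t) :
    0 ≤ (h * h - (13/25 * t * (h * h + h - 1))) * (1 - h * h - h * ((1 - h) ^ 2 / 100) + (13/25 * t * (h * h + h - 1)) / 2) - h * (1 - h) := by
  have e : (h * h - (13/25 * t * (h * h + h - 1))) * (1 - h * h - h * ((1 - h) ^ 2 / 100) + (13/25 * t * (h * h + h - 1)) / 2) - h * (1 - h) =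
      777734375/324 * (39/50 - h) ^ 5 * (1 - t) ^ 2 +
      3653828125/972 * (39/50 - h) ^ 5 * t ^ 1 * (1 - t) ^ 1 +
      198125000/243 * (39/50 - h) ^ 5 * t ^ 2 +
      669015625/54 * (h - 3/4) ^ 1 * (39/50 - h) ^ 4 * (1 - t) ^ 2 +
      9608396875/486 * (h - 3/4) ^ 1 * (39/50 - h) ^ 4 * t ^ 1 * (1 - t) ^ 1 +
      1070096875/243 * (h - 3/4) ^ 1 * (39/50 - h) ^ 4 * t ^ 2 +
      2065641250/81 * (h - 3/4) ^ 2 * (39/50 - h) ^ 3 * (1 - t) ^ 2 +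
      10085280850/243 * (h - 3/4) ^ 2 * (39/50 - h) ^ 3 * t ^ 1 * (1 - t) ^ 1 +
      2306179100/243 * (h - 3/4) ^ 2 * (39/50 - h) ^ 3 * t ^ 2 +
      2119848500/81 * (h - 3/4) ^ 3 * (39/50 - h) ^ 2 * (1 - t) ^ 2 +
      10564442140/243 * (h - 3/4) ^ 3 * (39/50 - h) ^ 2 * t ^ 1 * (1 - t) ^ 1 +
      2479055120/243 * (h - 3/4) ^ 3 * (39/50 - h) ^ 2 * t ^ 2 +
      361565428/27 * (h - 3/4) ^ 4 * (39/50 - h) ^ 1 * (1 - t) ^ 2 +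
      138063506852/6075 * (h - 3/4) ^ 4 * (39/50 - h) ^ 1 * t ^ 1 * (1 - t) ^ 1 +
      33233313424/6075 * (h - 3/4) ^ 4 * (39/50 - h) ^ 1 * t ^ 2 +
      5534979736/2025 * (h - 3/4) ^ 5 * (1 - t) ^ 2 +
      720398483896/151875 * (h - 3/4) ^ 5 * t ^ 1 * (1 - t) ^ 1 +
      177802900496/151875 * (h - 3/4) ^ 5 * t ^ 2 := by
    ring
  rw [e]
  positivity

theorem pd1_Da3_c2 (h t : ℝ) (hx : 0 ≤ h - 39/50) (hy : 0 ≤ 1 - h) (ht : 0 ≤ t) (hs : 0 ≤ 1 - t) :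
    0 ≤ (h * h - (11/20 * t * (h * h + h - 1))) * (1 - h * h - h * ((1 - h) ^ 2 / 100) + (11/20 * t * (h * h + h - 1)) / 2) - h * (1 - h) := by
  have e : (h * h - (11/20 * t * (h * h + h - 1))) * (1 - h * h - h * ((1 - h) ^ 2 / 100) + (11/20 * t * (h * h + h - 1)) / 2) - h * (1 - h) =
      188692491/1464100 * (1 - h) ^ 5 * (1 - t) ^ 2 +
      6491464289/29282000 * (1 - h) ^ 5 * t ^ 1 * (1 - t) ^ 1 +
      710604047/14641000 * (1 - h) ^ 5 * t ^ 2 +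
      21656707/29282 * (h - 39/50) ^ 1 * (1 - h) ^ 4 * (1 - t) ^ 2 +
      427411547/292820 * (h - 39/50) ^ 1 * (1 - h) ^ 4 * t ^ 1 * (1 - t) ^ 1 +
      433708153/1171280 * (h - 39/50) ^ 1 * (1 - h) ^ 4 * t ^ 2 +
      22177825/14641 * (h - 39/50) ^ 2 * (1 - h) ^ 3 * (1 - t) ^ 2 +
      53392620/14641 * (h - 39/50) ^ 2 * (1 - h) ^ 3 * t ^ 1 * (1 - t) ^ 1 +
      15688845/14641 * (h - 39/50) ^ 2 * (1 - h) ^ 3 * t ^ 2 +
      19486250/14641 * (h - 39/50) ^ 3 * (1 - h) ^ 2 * (1 - t) ^ 2 +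
      127097625/29282 * (h - 39/50) ^ 3 * (1 - h) ^ 2 * t ^ 1 * (1 - t) ^ 1 +
      7815875/5324 * (h - 39/50) ^ 3 * (1 - h) ^ 2 * t ^ 2 +
      6250000/14641 * (h - 39/50) ^ 4 * (1 - h) ^ 1 * (1 - t) ^ 2 +
      3281250/1331 * (h - 39/50) ^ 4 * (1 - h) ^ 1 * t ^ 1 * (1 - t) ^ 1 +
      14031250/14641 * (h - 39/50) ^ 4 * (1 - h) ^ 1 * t ^ 2 +
      7812500/14641 * (h - 39/50) ^ 5 * t ^ 1 * (1 - t) ^ 1 +
      3515625/14641 * (h - 39/50) ^ 5 * t ^ 2 := by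
    ring
  rw [e]
  positivity


theorem pd1_red (H : Par h b η ε) (hr : DropReg h ε p) :
    0 ≤ p ∧ p ≤ h ∧ ((0 ≤ h - 3/4 ∧ 0 ≤ 39/50 - h ∧
        ∃ t : ℝ, 0 ≤ t ∧ 0 ≤ 1 - t ∧ h * p = 13/25 * t * (h * h + h - 1)) ∨
      (0 ≤ h - 39/50 ∧ 0 ≤ 1 - h ∧
        ∃ t : ℝ, 0 ≤ t ∧ 0 ≤ 1 - t ∧ h * p = 11/20 * t * (h * h + h - 1))) := by
  obtain ⟨h34, hp0, hr⟩ := hr
  have hh := H.hpos
  have hlt := H.hlt
  have hε0 := H.ε_nonneg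
  have hεh := H.ε_le_h
  have hE : h * ε = h * h + h - 1 := by
    rw [H.hε]
    have := H.hη
    nlinarith
  have hEpos : 0 < h * h + h - 1 := by nlinarith
  have aux : ∀ c : ℝ, 0 < c → p ≤ c * ε →
      ∃ t : ℝ, 0 ≤ t ∧ 0 ≤ 1 - t ∧ h * p = c * t * (h * h + h - 1) := by
    intro c hc hpc
    refine ⟨h * p / (c * (h * h + h - 1)), by positivity, ?_, ?_⟩
    · rw [sub_nonneg, div_le_one (by positivity), ← hE]
      nlinarith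
    · rw [show c * (h * p / (c * (h * h + h - 1))) * (h * h + h - 1) =
        h * p * ((c * (h * h + h - 1)) / (c * (h * h + h - 1))) by ring,
        div_self (by positivity), mul_one]
  refine ⟨hp0, ?_, ?_⟩
  · rcases hr with h1 | ⟨_, h1⟩ <;> nlinarith
  · rcases hr with h1 | ⟨h2, h1⟩
    · rcases le_total h (39/50) with h3 | h3
      · left
        exact ⟨by linarith, by linarith, aux _ (by norm_num) h1⟩
      · right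
        exact ⟨by linarith, by linarith, aux _ (by norm_num) (by nlinarith)⟩
    · right
      exact ⟨by linarith, by linarith, aux _ (by norm_num) h1⟩

theorem pd1_m1 (H : Par h b η ε) (hp0 : 0 ≤ p) (hκ : κ ≤ b ^ 2 / 100) (P : ℝ) (hP : h * p = P)
    (hG : 0 ≤ (1 - h) ^ 2 * h ^ 3 - ((1 - h) ^ 2 / 100) * (h - P) ^ 2 * h +
      P * (h - P) * ((h * h + h - 1) - (h + P) / 2)) :
    (1 - p) ^ 2 * (b + dl ε κ p) ≤ ((η + p) * (1 - p) - b) * (1 - p - b) := by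
  have hh := H.hpos
  have h1 : η = (1 - h ^ 2) / h := H.η_eq
  have h2 := H.hε
  have h3 := H.hb
  subst hP
  rw [h3] at hκ
  have key : ((η + p) * (1 - p) - b) * (1 - p - b) - (1 - p) ^ 2 * (b + dl ε κ p) =
      p / h ^ 3 * (((1 - h) ^ 2 * h ^ 3 - ((1 - h) ^ 2 / 100) * (h - h * p) ^ 2 * h +
        h * p * (h - h * p) * ((h * h + h - 1) - (h + h * p) / 2)) +
        (h - h * p) ^ 2 * h * ((1 - h) ^ 2 / 100 - κ)) := by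
    unfold dl
    rw [h2, h1, h3]
    field_simp
    ring
  have h4 : 0 ≤ p / h ^ 3 * (((1 - h) ^ 2 * h ^ 3 - ((1 - h) ^ 2 / 100) * (h - h * p) ^ 2 * h +
        h * p * (h - h * p) * ((h * h + h - 1) - (h + h * p) / 2)) +
        (h - h * p) ^ 2 * h * ((1 - h) ^ 2 / 100 - κ)) := by
    have h5 : 0 ≤ (1 - h) ^ 2 / 100 - κ := by linarith
    have h6 : 0 ≤ (h - h * p) ^ 2 * h * ((1 - h) ^ 2 / 100 - κ) := by positivity
    have h7 : 0 ≤ p / h ^ 3 := by positivity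
    exact mul_nonneg h7 (add_nonneg hG h6)
  linarith

theorem pd1_m3 (H : Par h b η ε) (hp0 : 0 ≤ p) (hph : p ≤ h) (hκ : κ ≤ b ^ 2 / 100) (P : ℝ)
    (hP : h * p = P)
    (hG : 0 ≤ (h * h - P) * (1 - h * h - h * ((1 - h) ^ 2 / 100) + P / 2) - h * (1 - h)) :
    b ≤ (η + p - dl ε κ p - b) * (1 - p - b) := by
  have hh := H.hpos
  have h1 : η = (1 - h ^ 2) / h := H.η_eq
  have h2 := H.hε
  have h3 := H.hb
  subst hP
  rw [h3] at hκ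
  have key : (η + p - dl ε κ p - b) * (1 - p - b) - b =
      p / h ^ 2 * (((h * h - h * p) * (1 - h * h - h * ((1 - h) ^ 2 / 100) + h * p / 2) -
        h * (1 - h)) + h * (h - p) * h * ((1 - h) ^ 2 / 100 - κ)) := by
    unfold dl
    rw [h2, h1, h3]
    field_simp
    ring
  have h4 : 0 ≤ p / h ^ 2 * (((h * h - h * p) * (1 - h * h - h * ((1 - h) ^ 2 / 100) + h * p / 2) -
        h * (1 - h)) + h * (h - p) * h * ((1 - h) ^ 2 / 100 - κ)) := by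
    have h5 : 0 ≤ (1 - h) ^ 2 / 100 - κ := by linarith
    have h8 : 0 ≤ h - p := by linarith
    have h6 : 0 ≤ h * (h - p) * h * ((1 - h) ^ 2 / 100 - κ) := by positivity
    have h7 : 0 ≤ p / h ^ 2 := by positivity
    exact mul_nonneg h7 (add_nonneg hG h6)
  linarith

theorem Da1 (H : Par h b η ε) (hκ0 : 0 ≤ κ) (hκ : κ ≤ b ^ 2 / 100) (hr : DropReg h ε p) :
    (1 - p) ^ 2 * (b + dl ε κ p) ≤ ((η + p) * (1 - p) - b) * (1 - p - b) := by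
  obtain ⟨hp0, _, ⟨hx, hy, t, ht, hs, hP⟩ | ⟨hx, hy, t, ht, hs, hP⟩⟩ := pd1_red H hr
  · exact pd1_m1 H hp0 hκ _ hP (pd1_Da1_c1 h t hx hy ht hs)
  · exact pd1_m1 H hp0 hκ _ hP (pd1_Da1_c2 h t hx hy ht hs)

theorem Da3 (H : Par h b η ε) (hκ0 : 0 ≤ κ) (hκ : κ ≤ b ^ 2 / 100) (hr : DropReg h ε p) :
    b ≤ (η + p - dl ε κ p - b) * (1 - p - b) := by
  obtain ⟨hp0, hph, ⟨hx, hy, t, ht, hs, hP⟩ | ⟨hx, hy, t, ht, hs, hP⟩⟩ := pd1_red H hr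
  · exact pd1_m3 H hp0 hph hκ _ hP (pd1_Da3_c1 h t hx hy ht hs)
  · exact pd1_m3 H hp0 hph hκ _ hP (pd1_Da3_c2 h t hx hy ht hs)

end Pool.Agent.TriPack
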