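import Pool.Agent.TriPack.ParBasic

/-!
# Row PD2: the three inequalities at the vertex of type `a` (region DropReg)

`k := η - b = b/h` (`Par.key`), `ε = 1-η`, `Δ = dl ε κ p = pε - p^2/2 + pκ`, `0 ≤ κ ≤ b^2/100`,
`p ≤ 13/25 ε` (any `h ≥ 3/4`) or `p ≤ 11/20 ε` (`h ≥ 39/50`). (`h = 3/4 ↔ b = 1/4, η = 7/12`.)

* `Da1`: `RHS - LHS = p F`, `F = b^2 - κ(1-p)^2 + p(1-p)(ε-(1+p)/2)` (use `b^2 = (2+η)b-η`).
  `F ≥ 0`: for `ε ≥ (1+p)/2` clear; otherwise `p(1-p)((1+p)/2-ε) ≤ b^2 - κ` (slack: the left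
  side is at most about `0.033` at `h = 3/4`, where `b^2 = 0.0625`; for small `b` one has
  `ε ≥ (1+p)/2` because `p ≤ 11/20 ε`, `ε → 1`).
* `Da3`: `RHS - LHS = p [(h-p)(η-κ+p/2) - (η-b)]`; the bracket is concave in `p`, at `p = 0` it is
  `bε - hκ ≥ 0` (use `h(η-b) = b`), at `p = 13/25 ε` resp. `11/20 ε` it is a function of `h`
  alone (minimal value about `0.036` at `h = 3/4`, `p = 0.2167`).
* `Da2`: `(η+p)(1-p)-b = k + p(ε-p)`, `η+p-Δ-b = k + p(η-κ) + p^2/2`, so the claim is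
  `(k+p(ε-p))(k+p(η-κ)+p^2/2) ≥ b(η+p)^2`; at `p = 0`: `k^2 ≥ bη^2 ⟺ 1 ≥ b(1+h)^2`.
  Relative slack is large (`RHS-LHS ≥ 0.17 η p`).
All three checked numerically on a fine grid.
-/

namespace Pool.Agent.TriPack

variable {h b η ε κ p : ℝ}

theorem pd2_Da2_c1 (h t : ℝ) (hx : 0 ≤ h - 3/4) (hy : 0 ≤ 39/50 - h) (ht : 0 ≤ t) (hs : 0 ≤ 1 - t) :
    0 ≤ (h * (1 - h) + (13/25 * t * (h * h + h - 1)) * ((h * h + h - 1) - (13/25 * t * (h * h + h - 1)))) * (h * (1 - h) + (13/25 * t * (h * h + h - 1)) * (1 - h * h) - h * ((1 - h) ^ 2 / 100) * (13/25 * t * (h * h + h - 1)) + (13/25 * t * (h * h + h - 1)) * (13/25 * t * (h * h + h - 1)) / 2) - (1 - h) * h * h * (1 - h * h + (13/25 * t * (h * h + h - 1))) ^ 2 := by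
  have e : (h * (1 - h) + (13/25 * t * (h * h + h - 1)) * ((h * h + h - 1) - (13/25 * t * (h * h + h - 1)))) * (h * (1 - h) + (13/25 * t * (h * h + h - 1)) * (1 - h * h) - h * ((1 - h) ^ 2 / 100) * (13/25 * t * (h * h + h - 1)) + (13/25 * t * (h * h + h - 1)) * (13/25 * t * (h * h + h - 1)) / 2) - (1 - h) * h * h * (1 - h * h + (13/25 * t * (h * h + h - 1))) ^ 2 =
      305175781250000/729 * (39/50 - h) ^ 9 * (1 - t) ^ 4 +
      3977905273437500/2187 * (39/50 - h) ^ 9 * t ^ 1 * (1 - t) ^ 3 +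
      221529449462890625/78732 * (39/50 - h) ^ 9 * t ^ 2 * (1 - t) ^ 2 +
      140461719970703125/78732 * (39/50 - h) ^ 9 * t ^ 3 * (1 - t) ^ 1 +
      2315274658203125/6561 * (39/50 - h) ^ 9 * t ^ 4 +
      927734375000000/243 * (h - 3/4) ^ 1 * (39/50 - h) ^ 8 * (1 - t) ^ 4 +
      36532656250000000/2187 * (h - 3/4) ^ 1 * (39/50 - h) ^ 8 * t ^ 1 * (1 - t) ^ 3 +
      341240850830078125/13122 * (h - 3/4) ^ 1 * (39/50 - h) ^ 8 * t ^ 2 * (1 - t) ^ 2 +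
      217712909814453125/13122 * (h - 3/4) ^ 1 * (39/50 - h) ^ 8 * t ^ 3 * (1 - t) ^ 1 +
      21627668652343750/6561 * (h - 3/4) ^ 1 * (39/50 - h) ^ 8 * t ^ 4 +
      1252050781250000/81 * (h - 3/4) ^ 2 * (39/50 - h) ^ 7 * (1 - t) ^ 4 +
      148972260273437500/2187 * (h - 3/4) ^ 2 * (39/50 - h) ^ 7 * t ^ 1 * (1 - t) ^ 3 +
      700266108554687500/6561 * (h - 3/4) ^ 2 * (39/50 - h) ^ 7 * t ^ 2 * (1 - t) ^ 2 +
      449631882373437500/6561 * (h - 3/4) ^ 2 * (39/50 - h) ^ 7 * t ^ 3 * (1 - t) ^ 1 +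
      89748667170312500/6561 * (h - 3/4) ^ 2 * (39/50 - h) ^ 7 * t ^ 4 +
      26583664062500000/729 * (h - 3/4) ^ 3 * (39/50 - h) ^ 6 * (1 - t) ^ 4 +
      39336107478125000/243 * (h - 3/4) ^ 3 * (39/50 - h) ^ 6 * t ^ 1 * (1 - t) ^ 3 +
      1675144172640625000/6561 * (h - 3/4) ^ 3 * (39/50 - h) ^ 6 * t ^ 2 * (1 - t) ^ 2 +
      1082657022036125000/6561 * (h - 3/4) ^ 3 * (39/50 - h) ^ 6 * t ^ 3 * (1 - t) ^ 1 +
      217150945739875000/6561 * (h - 3/4) ^ 3 * (39/50 - h) ^ 6 * t ^ 4 +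
      13423889375000000/243 * (h - 3/4) ^ 4 * (39/50 - h) ^ 5 * (1 - t) ^ 4 +
      540345083183750000/2187 * (h - 3/4) ^ 4 * (39/50 - h) ^ 5 * t ^ 1 * (1 - t) ^ 3 +
      2573958027112225000/6561 * (h - 3/4) ^ 4 * (39/50 - h) ^ 5 * t ^ 2 * (1 - t) ^ 2 +
      1674783049487093000/6561 * (h - 3/4) ^ 4 * (39/50 - h) ^ 5 * t ^ 3 * (1 - t) ^ 1 +
      337607928811478000/6561 * (h - 3/4) ^ 4 * (39/50 - h) ^ 5 * t ^ 4 +
      13542436750000000/243 * (h - 3/4) ^ 5 * (39/50 - h) ^ 4 * (1 - t) ^ 4 +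
      549310174146260000/2187 * (h - 3/4) ^ 5 * (39/50 - h) ^ 4 * t ^ 1 * (1 - t) ^ 3 +
      2634570741823214000/6561 * (h - 3/4) ^ 5 * (39/50 - h) ^ 4 * t ^ 2 * (1 - t) ^ 2 +
      1726071913339603120/6561 * (h - 3/4) ^ 5 * (39/50 - h) ^ 4 * t ^ 3 * (1 - t) ^ 1 +
      349766580667061920/6561 * (h - 3/4) ^ 5 * (39/50 - h) ^ 4 * t ^ 4 +
      27294454396000000/729 * (h - 3/4) ^ 6 * (39/50 - h) ^ 3 * (1 - t) ^ 4 +
      41327201023009600/243 * (h - 3/4) ^ 6 * (39/50 - h) ^ 3 * t ^ 1 * (1 - t) ^ 3 +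
      598770009074619712/2187 * (h - 3/4) ^ 6 * (39/50 - h) ^ 3 * t ^ 2 * (1 - t) ^ 2 +
      3292253194092038848/18225 * (h - 3/4) ^ 6 * (39/50 - h) ^ 3 * t ^ 3 * (1 - t) ^ 1 +
      6036724278359755712/164025 * (h - 3/4) ^ 6 * (39/50 - h) ^ 3 * t ^ 4 +
      1308384475840000/81 * (h - 3/4) ^ 7 * (39/50 - h) ^ 2 * (1 - t) ^ 4 +
      161757385627467136/2187 * (h - 3/4) ^ 7 * (39/50 - h) ^ 2 * t ^ 1 * (1 - t) ^ 3 +
      3933640143330521728/32805 * (h - 3/4) ^ 7 * (39/50 - h) ^ 2 * t ^ 2 * (1 - t) ^ 2 +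
      65356385781438916736/820125 * (h - 3/4) ^ 7 * (39/50 - h) ^ 2 * t ^ 3 * (1 - t) ^ 1 +
      13389963427395631232/820125 * (h - 3/4) ^ 7 * (39/50 - h) ^ 2 * t ^ 4 +
      986761959040000/243 * (h - 3/4) ^ 8 * (39/50 - h) ^ 1 * (1 - t) ^ 4 +
      40999708743715072/2187 * (h - 3/4) ^ 8 * (39/50 - h) ^ 1 * t ^ 1 * (1 - t) ^ 3 +
      125523374735237871808/4100625 * (h - 3/4) ^ 8 * (39/50 - h) ^ 1 * t ^ 2 * (1 - t) ^ 2 +
      2101022401390029980096/102515625 * (h - 3/4) ^ 8 * (39/50 - h) ^ 1 * t ^ 3 * (1 - t) ^ 1 +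
      432938462312160376832/102515625 * (h - 3/4) ^ 8 * (39/50 - h) ^ 1 * t ^ 4 +
      330403490560000/729 * (h - 3/4) ^ 9 * (1 - t) ^ 4 +
      4614583354574336/2187 * (h - 3/4) ^ 9 * t ^ 1 * (1 - t) ^ 3 +
      1067296002066126115712/307546875 * (h - 3/4) ^ 9 * t ^ 2 * (1 - t) ^ 2 +
      18000213537951900521344/7688671875 * (h - 3/4) ^ 9 * t ^ 3 * (1 - t) ^ 1 +
      414583448426613180416/854296875 * (h - 3/4) ^ 9 * t ^ 4 := by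
    ring
  rw [e]
  positivity

theorem pd2_Da2_c2 (h t : ℝ) (hx : 0 ≤ h - 39/50) (hy : 0 ≤ 1 - h) (ht : 0 ≤ t) (hs : 0 ≤ 1 - t) :
    0 ≤ (h * (1 - h) + (11/20 * t * (h * h + h - 1)) * ((h * h + h - 1) - (11/20 * t * (h * h + h - 1)))) * (h * (1 - h) + (11/20 * t * (h * h + h - 1)) * (1 - h * h) - h * ((1 - h) ^ 2 / 100) * (11/20 * t * (h * h + h - 1)) + (11/20 * t * (h * h + h - 1)) * (11/20 * t * (h * h + h - 1)) / 2) - (1 - h) * h * h * (1 - h * h + (11/20 * t * (h * h + h - 1))) ^ 2 := by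
  have e : (h * (1 - h) + (11/20 * t * (h * h + h - 1)) * ((h * h + h - 1) - (11/20 * t * (h * h + h - 1)))) * (h * (1 - h) + (11/20 * t * (h * h + h - 1)) * (1 - h * h) - h * ((1 - h) ^ 2 / 100) * (11/20 * t * (h * h + h - 1)) + (11/20 * t * (h * h + h - 1)) * (11/20 * t * (h * h + h - 1)) / 2) - (1 - h) * h * h * (1 - h * h + (11/20 * t * (h * h + h - 1))) ^ 2 =
      143996872500/19487171 * (1 - h) ^ 9 * (1 - t) ^ 4 +
      2703293901945/77948684 * (1 - h) ^ 9 * t ^ 1 * (1 - t) ^ 3 +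
      44544952497249691/779486840000 * (1 - h) ^ 9 * t ^ 2 * (1 - t) ^ 2 +
      595810352291318539/15589736800000 * (1 - h) ^ 9 * t ^ 3 * (1 - t) ^ 1 +
      58463614411099797/7794868400000 * (1 - h) ^ 9 * t ^ 4 +
      1338624495000/19487171 * (h - 39/50) ^ 1 * (1 - h) ^ 8 * (1 - t) ^ 4 +
      6671510798160/19487171 * (h - 39/50) ^ 1 * (1 - h) ^ 8 * t ^ 1 * (1 - t) ^ 3 +
      923362348573649/1558973680 * (h - 39/50) ^ 1 * (1 - h) ^ 8 * t ^ 2 * (1 - t) ^ 2 +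
      147424676903627/354312200 * (h - 39/50) ^ 1 * (1 - h) ^ 8 * t ^ 3 * (1 - t) ^ 1 +
      10563018429228383/124717894400 * (h - 39/50) ^ 1 * (1 - h) ^ 8 * t ^ 4 +
      5236802122500/19487171 * (h - 39/50) ^ 2 * (1 - h) ^ 7 * (1 - t) ^ 4 +
      10238676359495/7086244 * (h - 39/50) ^ 2 * (1 - h) ^ 7 * t ^ 1 * (1 - t) ^ 3 +
      825061305285259/311794736 * (h - 39/50) ^ 2 * (1 - h) ^ 7 * t ^ 2 * (1 - t) ^ 2 +
      12298577204353251/6235894720 * (h - 39/50) ^ 2 * (1 - h) ^ 7 * t ^ 3 * (1 - t) ^ 1 +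
      2617910975097651/6235894720 * (h - 39/50) ^ 2 * (1 - h) ^ 7 * t ^ 4 +
      11212780750000/19487171 * (h - 39/50) ^ 3 * (1 - h) ^ 6 * (1 - t) ^ 4 +
      132943823906875/38974342 * (h - 39/50) ^ 3 * (1 - h) ^ 6 * t ^ 1 * (1 - t) ^ 3 +
      1040101518556875/155897368 * (h - 39/50) ^ 3 * (1 - h) ^ 6 * t ^ 2 * (1 - t) ^ 2 +
      3328929540047625/623589472 * (h - 39/50) ^ 3 * (1 - h) ^ 6 * t ^ 3 * (1 - t) ^ 1 +
      186799573378475/155897368 * (h - 39/50) ^ 3 * (1 - h) ^ 6 * t ^ 4 +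
      14224668750000/19487171 * (h - 39/50) ^ 4 * (1 - h) ^ 5 * (1 - t) ^ 4 +
      96077599443750/19487171 * (h - 39/50) ^ 4 * (1 - h) ^ 5 * t ^ 1 * (1 - t) ^ 3 +
      810598306965625/77948684 * (h - 39/50) ^ 4 * (1 - h) ^ 5 * t ^ 2 * (1 - t) ^ 2 +
      2828684177796875/311794736 * (h - 39/50) ^ 4 * (1 - h) ^ 5 * t ^ 3 * (1 - t) ^ 1 +
      84427355280625/38974342 * (h - 39/50) ^ 4 * (1 - h) ^ 5 * t ^ 4 +
      10710312500000/19487171 * (h - 39/50) ^ 5 * (1 - h) ^ 4 * (1 - t) ^ 4 +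
      87038852343750/19487171 * (h - 39/50) ^ 5 * (1 - h) ^ 4 * t ^ 1 * (1 - t) ^ 3 +
      400376110171875/38974342 * (h - 39/50) ^ 5 * (1 - h) ^ 4 * t ^ 2 * (1 - t) ^ 2 +
      1558496002434375/155897368 * (h - 39/50) ^ 5 * (1 - h) ^ 4 * t ^ 3 * (1 - t) ^ 1 +
      800030445446875/311794736 * (h - 39/50) ^ 5 * (1 - h) ^ 4 * t ^ 4 +
      4437500000000/19487171 * (h - 39/50) ^ 6 * (1 - h) ^ 3 * (1 - t) ^ 4 +
      48202179687500/19487171 * (h - 39/50) ^ 6 * (1 - h) ^ 3 * t ^ 1 * (1 - t) ^ 3 +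
      122499746093750/19487171 * (h - 39/50) ^ 6 * (1 - h) ^ 3 * t ^ 2 * (1 - t) ^ 2 +
      138239854296875/19487171 * (h - 39/50) ^ 6 * (1 - h) ^ 3 * t ^ 3 * (1 - t) ^ 1 +
      7032822265625/3543122 * (h - 39/50) ^ 6 * (1 - h) ^ 3 * t ^ 4 +
      781250000000/19487171 * (h - 39/50) ^ 7 * (1 - h) ^ 2 * (1 - t) ^ 4 +
      14882812500000/19487171 * (h - 39/50) ^ 7 * (1 - h) ^ 2 * t ^ 1 * (1 - t) ^ 3 +
      3862089843750/1771561 * (h - 39/50) ^ 7 * (1 - h) ^ 2 * t ^ 2 * (1 - t) ^ 2 +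
      120420490234375/38974342 * (h - 39/50) ^ 7 * (1 - h) ^ 2 * t ^ 3 * (1 - t) ^ 1 +
      18766373046875/19487171 * (h - 39/50) ^ 7 * (1 - h) ^ 2 * t ^ 4 +
      1953125000000/19487171 * (h - 39/50) ^ 8 * (1 - h) ^ 1 * t ^ 1 * (1 - t) ^ 3 +
      6396484375000/19487171 * (h - 39/50) ^ 8 * (1 - h) ^ 1 * t ^ 2 * (1 - t) ^ 2 +
      14291992187500/19487171 * (h - 39/50) ^ 8 * (1 - h) ^ 1 * t ^ 3 * (1 - t) ^ 1 +
      5151611328125/19487171 * (h - 39/50) ^ 8 * (1 - h) ^ 1 * t ^ 4 +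
      122070312500/1771561 * (h - 39/50) ^ 9 * t ^ 3 * (1 - t) ^ 1 +
      54931640625/1771561 * (h - 39/50) ^ 9 * t ^ 4 := by
    ring
  rw [e]
  positivity


theorem pd2_red (H : Par h b η ε) (hr : DropReg h ε p) :
    0 ≤ p ∧ p ≤ h ∧ h * p ≤ h * h + h - 1 ∧ ((0 ≤ h - 3/4 ∧ 0 ≤ 39/50 - h ∧
        ∃ t : ℝ, 0 ≤ t ∧ 0 ≤ 1 - t ∧ h * p = 13/25 * t * (h * h + h - 1)) ∨
      (0 ≤ h - 39/50 ∧ 0 ≤ 1 - h ∧
        ∃ t : ℝ, 0 ≤ t ∧ 0 ≤ 1 - t ∧ h * p = 11/20 * t * (h * h + h - 1))) := by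
  obtain ⟨h34, hp0, hr⟩ := hr
  have hh := H.hpos
  have hlt := H.hlt
  have hε0 := H.ε_nonneg
  have hεh := H.ε_le_h
  have hE : h * ε = h * h + h - 1 := by
    rw [H.hε]
    have := H.hη
    nlinarith
  have hEpos : 0 < h * h + h - 1 := by nlinarith
  have aux : ∀ c : ℝ, 0 < c → p ≤ c * ε →
      ∃ t : ℝ, 0 ≤ t ∧ 0 ≤ 1 - t ∧ h * p = c * t * (h * h + h - 1) := by
    intro c hc hpc
    refine ⟨h * p / (c * (h * h + h - 1)), by positivity, ?_, ?_⟩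
    · rw [sub_nonneg, div_le_one (by positivity), ← hE]
      nlinarith
    · rw [show c * (h * p / (c * (h * h + h - 1))) * (h * h + h - 1) =
        h * p * ((c * (h * h + h - 1)) / (c * (h * h + h - 1))) by ring,
        div_self (by positivity), mul_one]
  refine ⟨hp0, ?_, ?_, ?_⟩
  · rcases hr with h1 | ⟨_, h1⟩ <;> nlinarith
  · rw [← hE]
    have : p ≤ ε := by rcases hr with h1 | ⟨_, h1⟩ <;> nlinarith
    exact mul_le_mul_of_nonneg_left this hh.le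
  · rcases hr with h1 | ⟨h2, h1⟩
    · rcases le_total h (39/50) with h3 | h3
      · left
        exact ⟨by linarith, by linarith, aux _ (by norm_num) h1⟩
      · right
        exact ⟨by linarith, by linarith, aux _ (by norm_num) (by nlinarith)⟩
    · right
      exact ⟨by linarith, by linarith, aux _ (by norm_num) h1⟩

theorem pd2_m2 (H : Par h b η ε) (hp0 : 0 ≤ p) (hκ : κ ≤ b ^ 2 / 100) (P : ℝ)
    (hP : h * p = P) (hPE : P ≤ h * h + h - 1)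
    (hG : 0 ≤ (h * (1 - h) + P * ((h * h + h - 1) - P)) * (h * (1 - h) + P * (1 - h * h) -
      h * ((1 - h) ^ 2 / 100) * P + P * P / 2) - (1 - h) * h * h * (1 - h * h + P) ^ 2) :
    (η + p) ^ 2 * b ≤ ((η + p) * (1 - p) - b) * (η + p - dl ε κ p - b) := by
  have hh := H.hpos
  have hlt := H.hlt
  have h1 : η = (1 - h ^ 2) / h := H.η_eq
  have h2 := H.hε
  have h3 := H.hb
  subst hP
  rw [h3] at hκ
  have key : ((η + p) * (1 - p) - b) * (η + p - dl ε κ p - b) - (η + p) ^ 2 * b =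
      1 / h ^ 4 * (((h * (1 - h) + h * p * ((h * h + h - 1) - h * p)) *
        (h * (1 - h) + h * p * (1 - h * h) - h * ((1 - h) ^ 2 / 100) * (h * p) +
          h * p * (h * p) / 2) - (1 - h) * h * h * (1 - h * h + h * p) ^ 2) +
        (h * (1 - h) + h * p * ((h * h + h - 1) - h * p)) * h * (h * p) *
          ((1 - h) ^ 2 / 100 - κ)) := by
    unfold dl
    rw [h2, h1, h3]
    field_simp
    ring
  have h5 : 0 ≤ (1 - h) ^ 2 / 100 - κ := by linarith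
  have h8 : 0 ≤ (h * h + h - 1) - h * p := by linarith
  have h9 : 0 ≤ 1 - h := by linarith
  have h6 : 0 ≤ (h * (1 - h) + h * p * ((h * h + h - 1) - h * p)) * h * (h * p) *
          ((1 - h) ^ 2 / 100 - κ) := by positivity
  have h7 : 0 ≤ 1 / h ^ 4 := by positivity
  have h10 := mul_nonneg h7 (add_nonneg hG h6)
  linarith

theorem Da2 (H : Par h b η ε) (hκ0 : 0 ≤ κ) (hκ : κ ≤ b ^ 2 / 100) (hr : DropReg h ε p) :
    (η + p) ^ 2 * b ≤ ((η + p) * (1 - p) - b) * (η + p - dl ε κ p - b) := by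
  obtain ⟨hp0, _, hPE, ⟨hx, hy, t, ht, hs, hP⟩ | ⟨hx, hy, t, ht, hs, hP⟩⟩ := pd2_red H hr
  · exact pd2_m2 H hp0 hκ _ hP (hP ▸ hPE) (pd2_Da2_c1 h t hx hy ht hs)
  · exact pd2_m2 H hp0 hκ _ hP (hP ▸ hPE) (pd2_Da2_c2 h t hx hy ht hs)

end Pool.Agent.TriPack
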