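import Pool.Agent.TriPack.NT1
import Pool.Agent.TriPack.PD1
import Pool.Agent.TriPack.PD2
import Pool.Agent.TriPack.PC1
import Pool.Agent.TriPack.PC2
import Pool.Agent.TriPack.PC3
import Pool.Agent.TriPack.EB

/-!
# Numeric assembly, part 3: rows of the second class dropped.
-/

namespace Pool.Agent.TriPack

variable {h b η ε κ p s a c A B G : ℝ}

theorem T3_dropB (H : Par h b η ε) (R : Reg η A B G) (hA : A < (1 - G) * (η - B))
    (hκ0 : 0 ≤ κ) (hκ : κ ≤ b ^ 2 / 100) (hr : DropReg h ε p)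
    (hs : 0 ≤ s) (ha : 0 ≤ a) (hc : 0 ≤ c) (hsum : s + a + c + p = ε) (hc2 : (ε - p) / 2 ≤ c) :
    T3 (1 - s) (1 - a - p) (1 - c) A (B + dl ε κ p) G := by
  obtain ⟨hp0, hpε⟩ := nt_drop H hr
  obtain ⟨hd0, hdp⟩ := nt_dl H hκ0 hκ hp0 hpε.le
  obtain ⟨hBη, hGb, hB0, hA'η⟩ := nt_basic H R hA
  have R' := nt_reg R hA
  have hηε := H.hε
  have hη0 := H.η_pos
  have hη1 := H.η_le_one
  have hb0 := H.b_pos
  have hbη := H.b_lt_η
  have hεh := H.ε_le_h
  have hE1 := EB1 H hκ0 hκ hr hs ha hc hsum hc2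
  have hE2 := EB2 H hκ0 hκ hr hs ha hc hsum hc2
  have V := dropV H hp0 hpε (hpε.le.trans hεh) hd0 (by linarith) (s := 1 - s) (a := 1 - c)
    (c := 1 - a - p) (by linarith) (by linarith) (by linarith) (by linarith) (by linarith)
    (Da1 H hκ0 hκ hr) (Da2 H hκ0 hκ hr) (Da3 H hκ0 hκ hr) (Dc1 H hκ0 hκ hr) (Dc2 H hκ0 hκ hr)
    (Dc3 H hκ0 hκ hr)
  generalize dl ε κ p = Δ at *
  obtain ⟨V1, V2, V3⟩ := V
  have eS : (1 - s) * (1 - a - p) = η + c + s * (a + p) := by linear_combination -hsum - hηε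
  have eQ : (1 - s) * (1 - c) = η + a + p + s * c := by linear_combination -hsum - hηε
  have eP : (1 - a - p) * (1 - c) = η + s + (a + p) * c := by linear_combination -hsum - hηε
  have hsa : 0 ≤ s * (a + p) := mul_nonneg hs (by linarith)
  have hscp : 0 ≤ s * c := mul_nonneg hs hc
  have hacp : 0 ≤ (a + p) * c := mul_nonneg (by linarith) hc
  have hC0 : η ≤ 1 - c := by linarith
  have hC1 : 1 - c ≤ 1 := by linarith
  have hA0 : η ≤ 1 - a - p := by linarith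
  have hA1 : 1 - a - p ≤ 1 := by linarith
  have hS0 : η ≤ 1 - s := by linarith
  have hS1 : 1 - s ≤ 1 := by linarith
  have hCp : 0 ≤ 1 - c := by linarith
  have hAp : 0 ≤ 1 - a - p := by linarith
  have hSp : 0 ≤ 1 - s := by linarith
  have hP1 : (1 - a - p) * (1 - c) ≤ 1 := (nt_mul hAp hC1).trans hA1
  have hQS : (1 - s) * (1 - c) ≤ 1 - s := nt_mul hSp hC1
  have hRS : (1 - s) * (1 - a - p) ≤ 1 - s := nt_mul hSp hA1
  have hQ0 : 0 ≤ (1 - s) * (1 - c) - Δ := by linarith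
  have hR0 : 0 ≤ (1 - s) * (1 - a - p) - η := by linarith
  have c1 : (1 - c) * (1 - a - p) = (1 - a - p) * (1 - c) := mul_comm _ _
  rw [c1] at V1 V2
  have t1 := R1b H R' (P := (1 - a - p) * (1 - c)) (Q := (1 - s) * (1 - c) - Δ)
    (κ := (1 - c) ^ 2) (Δ := 0) (sq_nonneg _) (nt_sq hCp hC1) hP1 (by linarith) le_rfl
    (by rw [add_zero]; exact V2) (by rw [zero_add]; exact hE2)
  have t2 := R2 H R' (P := (1 - a - p) * (1 - c)) (R := (1 - s) * (1 - a - p))
    (κ := (1 - a - p) ^ 2) (Δ := Δ) (sq_nonneg _) (nt_sq hAp hA1) (by linarith) hP1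
    (by linarith) hd0 hE1 V1
  have t3 := R3 H R' (Q := (1 - s) * (1 - c) - Δ) (R := (1 - s) * (1 - a - p))
    (s := 1 - s) (Δ := 0) hS1 (by linarith) (by linarith) (by linarith) hRS le_rfl
    (by rw [mul_zero]; exact mul_nonneg hQ0 hR0)
    (by rw [add_zero, mul_comm ((1 - s) * (1 - a - p) - b)]; exact V3)
  rw [add_zero] at t1 t3
  have e2 : (1 - s) * (1 - c) - Δ - B = (1 - s) * (1 - c) - (B + Δ) := by ring
  rw [e2] at t1 t3
  exact nt_T3 (X' := (1 - G) * (η - B)) hA (by linarith) (by linarith)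
    (by linarith) (by linarith) (by linarith) t1 t2 t3

end Pool.Agent.TriPack
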