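import Pool.Agent.TriPack.ParBasic

/-!
# Row PX1: the five vertex inequalities in the region CheapReg

`k := η - b = b/h`, `Δ = dl ε κ p = pε - p^2/2 + pκ`, `0 ≤ κ ≤ b^2/100`,
region: `h ≤ 3/4, 0 ≤ p ≤ ε` or `3/4 ≤ h ≤ 39/50, 13/25 ε ≤ p ≤ 17/25 ε`.
Write `g = η+p`, `g-b-Δ = k + p(η-κ) + p^2/2`, `1-b = h`, `ε = 1-η`.
* `X1`: `RHS-LHS = p [ (h-p^2)(η-κ+p/2) - pk - ε + p/2 - κ ]`. (At `p = 0`: `hη-ε-κ`, and
  `h(hη-ε) = 1-h^2-h^3 ≥ 1/64` for `h ≤ 3/4`.)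
* `X2`: `RHS-LHS = p [ (1-p)(h-Δ) - (ε-p/2+κ)/h ]` (use `b/h+1 = 1/h`). (At `p = 0`:
  `h-ε/h = (1-h)^2(1+h)/h^2` for `κ = 0`.)
* `X4`: `RHS-LHS = p [ (h-Δ)(η-κ+p/2) - (ε-p/2+κ)k - p ]`.
* `X3`, `X5`: at `p = 0` both are `k^2 ≥ bη^2 ⟺ 1 ≥ b(1+h)^2` (`⟸ 1 ≤ h+h^2`; equality at the
  golden ratio, where `ε = 0`).
`RHS-LHS` in the middle region (κ = 0), `h = 0.78`: `p = 0.52ε`: 0.0023, 0.0090, 0.0285, 0.0180,
0.0323 (X1..X5); `p = 0.68ε`: 0.0076, 0.0071, 0.0236, 0.0060, 0.0230; `h = 3/4`: 0.0229, 0.0269,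
0.0403, 0.0332, 0.0434 resp. 0.0329, 0.0326, 0.0427, 0.0318, 0.0422.
Idea: polynomials in `(h,p)` after multiplication by powers of `h` (`h ε = h^2+h-1`,
`h η = 1-h^2`). All checked numerically on a fine grid.
-/

namespace Pool.Agent.TriPack

variable {h b η ε κ p : ℝ}

/-- first region -/
lemma px1_low (h0 : 0 < h) (hg : 1 ≤ h + h ^ 2) (h1 : h ≤ 3 / 4) (hp : 0 ≤ p)
    (hpe : h * p ≤ h ^ 2 + h - 1) :
    (1 - h) ^ 2 * h * (1 + h) / 100 ≤ (1 - h ^ 2 - h ^ 3) + p * ((h ^ 2 + 3 * h) / 2 - 1) -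
      p ^ 2 * (1 - h ^ 2) - h * p ^ 3 / 2 := by
  have hl : 3 / 5 ≤ h := by nlinarith
  have hconst : (1 - h) ^ 2 * h * (1 + h) / 100 ≤ 1 - h ^ 2 - h ^ 3 := by
    have e1 : 0 ≤ (3 / 4 - h) := by linarith
    nlinarith [mul_nonneg h0.le e1, mul_nonneg (mul_nonneg h0.le h0.le) e1,
      mul_nonneg (mul_nonneg (mul_nonneg h0.le h0.le) h0.le) e1,
      mul_nonneg e1 e1, mul_nonneg h0.le (mul_nonneg e1 e1)]
  have hB : 0 ≤ (h ^ 2 + 3 * h) / 2 - 1 - p * (1 - h ^ 2) - h * p ^ 2 / 2 := by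
    have hP : 0 ≤ h * p := mul_nonneg h0.le hp
    have e2 : 0 ≤ 1 - h ^ 2 := by nlinarith
    have e3 : (h * p) * (1 - h ^ 2) ≤ (h ^ 2 + h - 1) * (1 - h ^ 2) :=
      mul_le_mul_of_nonneg_right hpe e2
    have e4 : (h * p) ^ 2 ≤ (h ^ 2 + h - 1) ^ 2 := pow_le_pow_left₀ hP hpe 2
    have e5 : 0 ≤ h * ((h ^ 2 + 3 * h) / 2 - 1) - (h ^ 2 + h - 1) * (1 - h ^ 2) -
        (h ^ 2 + h - 1) ^ 2 / 2 := by
      have e6 : 0 ≤ 3 / 4 - h := by linarith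
      have e7 : 0 ≤ h - 3 / 5 := by linarith
      nlinarith [mul_nonneg e6 e7, mul_nonneg (mul_nonneg e6 e7) h0.le,
        mul_nonneg (mul_nonneg (mul_nonneg e6 e7) h0.le) h0.le,
        mul_nonneg (mul_nonneg e6 e7) (mul_nonneg e6 e7)]
    have e8 : 0 ≤ h * ((h ^ 2 + 3 * h) / 2 - 1 - p * (1 - h ^ 2) - h * p ^ 2 / 2) := by
      have : h * ((h ^ 2 + 3 * h) / 2 - 1 - p * (1 - h ^ 2) - h * p ^ 2 / 2) =
        h * ((h ^ 2 + 3 * h) / 2 - 1) - (h * p) * (1 - h ^ 2) - (h * p) ^ 2 / 2 := by ring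
      rw [this]; linarith
    exact nonneg_of_mul_nonneg_right e8 h0
  have := mul_nonneg hp hB
  nlinarith

/-- second region: the polynomial in `h` and `P = h p` -/
lemma px1_mid_aux {t c : ℝ} (ht0 : 0 ≤ t) (ht1 : t ≤ 3 / 100) (hc : c = 13 / 25 ∨ c = 17 / 25) :
    (1 - (3 / 4 + t)) ^ 2 * (3 / 4 + t) ^ 3 * (1 + (3 / 4 + t)) / 100 ≤
      (1 - (3 / 4 + t) ^ 2 - (3 / 4 + t) ^ 3) * (3 / 4 + t) ^ 2 +
      (3 / 4 + t) * (c * ((3 / 4 + t) ^ 2 + (3 / 4 + t) - 1)) *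
        (((3 / 4 + t) ^ 2 + 3 * (3 / 4 + t)) / 2 - 1) -
      (c * ((3 / 4 + t) ^ 2 + (3 / 4 + t) - 1)) ^ 2 * (1 - (3 / 4 + t) ^ 2) -
      (c * ((3 / 4 + t) ^ 2 + (3 / 4 + t) - 1)) ^ 3 / 2 := by
  have e1 : 0 ≤ 3 / 100 - t := by linarith
  rcases hc with rfl | rfl
  · nlinarith [mul_nonneg ht0 e1, mul_nonneg (mul_nonneg ht0 e1) ht0,
      mul_nonneg (mul_nonneg (mul_nonneg ht0 e1) ht0) ht0,
      mul_nonneg (mul_nonneg (mul_nonneg (mul_nonneg ht0 e1) ht0) ht0) ht0,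
      mul_nonneg (mul_nonneg (mul_nonneg (mul_nonneg (mul_nonneg ht0 e1) ht0) ht0) ht0) ht0]
  · nlinarith [mul_nonneg ht0 e1, mul_nonneg (mul_nonneg ht0 e1) ht0,
      mul_nonneg (mul_nonneg (mul_nonneg ht0 e1) ht0) ht0,
      mul_nonneg (mul_nonneg (mul_nonneg (mul_nonneg ht0 e1) ht0) ht0) ht0,
      mul_nonneg (mul_nonneg (mul_nonneg (mul_nonneg (mul_nonneg ht0 e1) ht0) ht0) ht0) ht0]

/-- second region -/
lemma px1_mid (h1 : 3 / 4 ≤ h) (h2 : h ≤ 39 / 50) {P : ℝ}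
    (hP0 : 13 / 25 * (h ^ 2 + h - 1) ≤ P) (hP1 : P ≤ 17 / 25 * (h ^ 2 + h - 1)) :
    (1 - h) ^ 2 * h ^ 3 * (1 + h) / 100 ≤ (1 - h ^ 2 - h ^ 3) * h ^ 2 +
      h * P * ((h ^ 2 + 3 * h) / 2 - 1) - P ^ 2 * (1 - h ^ 2) - P ^ 3 / 2 := by
  obtain ⟨t, rfl⟩ : ∃ t, h = 3 / 4 + t := ⟨h - 3 / 4, by ring⟩
  have ht0 : 0 ≤ t := by linarith
  have ht1 : t ≤ 3 / 100 := by linarith
  have g0 := px1_mid_aux (c := 13 / 25) ht0 ht1 (Or.inl rfl)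
  have g1 := px1_mid_aux (c := 17 / 25) ht0 ht1 (Or.inr rfl)
  set h := 3 / 4 + t with hh
  set e := h ^ 2 + h - 1 with he
  have he0 : 0 < e := by rw [he]; nlinarith
  set K := (1 - h) ^ 2 * h ^ 3 * (1 + h) / 100 with hK
  have hq : 0 ≤ 1 - h ^ 2 := by nlinarith
  have hPp : 0 ≤ P := by nlinarith
  have key : (4 / 25 * e) * ((1 - h ^ 2 - h ^ 3) * h ^ 2 +
      h * P * ((h ^ 2 + 3 * h) / 2 - 1) - P ^ 2 * (1 - h ^ 2) - P ^ 3 / 2 - K) =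
      (17 / 25 * e - P) * ((1 - h ^ 2 - h ^ 3) * h ^ 2 +
        h * (13 / 25 * e) * ((h ^ 2 + 3 * h) / 2 - 1) - (13 / 25 * e) ^ 2 * (1 - h ^ 2) -
        (13 / 25 * e) ^ 3 / 2 - K) +
      (P - 13 / 25 * e) * ((1 - h ^ 2 - h ^ 3) * h ^ 2 +
        h * (17 / 25 * e) * ((h ^ 2 + 3 * h) / 2 - 1) - (17 / 25 * e) ^ 2 * (1 - h ^ 2) -
        (17 / 25 * e) ^ 3 / 2 - K) +
      (4 / 25 * e) * ((P - 13 / 25 * e) * (17 / 25 * e - P) *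
        ((1 - h ^ 2) + (P + 13 / 25 * e + 17 / 25 * e) / 2)) := by ring
  have k1 : 0 ≤ (17 / 25 * e - P) * ((1 - h ^ 2 - h ^ 3) * h ^ 2 +
        h * (13 / 25 * e) * ((h ^ 2 + 3 * h) / 2 - 1) - (13 / 25 * e) ^ 2 * (1 - h ^ 2) -
        (13 / 25 * e) ^ 3 / 2 - K) := mul_nonneg (by linarith) (by linarith)
  have k2 : 0 ≤ (P - 13 / 25 * e) * ((1 - h ^ 2 - h ^ 3) * h ^ 2 +
        h * (17 / 25 * e) * ((h ^ 2 + 3 * h) / 2 - 1) - (17 / 25 * e) ^ 2 * (1 - h ^ 2) -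
        (17 / 25 * e) ^ 3 / 2 - K) := mul_nonneg (by linarith) (by linarith)
  have k3 : 0 ≤ (4 / 25 * e) * ((P - 13 / 25 * e) * (17 / 25 * e - P) *
        ((1 - h ^ 2) + (P + 13 / 25 * e + 17 / 25 * e) / 2)) := by
    apply mul_nonneg (by linarith)
    apply mul_nonneg (mul_nonneg (by linarith) (by linarith))
    linarith
  have k4 : 0 ≤ (4 / 25 * e) * ((1 - h ^ 2 - h ^ 3) * h ^ 2 +
      h * P * ((h ^ 2 + 3 * h) / 2 - 1) - P ^ 2 * (1 - h ^ 2) - P ^ 3 / 2 - K) := by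
    rw [key]; linarith
  have k5 := nonneg_of_mul_nonneg_right k4 (by linarith : 0 < 4 / 25 * e)
  linarith

theorem PX1 (H : Par h b η ε) (hκ0 : 0 ≤ κ) (hκ : κ ≤ b ^ 2 / 100) (hr : CheapReg h ε p) :
    b + dl ε κ p ≤ (1 - (b + p ^ 2)) * (η + p - (b + dl ε κ p)) := by
  have h0 := H.hpos
  have hlt := H.hlt
  have hη := H.hη
  have hε := H.hε
  have hb := H.hb
  have hg := H.gold
  have hkey := H.key
  have hhe : h * ε = h ^ 2 + h - 1 := by rw [hε]; linarith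
  obtain ⟨hp, hcase⟩ := hr
  -- the main polynomial
  have hf : (1 - h) ^ 2 * h * (1 + h) / 100 ≤ (1 - h ^ 2 - h ^ 3) +
      p * ((h ^ 2 + 3 * h) / 2 - 1) - p ^ 2 * (1 - h ^ 2) - h * p ^ 3 / 2 := by
    rcases hcase with ⟨h1, hpe⟩ | ⟨h1, h2, hp0, hp1⟩
    · apply px1_low h0 hg h1 hp
      rw [← hhe]
      exact mul_le_mul_of_nonneg_left hpe h0.le
    · have hm := px1_mid (P := h * p) h1 h2
        (by rw [← hhe]; nlinarith [mul_le_mul_of_nonneg_left hp0 h0.le])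
        (by rw [← hhe]; nlinarith [mul_le_mul_of_nonneg_left hp1 h0.le])
      have h3 : 0 < h ^ 2 := by positivity
      have e1 : (1 - h) ^ 2 * h ^ 3 * (1 + h) / 100 =
        h ^ 2 * ((1 - h) ^ 2 * h * (1 + h) / 100) := by ring
      have e2 : (1 - h ^ 2 - h ^ 3) * h ^ 2 + h * (h * p) * ((h ^ 2 + 3 * h) / 2 - 1) -
          (h * p) ^ 2 * (1 - h ^ 2) - (h * p) ^ 3 / 2 =
        h ^ 2 * ((1 - h ^ 2 - h ^ 3) + p * ((h ^ 2 + 3 * h) / 2 - 1) -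
          p ^ 2 * (1 - h ^ 2) - h * p ^ 3 / 2) := by ring
      rw [e1, e2] at hm
      exact le_of_mul_le_mul_left hm h3
  -- the handicap
  have hk : κ * h * ((h - p ^ 2) + 1) ≤ (1 - h) ^ 2 * h * (1 + h) / 100 := by
    have a1 : κ ≤ (1 - h) ^ 2 / 100 := by rw [hb] at hκ; exact hκ
    have a2 : κ * h ≤ (1 - h) ^ 2 / 100 * h := mul_le_mul_of_nonneg_right a1 h0.le
    have a3 : κ * h * ((h - p ^ 2) + 1) ≤ κ * h * (1 + h) :=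
      mul_le_mul_of_nonneg_left (by nlinarith [sq_nonneg p]) (mul_nonneg hκ0 h0.le)
    have a4 : κ * h * (1 + h) ≤ (1 - h) ^ 2 / 100 * h * (1 + h) :=
      mul_le_mul_of_nonneg_right a2 (by linarith)
    calc κ * h * ((h - p ^ 2) + 1) ≤ κ * h * (1 + h) := a3
      _ ≤ (1 - h) ^ 2 / 100 * h * (1 + h) := a4
      _ = _ := by ring
  have hQ : 0 ≤ (h - p ^ 2) * (η - κ + p / 2) - p * (η - b) - ε + p / 2 - κ := by
    have e3 : h * ((h - p ^ 2) * (η - κ + p / 2) - p * (η - b) - ε + p / 2 - κ) =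
        ((1 - h ^ 2 - h ^ 3) + p * ((h ^ 2 + 3 * h) / 2 - 1) - p ^ 2 * (1 - h ^ 2) -
          h * p ^ 3 / 2) - κ * h * ((h - p ^ 2) + 1) := by
      have e4 : h * ((h - p ^ 2) * (η - κ + p / 2) - p * (η - b) - ε + p / 2 - κ) =
        (h - p ^ 2) * (h * η) - κ * h * (h - p ^ 2) + (h - p ^ 2) * h * p / 2 -
          p * (h * (η - b)) - h * ε + h * p / 2 - κ * h := by ring
      rw [e4, hη, hkey, hhe, hb]
      ring
    have e5 : 0 ≤ h * ((h - p ^ 2) * (η - κ + p / 2) - p * (η - b) - ε + p / 2 - κ) := by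
      rw [e3]; linarith
    exact nonneg_of_mul_nonneg_right e5 h0
  have hfin : (1 - (b + p ^ 2)) * (η + p - (b + dl ε κ p)) - (b + dl ε κ p) =
      p * ((h - p ^ 2) * (η - κ + p / 2) - p * (η - b) - ε + p / 2 - κ) := by
    have e6 : 1 - (b + p ^ 2) = h - p ^ 2 := by rw [hb]; ring
    rw [e6]
    have e7 : (h - p ^ 2) * (η + p - (b + dl ε κ p)) - (b + dl ε κ p) =
      (h * (η - b) - b) + p * ((h - p ^ 2) * (η - κ + p / 2) - p * (η - b) - ε + p / 2 - κ) +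
        (h - p ^ 2) * p * (1 - η - ε) := by
      unfold dl; ring
    rw [e7, hkey, hε]
    ring
  have := mul_nonneg hp hQ
  linarith

end Pool.Agent.TriPack
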