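import Pool.Agent.TriPack.ParBasic

/-!
# Row PX2: the five vertex inequalities in the region CheapReg

`k := η - b = b/h`, `Δ = dl ε κ p = pε - p^2/2 + pκ`, `0 ≤ κ ≤ b^2/100`,
region: `h ≤ 3/4, 0 ≤ p ≤ ε` or `3/4 ≤ h ≤ 39/50, 13/25 ε ≤ p ≤ 17/25 ε`.
Write `g = η+p`, `g-b-Δ = k + p(η-κ) + p^2/2`, `1-b = h`, `ε = 1-η`.
* `X1`: `RHS-LHS = p [ (h-p^2)(η-κ+p/2) - pk - ε + p/2 - κ ]`. (At `p = 0`: `hη-ε-κ`, and
  `h(hη-ε) = 1-h^2-h^3 ≥ 1/64` for `h ≤ 3/4`.)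
* `X2`: `RHS-LHS = p [ (1-p)(h-Δ) - (ε-p/2+κ)/h ]` (use `b/h+1 = 1/h`). (At `p = 0`:
  `h-ε/h = (1-h)^2(1+h)/h^2` for `κ = 0`.)
* `X4`: `RHS-LHS = p [ (h-Δ)(η-κ+p/2) - (ε-p/2+κ)k - p ]`.
* `X3`, `X5`: at `p = 0` both are `k^2 ≥ bη^2 ⟺ 1 ≥ b(1+h)^2` (`⟸ 1 ≤ h+h^2`; equality at the
  golden ratio, where `ε = 0`).
`RHS-LHS` in the middle region (κ = 0), `h = 0.78`: `p = 0.52ε`: 0.0023, 0.0090, 0.0285, 0.0180,
0.0323 (X1..X5); `p = 0.68ε`: 0.0076, 0.0071, 0.0236, 0.0060, 0.0230; `h = 3/4`: 0.0229, 0.0269,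
0.0403, 0.0332, 0.0434 resp. 0.0329, 0.0326, 0.0427, 0.0318, 0.0422.
Idea: polynomials in `(h,p)` after multiplication by powers of `h` (`h ε = h^2+h-1`,
`h η = 1-h^2`). All checked numerically on a fine grid.
-/

namespace Pool.Agent.TriPack

variable {h b η ε κ p : ℝ}

lemma px2_box1 {h t : ℝ} (h1 : 3 / 5 ≤ h) (h2 : h ≤ 3 / 4) (t1 : 0 ≤ t)
    (t2 : t ≤ 1) : 0 ≤ (h - t * (h ^ 2 + h - 1)) * (h ^ 3 - t * (h ^ 2 + h - 1) *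
      ((h ^ 2 + h - 1) - t * (h ^ 2 + h - 1) / 2 + h * (1 - h) ^ 2 / 100)) -
      h * ((h ^ 2 + h - 1) - t * (h ^ 2 + h - 1) / 2 + h * (1 - h) ^ 2 / 100) := by
  obtain ⟨x, rfl⟩ : ∃ x, h = 3 / 5 + x := ⟨h - 3 / 5, by ring⟩
  have hx : 0 ≤ x := by linarith
  have hy : 0 ≤ 3 / 20 - x := by linarith
  have hu : 0 ≤ t := by linarith
  have hv : 0 ≤ 1 - t := by linarith
  have key : ((3 / 5 + x) - t * ((3 / 5 + x) ^ 2 + (3 / 5 + x) - 1)) * ((3 / 5 + x) ^ 3 - t * ((3 / 5 + x) ^ 2 + (3 / 5 + x) - 1) *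
      (((3 / 5 + x) ^ 2 + (3 / 5 + x) - 1) - t * ((3 / 5 + x) ^ 2 + (3 / 5 + x) - 1) / 2 + (3 / 5 + x) * (1 - (3 / 5 + x)) ^ 2 / 100)) -
      (3 / 5 + x) * (((3 / 5 + x) ^ 2 + (3 / 5 + x) - 1) - t * ((3 / 5 + x) ^ 2 + (3 / 5 + x) - 1) / 2 + (3 / 5 + x) * (1 - (3 / 5 + x)) ^ 2 / 100) =
      (65290240 / 729) * (3 / 20 - x) ^ 7 * (1 - t) ^ 3 +
      (430469120 / 729) * x * (3 / 20 - x) ^ 6 * (1 - t) ^ 3 +
      (401872640 / 243) * x ^ 2 * (3 / 20 - x) ^ 5 * (1 - t) ^ 3 +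
      (1858221440 / 729) * x ^ 3 * (3 / 20 - x) ^ 4 * (1 - t) ^ 3 +
      (1701144400 / 729) * x ^ 4 * (3 / 20 - x) ^ 3 * (1 - t) ^ 3 +
      (308114000 / 243) * x ^ 5 * (3 / 20 - x) ^ 2 * (1 - t) ^ 3 +
      (275830000 / 729) * x ^ 6 * (3 / 20 - x) * (1 - t) ^ 3 +
      (34850000 / 729) * x ^ 7 * (1 - t) ^ 3 +
      (107798528 / 405) * (3 / 20 - x) ^ 7 * t * (1 - t) ^ 2 +
      (2164097024 / 1215) * x * (3 / 20 - x) ^ 6 * t * (1 - t) ^ 2 +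
      (1220397568 / 243) * x ^ 2 * (3 / 20 - x) ^ 5 * t * (1 - t) ^ 2 +
      (1869769280 / 243) * x ^ 3 * (3 / 20 - x) ^ 4 * t * (1 - t) ^ 2 +
      (185254000 / 27) * x ^ 4 * (3 / 20 - x) ^ 3 * t * (1 - t) ^ 2 +
      (853166500 / 243) * x ^ 5 * (3 / 20 - x) ^ 2 * t * (1 - t) ^ 2 +
      (225726875 / 243) * x ^ 6 * (3 / 20 - x) * t * (1 - t) ^ 2 +
      (22334375 / 243) * x ^ 7 * t * (1 - t) ^ 2 +
      (14428659712 / 54675) * (3 / 20 - x) ^ 7 * t ^ 2 * (1 - t) +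
      (19561392128 / 10935) * x * (3 / 20 - x) ^ 6 * t ^ 2 * (1 - t) +
      (3700676608 / 729) * x ^ 2 * (3 / 20 - x) ^ 5 * t ^ 2 * (1 - t) +
      (17001122240 / 2187) * x ^ 3 * (3 / 20 - x) ^ 4 * t ^ 2 * (1 - t) +
      (15030826400 / 2187) * x ^ 4 * (3 / 20 - x) ^ 3 * t ^ 2 * (1 - t) +
      (2514080500 / 729) * x ^ 5 * (3 / 20 - x) ^ 2 * t ^ 2 * (1 - t) +
      (1920004375 / 2187) * x ^ 6 * (3 / 20 - x) * t ^ 2 * (1 - t) +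
      (697459375 / 8748) * x ^ 7 * t ^ 2 * (1 - t) +
      (4773650432 / 54675) * (3 / 20 - x) ^ 7 * t ^ 3 +
      (6537920512 / 10935) * x * (3 / 20 - x) ^ 6 * t ^ 3 +
      (1246125824 / 729) * x ^ 2 * (3 / 20 - x) ^ 5 * t ^ 3 +
      (5753703040 / 2187) * x ^ 3 * (3 / 20 - x) ^ 4 * t ^ 3 +
      (5100685600 / 2187) * x ^ 4 * (3 / 20 - x) ^ 3 * t ^ 3 +
      (853298000 / 729) * x ^ 5 * (3 / 20 - x) ^ 2 * t ^ 3 +
      (649546250 / 2187) * x ^ 6 * (3 / 20 - x) * t ^ 3 + (233496875 / 8748) * x ^ 7 * t ^ 3 := by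
    ring
  rw [key]
  generalize 3 / 20 - x = y at *
  generalize 1 - t = v at *
  positivity

lemma px2_box2 {h t : ℝ} (h1 : 3 / 4 ≤ h) (h2 : h ≤ 39 / 50) (t1 : 13 / 25 ≤ t)
    (t2 : t ≤ 17 / 25) : 0 ≤ (h - t * (h ^ 2 + h - 1)) * (h ^ 3 - t * (h ^ 2 + h - 1) *
      ((h ^ 2 + h - 1) - t * (h ^ 2 + h - 1) / 2 + h * (1 - h) ^ 2 / 100)) -
      h * ((h ^ 2 + h - 1) - t * (h ^ 2 + h - 1) / 2 + h * (1 - h) ^ 2 / 100) := by
  obtain ⟨x, rfl⟩ : ∃ x, h = 3 / 4 + x := ⟨h - 3 / 4, by ring⟩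
  obtain ⟨u, rfl⟩ : ∃ u, t = 13 / 25 + u := ⟨t - 13 / 25, by ring⟩
  have hx : 0 ≤ x := by linarith
  have hy : 0 ≤ 3 / 100 - x := by linarith
  have hu : 0 ≤ u := by linarith
  have hv : 0 ≤ 4 / 25 - u := by linarith
  have key : ((3 / 4 + x) - (13 / 25 + u) * ((3 / 4 + x) ^ 2 + (3 / 4 + x) - 1)) * ((3 / 4 + x) ^ 3 - (13 / 25 + u) * ((3 / 4 + x) ^ 2 + (3 / 4 + x) - 1) *
      (((3 / 4 + x) ^ 2 + (3 / 4 + x) - 1) - (13 / 25 + u) * ((3 / 4 + x) ^ 2 + (3 / 4 + x) - 1) / 2 + (3 / 4 + x) * (1 - (3 / 4 + x)) ^ 2 / 100)) -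
      (3 / 4 + x) * (((3 / 4 + x) ^ 2 + (3 / 4 + x) - 1) - (13 / 25 + u) * ((3 / 4 + x) ^ 2 + (3 / 4 + x) - 1) / 2 + (3 / 4 + x) * (1 - (3 / 4 + x)) ^ 2 / 100) =
      (324628753662109375 / 559872) * (3 / 100 - x) ^ 7 * (4 / 25 - u) ^ 3 +
      (1033635418701171875 / 279936) * x * (3 / 100 - x) ^ 6 * (4 / 25 - u) ^ 3 +
      (464053971337890625 / 46656) * x ^ 2 * (3 / 100 - x) ^ 5 * (4 / 25 - u) ^ 3 +
      (1024486018333984375 / 69984) * x ^ 3 * (3 / 100 - x) ^ 4 * (4 / 25 - u) ^ 3 +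
      (442530474925578125 / 34992) * x ^ 4 * (3 / 100 - x) ^ 3 * (4 / 25 - u) ^ 3 +
      (37091164935021875 / 5832) * x ^ 5 * (3 / 100 - x) ^ 2 * (4 / 25 - u) ^ 3 +
      (14868420738163825 / 8748) * x ^ 6 * (3 / 100 - x) * (4 / 25 - u) ^ 3 +
      (792438421348301 / 4374) * x ^ 7 * (4 / 25 - u) ^ 3 +
      (943379669189453125 / 559872) * (3 / 100 - x) ^ 7 * u * (4 / 25 - u) ^ 2 +
      (2984640338134765625 / 279936) * x * (3 / 100 - x) ^ 6 * u * (4 / 25 - u) ^ 2 +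
      (1329054722998046875 / 46656) * x ^ 2 * (3 / 100 - x) ^ 5 * u * (4 / 25 - u) ^ 2 +
      (2902687163658203125 / 69984) * x ^ 3 * (3 / 100 - x) ^ 4 * u * (4 / 25 - u) ^ 2 +
      (1235422201009109375 / 34992) * x ^ 4 * (3 / 100 - x) ^ 3 * u * (4 / 25 - u) ^ 2 +
      (101350123074715625 / 5832) * x ^ 5 * (3 / 100 - x) ^ 2 * u * (4 / 25 - u) ^ 2 +
      (39276409620810475 / 8748) * x ^ 6 * (3 / 100 - x) * u * (4 / 25 - u) ^ 2 +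
      (1969468565133719 / 4374) * x ^ 7 * u * (4 / 25 - u) ^ 2 +
      (919813995361328125 / 559872) * (3 / 100 - x) ^ 7 * u ^ 2 * (4 / 25 - u) +
      (2894578814697265625 / 279936) * x * (3 / 100 - x) ^ 6 * u ^ 2 * (4 / 25 - u) +
      (1280061857763671875 / 46656) * x ^ 2 * (3 / 100 - x) ^ 5 * u ^ 2 * (4 / 25 - u) +
      (2769879026470703125 / 69984) * x ^ 3 * (3 / 100 - x) ^ 4 * u ^ 2 * (4 / 25 - u) +
      (1163648828979734375 / 34992) * x ^ 4 * (3 / 100 - x) ^ 3 * u ^ 2 * (4 / 25 - u) +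
      (93615659966815625 / 5832) * x ^ 5 * (3 / 100 - x) ^ 2 * u ^ 2 * (4 / 25 - u) +
      (35120751821269075 / 8748) * x ^ 6 * (3 / 100 - x) * u ^ 2 * (4 / 25 - u) +
      (1651347428042999 / 4374) * x ^ 7 * u ^ 2 * (4 / 25 - u) +
      (137481689453125 / 256) * (3 / 100 - x) ^ 7 * u ^ 3 +
      (314022027587890625 / 93312) * x * (3 / 100 - x) ^ 6 * u ^ 3 +
      (138076993701171875 / 15552) * x ^ 2 * (3 / 100 - x) ^ 5 * u ^ 3 +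
      (98821819849609375 / 7776) * x ^ 3 * (3 / 100 - x) ^ 4 * u ^ 3 +
      (123168327858734375 / 11664) * x ^ 4 * (3 / 100 - x) ^ 3 * u ^ 3 +
      (9739826443440625 / 1944) * x ^ 5 * (3 / 100 - x) ^ 2 * u ^ 3 +
      (1181965071244625 / 972) * x ^ 6 * (3 / 100 - x) * u ^ 3 +
      (156152697715727 / 1458) * x ^ 7 * u ^ 3 := by
    ring
  rw [key]
  generalize 3 / 100 - x = y at *
  generalize 4 / 25 - u = v at *
  positivity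

/-- parametrisation of `p` -/
lemma px2_par (H : Par h b η ε) (hr : CheapReg h ε p) :
    ∃ t : ℝ, h * p = t * (h ^ 2 + h - 1) ∧ 0 ≤ t ∧
      ((h ≤ 3 / 4 ∧ t ≤ 1) ∨ (3 / 4 ≤ h ∧ h ≤ 39 / 50 ∧ 13 / 25 ≤ t ∧ t ≤ 17 / 25)) := by
  have h0 := H.hpos
  have hhe : h * ε = h ^ 2 + h - 1 := by rw [H.hε]; linarith [H.hη]
  have hE : 0 ≤ h ^ 2 + h - 1 := by linarith [H.gold]
  obtain ⟨hp, hcase⟩ := hr
  rcases hE.eq_or_lt with hE0 | hE0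
  · rcases hcase with ⟨h1, hpe⟩ | ⟨h1, h2, hp0, hp1⟩
    · refine ⟨0, ?_, le_refl 0, Or.inl ⟨h1, zero_le_one⟩⟩
      have h3 : h * p ≤ h * ε := mul_le_mul_of_nonneg_left hpe h0.le
      have h4 : 0 ≤ h * p := mul_nonneg h0.le hp
      rw [hhe, ← hE0] at h3
      rw [zero_mul]
      linarith
    · exfalso
      nlinarith
  · refine ⟨h * p / (h ^ 2 + h - 1), (div_mul_cancel₀ _ hE0.ne').symm,
      div_nonneg (mul_nonneg h0.le hp) hE0.le, ?_⟩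
    rcases hcase with ⟨h1, hpe⟩ | ⟨h1, h2, hp0, hp1⟩
    · refine Or.inl ⟨h1, ?_⟩
      rw [div_le_one hE0, ← hhe]
      exact mul_le_mul_of_nonneg_left hpe h0.le
    · refine Or.inr ⟨h1, h2, ?_, ?_⟩
      · rw [le_div_iff₀ hE0, ← hhe]
        nlinarith [mul_le_mul_of_nonneg_left hp0 h0.le]
      · rw [div_le_iff₀ hE0, ← hhe]
        nlinarith [mul_le_mul_of_nonneg_left hp1 h0.le]

theorem PX2 (H : Par h b η ε) (hκ0 : 0 ≤ κ) (hκ : κ ≤ b ^ 2 / 100) (hr : CheapReg h ε p) :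
    b + dl ε κ p ≤ (η + p - (b + p ^ 2)) * (1 - (b + dl ε κ p)) := by
  have h0 := H.hpos
  have hb := H.hb
  have hbk := H.key
  have hhe : h * ε = h ^ 2 + h - 1 := by rw [H.hε]; linarith [H.hη]
  have hη1 := H.η_le_one
  have hp := hr.1
  obtain ⟨t, hP, ht0, ht⟩ := px2_par H hr
  -- the polynomial
  have hF : 0 ≤ (h - t * (h ^ 2 + h - 1)) * (h ^ 3 - t * (h ^ 2 + h - 1) *
      ((h ^ 2 + h - 1) - t * (h ^ 2 + h - 1) / 2 + h * (1 - h) ^ 2 / 100)) -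
      h * ((h ^ 2 + h - 1) - t * (h ^ 2 + h - 1) / 2 + h * (1 - h) ^ 2 / 100) := by
    rcases ht with ⟨h1, ht1⟩ | ⟨h1, h2, ht1, ht2⟩
    · exact px2_box1 H.h_ge h1 ht0 ht1
    · exact px2_box2 h1 h2 ht1 ht2
  rw [← hP] at hF
  -- `Q = (1-p)(h-Δ₁) - D₁/h ≥ 0`
  set D : ℝ := ε - p / 2 + b ^ 2 / 100 with hD
  have hhD : h * D = (h ^ 2 + h - 1) - h * p / 2 + h * (1 - h) ^ 2 / 100 := by
    rw [hD, ← hhe, hb]; ring
  rw [← hhD] at hF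
  have hF2 : 0 ≤ h ^ 2 * (h * ((1 - p) * (h - p * D)) - D) := by
    have e : h ^ 2 * (h * ((1 - p) * (h - p * D)) - D) =
      (h - h * p) * (h ^ 3 - h * p * (h * D)) - h * (h * D) := by ring
    rw [e]; exact hF
  have hF3 : 0 ≤ h * ((1 - p) * (h - p * D)) - D :=
    nonneg_of_mul_nonneg_right hF2 (by positivity)
  have hΔ : dl ε κ p ≤ p * D := by
    rw [hD]
    unfold dl
    nlinarith [mul_nonneg hp (sub_nonneg.2 hκ)]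
  -- `g - b - p² = b/h + p - p²`, `h (g - b - p²) = b + h p (1 - p)`
  have hε0 := H.ε_nonneg
  have hph : p ≤ h := by
    have h1 : p ≤ ε := by
      obtain ⟨_, hcase⟩ := hr
      rcases hcase with ⟨_, h2⟩ | ⟨_, _, _, h2⟩
      · exact h2
      · linarith
    exact h1.trans H.ε_le_h
  have hp1 : p ≤ 1 := hph.trans H.hlt.le
  have hbη := H.b_lt_η
  have hg : 0 ≤ η + p - (b + p ^ 2) := by nlinarith
  have hmain : 0 ≤ (η + p - (b + p ^ 2)) * (h - p * D) - b - p * D := by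
    have e : h * ((η + p - (b + p ^ 2)) * (h - p * D) - b - p * D) =
        p * (h * ((1 - p) * (h - p * D)) - D) := by
      have e1 : h * ((η + p - (b + p ^ 2)) * (h - p * D) - b - p * D) =
        (h * (η - b)) * (h - p * D) + h * (p * (1 - p)) * (h - p * D) - h * b - h * (p * D) := by
        ring
      rw [e1, hbk, hb]; ring
    have e2 : 0 ≤ h * ((η + p - (b + p ^ 2)) * (h - p * D) - b - p * D) := by
      rw [e]; exact mul_nonneg hp hF3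
    exact nonneg_of_mul_nonneg_right e2 h0
  have e3 : 1 - (b + dl ε κ p) = h - dl ε κ p := by rw [hb]; ring
  rw [e3]
  have e4 : (η + p - (b + p ^ 2)) * (h - p * D) ≤ (η + p - (b + p ^ 2)) * (h - dl ε κ p) :=
    mul_le_mul_of_nonneg_left (by linarith) hg
  linarith

end Pool.Agent.TriPack
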