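import Pool.Agent.TriPack.ParBasic

/-!
# Row PX3: the five vertex inequalities in the region CheapReg

`k := η - b = b/h`, `Δ = dl ε κ p = pε - p^2/2 + pκ`, `0 ≤ κ ≤ b^2/100`,
region: `h ≤ 3/4, 0 ≤ p ≤ ε` or `3/4 ≤ h ≤ 39/50, 13/25 ε ≤ p ≤ 17/25 ε`.
Write `g = η+p`, `g-b-Δ = k + p(η-κ) + p^2/2`, `1-b = h`, `ε = 1-η`.
* `X1`: `RHS-LHS = p [ (h-p^2)(η-κ+p/2) - pk - ε + p/2 - κ ]`. (At `p = 0`: `hη-ε-κ`, and
  `h(hη-ε) = 1-h^2-h^3 ≥ 1/64` for `h ≤ 3/4`.)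
* `X2`: `RHS-LHS = p [ (1-p)(h-Δ) - (ε-p/2+κ)/h ]` (use `b/h+1 = 1/h`). (At `p = 0`:
  `h-ε/h = (1-h)^2(1+h)/h^2` for `κ = 0`.)
* `X4`: `RHS-LHS = p [ (h-Δ)(η-κ+p/2) - (ε-p/2+κ)k - p ]`.
* `X3`, `X5`: at `p = 0` both are `k^2 ≥ bη^2 ⟺ 1 ≥ b(1+h)^2` (`⟸ 1 ≤ h+h^2`; equality at the
  golden ratio, where `ε = 0`).
`RHS-LHS` in the middle region (κ = 0), `h = 0.78`: `p = 0.52ε`: 0.0023, 0.0090, 0.0285, 0.0180,
0.0323 (X1..X5); `p = 0.68ε`: 0.0076, 0.0071, 0.0236, 0.0060, 0.0230; `h = 3/4`: 0.0229, 0.0269,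
0.0403, 0.0332, 0.0434 resp. 0.0329, 0.0326, 0.0427, 0.0318, 0.0422.
Idea: polynomials in `(h,p)` after multiplication by powers of `h` (`h ε = h^2+h-1`,
`h η = 1-h^2`). All checked numerically on a fine grid.
-/

namespace Pool.Agent.TriPack

variable {h b η ε κ p : ℝ}

lemma px3_box1 {h t : ℝ} (h1 : 3 / 5 ≤ h) (h2 : h ≤ 3 / 4) (t1 : 0 ≤ t)
    (t2 : t ≤ 1) : 0 ≤ t - (5 / 2) * t ^ 2 + t ^ 3 - (1 / 100) * h * t + (201 / 50) * h * t ^ 2 -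
      (5 / 2) * h * t ^ 3 - (499 / 100) * h ^ 2 * t + (129 / 20) * h ^ 2 * t ^ 2 -
      h ^ 2 * t ^ 3 + h ^ 3 + (51 / 25) * h ^ 3 * t - (901 / 100) * h ^ 3 * t ^ 2 +
      (9 / 2) * h ^ 3 * t ^ 3 - 2 * h ^ 4 + (593 / 100) * h ^ 4 * t -
      (59 / 10) * h ^ 4 * t ^ 2 + h ^ 4 * t ^ 3 + h ^ 5 - (149 / 50) * h ^ 5 * t +
      (89 / 20) * h ^ 5 * t ^ 2 - (5 / 2) * h ^ 5 * t ^ 3 - (49 / 50) * h ^ 6 * t +
      (247 / 100) * h ^ 6 * t ^ 2 - h ^ 6 * t ^ 3 - (1 / 100) * h ^ 7 * t +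
      (1 / 50) * h ^ 7 * t ^ 2 := by
  obtain ⟨x, rfl⟩ : ∃ x, h = 3 / 5 + x := ⟨h - 3 / 5, by ring⟩
  have hx : 0 ≤ x := by linarith
  have hy : 0 ≤ 3 / 20 - x := by linarith
  have hu : 0 ≤ t := by linarith
  have hv : 0 ≤ 1 - t := by linarith
  have key : t - (5 / 2) * t ^ 2 + t ^ 3 - (1 / 100) * (3 / 5 + x) * t + (201 / 50) * (3 / 5 +
      x) * t ^ 2 - (5 / 2) * (3 / 5 + x) * t ^ 3 - (499 / 100) * (3 / 5 + x) ^ 2 * t +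
      (129 / 20) * (3 / 5 + x) ^ 2 * t ^ 2 - (3 / 5 + x) ^ 2 * t ^ 3 + (3 / 5 + x) ^ 3 +
      (51 / 25) * (3 / 5 + x) ^ 3 * t - (901 / 100) * (3 / 5 + x) ^ 3 * t ^ 2 +
      (9 / 2) * (3 / 5 + x) ^ 3 * t ^ 3 - 2 * (3 / 5 + x) ^ 4 + (593 / 100) * (3 / 5 +
      x) ^ 4 * t - (59 / 10) * (3 / 5 + x) ^ 4 * t ^ 2 + (3 / 5 + x) ^ 4 * t ^ 3 + (3 / 5 +
      x) ^ 5 - (149 / 50) * (3 / 5 + x) ^ 5 * t + (89 / 20) * (3 / 5 + x) ^ 5 * t ^ 2 -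
      (5 / 2) * (3 / 5 + x) ^ 5 * t ^ 3 - (49 / 50) * (3 / 5 + x) ^ 6 * t +
      (247 / 100) * (3 / 5 + x) ^ 6 * t ^ 2 - (3 / 5 + x) ^ 6 * t ^ 3 - (1 / 100) * (3 / 5 +
      x) ^ 7 * t + (1 / 50) * (3 / 5 + x) ^ 7 * t ^ 2 =
      (1638400 / 81) * (3 / 20 - x) ^ 7 * (1 - t) ^ 3 +
      (11468800 / 81) * x * (3 / 20 - x) ^ 6 * (1 - t) ^ 3 +
      (11340800 / 27) * x ^ 2 * (3 / 20 - x) ^ 5 * (1 - t) ^ 3 +
      (18464000 / 27) * x ^ 3 * (3 / 20 - x) ^ 4 * (1 - t) ^ 3 +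
      (17800000 / 27) * x ^ 4 * (3 / 20 - x) ^ 3 * (1 - t) ^ 3 +
      (10150000 / 27) * x ^ 5 * (3 / 20 - x) ^ 2 * (1 - t) ^ 3 +
      (9500000 / 81) * x ^ 6 * (3 / 20 - x) * (1 - t) ^ 3 +
      (1250000 / 81) * x ^ 7 * (1 - t) ^ 3 +
      (7447052288 / 54675) * (3 / 20 - x) ^ 7 * t * (1 - t) ^ 2 +
      (9405571072 / 10935) * x * (3 / 20 - x) ^ 6 * t * (1 - t) ^ 2 +
      (1696758272 / 729) * x ^ 2 * (3 / 20 - x) ^ 5 * t * (1 - t) ^ 2 +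
      (7663407040 / 2187) * x ^ 3 * (3 / 20 - x) ^ 4 * t * (1 - t) ^ 2 +
      (6943806400 / 2187) * x ^ 4 * (3 / 20 - x) ^ 3 * t * (1 - t) ^ 2 +
      (1264062500 / 729) * x ^ 5 * (3 / 20 - x) ^ 2 * t * (1 - t) ^ 2 +
      (1156705625 / 2187) * x ^ 6 * (3 / 20 - x) * t * (1 - t) ^ 2 +
      (607840625 / 8748) * x ^ 7 * t * (1 - t) ^ 2 +
      (2219474944 / 10935) * (3 / 20 - x) ^ 7 * t ^ 2 * (1 - t) +
      (14430889984 / 10935) * x * (3 / 20 - x) ^ 6 * t ^ 2 * (1 - t) +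
      (2637437696 / 729) * x ^ 2 * (3 / 20 - x) ^ 5 * t ^ 2 * (1 - t) +
      (11829158080 / 2187) * x ^ 3 * (3 / 20 - x) ^ 4 * t ^ 2 * (1 - t) +
      (10385392000 / 2187) * x ^ 4 * (3 / 20 - x) ^ 3 * t ^ 2 * (1 - t) +
      (1777935500 / 729) * x ^ 5 * (3 / 20 - x) ^ 2 * t ^ 2 * (1 - t) +
      (1476314375 / 2187) * x ^ 6 * (3 / 20 - x) * t ^ 2 * (1 - t) +
      (168771875 / 2187) * x ^ 7 * t ^ 2 * (1 - t) +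
      (4773650432 / 54675) * (3 / 20 - x) ^ 7 * t ^ 3 +
      (6537920512 / 10935) * x * (3 / 20 - x) ^ 6 * t ^ 3 +
      (1246125824 / 729) * x ^ 2 * (3 / 20 - x) ^ 5 * t ^ 3 +
      (5753703040 / 2187) * x ^ 3 * (3 / 20 - x) ^ 4 * t ^ 3 +
      (5100685600 / 2187) * x ^ 4 * (3 / 20 - x) ^ 3 * t ^ 3 +
      (853298000 / 729) * x ^ 5 * (3 / 20 - x) ^ 2 * t ^ 3 +
      (649546250 / 2187) * x ^ 6 * (3 / 20 - x) * t ^ 3 + (233496875 / 8748) * x ^ 7 * t ^ 3 := by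
    ring
  rw [key]
  generalize 3 / 20 - x = y at *
  generalize 1 - t = v at *
  positivity

lemma px3_box2 {h t : ℝ} (h1 : 3 / 4 ≤ h) (h2 : h ≤ 39 / 50) (t1 : 13 / 25 ≤ t)
    (t2 : t ≤ 17 / 25) : 0 ≤ t - (5 / 2) * t ^ 2 + t ^ 3 - (1 / 100) * h * t + (201 / 50) * h * t ^ 2 -
      (5 / 2) * h * t ^ 3 - (499 / 100) * h ^ 2 * t + (129 / 20) * h ^ 2 * t ^ 2 -
      h ^ 2 * t ^ 3 + h ^ 3 + (51 / 25) * h ^ 3 * t - (901 / 100) * h ^ 3 * t ^ 2 +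
      (9 / 2) * h ^ 3 * t ^ 3 - 2 * h ^ 4 + (593 / 100) * h ^ 4 * t -
      (59 / 10) * h ^ 4 * t ^ 2 + h ^ 4 * t ^ 3 + h ^ 5 - (149 / 50) * h ^ 5 * t +
      (89 / 20) * h ^ 5 * t ^ 2 - (5 / 2) * h ^ 5 * t ^ 3 - (49 / 50) * h ^ 6 * t +
      (247 / 100) * h ^ 6 * t ^ 2 - h ^ 6 * t ^ 3 - (1 / 100) * h ^ 7 * t +
      (1 / 50) * h ^ 7 * t ^ 2 := by
  obtain ⟨x, rfl⟩ : ∃ x, h = 3 / 4 + x := ⟨h - 3 / 4, by ring⟩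
  obtain ⟨u, rfl⟩ : ∃ u, t = 13 / 25 + u := ⟨t - 13 / 25, by ring⟩
  have hx : 0 ≤ x := by linarith
  have hy : 0 ≤ 3 / 100 - x := by linarith
  have hu : 0 ≤ u := by linarith
  have hv : 0 ≤ 4 / 25 - u := by linarith
  have key : (13 / 25 + u) - (5 / 2) * (13 / 25 + u) ^ 2 + (13 / 25 + u) ^ 3 - (1 / 100) * (3 / 4 +
      x) * (13 / 25 + u) + (201 / 50) * (3 / 4 + x) * (13 / 25 + u) ^ 2 - (5 / 2) * (3 / 4 +
      x) * (13 / 25 + u) ^ 3 - (499 / 100) * (3 / 4 + x) ^ 2 * (13 / 25 + u) +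
      (129 / 20) * (3 / 4 + x) ^ 2 * (13 / 25 + u) ^ 2 - (3 / 4 + x) ^ 2 * (13 / 25 + u) ^ 3 +
      (3 / 4 + x) ^ 3 + (51 / 25) * (3 / 4 + x) ^ 3 * (13 / 25 + u) - (901 / 100) * (3 / 4 +
      x) ^ 3 * (13 / 25 + u) ^ 2 + (9 / 2) * (3 / 4 + x) ^ 3 * (13 / 25 + u) ^ 3 -
      2 * (3 / 4 + x) ^ 4 + (593 / 100) * (3 / 4 + x) ^ 4 * (13 / 25 + u) -
      (59 / 10) * (3 / 4 + x) ^ 4 * (13 / 25 + u) ^ 2 + (3 / 4 + x) ^ 4 * (13 / 25 + u) ^ 3 +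
      (3 / 4 + x) ^ 5 - (149 / 50) * (3 / 4 + x) ^ 5 * (13 / 25 + u) + (89 / 20) * (3 / 4 +
      x) ^ 5 * (13 / 25 + u) ^ 2 - (5 / 2) * (3 / 4 + x) ^ 5 * (13 / 25 + u) ^ 3 -
      (49 / 50) * (3 / 4 + x) ^ 6 * (13 / 25 + u) + (247 / 100) * (3 / 4 + x) ^ 6 * (13 / 25 +
      u) ^ 2 - (3 / 4 + x) ^ 6 * (13 / 25 + u) ^ 3 - (1 / 100) * (3 / 4 + x) ^ 7 * (13 / 25 +
      u) + (1 / 50) * (3 / 4 + x) ^ 7 * (13 / 25 + u) ^ 2 =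
      (254158416748046875 / 559872) * (3 / 100 - x) ^ 7 * (4 / 25 - u) ^ 3 +
      (847790238037109375 / 279936) * x * (3 / 100 - x) ^ 6 * (4 / 25 - u) ^ 3 +
      (402869801376953125 / 46656) * x ^ 2 * (3 / 100 - x) ^ 5 * (4 / 25 - u) ^ 3 +
      (954274177226171875 / 69984) * x ^ 3 * (3 / 100 - x) ^ 4 * (4 / 25 - u) ^ 3 +
      (450529191838390625 / 34992) * x ^ 4 * (3 / 100 - x) ^ 3 * (4 / 25 - u) ^ 3 +
      (42377463912119375 / 5832) * x ^ 5 * (3 / 100 - x) ^ 2 * (4 / 25 - u) ^ 3 +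
      (19844240481234325 / 8748) * x ^ 6 * (3 / 100 - x) * (4 / 25 - u) ^ 3 +
      (1320969250294577 / 4374) * x ^ 7 * (4 / 25 - u) ^ 3 +
      (779501251220703125 / 559872) * (3 / 100 - x) ^ 7 * u * (4 / 25 - u) ^ 2 +
      (2585467623291015625 / 279936) * x * (3 / 100 - x) ^ 6 * u * (4 / 25 - u) ^ 2 +
      (1220671607216796875 / 46656) * x ^ 2 * (3 / 100 - x) ^ 5 * u * (4 / 25 - u) ^ 2 +
      (2869923440289453125 / 69984) * x ^ 3 * (3 / 100 - x) ^ 4 * u * (4 / 25 - u) ^ 2 +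
      (1343321064126859375 / 34992) * x ^ 4 * (3 / 100 - x) ^ 3 * u * (4 / 25 - u) ^ 2 +
      (125095590010965625 / 5832) * x ^ 5 * (3 / 100 - x) ^ 2 * u * (4 / 25 - u) ^ 2 +
      (57895290345045275 / 8748) * x ^ 6 * (3 / 100 - x) * u * (4 / 25 - u) ^ 2 +
      (3800755749881863 / 4374) * x ^ 7 * u * (4 / 25 - u) ^ 2 +
      (264604461669921875 / 186624) * (3 / 100 - x) ^ 7 * u ^ 2 * (4 / 25 - u) +
      (96873304443359375 / 10368) * x * (3 / 100 - x) ^ 6 * u ^ 2 * (4 / 25 - u) +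
      (408469270830078125 / 15552) * x ^ 2 * (3 / 100 - x) ^ 5 * u ^ 2 * (4 / 25 - u) +
      (951716316416796875 / 23328) * x ^ 3 * (3 / 100 - x) ^ 4 * u ^ 2 * (4 / 25 - u) +
      (48971188384890625 / 1296) * x ^ 4 * (3 / 100 - x) ^ 3 * u ^ 2 * (4 / 25 - u) +
      (40524836526124375 / 1944) * x ^ 5 * (3 / 100 - x) ^ 2 * u ^ 2 * (4 / 25 - u) +
      (18469793046871325 / 2916) * x ^ 6 * (3 / 100 - x) * u ^ 2 * (4 / 25 - u) +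
      (132221593951649 / 162) * x ^ 7 * u ^ 2 * (4 / 25 - u) +
      (89542266845703125 / 186624) * (3 / 100 - x) ^ 7 * u ^ 3 +
      (292803736572265625 / 93312) * x * (3 / 100 - x) ^ 6 * u ^ 3 +
      (135945527216796875 / 15552) * x ^ 2 * (3 / 100 - x) ^ 5 * u ^ 3 +
      (313333713395703125 / 23328) * x ^ 3 * (3 / 100 - x) ^ 4 * u ^ 3 +
      (143211809479859375 / 11664) * x ^ 4 * (3 / 100 - x) ^ 3 * u ^ 3 +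
      (12957160784055625 / 1944) * x ^ 5 * (3 / 100 - x) ^ 2 * u ^ 3 +
      (5787565349560475 / 2916) * x ^ 6 * (3 / 100 - x) * u ^ 3 +
      (363414936855479 / 1458) * x ^ 7 * u ^ 3 := by
    ring
  rw [key]
  generalize 3 / 100 - x = y at *
  generalize 4 / 25 - u = v at *
  positivity

/-- parametrisation of `p` -/
lemma px3_par (H : Par h b η ε) (hr : CheapReg h ε p) :
    ∃ t : ℝ, h * p = t * (h ^ 2 + h - 1) ∧ 0 ≤ t ∧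
      ((h ≤ 3 / 4 ∧ t ≤ 1) ∨ (3 / 4 ≤ h ∧ h ≤ 39 / 50 ∧ 13 / 25 ≤ t ∧ t ≤ 17 / 25)) := by
  have h0 := H.hpos
  have hhe : h * ε = h ^ 2 + h - 1 := by rw [H.hε]; linarith [H.hη]
  have hE : 0 ≤ h ^ 2 + h - 1 := by linarith [H.gold]
  obtain ⟨hp, hcase⟩ := hr
  rcases hE.eq_or_lt with hE0 | hE0
  · rcases hcase with ⟨h1, hpe⟩ | ⟨h1, h2, hp0, hp1⟩
    · refine ⟨0, ?_, le_refl 0, Or.inl ⟨h1, zero_le_one⟩⟩
      have h3 : h * p ≤ h * ε := mul_le_mul_of_nonneg_left hpe h0.le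
      have h4 : 0 ≤ h * p := mul_nonneg h0.le hp
      rw [hhe, ← hE0] at h3
      rw [zero_mul]
      linarith
    · exfalso
      nlinarith
  · refine ⟨h * p / (h ^ 2 + h - 1), (div_mul_cancel₀ _ hE0.ne').symm,
      div_nonneg (mul_nonneg h0.le hp) hE0.le, ?_⟩
    rcases hcase with ⟨h1, hpe⟩ | ⟨h1, h2, hp0, hp1⟩
    · refine Or.inl ⟨h1, ?_⟩
      rw [div_le_one hE0, ← hhe]
      exact mul_le_mul_of_nonneg_left hpe h0.le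
    · refine Or.inr ⟨h1, h2, ?_, ?_⟩
      · rw [le_div_iff₀ hE0, ← hhe]
        nlinarith [mul_le_mul_of_nonneg_left hp0 h0.le]
      · rw [div_le_iff₀ hE0, ← hhe]
        nlinarith [mul_le_mul_of_nonneg_left hp1 h0.le]

theorem PX3 (H : Par h b η ε) (hκ0 : 0 ≤ κ) (hκ : κ ≤ b ^ 2 / 100) (hr : CheapReg h ε p) :
    (η + p) ^ 2 * (b + dl ε κ p) ≤ (η + p - (b + p ^ 2)) * (η + p - (b + dl ε κ p)) := by
  have h0 := H.hpos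
  have hb := H.hb
  have hbk := H.key
  have hη := H.hη
  have hhe : h * ε = h ^ 2 + h - 1 := by rw [H.hε]; linarith [H.hη]
  have hη1 := H.η_le_one
  have hE0 : 0 ≤ h ^ 2 + h - 1 := by linarith [H.gold]
  have hp := hr.1
  have hε0 := H.ε_nonneg
  have hpε : p ≤ ε := by
    obtain ⟨_, hcase⟩ := hr
    rcases hcase with ⟨_, h2⟩ | ⟨_, _, _, h2⟩
    · exact h2
    · linarith
  have hph : p ≤ h := hpε.trans H.ε_le_h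
  have hlt := H.hlt
  have hbη := H.b_lt_η
  have hb0 := H.b_pos
  obtain ⟨t, hP, ht0, ht⟩ := px3_par H hr
  set D : ℝ := ε - p / 2 + b ^ 2 / 100 with hD
  have hhD : h * D = (h ^ 2 + h - 1) - t * (h ^ 2 + h - 1) / 2 + h * (1 - h) ^ 2 / 100 := by
    rw [hD, ← hhe, hb]
    have : h * (ε - p / 2 + (1 - h) ^ 2 / 100) = h * ε - h * p / 2 + h * (1 - h) ^ 2 / 100 := by
      ring
    rw [this, hP, hhe]
  have hΔ : dl ε κ p ≤ p * D := by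
    rw [hD]
    unfold dl
    nlinarith [mul_nonneg hp (sub_nonneg.2 hκ)]
  have hΔ0 : 0 ≤ dl ε κ p := by
    unfold dl
    nlinarith [mul_nonneg hp hκ0, mul_nonneg hp (sub_nonneg.2 hpε)]
  have hD0 : 0 ≤ D := by rw [hD]; nlinarith [sq_nonneg b]
  have hq : 0 ≤ t - (5 / 2) * t ^ 2 + t ^ 3 - (1 / 100) * h * t + (201 / 50) * h * t ^ 2 -
      (5 / 2) * h * t ^ 3 - (499 / 100) * h ^ 2 * t + (129 / 20) * h ^ 2 * t ^ 2 -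
      h ^ 2 * t ^ 3 + h ^ 3 + (51 / 25) * h ^ 3 * t - (901 / 100) * h ^ 3 * t ^ 2 +
      (9 / 2) * h ^ 3 * t ^ 3 - 2 * h ^ 4 + (593 / 100) * h ^ 4 * t -
      (59 / 10) * h ^ 4 * t ^ 2 + h ^ 4 * t ^ 3 + h ^ 5 - (149 / 50) * h ^ 5 * t +
      (89 / 20) * h ^ 5 * t ^ 2 - (5 / 2) * h ^ 5 * t ^ 3 - (49 / 50) * h ^ 6 * t +
      (247 / 100) * h ^ 6 * t ^ 2 - h ^ 6 * t ^ 3 - (1 / 100) * h ^ 7 * t +
      (1 / 50) * h ^ 7 * t ^ 2 := by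
    rcases ht with ⟨h1, ht1⟩ | ⟨h1, h2, ht1, ht2⟩
    · exact px3_box1 H.h_ge h1 ht0 ht1
    · exact px3_box2 h1 h2 ht1 ht2
  have hF : 0 ≤ (h * ((1 - h) + (t * (h ^ 2 + h - 1))) - (t * (h ^ 2 + h - 1)) ^ 2) * (h * ((1 - h) + (t * (h ^ 2 + h - 1))) - (t * (h ^ 2 + h - 1)) * ((h ^ 2 + h - 1) - t * (h ^ 2 + h - 1) / 2 + h * (1 - h) ^ 2 / 100)) -
      (1 - h ^ 2 + (t * (h ^ 2 + h - 1))) ^ 2 * (h ^ 2 * (1 - h) + (t * (h ^ 2 + h - 1)) * ((h ^ 2 + h - 1) - t * (h ^ 2 + h - 1) / 2 + h * (1 - h) ^ 2 / 100)) := by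
    have e : (h * ((1 - h) + (t * (h ^ 2 + h - 1))) - (t * (h ^ 2 + h - 1)) ^ 2) * (h * ((1 - h) + (t * (h ^ 2 + h - 1))) - (t * (h ^ 2 + h - 1)) * ((h ^ 2 + h - 1) - t * (h ^ 2 + h - 1) / 2 + h * (1 - h) ^ 2 / 100)) -
      (1 - h ^ 2 + (t * (h ^ 2 + h - 1))) ^ 2 * (h ^ 2 * (1 - h) + (t * (h ^ 2 + h - 1)) * ((h ^ 2 + h - 1) - t * (h ^ 2 + h - 1) / 2 + h * (1 - h) ^ 2 / 100)) =
      (h ^ 2 + h - 1) * (t - (5 / 2) * t ^ 2 + t ^ 3 - (1 / 100) * h * t + (201 / 50) * h * t ^ 2 -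
      (5 / 2) * h * t ^ 3 - (499 / 100) * h ^ 2 * t + (129 / 20) * h ^ 2 * t ^ 2 -
      h ^ 2 * t ^ 3 + h ^ 3 + (51 / 25) * h ^ 3 * t - (901 / 100) * h ^ 3 * t ^ 2 +
      (9 / 2) * h ^ 3 * t ^ 3 - 2 * h ^ 4 + (593 / 100) * h ^ 4 * t -
      (59 / 10) * h ^ 4 * t ^ 2 + h ^ 4 * t ^ 3 + h ^ 5 - (149 / 50) * h ^ 5 * t +
      (89 / 20) * h ^ 5 * t ^ 2 - (5 / 2) * h ^ 5 * t ^ 3 - (49 / 50) * h ^ 6 * t +
      (247 / 100) * h ^ 6 * t ^ 2 - h ^ 6 * t ^ 3 - (1 / 100) * h ^ 7 * t +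
      (1 / 50) * h ^ 7 * t ^ 2) := by ring
    rw [e]
    exact mul_nonneg hE0 hq
  rw [← hhD, ← hP] at hF
  have hF2 : 0 ≤ h ^ 4 * ((η + p - (b + p ^ 2)) * (η + p - (b + p * D)) -
      (η + p) ^ 2 * (b + p * D)) := by
    have e : h ^ 4 * ((η + p - (b + p ^ 2)) * (η + p - (b + p * D)) -
        (η + p) ^ 2 * (b + p * D)) =
        (h * (h * (η - b) + h * p) - (h * p) ^ 2) * (h * (h * (η - b) + h * p) -
          h * p * (h * D)) - (h * η + h * p) ^ 2 * (h ^ 2 * b + h * p * (h * D)) := by ring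
    rw [e, hbk, hη, hb]; exact hF
  have hF3 : 0 ≤ (η + p - (b + p ^ 2)) * (η + p - (b + p * D)) - (η + p) ^ 2 * (b + p * D) :=
    nonneg_of_mul_nonneg_right hF2 (by positivity)
  have hpp : p ^ 2 ≤ p := by
    rw [pow_two]; exact mul_le_of_le_one_right hp (by linarith)
  have hg : 0 ≤ η + p - (b + p ^ 2) := by linarith
  have e1 : (η + p - (b + p ^ 2)) * (η + p - (b + p * D)) ≤
      (η + p - (b + p ^ 2)) * (η + p - (b + dl ε κ p)) :=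
    mul_le_mul_of_nonneg_left (by linarith) hg
  have e2 : (η + p) ^ 2 * (b + dl ε κ p) ≤ (η + p) ^ 2 * (b + p * D) :=
    mul_le_mul_of_nonneg_left (by linarith) (sq_nonneg _)
  linarith

end Pool.Agent.TriPack
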