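import Pool.Agent.TriPack.ParBasic

/-!
# Row PX4: the five vertex inequalities in the region CheapReg

`k := η - b = b/h`, `Δ = dl ε κ p = pε - p^2/2 + pκ`, `0 ≤ κ ≤ b^2/100`,
region: `h ≤ 3/4, 0 ≤ p ≤ ε` or `3/4 ≤ h ≤ 39/50, 13/25 ε ≤ p ≤ 17/25 ε`.
Write `g = η+p`, `g-b-Δ = k + p(η-κ) + p^2/2`, `1-b = h`, `ε = 1-η`.
* `X1`: `RHS-LHS = p [ (h-p^2)(η-κ+p/2) - pk - ε + p/2 - κ ]`. (At `p = 0`: `hη-ε-κ`, and
  `h(hη-ε) = 1-h^2-h^3 ≥ 1/64` for `h ≤ 3/4`.)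
* `X2`: `RHS-LHS = p [ (1-p)(h-Δ) - (ε-p/2+κ)/h ]` (use `b/h+1 = 1/h`). (At `p = 0`:
  `h-ε/h = (1-h)^2(1+h)/h^2` for `κ = 0`.)
* `X4`: `RHS-LHS = p [ (h-Δ)(η-κ+p/2) - (ε-p/2+κ)k - p ]`.
* `X3`, `X5`: at `p = 0` both are `k^2 ≥ bη^2 ⟺ 1 ≥ b(1+h)^2` (`⟸ 1 ≤ h+h^2`; equality at the
  golden ratio, where `ε = 0`).
`RHS-LHS` in the middle region (κ = 0), `h = 0.78`: `p = 0.52ε`: 0.0023, 0.0090, 0.0285, 0.0180,
0.0323 (X1..X5); `p = 0.68ε`: 0.0076, 0.0071, 0.0236, 0.0060, 0.0230; `h = 3/4`: 0.0229, 0.0269,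
0.0403, 0.0332, 0.0434 resp. 0.0329, 0.0326, 0.0427, 0.0318, 0.0422.
Idea: polynomials in `(h,p)` after multiplication by powers of `h` (`h ε = h^2+h-1`,
`h η = 1-h^2`). All checked numerically on a fine grid.
-/

namespace Pool.Agent.TriPack

variable {h b η ε κ p : ℝ}

lemma px4_box1 {h t : ℝ} (h1 : 3 / 5 ≤ h) (h2 : h ≤ 3 / 4) (t1 : 0 ≤ t)
    (t2 : t ≤ 1) : 0 ≤ (h ^ 3 - (t * (h ^ 2 + h - 1)) *
      ((h ^ 2 + h - 1) - t * (h ^ 2 + h - 1) / 2 + h * (1 - h) ^ 2 / 100)) *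
      (h - ((h ^ 2 + h - 1) - t * (h ^ 2 + h - 1) / 2 + h * (1 - h) ^ 2 / 100)) -
      h * ((h ^ 2 + h - 1) - t * (h ^ 2 + h - 1) / 2 + h * (1 - h) ^ 2 / 100) * (1 - h) -
      h ^ 2 * (t * (h ^ 2 + h - 1)) := by
  obtain ⟨x, rfl⟩ : ∃ x, h = 3 / 5 + x := ⟨h - 3 / 5, by ring⟩
  have hx : 0 ≤ x := by linarith
  have hy : 0 ≤ 3 / 20 - x := by linarith
  have hu : 0 ≤ t := by linarith
  have hv : 0 ≤ 1 - t := by linarith
  have key : ((3 / 5 + x) ^ 3 - (t * ((3 / 5 + x) ^ 2 + (3 / 5 + x) - 1)) *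
      (((3 / 5 + x) ^ 2 + (3 / 5 + x) - 1) - t * ((3 / 5 + x) ^ 2 + (3 / 5 + x) - 1) / 2 + (3 / 5 + x) * (1 - (3 / 5 + x)) ^ 2 / 100)) *
      ((3 / 5 + x) - (((3 / 5 + x) ^ 2 + (3 / 5 + x) - 1) - t * ((3 / 5 + x) ^ 2 + (3 / 5 + x) - 1) / 2 + (3 / 5 + x) * (1 - (3 / 5 + x)) ^ 2 / 100)) -
      (3 / 5 + x) * (((3 / 5 + x) ^ 2 + (3 / 5 + x) - 1) - t * ((3 / 5 + x) ^ 2 + (3 / 5 + x) - 1) / 2 + (3 / 5 + x) * (1 - (3 / 5 + x)) ^ 2 / 100) * (1 - (3 / 5 + x)) -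
      (3 / 5 + x) ^ 2 * (t * ((3 / 5 + x) ^ 2 + (3 / 5 + x) - 1)) =
      (1257832448 / 2187) * (3 / 20 - x) ^ 8 * (1 - t) ^ 3 +
      (3310108672 / 729) * x * (3 / 20 - x) ^ 7 * (1 - t) ^ 3 +
      (34255141888 / 2187) * x ^ 2 * (3 / 20 - x) ^ 6 * (1 - t) ^ 3 +
      (67426827520 / 2187) * x ^ 3 * (3 / 20 - x) ^ 5 * (1 - t) ^ 3 +
      (9201276800 / 243) * x ^ 4 * (3 / 20 - x) ^ 4 * (1 - t) ^ 3 +
      (64957082000 / 2187) * x ^ 5 * (3 / 20 - x) ^ 3 * (1 - t) ^ 3 +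
      (31760982500 / 2187) * x ^ 6 * (3 / 20 - x) ^ 2 * (1 - t) ^ 3 +
      (2947925000 / 729) * x ^ 7 * (3 / 20 - x) * (1 - t) ^ 3 +
      (1072562500 / 2187) * x ^ 8 * (1 - t) ^ 3 +
      (7143820722176 / 4100625) * (3 / 20 - x) ^ 8 * t * (1 - t) ^ 2 +
      (11210633977856 / 820125) * x * (3 / 20 - x) ^ 7 * t * (1 - t) ^ 2 +
      (7612944963584 / 164025) * x ^ 2 * (3 / 20 - x) ^ 6 * t * (1 - t) ^ 2 +
      (2919035658752 / 32805) * x ^ 3 * (3 / 20 - x) ^ 5 * t * (1 - t) ^ 2 +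
      (690187978736 / 6561) * x ^ 4 * (3 / 20 - x) ^ 4 * t * (1 - t) ^ 2 +
      (514151470300 / 6561) * x ^ 5 * (3 / 20 - x) ^ 3 * t * (1 - t) ^ 2 +
      (234974522150 / 6561) * x ^ 6 * (3 / 20 - x) ^ 2 * t * (1 - t) ^ 2 +
      (239852336875 / 26244) * x ^ 7 * (3 / 20 - x) * t * (1 - t) ^ 2 +
      (103941528125 / 104976) * x ^ 8 * t * (1 - t) ^ 2 +
      (7221013348352 / 4100625) * (3 / 20 - x) ^ 8 * t ^ 2 * (1 - t) +
      (11233593024512 / 820125) * x * (3 / 20 - x) ^ 7 * t ^ 2 * (1 - t) +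
      (7513797152768 / 164025) * x ^ 2 * (3 / 20 - x) ^ 6 * t ^ 2 * (1 - t) +
      (2812849455104 / 32805) * x ^ 3 * (3 / 20 - x) ^ 5 * t ^ 2 * (1 - t) +
      (641247133472 / 6561) * x ^ 4 * (3 / 20 - x) ^ 4 * t ^ 2 * (1 - t) +
      (451930192600 / 6561) * x ^ 5 * (3 / 20 - x) ^ 3 * t ^ 2 * (1 - t) +
      (189470939300 / 6561) * x ^ 6 * (3 / 20 - x) ^ 2 * t ^ 2 * (1 - t) +
      (83898918125 / 13122) * x ^ 7 * (3 / 20 - x) * t ^ 2 * (1 - t) +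
      (27957653125 / 52488) * x ^ 8 * t ^ 2 * (1 - t) +
      (2435372466176 / 4100625) * (3 / 20 - x) ^ 8 * t ^ 3 +
      (3747688902656 / 820125) * x * (3 / 20 - x) ^ 7 * t ^ 3 +
      (2469401590784 / 164025) * x ^ 2 * (3 / 20 - x) ^ 6 * t ^ 3 +
      (904770609152 / 32805) * x ^ 3 * (3 / 20 - x) ^ 5 * t ^ 3 +
      (199715228336 / 6561) * x ^ 4 * (3 / 20 - x) ^ 4 * t ^ 3 +
      (133698718300 / 6561) * x ^ 5 * (3 / 20 - x) ^ 3 * t ^ 3 +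
      (51212177150 / 6561) * x ^ 6 * (3 / 20 - x) ^ 2 * t ^ 3 +
      (37508299375 / 26244) * x ^ 7 * (3 / 20 - x) * t ^ 3 +
      (6581778125 / 104976) * x ^ 8 * t ^ 3 := by
    ring
  rw [key]
  generalize 3 / 20 - x = y at *
  generalize 1 - t = v at *
  positivity

lemma px4_box2 {h t : ℝ} (h1 : 3 / 4 ≤ h) (h2 : h ≤ 39 / 50) (t1 : 13 / 25 ≤ t)
    (t2 : t ≤ 17 / 25) : 0 ≤ (h ^ 3 - (t * (h ^ 2 + h - 1)) *
      ((h ^ 2 + h - 1) - t * (h ^ 2 + h - 1) / 2 + h * (1 - h) ^ 2 / 100)) *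
      (h - ((h ^ 2 + h - 1) - t * (h ^ 2 + h - 1) / 2 + h * (1 - h) ^ 2 / 100)) -
      h * ((h ^ 2 + h - 1) - t * (h ^ 2 + h - 1) / 2 + h * (1 - h) ^ 2 / 100) * (1 - h) -
      h ^ 2 * (t * (h ^ 2 + h - 1)) := by
  obtain ⟨x, rfl⟩ : ∃ x, h = 3 / 4 + x := ⟨h - 3 / 4, by ring⟩
  obtain ⟨u, rfl⟩ : ∃ u, t = 13 / 25 + u := ⟨t - 13 / 25, by ring⟩
  have hx : 0 ≤ x := by linarith
  have hy : 0 ≤ 3 / 100 - x := by linarith
  have hu : 0 ≤ u := by linarith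
  have hv : 0 ≤ 4 / 25 - u := by linarith
  have key : ((3 / 4 + x) ^ 3 - ((13 / 25 + u) * ((3 / 4 + x) ^ 2 + (3 / 4 + x) - 1)) *
      (((3 / 4 + x) ^ 2 + (3 / 4 + x) - 1) - (13 / 25 + u) * ((3 / 4 + x) ^ 2 + (3 / 4 + x) - 1) / 2 + (3 / 4 + x) * (1 - (3 / 4 + x)) ^ 2 / 100)) *
      ((3 / 4 + x) - (((3 / 4 + x) ^ 2 + (3 / 4 + x) - 1) - (13 / 25 + u) * ((3 / 4 + x) ^ 2 + (3 / 4 + x) - 1) / 2 + (3 / 4 + x) * (1 - (3 / 4 + x)) ^ 2 / 100)) -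
      (3 / 4 + x) * (((3 / 4 + x) ^ 2 + (3 / 4 + x) - 1) - (13 / 25 + u) * ((3 / 4 + x) ^ 2 + (3 / 4 + x) - 1) / 2 + (3 / 4 + x) * (1 - (3 / 4 + x)) ^ 2 / 100) * (1 - (3 / 4 + x)) -
      (3 / 4 + x) ^ 2 * ((13 / 25 + u) * ((3 / 4 + x) ^ 2 + (3 / 4 + x) - 1)) =
      (160702176666259765625 / 6718464) * (3 / 100 - x) ^ 8 * (4 / 25 - u) ^ 3 +
      (303256486602783203125 / 1679616) * x * (3 / 100 - x) ^ 7 * (4 / 25 - u) ^ 3 +
      (498153318860107421875 / 839808) * x ^ 2 * (3 / 100 - x) ^ 6 * (4 / 25 - u) ^ 3 +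
      (464817549968798828125 / 419904) * x ^ 3 * (3 / 100 - x) ^ 5 * (4 / 25 - u) ^ 3 +
      (8411878605040625000 / 6561) * x ^ 4 * (3 / 100 - x) ^ 4 * (4 / 25 - u) ^ 3 +
      (98940494075261734375 / 104976) * x ^ 5 * (3 / 100 - x) ^ 3 * (4 / 25 - u) ^ 3 +
      (22502237292336563125 / 52488) * x ^ 6 * (3 / 100 - x) ^ 2 * (4 / 25 - u) ^ 3 +
      (2888452136203651975 / 26244) * x ^ 7 * (3 / 100 - x) * (4 / 25 - u) ^ 3 +
      (319387972925784503 / 26244) * x ^ 8 * (4 / 25 - u) ^ 3 +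
      (437778432464599609375 / 6718464) * (3 / 100 - x) ^ 8 * u * (4 / 25 - u) ^ 2 +
      (816860001922607421875 / 1679616) * x * (3 / 100 - x) ^ 7 * u * (4 / 25 - u) ^ 2 +
      (1324206465669189453125 / 839808) * x ^ 2 * (3 / 100 - x) ^ 6 * u * (4 / 25 - u) ^ 2 +
      (1216316132325341796875 / 419904) * x ^ 3 * (3 / 100 - x) ^ 5 * u * (4 / 25 - u) ^ 2 +
      (43196155713716796875 / 13122) * x ^ 4 * (3 / 100 - x) ^ 4 * u * (4 / 25 - u) ^ 2 +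
      (248177693548913140625 / 104976) * x ^ 5 * (3 / 100 - x) ^ 3 * u * (4 / 25 - u) ^ 2 +
      (54810751209763761875 / 52488) * x ^ 6 * (3 / 100 - x) ^ 2 * u * (4 / 25 - u) ^ 2 +
      (6773161023355912625 / 26244) * x ^ 7 * (3 / 100 - x) * u * (4 / 25 - u) ^ 2 +
      (711569124666314833 / 26244) * x ^ 8 * u * (4 / 25 - u) ^ 2 +
      (131533249664306640625 / 2239488) * (3 / 100 - x) ^ 8 * u ^ 2 * (4 / 25 - u) +
      (242113133819580078125 / 559872) * x * (3 / 100 - x) ^ 7 * u ^ 2 * (4 / 25 - u) +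
      (386096067705810546875 / 279936) * x ^ 2 * (3 / 100 - x) ^ 6 * u ^ 2 * (4 / 25 - u) +
      (347555328226220703125 / 139968) * x ^ 3 * (3 / 100 - x) ^ 5 * u ^ 2 * (4 / 25 - u) +
      (6017003628916796875 / 2187) * x ^ 4 * (3 / 100 - x) ^ 4 * u ^ 2 * (4 / 25 - u) +
      (66909195256635359375 / 34992) * x ^ 5 * (3 / 100 - x) ^ 3 * u ^ 2 * (4 / 25 - u) +
      (14140561215199878125 / 17496) * x ^ 6 * (3 / 100 - x) ^ 2 * u ^ 2 * (4 / 25 - u) +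
      (1641985500032512175 / 8748) * x ^ 7 * (3 / 100 - x) * u ^ 2 * (4 / 25 - u) +
      (156911048686181119 / 8748) * x ^ 8 * u ^ 2 * (4 / 25 - u) +
      (13066846466064453125 / 746496) * (3 / 100 - x) ^ 8 * u ^ 3 +
      (97350799560546875 / 768) * x * (3 / 100 - x) ^ 7 * u ^ 3 +
      (36951053825927734375 / 93312) * x ^ 2 * (3 / 100 - x) ^ 6 * u ^ 3 +
      (32391119035791015625 / 46656) * x ^ 3 * (3 / 100 - x) ^ 5 * u ^ 3 +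
      (360910322626953125 / 486) * x ^ 4 * (3 / 100 - x) ^ 4 * u ^ 3 +
      (5732684334588296875 / 11664) * x ^ 5 * (3 / 100 - x) ^ 3 * u ^ 3 +
      (1126806759159390625 / 5832) * x ^ 6 * (3 / 100 - x) ^ 2 * u ^ 3 +
      (38725459145457625 / 972) * x ^ 7 * (3 / 100 - x) * u ^ 3 +
      (8793101492117003 / 2916) * x ^ 8 * u ^ 3 := by
    ring
  rw [key]
  generalize 3 / 100 - x = y at *
  generalize 4 / 25 - u = v at *
  positivity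

/-- parametrisation of `p` -/
lemma px4_par (H : Par h b η ε) (hr : CheapReg h ε p) :
    ∃ t : ℝ, h * p = t * (h ^ 2 + h - 1) ∧ 0 ≤ t ∧
      ((h ≤ 3 / 4 ∧ t ≤ 1) ∨ (3 / 4 ≤ h ∧ h ≤ 39 / 50 ∧ 13 / 25 ≤ t ∧ t ≤ 17 / 25)) := by
  have h0 := H.hpos
  have hhe : h * ε = h ^ 2 + h - 1 := by rw [H.hε]; linarith [H.hη]
  have hE : 0 ≤ h ^ 2 + h - 1 := by linarith [H.gold]
  obtain ⟨hp, hcase⟩ := hr
  rcases hE.eq_or_lt with hE0 | hE0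
  · rcases hcase with ⟨h1, hpe⟩ | ⟨h1, h2, hp0, hp1⟩
    · refine ⟨0, ?_, le_refl 0, Or.inl ⟨h1, zero_le_one⟩⟩
      have h3 : h * p ≤ h * ε := mul_le_mul_of_nonneg_left hpe h0.le
      have h4 : 0 ≤ h * p := mul_nonneg h0.le hp
      rw [hhe, ← hE0] at h3
      rw [zero_mul]
      linarith
    · exfalso
      nlinarith
  · refine ⟨h * p / (h ^ 2 + h - 1), (div_mul_cancel₀ _ hE0.ne').symm,
      div_nonneg (mul_nonneg h0.le hp) hE0.le, ?_⟩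
    rcases hcase with ⟨h1, hpe⟩ | ⟨h1, h2, hp0, hp1⟩
    · refine Or.inl ⟨h1, ?_⟩
      rw [div_le_one hE0, ← hhe]
      exact mul_le_mul_of_nonneg_left hpe h0.le
    · refine Or.inr ⟨h1, h2, ?_, ?_⟩
      · rw [le_div_iff₀ hE0, ← hhe]
        nlinarith [mul_le_mul_of_nonneg_left hp0 h0.le]
      · rw [div_le_iff₀ hE0, ← hhe]
        nlinarith [mul_le_mul_of_nonneg_left hp1 h0.le]

theorem PX4 (H : Par h b η ε) (hκ0 : 0 ≤ κ) (hκ : κ ≤ b ^ 2 / 100) (hr : CheapReg h ε p) :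
    b + p ^ 2 ≤ (1 - (b + dl ε κ p)) * (η + p - (b + dl ε κ p)) := by
  have h0 := H.hpos
  have hb := H.hb
  have hbk := H.key
  have hη := H.hη
  have hhe : h * ε = h ^ 2 + h - 1 := by rw [H.hε]; linarith [H.hη]
  have hη1 := H.η_le_one
  have hE0 : 0 ≤ h ^ 2 + h - 1 := by linarith [H.gold]
  have hp := hr.1
  have hε0 := H.ε_nonneg
  have hpε : p ≤ ε := by
    obtain ⟨_, hcase⟩ := hr
    rcases hcase with ⟨_, h2⟩ | ⟨_, _, _, h2⟩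
    · exact h2
    · linarith
  have hph : p ≤ h := hpε.trans H.ε_le_h
  have hlt := H.hlt
  have hbη := H.b_lt_η
  have hb0 := H.b_pos
  obtain ⟨t, hP, ht0, ht⟩ := px4_par H hr
  set D : ℝ := ε - p / 2 + b ^ 2 / 100 with hD
  have hhD : h * D = (h ^ 2 + h - 1) - t * (h ^ 2 + h - 1) / 2 + h * (1 - h) ^ 2 / 100 := by
    rw [hD, ← hhe, hb]
    have : h * (ε - p / 2 + (1 - h) ^ 2 / 100) = h * ε - h * p / 2 + h * (1 - h) ^ 2 / 100 := by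
      ring
    rw [this, hP, hhe]
  have hΔ : dl ε κ p ≤ p * D := by
    rw [hD]
    unfold dl
    nlinarith [mul_nonneg hp (sub_nonneg.2 hκ)]
  have hΔ0 : 0 ≤ dl ε κ p := by
    unfold dl
    nlinarith [mul_nonneg hp hκ0, mul_nonneg hp (sub_nonneg.2 hpε)]
  have hD0 : 0 ≤ D := by rw [hD]; nlinarith [sq_nonneg b]
  have hF : 0 ≤ (h ^ 3 - (t * (h ^ 2 + h - 1)) *
      ((h ^ 2 + h - 1) - t * (h ^ 2 + h - 1) / 2 + h * (1 - h) ^ 2 / 100)) *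
      (h - ((h ^ 2 + h - 1) - t * (h ^ 2 + h - 1) / 2 + h * (1 - h) ^ 2 / 100)) -
      h * ((h ^ 2 + h - 1) - t * (h ^ 2 + h - 1) / 2 + h * (1 - h) ^ 2 / 100) * (1 - h) -
      h ^ 2 * (t * (h ^ 2 + h - 1)) := by
    rcases ht with ⟨h1, ht1⟩ | ⟨h1, h2, ht1, ht2⟩
    · exact px4_box1 H.h_ge h1 ht0 ht1
    · exact px4_box2 h1 h2 ht1 ht2
  rw [← hhD, ← hP] at hF
  have hF2 : 0 ≤ h ^ 3 * ((h - p * D) * (1 - D) - D * (η - b) - p) := by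
    have e : h ^ 3 * ((h - p * D) * (1 - D) - D * (η - b) - p) =
        (h ^ 3 - (h * p) * (h * D)) * (h - h * D) - h * (h * D) * (h * (η - b)) -
          h ^ 2 * (h * p) := by ring
    rw [e, hbk, hb]; exact hF
  have hF3 : 0 ≤ (h - p * D) * (1 - D) - D * (η - b) - p :=
    nonneg_of_mul_nonneg_right hF2 (by positivity)
  -- at the upper bound of the handicap
  have hmain : b + p ^ 2 ≤ (h - p * D) * (η + p - b - p * D) := by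
    have e : (h - p * D) * (η + p - b - p * D) - (b + p ^ 2) =
        (h * (η - b) - b) + p * ((h - p * D) * (1 - D) - D * (η - b) - p) := by ring
    have := mul_nonneg hp hF3
    rw [hbk] at e
    linarith
  have hD1 : D ≤ 1 := by
    have e1 : 0 ≤ t * (h ^ 2 + h - 1) := mul_nonneg ht0 hE0
    have e2 : h * (1 - h) ≤ 1 := by
      have := mul_le_mul_of_nonneg_left hlt.le h0.le
      have h4 := sq_nonneg h
      have : h * (1 - h) = h - h ^ 2 := by ring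
      linarith
    have e3 : (1 - h) * (h * (1 - h)) ≤ (1 - h) * 1 :=
      mul_le_mul_of_nonneg_left e2 (by linarith)
    have e4 : h * (1 - h) ^ 2 = (1 - h) * (h * (1 - h)) := by ring
    have e5 : h ^ 2 ≤ h := by
      rw [pow_two]; exact mul_le_of_le_one_right h0.le hlt.le
    have h1 : h * D ≤ h * 1 := by
      rw [hhD, e4]
      linarith
    exact le_of_mul_le_mul_left h1 h0
  have hpD : p * D ≤ p := mul_le_of_le_one_right hp hD1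
  have hf1 : 0 ≤ h - p * D := by linarith
  have hf2 : 0 ≤ η + p - b - p * D := by linarith
  have e3 : 1 - (b + dl ε κ p) = h - dl ε κ p := by rw [hb]; ring
  rw [e3]
  have e4 : (h - p * D) * (η + p - b - p * D) ≤ (h - dl ε κ p) * (η + p - (b + dl ε κ p)) :=
    mul_le_mul (by linarith) (by linarith) hf2 (by linarith)
  linarith

end Pool.Agent.TriPack
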