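import Pool.Agent.TriPack.ParBasic

/-!
# Row PX5: the five vertex inequalities in the region CheapReg

`k := η - b = b/h`, `Δ = dl ε κ p = pε - p^2/2 + pκ`, `0 ≤ κ ≤ b^2/100`,
region: `h ≤ 3/4, 0 ≤ p ≤ ε` or `3/4 ≤ h ≤ 39/50, 13/25 ε ≤ p ≤ 17/25 ε`.
Write `g = η+p`, `g-b-Δ = k + p(η-κ) + p^2/2`, `1-b = h`, `ε = 1-η`.
* `X1`: `RHS-LHS = p [ (h-p^2)(η-κ+p/2) - pk - ε + p/2 - κ ]`. (At `p = 0`: `hη-ε-κ`, and
  `h(hη-ε) = 1-h^2-h^3 ≥ 1/64` for `h ≤ 3/4`.)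
* `X2`: `RHS-LHS = p [ (1-p)(h-Δ) - (ε-p/2+κ)/h ]` (use `b/h+1 = 1/h`). (At `p = 0`:
  `h-ε/h = (1-h)^2(1+h)/h^2` for `κ = 0`.)
* `X4`: `RHS-LHS = p [ (h-Δ)(η-κ+p/2) - (ε-p/2+κ)k - p ]`.
* `X3`, `X5`: at `p = 0` both are `k^2 ≥ bη^2 ⟺ 1 ≥ b(1+h)^2` (`⟸ 1 ≤ h+h^2`; equality at the
  golden ratio, where `ε = 0`).
`RHS-LHS` in the middle region (κ = 0), `h = 0.78`: `p = 0.52ε`: 0.0023, 0.0090, 0.0285, 0.0180,
0.0323 (X1..X5); `p = 0.68ε`: 0.0076, 0.0071, 0.0236, 0.0060, 0.0230; `h = 3/4`: 0.0229, 0.0269,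
0.0403, 0.0332, 0.0434 resp. 0.0329, 0.0326, 0.0427, 0.0318, 0.0422.
Idea: polynomials in `(h,p)` after multiplication by powers of `h` (`h ε = h^2+h-1`,
`h η = 1-h^2`). All checked numerically on a fine grid.
-/

namespace Pool.Agent.TriPack

variable {h b η ε κ p : ℝ}

lemma px5_g1_0 {h : ℝ} (h1 : 3 / 5 ≤ h) (h2 : h ≤ 3 / 4) : 0 ≤
      h ^ 3 - 2 * h ^ 4 + h ^ 5 := by
  obtain ⟨x, hx⟩ : ∃ x, x = h - 3 / 5 := ⟨_, rfl⟩
  obtain ⟨y, hy⟩ : ∃ y, y = 3 / 4 - h := ⟨_, rfl⟩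
  have key : h ^ 3 - 2 * h ^ 4 + h ^ 5 =
      (4096 / 9) * y ^ 5 + (20480 / 9) * x * y ^ 4 + (40000 / 9) * x ^ 2 * y ^ 3 + (38000 / 9) * x
      ^ 3 * y ^ 2 + (17500 / 9) * x ^ 4 * y + (3125 / 9) * x ^ 5 := by
    rw [hx, hy]; ring
  have hx0 : 0 ≤ x := by linarith
  have hy0 : 0 ≤ y := by linarith
  rw [key]; positivity

lemma px5_g1_1 {h : ℝ} (h1 : 3 / 5 ≤ h) (h2 : h ≤ 3 / 4) : 0 ≤
      2 * h - (201 / 50) * h ^ 2 + (203 / 50) * h ^ 3 - (203 / 50) * h ^ 4 + (101 / 50) * h ^ 5 := by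
  obtain ⟨x, hx⟩ : ∃ x, x = h - 3 / 5 := ⟨_, rfl⟩
  obtain ⟨y, hy⟩ : ∃ y, y = 3 / 4 - h := ⟨_, rfl⟩
  have key : 2 * h - (201 / 50) * h ^ 2 + (203 / 50) * h ^ 3 - (203 / 50) * h ^ 4 + (101 / 50) * h ^ 5 =
      (6950912 / 2025) * y ^ 5 + (2146816 / 135) * x * y ^ 4 + (2345152 / 81) * x ^ 2 * y ^ 3 +
      (2093000 / 81) * x ^ 3 * y ^ 2 + (304600 / 27) * x ^ 4 * y + (312125 / 162) * x ^ 5 := by
    rw [hx, hy]; ring
  have hx0 : 0 ≤ x := by linarith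
  have hy0 : 0 ≤ y := by linarith
  rw [key]; positivity

lemma px5_g1_2 {h : ℝ} (h1 : 3 / 5 ≤ h) (h2 : h ≤ 3 / 4) : 0 ≤
      (251 / 50) * h - (91201 / 10000) * h ^ 2 + (8401 / 2000) * h ^ 3 - (11009 / 10000) * h ^ 4 +
      (5003 / 5000) * h ^ 5 - (199 / 10000) * h ^ 6 + (197 / 10000) * h ^ 7 + (1 / 10000) * h ^ 8 := by
  obtain ⟨x, hx⟩ : ∃ x, x = h - 3 / 5 := ⟨_, rfl⟩
  obtain ⟨y, hy⟩ : ∃ y, y = 3 / 4 - h := ⟨_, rfl⟩
  have key : (251 / 50) * h - (91201 / 10000) * h ^ 2 + (8401 / 2000) * h ^ 3 - (11009 / 10000) * h ^ 4 +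
      (5003 / 5000) * h ^ 5 - (199 / 10000) * h ^ 6 + (197 / 10000) * h ^ 7 + (1 / 10000) * h ^ 8 =
      (3044409147392 / 1366875) * y ^ 8 + (511127011328 / 30375) * x * y ^ 7 + (3021907376128 /
      54675) * x ^ 2 * y ^ 6 + (1126807606784 / 10935) * x ^ 3 * y ^ 5 + (86912606704 / 729) * x ^
      4 * y ^ 4 + (191601658100 / 2187) * x ^ 5 * y ^ 3 + (87283359050 / 2187) * x ^ 6 * y ^ 2 +
      (30031481875 / 2916) * x ^ 7 * y + (40310509375 / 34992) * x ^ 8 := by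
    rw [hx, hy]; ring
  have hx0 : 0 ≤ x := by linarith
  have hy0 : 0 ≤ y := by linarith
  rw [key]; positivity

lemma px5_g1_3 {h : ℝ} (h1 : 3 / 5 ≤ h) (h2 : h ≤ 3 / 4) : 0 ≤
      -1 + (603 / 100) * h - (20701 / 5000) * h ^ 2 - (3819 / 1000) * h ^ 3 - (209 / 5000) * h ^ 4
      + (4953 / 2500) * h ^ 5 + (4801 / 5000) * h ^ 6 + (147 / 5000) * h ^ 7 + (1 / 5000) * h ^ 8 := by
  obtain ⟨x, hx⟩ : ∃ x, x = h - 3 / 5 := ⟨_, rfl⟩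
  obtain ⟨y, hy⟩ : ∃ y, y = 3 / 4 - h := ⟨_, rfl⟩
  have key : -1 + (603 / 100) * h - (20701 / 5000) * h ^ 2 - (3819 / 1000) * h ^ 3 - (209 / 5000) * h ^ 4
      + (4953 / 2500) * h ^ 5 + (4801 / 5000) * h ^ 6 + (147 / 5000) * h ^ 7 + (1 / 5000) * h ^ 8 =
      (7950244708352 / 4100625) * y ^ 8 + (12068829888512 / 820125) * x * y ^ 7 + (7921378055168 /
      164025) * x ^ 2 * y ^ 6 + (2932784155904 / 32805) * x ^ 3 * y ^ 5 + (668948874272 / 6561) *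
      x ^ 4 * y ^ 4 + (480410194600 / 6561) * x ^ 5 * y ^ 3 + (211671591800 / 6561) * x ^ 6 * y ^
      2 + (104326668125 / 13122) * x ^ 7 * y + (43880153125 / 52488) * x ^ 8 := by
    rw [hx, hy]; ring
  have hx0 : 0 ≤ x := by linarith
  have hy0 : 0 ≤ y := by linarith
  rw [key]; positivity

lemma px5_g1_4 {h : ℝ} (h1 : 3 / 5 ≤ h) (h2 : h ≤ 3 / 4) : 0 ≤
      -(1 / 4) + (19 / 25) * h + (9599 / 10000) * h ^ 2 - (2419 / 2000) * h ^ 3 - (10009 / 10000)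
      * h ^ 4 - (1247 / 5000) * h ^ 5 + (2301 / 10000) * h ^ 6 + (97 / 10000) * h ^ 7 + (1 /
      10000) * h ^ 8 := by
  obtain ⟨x, hx⟩ : ∃ x, x = h - 3 / 5 := ⟨_, rfl⟩
  obtain ⟨y, hy⟩ : ∃ y, y = 3 / 4 - h := ⟨_, rfl⟩
  have key : -(1 / 4) + (19 / 25) * h + (9599 / 10000) * h ^ 2 - (2419 / 2000) * h ^ 3 - (10009 / 10000)
      * h ^ 4 - (1247 / 5000) * h ^ 5 + (2301 / 10000) * h ^ 6 + (97 / 10000) * h ^ 7 + (1 /
      10000) * h ^ 8 =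
      (2435372466176 / 4100625) * y ^ 8 + (3747688902656 / 820125) * x * y ^ 7 + (2469401590784 /
      164025) * x ^ 2 * y ^ 6 + (904770609152 / 32805) * x ^ 3 * y ^ 5 + (199715228336 / 6561) * x
      ^ 4 * y ^ 4 + (133698718300 / 6561) * x ^ 5 * y ^ 3 + (51212177150 / 6561) * x ^ 6 * y ^ 2 +
      (37508299375 / 26244) * x ^ 7 * y + (6581778125 / 104976) * x ^ 8 := by
    rw [hx, hy]; ring
  have hx0 : 0 ≤ x := by linarith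
  have hy0 : 0 ≤ y := by linarith
  rw [key]; positivity

lemma px5_g2_0 {h : ℝ} (h1 : 3 / 4 ≤ h) (h2 : h ≤ 39 / 50) : 0 ≤
      -(134017 / 1024) + (2717 / 2) * h - (6303817 / 4096) * h ^ 2 + (1262953 / 4096) * h ^ 3 -
      (3026497 / 4096) * h ^ 4 + (1084585 / 2048) * h ^ 5 + (502437 / 4096) * h ^ 6 + (24505 /
      4096) * h ^ 7 + (169 / 4096) * h ^ 8 := by
  obtain ⟨x, hx⟩ : ∃ x, x = h - 3 / 4 := ⟨_, rfl⟩
  obtain ⟨y, hy⟩ : ∃ y, y = 39 / 50 - h := ⟨_, rfl⟩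
  have key : -(134017 / 1024) + (2717 / 2) * h - (6303817 / 4096) * h ^ 2 + (1262953 / 4096) * h ^ 3 -
      (3026497 / 4096) * h ^ 4 + (1084585 / 2048) * h ^ 5 + (502437 / 4096) * h ^ 6 + (24505 /
      4096) * h ^ 7 + (169 / 4096) * h ^ 8 =
      (2740178101348876953125 / 26873856) * y ^ 8 + (5278643603179931640625 / 6718464) * x * y ^ 7
      + (8882359185611083984375 / 3359232) * x ^ 2 * y ^ 6 + (8524972148188134765625 / 1679616) *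
      x ^ 3 * y ^ 5 + (159484751568346484375 / 26244) * x ^ 4 * y ^ 4 + (1951114668590612546875 /
      419904) * x ^ 5 * y ^ 3 + (465103281282922140625 / 209952) * x ^ 6 * y ^ 2 +
      (63190777496161795675 / 104976) * x ^ 7 * y + (7490818031672358539 / 104976) * x ^ 8 := by
    rw [hx, hy]; ring
  have hx0 : 0 ≤ x := by linarith
  have hy0 : 0 ≤ y := by linarith
  rw [key]; positivity

lemma px5_g2_1 {h : ℝ} (h1 : 3 / 4 ≤ h) (h2 : h ≤ 39 / 50) : 0 ≤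
      -(158353 / 256) + (1474205 / 256) * h - (6130731 / 1024) * h ^ 2 + (471251 / 1024) * h ^ 3 -
      (2690587 / 1024) * h ^ 4 + (1008035 / 512) * h ^ 5 + (594607 / 1024) * h ^ 6 + (27599 /
      1024) * h ^ 7 + (195 / 1024) * h ^ 8 := by
  obtain ⟨x, hx⟩ : ∃ x, x = h - 3 / 4 := ⟨_, rfl⟩
  obtain ⟨y, hy⟩ : ∃ y, y = 39 / 50 - h := ⟨_, rfl⟩
  have key : -(158353 / 256) + (1474205 / 256) * h - (6130731 / 1024) * h ^ 2 + (471251 / 1024) * h ^ 3 -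
      (2690587 / 1024) * h ^ 4 + (1008035 / 512) * h ^ 5 + (594607 / 1024) * h ^ 6 + (27599 /
      1024) * h ^ 7 + (195 / 1024) * h ^ 8 =
      (2761109615325927734375 / 6718464) * y ^ 8 + (5299191006927490234375 / 1679616) * x * y ^ 7
      + (8880263927320556640625 / 839808) * x ^ 2 * y ^ 6 + (8484075622948193359375 / 419904) * x
      ^ 3 * y ^ 5 + (1263308827127601953125 / 52488) * x ^ 4 * y ^ 4 + (1920931982777532578125 /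
      104976) * x ^ 5 * y ^ 3 + (454993478208817624375 / 52488) * x ^ 6 * y ^ 2 +
      (61373658678431616925 / 26244) * x ^ 7 * y + (7216255458474797345 / 26244) * x ^ 8 := by
    rw [hx, hy]; ring
  have hx0 : 0 ≤ x := by linarith
  have hy0 : 0 ≤ y := by linarith
  rw [key]; positivity

lemma px5_g2_2 {h : ℝ} (h1 : 3 / 4 ≤ h) (h2 : h ≤ 39 / 50) : 0 ≤
      -(554931 / 512) + (2320699 / 256) * h - (17383151 / 2048) * h ^ 2 - (1137185 / 2048) * h ^ 3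
      - (7389799 / 2048) * h ^ 4 + (2813359 / 1024) * h ^ 5 + (2086195 / 2048) * h ^ 6 + (92407 /
      2048) * h ^ 7 + (671 / 2048) * h ^ 8 := by
  obtain ⟨x, hx⟩ : ∃ x, x = h - 3 / 4 := ⟨_, rfl⟩
  obtain ⟨y, hy⟩ : ∃ y, y = 39 / 50 - h := ⟨_, rfl⟩
  have key : -(554931 / 512) + (2320699 / 256) * h - (17383151 / 2048) * h ^ 2 - (1137185 / 2048) * h ^ 3
      - (7389799 / 2048) * h ^ 4 + (2813359 / 1024) * h ^ 5 + (2086195 / 2048) * h ^ 6 + (92407 /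
      2048) * h ^ 7 + (671 / 2048) * h ^ 8 =
      (2758218393707275390625 / 4478976) * y ^ 8 + (585408111358642578125 / 124416) * x * y ^ 7 +
      (8782548798383544921875 / 559872) * x ^ 2 * y ^ 6 + (8341029263970361328125 / 279936) * x ^
      3 * y ^ 5 + (205619148870194921875 / 5832) * x ^ 4 * y ^ 4 + (1861736904327318734375 /
      69984) * x ^ 5 * y ^ 3 + (437169462779871203125 / 34992) * x ^ 6 * y ^ 2 +
      (19462013622538000525 / 5832) * x ^ 7 * y + (6786493056975195967 / 17496) * x ^ 8 := by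
    rw [hx, hy]; ring
  have hx0 : 0 ≤ x := by linarith
  have hy0 : 0 ≤ y := by linarith
  rw [key]; positivity

lemma px5_g2_3 {h : ℝ} (h1 : 3 / 4 ≤ h) (h2 : h ≤ 39 / 50) : 0 ≤
      -(212993 / 256) + (1605583 / 256) * h - (5281719 / 1024) * h ^ 2 - (1263921 / 1024) * h ^ 3
      - (2357463 / 1024) * h ^ 4 + (865391 / 512) * h ^ 5 + (801227 / 1024) * h ^ 6 + (34051 /
      1024) * h ^ 7 + (255 / 1024) * h ^ 8 := by
  obtain ⟨x, hx⟩ : ∃ x, x = h - 3 / 4 := ⟨_, rfl⟩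
  obtain ⟨y, hy⟩ : ∃ y, y = 39 / 50 - h := ⟨_, rfl⟩
  have key : -(212993 / 256) + (1605583 / 256) * h - (5281719 / 1024) * h ^ 2 - (1263921 / 1024) * h ^ 3
      - (2357463 / 1024) * h ^ 4 + (865391 / 512) * h ^ 5 + (801227 / 1024) * h ^ 6 + (34051 /
      1024) * h ^ 7 + (255 / 1024) * h ^ 8 =
      (2725720256805419921875 / 6718464) * y ^ 8 + (5174714774627685546875 / 1679616) * x * y ^ 7
      + (8566073406065673828125 / 839808) * x ^ 2 * y ^ 6 + (8071132665564013671875 / 419904) * x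
      ^ 3 * y ^ 5 + (1182980838616780859375 / 52488) * x ^ 4 * y ^ 4 + (1766515237206436015625 /
      104976) * x ^ 5 * y ^ 3 + (409765102606692276875 / 52488) * x ^ 6 * y ^ 2 +
      (53944487134283216825 / 26244) * x ^ 7 * y + (6163897082765621605 / 26244) * x ^ 8 := by
    rw [hx, hy]; ring
  have hx0 : 0 ≤ x := by linarith
  have hy0 : 0 ≤ y := by linarith
  rw [key]; positivity

lemma px5_g2_4 {h : ℝ} (h1 : 3 / 4 ≤ h) (h2 : h ≤ 39 / 50) : 0 ≤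
      -(240737 / 1024) + (410737 / 256) * h - (4579681 / 4096) * h ^ 2 - (2143903 / 4096) * h ^ 3
      - (2386105 / 4096) * h ^ 4 + (777793 / 2048) * h ^ 5 + (905437 / 4096) * h ^ 6 + (37281 /
      4096) * h ^ 7 + (289 / 4096) * h ^ 8 := by
  obtain ⟨x, hx⟩ : ∃ x, x = h - 3 / 4 := ⟨_, rfl⟩
  obtain ⟨y, hy⟩ : ∃ y, y = 39 / 50 - h := ⟨_, rfl⟩
  have key : -(240737 / 1024) + (410737 / 256) * h - (4579681 / 4096) * h ^ 2 - (2143903 / 4096) * h ^ 3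
      - (2386105 / 4096) * h ^ 4 + (777793 / 2048) * h ^ 5 + (905437 / 4096) * h ^ 6 + (37281 /
      4096) * h ^ 7 + (289 / 4096) * h ^ 8 =
      (2656893524932861328125 / 26873856) * y ^ 8 + (5002897759674072265625 / 6718464) * x * y ^ 7
      + (8203804220132568359375 / 3359232) * x ^ 2 * y ^ 6 + (7645453394038525390625 / 1679616) *
      x ^ 3 * y ^ 5 + (276568357483185546875 / 52488) * x ^ 4 * y ^ 4 + (1627007512800869421875 /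
      419904) * x ^ 5 * y ^ 3 + (370577172048745285625 / 209952) * x ^ 6 * y ^ 2 +
      (47713483141228569875 / 104976) * x ^ 7 * y + (5303802762105661459 / 104976) * x ^ 8 := by
    rw [hx, hy]; ring
  have hx0 : 0 ≤ x := by linarith
  have hy0 : 0 ≤ y := by linarith
  rw [key]; positivity

lemma px5_box1 {h t : ℝ} (h1 : 3 / 5 ≤ h) (h2 : h ≤ 3 / 4) (t1 : 0 ≤ t)
    (t2 : t ≤ 1) : 0 ≤ -t ^ 3 + (3 / 4) * t ^ 4 + 2 * h * t - (49 / 50) * h * t ^ 2 + (199 / 100) * h * t ^ 3 -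
      (9 / 4) * h * t ^ 4 - (201 / 50) * h ^ 2 * t + (29399 / 10000) * h ^ 2 * t ^ 2 +
      (51 / 25) * h ^ 2 * t ^ 3 + h ^ 3 + (3 / 50) * h ^ 3 * t -
      (3959 / 2000) * h ^ 3 * t ^ 2 - (101 / 25) * h ^ 3 * t ^ 3 + (15 / 4) * h ^ 3 * t ^ 4 -
      2 * h ^ 4 + (197 / 50) * h ^ 4 * t - (9209 / 10000) * h ^ 4 * t ^ 2 -
      (101 / 50) * h ^ 4 * t ^ 3 + h ^ 5 - (99 / 50) * h ^ 5 * t +
      (4703 / 5000) * h ^ 5 * t ^ 2 + (51 / 25) * h ^ 5 * t ^ 3 - (9 / 4) * h ^ 5 * t ^ 4 -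
      (199 / 10000) * h ^ 6 * t ^ 2 + h ^ 6 * t ^ 3 - (3 / 4) * h ^ 6 * t ^ 4 +
      (197 / 10000) * h ^ 7 * t ^ 2 - (1 / 100) * h ^ 7 * t ^ 3 +
      (1 / 10000) * h ^ 8 * t ^ 2 := by
  obtain ⟨u, hu⟩ : ∃ u, u = t - 0 := ⟨_, rfl⟩
  obtain ⟨v, hv⟩ : ∃ v, v = 1 - t := ⟨_, rfl⟩
  have hu0 : 0 ≤ u := by linarith
  have hv0 : 0 ≤ v := by linarith
  have key : -t ^ 3 + (3 / 4) * t ^ 4 + 2 * h * t - (49 / 50) * h * t ^ 2 + (199 / 100) * h * t ^ 3 -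
      (9 / 4) * h * t ^ 4 - (201 / 50) * h ^ 2 * t + (29399 / 10000) * h ^ 2 * t ^ 2 +
      (51 / 25) * h ^ 2 * t ^ 3 + h ^ 3 + (3 / 50) * h ^ 3 * t -
      (3959 / 2000) * h ^ 3 * t ^ 2 - (101 / 25) * h ^ 3 * t ^ 3 + (15 / 4) * h ^ 3 * t ^ 4 -
      2 * h ^ 4 + (197 / 50) * h ^ 4 * t - (9209 / 10000) * h ^ 4 * t ^ 2 -
      (101 / 50) * h ^ 4 * t ^ 3 + h ^ 5 - (99 / 50) * h ^ 5 * t +
      (4703 / 5000) * h ^ 5 * t ^ 2 + (51 / 25) * h ^ 5 * t ^ 3 - (9 / 4) * h ^ 5 * t ^ 4 -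
      (199 / 10000) * h ^ 6 * t ^ 2 + h ^ 6 * t ^ 3 - (3 / 4) * h ^ 6 * t ^ 4 +
      (197 / 10000) * h ^ 7 * t ^ 2 - (1 / 100) * h ^ 7 * t ^ 3 +
      (1 / 10000) * h ^ 8 * t ^ 2 =
      (h ^ 3 - 2 * h ^ 4 + h ^ 5) * (v ^ 4) + (2 * h - (201 / 50) * h ^ 2 + (203 / 50) * h ^ 3 -
      (203 / 50) * h ^ 4 + (101 / 50) * h ^ 5) * (u * v ^ 3) + ((251 / 50) * h - (91201 / 10000) *
      h ^ 2 + (8401 / 2000) * h ^ 3 - (11009 / 10000) * h ^ 4 + (5003 / 5000) * h ^ 5 - (199 /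
      10000) * h ^ 6 + (197 / 10000) * h ^ 7 + (1 / 10000) * h ^ 8) * (u ^ 2 * v ^ 2) + (-1 + (603
      / 100) * h - (20701 / 5000) * h ^ 2 - (3819 / 1000) * h ^ 3 - (209 / 5000) * h ^ 4 + (4953 /
      2500) * h ^ 5 + (4801 / 5000) * h ^ 6 + (147 / 5000) * h ^ 7 + (1 / 5000) * h ^ 8) * (u ^ 3
      * v) + (-(1 / 4) + (19 / 25) * h + (9599 / 10000) * h ^ 2 - (2419 / 2000) * h ^ 3 - (10009 /
      10000) * h ^ 4 - (1247 / 5000) * h ^ 5 + (2301 / 10000) * h ^ 6 + (97 / 10000) * h ^ 7 + (1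
      / 10000) * h ^ 8) * (u ^ 4) := by
    rw [hu, hv]; ring
  rw [key]
  exact add_nonneg (add_nonneg (add_nonneg (add_nonneg (mul_nonneg (px5_g1_0 h1 h2) (by positivity))
    (mul_nonneg (px5_g1_1 h1 h2) (by positivity)))
    (mul_nonneg (px5_g1_2 h1 h2) (by positivity)))
    (mul_nonneg (px5_g1_3 h1 h2) (by positivity)))
    (mul_nonneg (px5_g1_4 h1 h2) (by positivity))

lemma px5_box2 {h t : ℝ} (h1 : 3 / 4 ≤ h) (h2 : h ≤ 39 / 50) (t1 : 13 / 25 ≤ t)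
    (t2 : t ≤ 17 / 25) : 0 ≤ -t ^ 3 + (3 / 4) * t ^ 4 + 2 * h * t - (49 / 50) * h * t ^ 2 + (199 / 100) * h * t ^ 3 -
      (9 / 4) * h * t ^ 4 - (201 / 50) * h ^ 2 * t + (29399 / 10000) * h ^ 2 * t ^ 2 +
      (51 / 25) * h ^ 2 * t ^ 3 + h ^ 3 + (3 / 50) * h ^ 3 * t -
      (3959 / 2000) * h ^ 3 * t ^ 2 - (101 / 25) * h ^ 3 * t ^ 3 + (15 / 4) * h ^ 3 * t ^ 4 -
      2 * h ^ 4 + (197 / 50) * h ^ 4 * t - (9209 / 10000) * h ^ 4 * t ^ 2 -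
      (101 / 50) * h ^ 4 * t ^ 3 + h ^ 5 - (99 / 50) * h ^ 5 * t +
      (4703 / 5000) * h ^ 5 * t ^ 2 + (51 / 25) * h ^ 5 * t ^ 3 - (9 / 4) * h ^ 5 * t ^ 4 -
      (199 / 10000) * h ^ 6 * t ^ 2 + h ^ 6 * t ^ 3 - (3 / 4) * h ^ 6 * t ^ 4 +
      (197 / 10000) * h ^ 7 * t ^ 2 - (1 / 100) * h ^ 7 * t ^ 3 +
      (1 / 10000) * h ^ 8 * t ^ 2 := by
  obtain ⟨u, hu⟩ : ∃ u, u = t - 13 / 25 := ⟨_, rfl⟩
  obtain ⟨v, hv⟩ : ∃ v, v = 17 / 25 - t := ⟨_, rfl⟩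
  have hu0 : 0 ≤ u := by linarith
  have hv0 : 0 ≤ v := by linarith
  have key : -t ^ 3 + (3 / 4) * t ^ 4 + 2 * h * t - (49 / 50) * h * t ^ 2 + (199 / 100) * h * t ^ 3 -
      (9 / 4) * h * t ^ 4 - (201 / 50) * h ^ 2 * t + (29399 / 10000) * h ^ 2 * t ^ 2 +
      (51 / 25) * h ^ 2 * t ^ 3 + h ^ 3 + (3 / 50) * h ^ 3 * t -
      (3959 / 2000) * h ^ 3 * t ^ 2 - (101 / 25) * h ^ 3 * t ^ 3 + (15 / 4) * h ^ 3 * t ^ 4 -
      2 * h ^ 4 + (197 / 50) * h ^ 4 * t - (9209 / 10000) * h ^ 4 * t ^ 2 -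
      (101 / 50) * h ^ 4 * t ^ 3 + h ^ 5 - (99 / 50) * h ^ 5 * t +
      (4703 / 5000) * h ^ 5 * t ^ 2 + (51 / 25) * h ^ 5 * t ^ 3 - (9 / 4) * h ^ 5 * t ^ 4 -
      (199 / 10000) * h ^ 6 * t ^ 2 + h ^ 6 * t ^ 3 - (3 / 4) * h ^ 6 * t ^ 4 +
      (197 / 10000) * h ^ 7 * t ^ 2 - (1 / 100) * h ^ 7 * t ^ 3 +
      (1 / 10000) * h ^ 8 * t ^ 2 =
      (-(134017 / 1024) + (2717 / 2) * h - (6303817 / 4096) * h ^ 2 + (1262953 / 4096) * h ^ 3 -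
      (3026497 / 4096) * h ^ 4 + (1084585 / 2048) * h ^ 5 + (502437 / 4096) * h ^ 6 + (24505 /
      4096) * h ^ 7 + (169 / 4096) * h ^ 8) * (v ^ 4) + (-(158353 / 256) + (1474205 / 256) * h -
      (6130731 / 1024) * h ^ 2 + (471251 / 1024) * h ^ 3 - (2690587 / 1024) * h ^ 4 + (1008035 /
      512) * h ^ 5 + (594607 / 1024) * h ^ 6 + (27599 / 1024) * h ^ 7 + (195 / 1024) * h ^ 8) * (u
      * v ^ 3) + (-(554931 / 512) + (2320699 / 256) * h - (17383151 / 2048) * h ^ 2 - (1137185 /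
      2048) * h ^ 3 - (7389799 / 2048) * h ^ 4 + (2813359 / 1024) * h ^ 5 + (2086195 / 2048) * h ^
      6 + (92407 / 2048) * h ^ 7 + (671 / 2048) * h ^ 8) * (u ^ 2 * v ^ 2) + (-(212993 / 256) +
      (1605583 / 256) * h - (5281719 / 1024) * h ^ 2 - (1263921 / 1024) * h ^ 3 - (2357463 / 1024)
      * h ^ 4 + (865391 / 512) * h ^ 5 + (801227 / 1024) * h ^ 6 + (34051 / 1024) * h ^ 7 + (255 /
      1024) * h ^ 8) * (u ^ 3 * v) + (-(240737 / 1024) + (410737 / 256) * h - (4579681 / 4096) * h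
      ^ 2 - (2143903 / 4096) * h ^ 3 - (2386105 / 4096) * h ^ 4 + (777793 / 2048) * h ^ 5 +
      (905437 / 4096) * h ^ 6 + (37281 / 4096) * h ^ 7 + (289 / 4096) * h ^ 8) * (u ^ 4) := by
    rw [hu, hv]; ring
  rw [key]
  exact add_nonneg (add_nonneg (add_nonneg (add_nonneg (mul_nonneg (px5_g2_0 h1 h2) (by positivity))
    (mul_nonneg (px5_g2_1 h1 h2) (by positivity)))
    (mul_nonneg (px5_g2_2 h1 h2) (by positivity)))
    (mul_nonneg (px5_g2_3 h1 h2) (by positivity)))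
    (mul_nonneg (px5_g2_4 h1 h2) (by positivity))

/-- parametrisation of `p` -/
lemma px5_par (H : Par h b η ε) (hr : CheapReg h ε p) :
    ∃ t : ℝ, h * p = t * (h ^ 2 + h - 1) ∧ 0 ≤ t ∧
      ((h ≤ 3 / 4 ∧ t ≤ 1) ∨ (3 / 4 ≤ h ∧ h ≤ 39 / 50 ∧ 13 / 25 ≤ t ∧ t ≤ 17 / 25)) := by
  have h0 := H.hpos
  have hhe : h * ε = h ^ 2 + h - 1 := by rw [H.hε]; linarith [H.hη]
  have hE : 0 ≤ h ^ 2 + h - 1 := by linarith [H.gold]
  obtain ⟨hp, hcase⟩ := hr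
  rcases hE.eq_or_lt with hE0 | hE0
  · rcases hcase with ⟨h1, hpe⟩ | ⟨h1, h2, hp0, hp1⟩
    · refine ⟨0, ?_, le_refl 0, Or.inl ⟨h1, zero_le_one⟩⟩
      have h3 : h * p ≤ h * ε := mul_le_mul_of_nonneg_left hpe h0.le
      have h4 : 0 ≤ h * p := mul_nonneg h0.le hp
      rw [hhe, ← hE0] at h3
      rw [zero_mul]
      linarith
    · exfalso
      nlinarith
  · refine ⟨h * p / (h ^ 2 + h - 1), (div_mul_cancel₀ _ hE0.ne').symm,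
      div_nonneg (mul_nonneg h0.le hp) hE0.le, ?_⟩
    rcases hcase with ⟨h1, hpe⟩ | ⟨h1, h2, hp0, hp1⟩
    · refine Or.inl ⟨h1, ?_⟩
      rw [div_le_one hE0, ← hhe]
      exact mul_le_mul_of_nonneg_left hpe h0.le
    · refine Or.inr ⟨h1, h2, ?_, ?_⟩
      · rw [le_div_iff₀ hE0, ← hhe]
        nlinarith [mul_le_mul_of_nonneg_left hp0 h0.le]
      · rw [div_le_iff₀ hE0, ← hhe]
        nlinarith [mul_le_mul_of_nonneg_left hp1 h0.le]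

theorem PX5 (H : Par h b η ε) (hκ0 : 0 ≤ κ) (hκ : κ ≤ b ^ 2 / 100) (hr : CheapReg h ε p) :
    (η + p) ^ 2 * (b + p ^ 2) ≤
      (η + p - (b + dl ε κ p)) * (η + p - (b + dl ε κ p)) := by
  have h0 := H.hpos
  have hb := H.hb
  have hbk := H.key
  have hη := H.hη
  have hhe : h * ε = h ^ 2 + h - 1 := by rw [H.hε]; linarith [H.hη]
  have hη1 := H.η_le_one
  have hE0 : 0 ≤ h ^ 2 + h - 1 := by linarith [H.gold]
  have hp := hr.1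
  have hε0 := H.ε_nonneg
  have hpε : p ≤ ε := by
    obtain ⟨_, hcase⟩ := hr
    rcases hcase with ⟨_, h2⟩ | ⟨_, _, _, h2⟩
    · exact h2
    · linarith
  have hph : p ≤ h := hpε.trans H.ε_le_h
  have hlt := H.hlt
  have hbη := H.b_lt_η
  have hb0 := H.b_pos
  obtain ⟨t, hP, ht0, ht⟩ := px5_par H hr
  set D : ℝ := ε - p / 2 + b ^ 2 / 100 with hD
  have hhD : h * D = (h ^ 2 + h - 1) - t * (h ^ 2 + h - 1) / 2 + h * (1 - h) ^ 2 / 100 := by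
    rw [hD, ← hhe, hb]
    have : h * (ε - p / 2 + (1 - h) ^ 2 / 100) = h * ε - h * p / 2 + h * (1 - h) ^ 2 / 100 := by
      ring
    rw [this, hP, hhe]
  have hΔ : dl ε κ p ≤ p * D := by
    rw [hD]
    unfold dl
    nlinarith [mul_nonneg hp (sub_nonneg.2 hκ)]
  have hΔ0 : 0 ≤ dl ε κ p := by
    unfold dl
    nlinarith [mul_nonneg hp hκ0, mul_nonneg hp (sub_nonneg.2 hpε)]
  have hD0 : 0 ≤ D := by rw [hD]; nlinarith [sq_nonneg b]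
  have hD1 : D ≤ 1 := by
    have e1 : 0 ≤ t * (h ^ 2 + h - 1) := mul_nonneg ht0 hE0
    have e2 : h * (1 - h) ≤ 1 := by
      have := mul_le_mul_of_nonneg_left hlt.le h0.le
      have h4 := sq_nonneg h
      have : h * (1 - h) = h - h ^ 2 := by ring
      linarith
    have e3 : (1 - h) * (h * (1 - h)) ≤ (1 - h) * 1 :=
      mul_le_mul_of_nonneg_left e2 (by linarith)
    have e4 : h * (1 - h) ^ 2 = (1 - h) * (h * (1 - h)) := by ring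
    have e5 : h ^ 2 ≤ h := by
      rw [pow_two]; exact mul_le_of_le_one_right h0.le hlt.le
    have h1 : h * D ≤ h * 1 := by
      rw [hhD, e4]
      linarith
    exact le_of_mul_le_mul_left h1 h0
  have hpD : p * D ≤ p := mul_le_of_le_one_right hp hD1
  have hf2 : 0 ≤ η + p - (b + p * D) := by linarith
  have hq : 0 ≤ -t ^ 3 + (3 / 4) * t ^ 4 + 2 * h * t - (49 / 50) * h * t ^ 2 + (199 / 100) * h * t ^ 3 -
      (9 / 4) * h * t ^ 4 - (201 / 50) * h ^ 2 * t + (29399 / 10000) * h ^ 2 * t ^ 2 +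
      (51 / 25) * h ^ 2 * t ^ 3 + h ^ 3 + (3 / 50) * h ^ 3 * t -
      (3959 / 2000) * h ^ 3 * t ^ 2 - (101 / 25) * h ^ 3 * t ^ 3 + (15 / 4) * h ^ 3 * t ^ 4 -
      2 * h ^ 4 + (197 / 50) * h ^ 4 * t - (9209 / 10000) * h ^ 4 * t ^ 2 -
      (101 / 50) * h ^ 4 * t ^ 3 + h ^ 5 - (99 / 50) * h ^ 5 * t +
      (4703 / 5000) * h ^ 5 * t ^ 2 + (51 / 25) * h ^ 5 * t ^ 3 - (9 / 4) * h ^ 5 * t ^ 4 -
      (199 / 10000) * h ^ 6 * t ^ 2 + h ^ 6 * t ^ 3 - (3 / 4) * h ^ 6 * t ^ 4 +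
      (197 / 10000) * h ^ 7 * t ^ 2 - (1 / 100) * h ^ 7 * t ^ 3 +
      (1 / 10000) * h ^ 8 * t ^ 2 := by
    rcases ht with ⟨h1, ht1⟩ | ⟨h1, h2, ht1, ht2⟩
    · exact px5_box1 H.h_ge h1 ht0 ht1
    · exact px5_box2 h1 h2 ht1 ht2
  have hF : 0 ≤ (h * ((1 - h) + (t * (h ^ 2 + h - 1))) - (t * (h ^ 2 + h - 1)) * ((h ^ 2 + h - 1) - t * (h ^ 2 + h - 1) / 2 + h * (1 - h) ^ 2 / 100)) ^ 2 -
      (1 - h ^ 2 + (t * (h ^ 2 + h - 1))) ^ 2 * (h ^ 2 * (1 - h) + (t * (h ^ 2 + h - 1)) ^ 2) := by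
    have e : (h * ((1 - h) + (t * (h ^ 2 + h - 1))) - (t * (h ^ 2 + h - 1)) * ((h ^ 2 + h - 1) - t * (h ^ 2 + h - 1) / 2 + h * (1 - h) ^ 2 / 100)) ^ 2 -
      (1 - h ^ 2 + (t * (h ^ 2 + h - 1))) ^ 2 * (h ^ 2 * (1 - h) + (t * (h ^ 2 + h - 1)) ^ 2) =
      (h ^ 2 + h - 1) * (-t ^ 3 + (3 / 4) * t ^ 4 + 2 * h * t - (49 / 50) * h * t ^ 2 + (199 / 100) * h * t ^ 3 -
      (9 / 4) * h * t ^ 4 - (201 / 50) * h ^ 2 * t + (29399 / 10000) * h ^ 2 * t ^ 2 +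
      (51 / 25) * h ^ 2 * t ^ 3 + h ^ 3 + (3 / 50) * h ^ 3 * t -
      (3959 / 2000) * h ^ 3 * t ^ 2 - (101 / 25) * h ^ 3 * t ^ 3 + (15 / 4) * h ^ 3 * t ^ 4 -
      2 * h ^ 4 + (197 / 50) * h ^ 4 * t - (9209 / 10000) * h ^ 4 * t ^ 2 -
      (101 / 50) * h ^ 4 * t ^ 3 + h ^ 5 - (99 / 50) * h ^ 5 * t +
      (4703 / 5000) * h ^ 5 * t ^ 2 + (51 / 25) * h ^ 5 * t ^ 3 - (9 / 4) * h ^ 5 * t ^ 4 -
      (199 / 10000) * h ^ 6 * t ^ 2 + h ^ 6 * t ^ 3 - (3 / 4) * h ^ 6 * t ^ 4 +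
      (197 / 10000) * h ^ 7 * t ^ 2 - (1 / 100) * h ^ 7 * t ^ 3 +
      (1 / 10000) * h ^ 8 * t ^ 2) := by ring
    rw [e]
    exact mul_nonneg hE0 hq
  rw [← hhD, ← hP] at hF
  have hF2 : 0 ≤ h ^ 4 * ((η + p - (b + p * D)) ^ 2 - (η + p) ^ 2 * (b + p ^ 2)) := by
    have e : h ^ 4 * ((η + p - (b + p * D)) ^ 2 - (η + p) ^ 2 * (b + p ^ 2)) =
        (h * (h * (η - b) + h * p) - h * p * (h * D)) ^ 2 -
          (h * η + h * p) ^ 2 * (h ^ 2 * b + (h * p) ^ 2) := by ring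
    rw [e, hbk, hη, hb]; exact hF
  have hF3 : 0 ≤ (η + p - (b + p * D)) ^ 2 - (η + p) ^ 2 * (b + p ^ 2) :=
    nonneg_of_mul_nonneg_right hF2 (by positivity)
  have e1 : (η + p - (b + p * D)) ^ 2 ≤ (η + p - (b + dl ε κ p)) ^ 2 :=
    pow_le_pow_left₀ hf2 (by linarith) 2
  rw [← pow_two (η + p - (b + dl ε κ p))]
  linarith

end Pool.Agent.TriPack
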