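import Pool.Agent.TriPack.NT1
import Pool.Agent.TriPack.PX1
import Pool.Agent.TriPack.PX2
import Pool.Agent.TriPack.PX3
import Pool.Agent.TriPack.PX4
import Pool.Agent.TriPack.PX5
import Pool.Agent.TriPack.EX1
import Pool.Agent.TriPack.EX2

/-!
# Numeric assembly, part 4: the doubly reachable pairs are kept as virtual vertices.
-/

namespace Pool.Agent.TriPack

variable {h b η ε κ p s a c A B G : ℝ}

theorem T3_cheap (H : Par h b η ε) (R : Reg η A B G) (hA : A < (1 - G) * (η - B))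
    (hκ0 : 0 ≤ κ) (hκ : κ ≤ b ^ 2 / 100) (hr : CheapReg h ε p)
    (hs : 0 ≤ s) (ha : 0 ≤ a) (hc : 0 ≤ c) (hsum : s + a + c + p = ε) :
    T3 (1 - s) (1 - a) (1 - c) (A + dl ε κ p) (B + dl ε κ p) (G + p ^ 2) := by
  have hp0 : 0 ≤ p := hr.1
  have hpε : p ≤ ε := by linarith
  obtain ⟨hd0, hdp⟩ := nt_dl H hκ0 hκ hp0 hpε
  obtain ⟨hBη, hGb, hB0, hA'η⟩ := nt_basic H R hA
  have R' := nt_reg R hA
  have hηε := H.hε
  have hη0 := H.η_pos
  have hη1 := H.η_le_one
  have hb0 := H.b_pos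
  have hbη := H.b_lt_η
  have hE1 := EX1 H hκ0 hκ hr hs ha hc hsum
  have hE2 := EX2 H hκ0 hκ hr hs ha hc hsum
  have hE3 := EX3 H hκ0 hκ hr hs ha hc hsum
  have X1 := PX1 H hκ0 hκ hr
  have X2 := PX2 H hκ0 hκ hr
  have X3 := PX3 H hκ0 hκ hr
  have X4 := PX4 H hκ0 hκ hr
  have X5 := PX5 H hκ0 hκ hr
  generalize dl ε κ p = Δ at *
  have hp1 : p ≤ 1 := by linarith
  have hpp : p ^ 2 ≤ p := by rw [pow_two]; exact nt_mul hp0 hp1
  have hpp0 : 0 ≤ p ^ 2 := sq_nonneg p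
  have V := cheapV (g := η + p) (X := b + Δ) (Z := b + p ^ 2) (s := 1 - s) (a := 1 - a)
    (c := 1 - c) (by linarith) (by linarith) (by linarith) (by linarith) (by linarith)
    (by linarith) (by linarith) (by linarith) (by linarith) (by linarith) X1 X2 X3 X4 X5
  obtain ⟨V1, V2, V3⟩ := V
  have eS : (1 - s) * (1 - a) = η + c + p + s * a := by linear_combination -hsum - hηε
  have eQ : (1 - s) * (1 - c) = η + a + p + s * c := by linear_combination -hsum - hηε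
  have eP : (1 - a) * (1 - c) = η + s + p + a * c := by linear_combination -hsum - hηε
  have hsa : 0 ≤ s * a := mul_nonneg hs ha
  have hscp : 0 ≤ s * c := mul_nonneg hs hc
  have hacp : 0 ≤ a * c := mul_nonneg ha hc
  have hC0 : η ≤ 1 - c := by linarith
  have hC1 : 1 - c ≤ 1 := by linarith
  have hA0 : η ≤ 1 - a := by linarith
  have hA1 : 1 - a ≤ 1 := by linarith
  have hS0 : η ≤ 1 - s := by linarith
  have hS1 : 1 - s ≤ 1 := by linarith
  have hCp : 0 ≤ 1 - c := by linarith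
  have hAp : 0 ≤ 1 - a := by linarith
  have hSp : 0 ≤ 1 - s := by linarith
  have hP1 : (1 - a) * (1 - c) ≤ 1 := (nt_mul hAp hC1).trans hA1
  have hQS : (1 - s) * (1 - c) ≤ 1 - s := nt_mul hSp hC1
  have hRS : (1 - s) * (1 - a) ≤ 1 - s := nt_mul hSp hA1
  have r1 : (1 - a) * (1 - c) - (b + p ^ 2) = (1 - a) * (1 - c) - p ^ 2 - b := by ring
  have r2 : (1 - s) * (1 - c) - (b + Δ) = (1 - s) * (1 - c) - Δ - b := by ring
  have r3 : (1 - s) * (1 - a) - (b + Δ) = (1 - s) * (1 - a) - Δ - b := by ring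
  rw [r1, r2] at V1
  rw [r1, r3] at V2
  rw [r2, r3] at V3
  have t1 := R1a H R' (P := (1 - a) * (1 - c) - p ^ 2) (Q := (1 - s) * (1 - c) - Δ)
    (κ := (1 - c) ^ 2) (Δ := Δ) (sq_nonneg _) (nt_sq hCp hC1) (by linarith) (by linarith) hd0
    V1 hE1
  have t2 := R2 H R' (P := (1 - a) * (1 - c) - p ^ 2) (R := (1 - s) * (1 - a) - Δ)
    (κ := (1 - a) ^ 2) (Δ := Δ) (sq_nonneg _) (nt_sq hAp hA1) (by linarith) (by linarith)
    (by linarith) hd0 hE2 V2
  have t3 := R3 H R' (Q := (1 - s) * (1 - c) - Δ) (R := (1 - s) * (1 - a) - Δ)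
    (s := 1 - s) (Δ := p ^ 2) hS1 (by linarith) (by linarith) (by linarith)
    (by linarith) hpp0 hE3 V3
  have e1 : (1 - a) * (1 - c) - p ^ 2 - G = (1 - a) * (1 - c) - (G + p ^ 2) := by ring
  have e2 : (1 - s) * (1 - c) - Δ - B = (1 - s) * (1 - c) - (B + Δ) := by ring
  have e3 : (1 - s) * (1 - a) - Δ - (1 - G) * (η - B)
      = (1 - s) * (1 - a) - ((1 - G) * (η - B) + Δ) := by ring
  rw [e1, e2] at t1
  rw [e1, e3] at t2
  rw [e3, e2] at t3
  exact nt_T3 (X' := (1 - G) * (η - B) + Δ) (by linarith) (by linarith) (by linarith)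
    (by linarith) (by linarith) (by linarith) t1 t2 t3

end Pool.Agent.TriPack
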