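import Pool.Agent.TriPack.ParBasic

/-!
# Row PL1: the linear bound, numeric part

* `lag_sum`: in the region, `A < (1-G)(η-B)` gives `A+B+G < 3b`. Proof:
  `A+B+G < (1-G)(η-B)+B+G = η+G(1-η+B)`; with `(2-G)B ≤ η(1-G)` (`Reg.two_B_le`) and
  `(2-G)(3b-η-G(1-η)) - ηG(1-G) = (b-G)(2(1-η+b)-G) ≥ 0` (`Par.key2`, `Reg.G_le`).
-/

namespace Pool.Agent.TriPack

variable {h b η ε κ p A B G : ℝ}

theorem lag_sum (H : Par h b η ε) (R : Reg η A B G) (hA : A < (1 - G) * (η - B)) :
    A + B + G < 3 * b := by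
  have hGb := R.G_le H
  have hG1 := R.G_lt_one H
  have h2B := R.two_B_le
  have hk := H.key2
  have hb := H.b_pos
  have hη1 := H.η_le_one
  obtain ⟨hG, hGB, hBA, hA', hBη⟩ := R
  have h1 : A + B + G < η + G * (1 - η + B) := by nlinarith
  have h2 : 0 ≤ (b - G) * (2 * (1 - η + b) - G) :=
    mul_nonneg (by linarith) (by linarith)
  have h3 : (2 - G) * (3 * b - η - G * (1 - η)) - η * G * (1 - G) =
      (b - G) * (2 * (1 - η + b) - G) := by
    linear_combination (-2) * hk
  have h4 : 0 ≤ G * (η * (1 - G) - (2 - G) * B) := mul_nonneg hG (by linarith)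
  have h5 : 0 ≤ (2 - G) * (3 * b - η - G * (1 - η + B)) := by nlinarith
  have h6 : 0 ≤ 3 * b - η - G * (1 - η + B) := by
    by_contra hc
    push Not at hc
    have := mul_neg_of_pos_of_neg (show (0 : ℝ) < 2 - G by linarith) hc
    linarith
  linarith

end Pool.Agent.TriPack
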