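import Pool.Agent.TriPack.ParBasic

/-!
# Row PL2: the linear bound, numeric part
-/

namespace Pool.Agent.TriPack

variable {h b η ε κ p A B G : ℝ}

/-- polynomial inequality, `c = 17/25`, `b ∈ [22/100, 1/4]`. -/
theorem pl2_poly1 (h1 : 22 / 100 ≤ b) (h2 : b ≤ 1 / 4) :
    0 < b * (2 - b) * (1 - b) * (1 + 17 / 25) - 17 / 25 * b ^ 2 * (2 - b) ^ 2
      + (1 - 17 / 25) ^ 2 / 2 * (1 - 3 * b + b ^ 2) ^ 2 - (3 * b + b ^ 2 / 25) * (1 - b) ^ 2 := by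
  nlinarith [mul_nonneg (sub_nonneg.2 h1) (sub_nonneg.2 h2),
    mul_nonneg (mul_nonneg (sub_nonneg.2 h1) (sub_nonneg.2 h2)) (sub_nonneg.2 h1),
    mul_nonneg (mul_nonneg (sub_nonneg.2 h1) (sub_nonneg.2 h2)) (sub_nonneg.2 h2),
    mul_nonneg (mul_nonneg (sub_nonneg.2 h1) (sub_nonneg.2 h2))
      (mul_nonneg (sub_nonneg.2 h1) (sub_nonneg.2 h2))]

/-- polynomial inequality, `c = 11/20`, `b ∈ [14/100, 22/100]`. -/
theorem pl2_poly2 (h1 : 14 / 100 ≤ b) (h2 : b ≤ 22 / 100) :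
    0 < b * (2 - b) * (1 - b) * (1 + 11 / 20) - 11 / 20 * b ^ 2 * (2 - b) ^ 2
      + (1 - 11 / 20) ^ 2 / 2 * (1 - 3 * b + b ^ 2) ^ 2 - (3 * b + b ^ 2 / 25) * (1 - b) ^ 2 := by
  nlinarith [mul_nonneg (sub_nonneg.2 h1) (sub_nonneg.2 h2),
    mul_nonneg (mul_nonneg (sub_nonneg.2 h1) (sub_nonneg.2 h2)) (sub_nonneg.2 h1),
    mul_nonneg (mul_nonneg (sub_nonneg.2 h1) (sub_nonneg.2 h2)) (sub_nonneg.2 h2),
    mul_nonneg (mul_nonneg (sub_nonneg.2 h1) (sub_nonneg.2 h2))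
      (mul_nonneg (sub_nonneg.2 h1) (sub_nonneg.2 h2))]

/-- polynomial inequality at the critical point, `b ∈ [0, 18/100]`. -/
theorem pl2_poly3 (h1 : 0 ≤ b) (h2 : b ≤ 18 / 100) :
    0 < 2 * (2 - b) * (1 - b) - 3 / 2 * b * (2 - b) ^ 2 - (3 + b / 25) * (1 - b) ^ 2 := by
  nlinarith [mul_nonneg h1 (sub_nonneg.2 h2),
    mul_nonneg (mul_nonneg h1 (sub_nonneg.2 h2)) h1,
    mul_nonneg (mul_nonneg h1 (sub_nonneg.2 h2)) (sub_nonneg.2 h2)]

/-- the value at `p = c ε`, cleared of denominators. -/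
theorem pl2_val (c : ℝ) (hb1 : b < 1) (hη : (1 - b) * η = b * (2 - b)) (hε : ε = 1 - η)
    (hP : 0 < b * (2 - b) * (1 - b) * (1 + c) - c * b ^ 2 * (2 - b) ^ 2
      + (1 - c) ^ 2 / 2 * (1 - 3 * b + b ^ 2) ^ 2 - (3 * b + b ^ 2 / 25) * (1 - b) ^ 2) :
    0 < η * (1 + c * ε) + (ε - c * ε) ^ 2 / 2 - 3 * b - b ^ 2 / 25 := by
  have hpos : 0 < (1 - b) ^ 2 := by
    have : 0 < 1 - b := by linarith
    positivity
  have hm : 0 < (1 - b) ^ 2 *
      (η * (1 + c * ε) + (ε - c * ε) ^ 2 / 2 - 3 * b - b ^ 2 / 25) := by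
    have e : (1 - b) ^ 2 * (η * (1 + c * ε) + (ε - c * ε) ^ 2 / 2 - 3 * b - b ^ 2 / 25)
        = b * (2 - b) * (1 - b) * (1 + c) - c * b ^ 2 * (2 - b) ^ 2
      + (1 - c) ^ 2 / 2 * (1 - 3 * b + b ^ 2) ^ 2 - (3 * b + b ^ 2 / 25) * (1 - b) ^ 2 := by
      have hE : (1 - b) * ε = 1 - 3 * b + b ^ 2 := by rw [hε]; linear_combination -hη
      have e1 : (1 - b) ^ 2 * (η * (1 + c * ε) + (ε - c * ε) ^ 2 / 2 - 3 * b - b ^ 2 / 25)
        = ((1 - b) * η) * ((1 - b) * (1 + c) - c * ((1 - b) * η))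
          + (1 - c) ^ 2 / 2 * ((1 - b) * ε) ^ 2 - (3 * b + b ^ 2 / 25) * (1 - b) ^ 2 := by
        rw [hε]; ring
      rw [e1, hE, hη]; ring
    rw [e]; exact hP
  exact (pos_iff_pos_of_mul_pos hm).1 hpos

theorem lag_poly (H : Par h b η ε) (hκ0 : 0 ≤ κ) (hκ : κ ≤ b ^ 2 / 100) (hr : LagReg h ε p) :
    3 * b < (η - 2 * κ) * (1 - 2 * κ + p) + (ε - p) ^ 2 / 2 := by
  obtain ⟨hpε, hr⟩ := hr
  have hb0 : 0 < b := H.b_pos
  have hη0 : 0 < η := H.η_pos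
  have hε0 : 0 ≤ ε := H.ε_nonneg
  have hhb : h = 1 - b := by rw [H.hb]; ring
  have hb1 : b < 1 := by have := H.b_le; linarith
  have hηe : (1 - b) * η = b * (2 - b) := by
    have := H.hη; rw [hhb] at this; rw [this]; ring
  have hεe := H.hε
  -- reduction to `κ`-free inequality
  suffices hg : 0 < η * (1 + p) + (ε - p) ^ 2 / 2 - 3 * b - b ^ 2 / 25 by
    have e : (η - 2 * κ) * (1 - 2 * κ + p) = η * (1 + p) - 4 * κ + (2 * κ * (ε - p) + 4 * κ ^ 2) := by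
      rw [hεe]; ring
    have e2 : 0 ≤ 2 * κ * (ε - p) + 4 * κ ^ 2 := by
      have : 0 ≤ κ * (ε - p) := mul_nonneg hκ0 (by linarith)
      nlinarith [sq_nonneg κ]
    rw [e]; linarith
  -- monotonicity: the value at `p` dominates the value at `cε` if `η ≥ (1-c) ε`
  have hmono : ∀ c : ℝ, c * ε ≤ p → (1 - c) * ε ≤ η →
      0 < η * (1 + c * ε) + (ε - c * ε) ^ 2 / 2 - 3 * b - b ^ 2 / 25 →
      0 < η * (1 + p) + (ε - p) ^ 2 / 2 - 3 * b - b ^ 2 / 25 := by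
    intro c hc1 hc2 hc3
    have e : η * (1 + p) + (ε - p) ^ 2 / 2 - 3 * b - b ^ 2 / 25
        = (η * (1 + c * ε) + (ε - c * ε) ^ 2 / 2 - 3 * b - b ^ 2 / 25)
          + (p - c * ε) * (η - (1 - c) * ε) + (p - c * ε) ^ 2 / 2 := by ring
    rw [e]
    have h1 : 0 ≤ (p - c * ε) * (η - (1 - c) * ε) :=
      mul_nonneg (by linarith) (by linarith)
    have h2 : 0 ≤ (p - c * ε) ^ 2 / 2 := by positivity
    linarith
  rcases hr with ⟨h1, h2, h3⟩ | ⟨h1, h2⟩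
  · -- `b ∈ [22/100, 1/4]`
    have hb2 : 22 / 100 ≤ b := by linarith
    have hb3 : b ≤ 1 / 4 := by linarith
    refine hmono (17 / 25) h3 ?_ (pl2_val (17 / 25) hb1 hηe hεe (pl2_poly1 hb2 hb3))
    -- `(8/25) ε ≤ η`
    have hε1 : ε < 1 := H.ε_lt_one
    have : 2 * b ≤ η := H.two_b_le
    linarith
  · have hb2 : b ≤ 22 / 100 := by linarith
    rcases le_total ((1 - 11 / 20) * ε) η with hcase | hcase
    · refine hmono (11 / 20) h2 hcase (pl2_val (11 / 20) hb1 hηe hεe (pl2_poly2 ?_ hb2))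
      -- `b ≥ 14/100`
      by_contra hc
      push Not at hc
      -- η < 0.31
      rw [hεe] at hcase
      have h9 : 9 / 29 ≤ η := by linarith
      have h10 : (1 - b) * (9 / 29) ≤ b * (2 - b) := by
        rw [← hηe]; exact mul_le_mul_of_nonneg_left h9 (by linarith)
      nlinarith
    · -- minimum at `ε - η`
      rw [hεe] at hcase
      have h9 : η ≤ 9 / 29 := by linarith
      have hb4 : b ≤ 18 / 100 := by
        have := H.two_b_le; linarith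
      have hP := pl2_poly3 hb0.le hb4
      have key : 0 < 2 * η - 3 / 2 * η ^ 2 - 3 * b - b ^ 2 / 25 := by
        have hpos : 0 < (1 - b) ^ 2 := by
          have : 0 < 1 - b := by linarith
          positivity
        have hm : 0 < (1 - b) ^ 2 * (2 * η - 3 / 2 * η ^ 2 - 3 * b - b ^ 2 / 25) := by
          have e : (1 - b) ^ 2 * (2 * η - 3 / 2 * η ^ 2 - 3 * b - b ^ 2 / 25)
              = b * (2 * (2 - b) * (1 - b) - 3 / 2 * b * (2 - b) ^ 2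
                - (3 + b / 25) * (1 - b) ^ 2) := by
            have e1 : (1 - b) ^ 2 * (2 * η - 3 / 2 * η ^ 2 - 3 * b - b ^ 2 / 25)
              = 2 * (1 - b) * ((1 - b) * η) - 3 / 2 * ((1 - b) * η) ^ 2
                - (3 * b + b ^ 2 / 25) * (1 - b) ^ 2 := by ring
            rw [e1, hηe]; ring
          rw [e]; exact mul_pos hb0 hP
        exact (pos_iff_pos_of_mul_pos hm).1 hpos
      have e : η * (1 + p) + (ε - p) ^ 2 / 2 - 3 * b - b ^ 2 / 25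
          = (2 * η - 3 / 2 * η ^ 2 - 3 * b - b ^ 2 / 25) + (p - (ε - η)) ^ 2 / 2 := by
        rw [hεe]; ring
      rw [e]
      have : 0 ≤ (p - (ε - η)) ^ 2 / 2 := by positivity
      linarith

end Pool.Agent.TriPack
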