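import Pool.Agent.TriPack.NT2
import Pool.Agent.TriPack.NT3
import Pool.Agent.TriPack.NT4
import Pool.Agent.TriPack.PL1
import Pool.Agent.TriPack.PL2

/-!
# Numeric assembly: in each region one of the three `T3` conditions holds, or the linear bound.
-/

namespace Pool.Agent.TriPack

variable {h b η ε κ p s a c A B G : ℝ}

/-- the numeric theorem. -/
theorem NT (H : Par h b η ε) (R : Reg η A B G) (hA : A < (1 - G) * (η - B))
    (hκ0 : 0 ≤ κ) (hκ : κ ≤ b ^ 2 / 100)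
    (hs : 0 ≤ s) (ha : 0 ≤ a) (hc : 0 ≤ c) (hp : 0 ≤ p) (hsum : s + a + c + p = ε) :
    T3 (1 - s) (1 - a) (1 - c) (A + dl ε κ p) (B + dl ε κ p) (G + p ^ 2) ∨
    T3 (1 - s) (1 - a) (1 - c - p) (A + dl ε κ p) B G ∨
    T3 (1 - s) (1 - a - p) (1 - c) A (B + dl ε κ p) G ∨
    (s + a + c ≤ p ∧ A + B + G < (η - 2 * κ) * (1 - 2 * κ + p) + (ε - p) ^ 2 / 2) := by
  have hpε : p ≤ ε := by linarith
  have hε0 := H.ε_nonneg
  rcases le_or_gt h (3 / 4) with h1 | h1
  · left; exact T3_cheap H R hA hκ0 hκ ⟨hp, Or.inl ⟨h1, hpε⟩⟩ hs ha hc hsum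
  have drop : DropReg h ε p → T3 (1 - s) (1 - a) (1 - c - p) (A + dl ε κ p) B G ∨
      T3 (1 - s) (1 - a - p) (1 - c) A (B + dl ε κ p) G := by
    intro hr
    rcases le_total c ((ε - p) / 2) with h2 | h2
    · left; exact T3_dropC H R hA hκ0 hκ hr hs ha hc hsum h2
    · right; exact T3_dropB H R hA hκ0 hκ hr hs ha hc hsum h2
  have lagc : LagReg h ε p → ε / 2 ≤ p → (s + a + c ≤ p ∧
      A + B + G < (η - 2 * κ) * (1 - 2 * κ + p) + (ε - p) ^ 2 / 2) := by
    intro hr h2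
    exact ⟨by linarith, (lag_sum H R hA).trans (lag_poly H hκ0 hκ hr)⟩
  rcases le_or_gt h (39 / 50) with h2 | h2
  · rcases le_or_gt p (13 / 25 * ε) with h3 | h3
    · rcases drop ⟨h1.le, hp, Or.inl h3⟩ with h4 | h4
      · right; left; exact h4
      · right; right; left; exact h4
    rcases le_or_gt p (17 / 25 * ε) with h4 | h4
    · left; exact T3_cheap H R hA hκ0 hκ ⟨hp, Or.inr ⟨h1.le, h2, h3.le, h4⟩⟩ hs ha hc hsum
    · right; right; right
      exact lagc ⟨hpε, Or.inl ⟨h1.le, h2, h4.le⟩⟩ (by linarith)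
  · rcases le_or_gt p (11 / 20 * ε) with h3 | h3
    · rcases drop ⟨h1.le, hp, Or.inr ⟨h2.le, h3⟩⟩ with h4 | h4
      · right; left; exact h4
      · right; right; left; exact h4
    · right; right; right
      exact lagc ⟨hpε, Or.inr ⟨h2.le, h3.le⟩⟩ (by linarith)

end Pool.Agent.TriPack
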