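import Pool.Agent.TriPack.ParBasic

/-!
# Row R2: reduction of the type 2 condition to the symmetric point

Write `t = G`, `u = B`; `0 ≤ t ≤ u`, `u ≤ A ≤ (1-t)(η-u)`, `t ≤ b` (`Reg.G_le`), `b ≤ η ≤ P`.
The claim is monotone in `A` because `P - t ≥ 0`, so it suffices to prove
  `Φ(t,u) := (P-t)(R-(1-t)(η-u)) - κ(u+Δ) ≥ 0`.
(a) Diagonal, `0 ≤ t ≤ b`, `τ = t/b`, `α0 = R-η ≥ 0`, `α1 = R-b ≥ α0`:
  `R-(1-t)(η-t) ≥ (1-τ)α0 + τα1` (difference `t(b-t) ≥ 0`, using `(1-b)(η-b) = b`), and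
  `P-t = (1-τ)P + τ(P-b)`. Multiply out; with `τ = τ(1-τ)+τ^2`, `1 = (1-τ)^2+2τ(1-τ)+τ^2`:
  `[(1-τ)P+τ(P-b)][(1-τ)α0+τα1] - κ(τb+Δ)
     = (1-τ)^2 [Pα0-κΔ] + τ(1-τ)[Pα1+(P-b)α0-κ(2Δ+b)] + τ^2[(P-b)α1-κ(b+Δ)]`,
  where the first bracket is `≥ 0` by `h0`, the last by `hs`, and
  `Pα1+(P-b)α0 = Pα0+(P-b)α1+b(α1-α0) ≥ κΔ+κ(b+Δ)`.
(b) Curve `A = u`, `b ≤ u ≤ η/2`, `t_c = 1-u/(η-u)`:
  `(η-u)Φ(t_c,u) = Ψ(u) := ((2-P)u-(1-P)η)(R-u) - κ(u+Δ)(η-u)`, leading coefficient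
  `-(2-P)+κ ≤ 0`, `Ψ(b) = (η-b)[(P-b)(R-b)-κ(b+Δ)] ≥ 0`, `Ψ(η) = η(R-η) ≥ 0`, so `Ψ ≥ 0`
  on `[b,η]` (same identity as in row R1).
(c) `Φ(0,u) = P(R-η+u) - κ(u+Δ)` is affine in `u`, `≥ 0` at `u = 0` (`h0`) and at `u = η/2`
  (there `t_c = 0`), so on `[0,η/2]`.
(d) For fixed `u`, `Φ(t,u)` is concave in `t` (coefficient `-(η-u)` of `t^2`), `≥ 0` at `t = 0`
  and at `t = u` (if `u ≤ b`, by (a)) resp. `t = t_c(u) ≥ t` (if `u ≥ b`, by (b)).
Checked numerically with 5*10^7 random extremal parameters.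
-/

namespace Pool.Agent.TriPack

/-- the diagonal, type 2 -/
theorem r2_diag {h b η ε t : ℝ} (H : Par h b η ε) {P R κ Δ : ℝ} (hκ0 : 0 ≤ κ)
    (hP0 : η ≤ P) (ht0 : 0 ≤ t) (htb : t ≤ b)
    (h0 : κ * Δ ≤ P * (R - η)) (hs : κ * (b + Δ) ≤ (P - b) * (R - b)) :
    κ * (t + Δ) ≤ (P - t) * (R - (1 - t) * (η - t)) := by
  have hb := H.b_pos
  have hbη := H.b_lt_η
  have key2 := H.key2
  have hPt : 0 ≤ P - t := by linarith
  have e1 : (b - t) * (R - η) + t * (R - b) ≤ b * (R - (1 - t) * (η - t)) := by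
    have e : b * (R - (1 - t) * (η - t)) - ((b - t) * (R - η) + t * (R - b)) =
        b * t * (b - t) + t * ((2 + η) * b - b ^ 2 - η) := by ring
    have e' : t * ((2 + η) * b - b ^ 2 - η) = 0 := by rw [← key2]; ring
    have := mul_nonneg (mul_nonneg hb.le ht0) (sub_nonneg.2 htb)
    linarith
  have e2 := mul_le_mul_of_nonneg_left e1 (mul_nonneg hb.le hPt)
  have i1 : 0 ≤ (b - t) ^ 2 * (P * (R - η) - κ * Δ) :=
    mul_nonneg (sq_nonneg _) (sub_nonneg.2 h0)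
  have i2 : 0 ≤ t ^ 2 * ((P - b) * (R - b) - κ * (b + Δ)) :=
    mul_nonneg (sq_nonneg _) (sub_nonneg.2 hs)
  have i3 : 0 ≤ t * (b - t) * (P * (R - b) + (P - b) * (R - η) - κ * (2 * Δ + b)) := by
    apply mul_nonneg (mul_nonneg ht0 (sub_nonneg.2 htb))
    have := mul_nonneg hb.le (sub_nonneg.2 hbη.le)
    nlinarith
  have e3 : b * (P - t) = (b - t) * P + t * (P - b) := by ring
  have e4 : b * (P - t) * ((b - t) * (R - η) + t * (R - b)) - κ * (t + Δ) * b ^ 2 =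
      (b - t) ^ 2 * (P * (R - η) - κ * Δ) + t ^ 2 * ((P - b) * (R - b) - κ * (b + Δ)) +
      t * (b - t) * (P * (R - b) + (P - b) * (R - η) - κ * (2 * Δ + b)) := by
    rw [e3]; ring
  have e5 : κ * (t + Δ) * b ^ 2 ≤ (P - t) * (R - (1 - t) * (η - t)) * b ^ 2 := by
    have : b * (P - t) * (b * (R - (1 - t) * (η - t))) =
        (P - t) * (R - (1 - t) * (η - t)) * b ^ 2 := by ring
    linarith
  exact le_of_mul_le_mul_right e5 (by positivity)

/-- the curve, type 2 -/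
theorem r2_curve {h b η ε u : ℝ} (H : Par h b η ε) {P R κ Δ : ℝ}
    (hκ1 : κ ≤ 1) (hP : P ≤ 1) (hR : η ≤ R) (hub : b ≤ u) (huη : u ≤ η)
    (hs : κ * (b + Δ) ≤ (P - b) * (R - b)) :
    0 ≤ ((2 - P) * u - (1 - P) * η) * (R - u) - κ * (u + Δ) * (η - u) := by
  have hbη := H.b_lt_η
  have key2 := H.key2
  have hη := H.η_pos
  have e1 : ((2 - P) * b - (1 - P) * η) = (η - b) * (P - b) := by
    have : (η - b) * (P - b) - ((2 - P) * b - (1 - P) * η) = η - ((2 + η) * b - b ^ 2) := by ring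
    rw [← key2] at this
    linarith
  have i1 : 0 ≤ ((2 - P) * b - (1 - P) * η) * (R - b) - κ * (b + Δ) * (η - b) := by
    rw [e1]
    have := mul_nonneg (sub_nonneg.2 hbη.le) (sub_nonneg.2 hs)
    linarith
  have i2 : 0 ≤ η * (R - η) := mul_nonneg hη.le (sub_nonneg.2 hR)
  have i3 : 0 ≤ (2 - P - κ) * ((u - b) * (η - u) * (η - b)) := by
    apply mul_nonneg (by linarith)
    exact mul_nonneg (mul_nonneg (sub_nonneg.2 hub) (sub_nonneg.2 huη)) (sub_nonneg.2 hbη.le)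
  have j1 := mul_nonneg (sub_nonneg.2 huη) i1
  have j2 := mul_nonneg (sub_nonneg.2 hub) i2
  have e2 : (η - b) * (((2 - P) * u - (1 - P) * η) * (R - u) - κ * (u + Δ) * (η - u)) =
      (η - u) * (((2 - P) * b - (1 - P) * η) * (R - b) - κ * (b + Δ) * (η - b)) +
      (u - b) * (η * (R - η)) + (2 - P - κ) * ((u - b) * (η - u) * (η - b)) := by ring
  have e3 : 0 ≤ (η - b) * (((2 - P) * u - (1 - P) * η) * (R - u) - κ * (u + Δ) * (η - u)) := by
    rw [e2]; linarith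
  exact nonneg_of_mul_nonneg_right e3 (sub_pos.2 hbη)

theorem R2 {h b η ε A B G : ℝ} (H : Par h b η ε) (R' : Reg η A B G) {P R κ Δ : ℝ}
    (hκ0 : 0 ≤ κ) (hκ1 : κ ≤ 1) (hP0 : η ≤ P) (hP : P ≤ 1) (hR : η ≤ R) (hΔ : 0 ≤ Δ)
    (h0 : κ * Δ ≤ P * (R - η))
    (hs : κ * (b + Δ) ≤ (P - b) * (R - b)) :
    κ * (B + Δ) ≤ (P - G) * (R - A) := by
  have hb := H.b_pos
  have hbη := H.b_lt_η
  have hη := H.η_pos
  have h2b := H.two_b_le
  have hGb := R'.G_le H
  have h2B := R'.two_B_le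
  obtain ⟨hG, hGB, hBA, hA, hBη⟩ := R'
  have hPG : 0 ≤ P - G := by linarith
  have hstep : (P - G) * (R - (1 - G) * (η - B)) ≤ (P - G) * (R - A) :=
    mul_le_mul_of_nonneg_left (by linarith) hPG
  refine le_trans ?_ hstep
  have hB0 : 0 ≤ B := hG.trans hGB
  have hG1 : G ≤ 1 := by have := H.b_le; linarith
  have hBh : B ≤ η / 2 := by
    have : 0 ≤ G * (η - B) := mul_nonneg hG (sub_nonneg.2 hBη)
    nlinarith
  -- the bottom edge
  have hhalf : 0 ≤ P * (R - η + η / 2) - κ * (η / 2 + Δ) := by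
    have := r2_curve H hκ1 hP hR (u := η / 2) (by linarith) (by linarith) hs
    have e : ((2 - P) * (η / 2) - (1 - P) * η) * (R - η / 2) - κ * (η / 2 + Δ) * (η - η / 2) =
        (η / 2) * (P * (R - η + η / 2) - κ * (η / 2 + Δ)) := by ring
    rw [e] at this
    exact nonneg_of_mul_nonneg_right this (by linarith)
  have hbot : 0 ≤ P * (R - η + B) - κ * (B + Δ) := by
    have j1 := mul_nonneg (sub_nonneg.2 hBh) (sub_nonneg.2 h0)
    have j2 := mul_nonneg hB0 hhalf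
    have e : (η / 2) * (P * (R - η + B) - κ * (B + Δ)) =
        (η / 2 - B) * (P * (R - η) - κ * Δ) +
        B * (P * (R - η + η / 2) - κ * (η / 2 + Δ)) := by ring
    have e' : 0 ≤ (η / 2) * (P * (R - η + B) - κ * (B + Δ)) := by rw [e]; linarith
    exact nonneg_of_mul_nonneg_right e' (by linarith)
  by_cases hub : B ≤ b
  · by_cases hB1 : B = 0
    · have hG0 : G = 0 := by linarith
      subst hG0
      rw [hB1] at hbot ⊢
      linarith
    · have hBpos : 0 < B := lt_of_le_of_ne hB0 (Ne.symm hB1)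
      have hd := r2_diag H hκ0 hP0 hB0 hub h0 hs
      have j1 := mul_nonneg (sub_nonneg.2 hGB) hbot
      have j2 := mul_nonneg hG (sub_nonneg.2 hd)
      have j3 : 0 ≤ (η - B) * (G * (B - G)) * B :=
        mul_nonneg (mul_nonneg (sub_nonneg.2 hBη) (mul_nonneg hG (sub_nonneg.2 hGB))) hB0
      have e : B * ((P - G) * (R - (1 - G) * (η - B)) - κ * (B + Δ)) =
          (B - G) * (P * (R - η + B) - κ * (B + Δ)) +
          G * ((P - B) * (R - (1 - B) * (η - B)) - κ * (B + Δ)) +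
          (η - B) * (G * (B - G)) * B := by ring
      have e' : 0 ≤ B * ((P - G) * (R - (1 - G) * (η - B)) - κ * (B + Δ)) := by
        rw [e]; linarith
      have := nonneg_of_mul_nonneg_right e' hBpos
      linarith
  · push Not at hub
    have hc := r2_curve H hκ1 hP hR hub.le hBη hs
    have hN : (η - B) * G ≤ η - 2 * B := by nlinarith
    have hN0 : 0 ≤ η - 2 * B := by linarith
    rcases hN0.eq_or_lt with hN1 | hN1
    · have hD : 0 < η - B := by linarith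
      have hG0 : G = 0 := by
        have : (η - B) * G ≤ 0 := by linarith
        have h3 := nonpos_of_mul_nonpos_right this hD
        linarith
      subst hG0
      linarith
    · have j1 := mul_nonneg (sub_nonneg.2 hN) hbot
      have j2 := mul_nonneg hG hc
      have j3 := mul_nonneg (mul_nonneg hG (sub_nonneg.2 hN)) hN0
      have e : (η - 2 * B) * ((P - G) * (R - (1 - G) * (η - B)) - κ * (B + Δ)) =
          (η - 2 * B - (η - B) * G) * (P * (R - η + B) - κ * (B + Δ)) +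
          G * (((2 - P) * B - (1 - P) * η) * (R - B) - κ * (B + Δ) * (η - B)) +
          G * (η - 2 * B - (η - B) * G) * (η - 2 * B) := by ring
      have e' : 0 ≤ (η - 2 * B) * ((P - G) * (R - (1 - G) * (η - B)) - κ * (B + Δ)) := by
        rw [e]; linarith
      have := nonneg_of_mul_nonneg_right e' hN1
      linarith

end Pool.Agent.TriPack
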