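import Pool.Agent.TriPack.ParBasic

/-!
# Row R3: reduction of the type 3 condition to the symmetric point

Write `t = G`, `u = B`; `0 ≤ t ≤ u`, `u ≤ A ≤ (1-t)(η-u)`, `t ≤ b` (`Reg.G_le`),
`u ≤ η/2 < Q`. Monotone in `A`, so it suffices to prove
  `Φ(t,u) := (R-(1-t)(η-u))(Q-u) - s^2(t+Δ) ≥ 0`.
For fixed `u` it is affine in `t` with slope `(η-u)(Q-u) - s^2 ≤ 0` (`η-u ≤ s`, `Q-u ≤ s`).
(a) `u ≤ b`: `t ≤ u`, so `Φ(t,u) ≥ Φ(u,u)`. Diagonal exactly as in row R2 (a) with `P` replaced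
  by `Q` and `κ` by `s^2`: with `τ = u/b`, `α0 = R-η ≥ 0`, `α1 = R-b`:
  `R-(1-u)(η-u) ≥ (1-τ)α0+τα1`, `Q-u = (1-τ)Q+τ(Q-b)`,
  `[(1-τ)Q+τ(Q-b)][(1-τ)α0+τα1] - s^2(τb+Δ)
     = (1-τ)^2[Qα0-s^2Δ]+τ(1-τ)[Qα1+(Q-b)α0-s^2(2Δ+b)]+τ^2[(Q-b)α1-s^2(b+Δ)]`,
  `Qα1+(Q-b)α0 = Qα0+(Q-b)α1+b(α1-α0) ≥ s^2Δ+s^2(b+Δ)`.
(b) `b ≤ u ≤ η/2`: `t ≤ t_c := 1-u/(η-u)`, so `Φ(t,u) ≥ Φ(t_c,u) = (R-u)(Q-u)-s^2(t_c+Δ)`. Now
  `(R-u)(Q-u) ≥ (R-b)(Q-b)-(u-b)(R+Q-2b)` and
  `t_c = b - η(u-b)/((η-u)(η-b)) ≤ b - η(u-b)/(η-b)^2` (as `b = 1-b/(η-b)`), so with `hs`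
  it suffices that `s^2 η/(η-b)^2 ≥ R+Q-2b`. Here `R, Q ≤ s`, `η/(η-b)^2 = h(1+h)/b` and
  `s ≥ η = b(1+h)/h`, so `s^2 h(1+h)/b ≥ s(1+h)^2 ≥ 2s ≥ R+Q-2b`.
Checked numerically with 5*10^7 random extremal parameters.
-/

namespace Pool.Agent.TriPack

/-- the diagonal, type 3 -/
theorem r3_diag {h b η ε t : ℝ} (H : Par h b η ε) {P R κ Δ : ℝ}
    (hP0 : η ≤ P) (ht0 : 0 ≤ t) (htb : t ≤ b)
    (h0 : κ * Δ ≤ P * (R - η)) (hs : κ * (b + Δ) ≤ (P - b) * (R - b)) :
    κ * (t + Δ) ≤ (P - t) * (R - (1 - t) * (η - t)) := by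
  have hb := H.b_pos
  have hbη := H.b_lt_η
  have key2 := H.key2
  have hPt : 0 ≤ P - t := by linarith
  have e1 : (b - t) * (R - η) + t * (R - b) ≤ b * (R - (1 - t) * (η - t)) := by
    have e : b * (R - (1 - t) * (η - t)) - ((b - t) * (R - η) + t * (R - b)) =
        b * t * (b - t) + t * ((2 + η) * b - b ^ 2 - η) := by ring
    have e' : t * ((2 + η) * b - b ^ 2 - η) = 0 := by rw [← key2]; ring
    have := mul_nonneg (mul_nonneg hb.le ht0) (sub_nonneg.2 htb)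
    linarith
  have e2 := mul_le_mul_of_nonneg_left e1 (mul_nonneg hb.le hPt)
  have i1 : 0 ≤ (b - t) ^ 2 * (P * (R - η) - κ * Δ) :=
    mul_nonneg (sq_nonneg _) (sub_nonneg.2 h0)
  have i2 : 0 ≤ t ^ 2 * ((P - b) * (R - b) - κ * (b + Δ)) :=
    mul_nonneg (sq_nonneg _) (sub_nonneg.2 hs)
  have i3 : 0 ≤ t * (b - t) * (P * (R - b) + (P - b) * (R - η) - κ * (2 * Δ + b)) := by
    apply mul_nonneg (mul_nonneg ht0 (sub_nonneg.2 htb))
    have := mul_nonneg hb.le (sub_nonneg.2 hbη.le)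
    have e : P * (R - b) + (P - b) * (R - η) = P * (R - η) + (P - b) * (R - b) + b * (η - b) := by
      ring
    rw [e]
    linarith
  have e3 : b * (P - t) = (b - t) * P + t * (P - b) := by ring
  have e4 : b * (P - t) * ((b - t) * (R - η) + t * (R - b)) - κ * (t + Δ) * b ^ 2 =
      (b - t) ^ 2 * (P * (R - η) - κ * Δ) + t ^ 2 * ((P - b) * (R - b) - κ * (b + Δ)) +
      t * (b - t) * (P * (R - b) + (P - b) * (R - η) - κ * (2 * Δ + b)) := by
    rw [e3]; ring
  have e5 : κ * (t + Δ) * b ^ 2 ≤ (P - t) * (R - (1 - t) * (η - t)) * b ^ 2 := by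
    have : b * (P - t) * (b * (R - (1 - t) * (η - t))) =
        (P - t) * (R - (1 - t) * (η - t)) * b ^ 2 := by ring
    linarith
  exact le_of_mul_le_mul_right e5 (by positivity)

theorem R3 {h b η ε A B G : ℝ} (H : Par h b η ε) (R' : Reg η A B G) {Q R s Δ : ℝ}
    (hs1 : s ≤ 1) (hQ : η ≤ Q) (hQs : Q ≤ s) (hR : η ≤ R) (hRs : R ≤ s) (hΔ : 0 ≤ Δ)
    (h0 : s ^ 2 * Δ ≤ Q * (R - η))
    (hs : s ^ 2 * (b + Δ) ≤ (R - b) * (Q - b)) :
    s ^ 2 * (G + Δ) ≤ (R - A) * (Q - B) := by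
  have hb := H.b_pos
  have hbη := H.b_lt_η
  have hη := H.η_pos
  have h2b := H.two_b_le
  have hGb := R'.G_le H
  have h2B := R'.two_B_le
  obtain ⟨hG, hGB, hBA, hA, hBη⟩ := R'
  have hB0 : 0 ≤ B := hG.trans hGB
  have hG1 : G ≤ 1 := by have := H.b_le; linarith
  have hBh : B ≤ η / 2 := by
    have : 0 ≤ G * (η - B) := mul_nonneg hG (sub_nonneg.2 hBη)
    linarith
  have hQB : 0 ≤ Q - B := by linarith
  have hstep : (R - (1 - G) * (η - B)) * (Q - B) ≤ (R - A) * (Q - B) :=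
    mul_le_mul_of_nonneg_right (by linarith) hQB
  refine le_trans ?_ hstep
  have hs0 : 0 < s := by linarith
  -- the slope
  have hslope : (η - B) * (Q - B) ≤ s ^ 2 := by
    rw [pow_two]
    exact mul_le_mul (by linarith) (by linarith) hQB hs0.le
  by_cases hub : B ≤ b
  · have hd := r3_diag (κ := s ^ 2) H hQ hB0 hub h0 (by rw [mul_comm (Q - b)]; exact hs)
    have j1 := mul_nonneg (sub_nonneg.2 hGB) (sub_nonneg.2 hslope)
    have e : (R - (1 - G) * (η - B)) * (Q - B) - s ^ 2 * (G + Δ) =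
        ((Q - B) * (R - (1 - B) * (η - B)) - s ^ 2 * (B + Δ)) +
        (B - G) * (s ^ 2 - (η - B) * (Q - B)) := by ring
    linarith
  · push Not at hub
    have hD : 0 < η - B := by linarith
    have hE : 0 < η - b := by linarith
    obtain ⟨T, hT⟩ : ∃ T, T = (η - 2 * B) / (η - B) := ⟨_, rfl⟩
    have hT1 : (η - B) * T = η - 2 * B := by
      rw [hT]; field_simp
    have hGT : G ≤ T := by
      have : (η - B) * G ≤ (η - B) * T := by rw [hT1]; linarith
      exact le_of_mul_le_mul_left this hD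
    -- comparison of T and b
    have eqb := H.eqb
    have hbT : η * (B - b) ≤ (η - b) ^ 2 * (b - T) := by
      have e1 : (η - B) * ((η - b) * (b - T)) = η * (B - b) := by
        have : (η - B) * ((η - b) * (b - T)) = (η - b) * ((η - B) * b - (η - B) * T) := by ring
        rw [this, hT1]
        have e2 : (η - b) * ((η - B) * b - (η - 2 * B)) - η * (B - b) =
            (η - B) * (b - (1 - b) * (η - b)) := by ring
        rw [eqb] at e2
        linarith
      have h3 : 0 ≤ b - T := by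
        have h4 : 0 ≤ (η - B) * ((η - b) * (b - T)) := by
          rw [e1]; exact mul_nonneg hη.le (by linarith)
        have h5 := nonneg_of_mul_nonneg_right h4 hD
        exact nonneg_of_mul_nonneg_right h5 hE
      have h6 : (η - B) * ((η - b) * (b - T)) ≤ (η - b) * ((η - b) * (b - T)) :=
        mul_le_mul_of_nonneg_right (by linarith) (mul_nonneg hE.le h3)
      rw [e1] at h6
      calc η * (B - b) ≤ (η - b) * ((η - b) * (b - T)) := h6
        _ = (η - b) ^ 2 * (b - T) := by ring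
    -- the constant
    have hc : (η - b) ^ 2 * (R + Q - 2 * b) ≤ s ^ 2 * η := by
      have k1 := H.key
      have hh := H.hpos
      have gold := H.gold
      have hb1 := H.hb
      -- h^2 * both sides
      have k2 : h * η = b * (1 + h) := by
        have : h * (η - b) + h * b = b * (1 + h) := by rw [k1]; ring
        linarith
      have k3 : h ^ 2 * ((η - b) ^ 2 * (R + Q - 2 * b)) ≤ h ^ 2 * (s ^ 2 * η) := by
        have l1 : h ^ 2 * ((η - b) ^ 2 * (R + Q - 2 * b)) = b ^ 2 * (R + Q - 2 * b) := by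
          have : h ^ 2 * (η - b) ^ 2 = b ^ 2 := by rw [← mul_pow, k1]
          rw [← mul_assoc, this]
        have l2 : h ^ 2 * (s ^ 2 * η) = s ^ 2 * (h * (b * (1 + h))) := by
          rw [← k2]; ring
        rw [l1, l2]
        -- b (R+Q-2b) ≤ 2 b s, and s h (1+h) ≥ b (1+h)^2 ≥ 2 b
        have m1 : b * (1 + h) ≤ h * s := by
          rw [← k2]; exact mul_le_mul_of_nonneg_left (by linarith) hh.le
        have m2 : 2 * b ≤ s * (h * (1 + h)) := by
          have n1 := mul_le_mul_of_nonneg_right m1 (show 0 ≤ 1 + h by linarith)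
          have n2 : 2 ≤ (1 + h) * (1 + h) := by
            have : (1 + h) * (1 + h) = 1 + h + (h + h ^ 2) := by ring
            linarith
          have n3 := mul_le_mul_of_nonneg_left n2 hb.le
          linarith
        have m3 : b * (R + Q - 2 * b) ≤ 2 * b * s := by
          have := mul_le_mul_of_nonneg_left (show R + Q - 2 * b ≤ 2 * s by linarith) hb.le
          linarith
        have m4 : s * (2 * b) ≤ s * (s * (h * (1 + h))) := mul_le_mul_of_nonneg_left m2 hs0.le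
        have m5 : b * (b * (R + Q - 2 * b)) ≤ b * (s * (s * (h * (1 + h)))) :=
          mul_le_mul_of_nonneg_left (by linarith) hb.le
        calc b ^ 2 * (R + Q - 2 * b) = b * (b * (R + Q - 2 * b)) := by ring
          _ ≤ b * (s * (s * (h * (1 + h)))) := m5
          _ = s ^ 2 * (h * (b * (1 + h))) := by ring
      exact le_of_mul_le_mul_left k3 (by positivity)
    have hfin : (B - b) * (R + Q - 2 * b) ≤ s ^ 2 * (b - T) := by
      have p1 : (η - b) ^ 2 * ((B - b) * (R + Q - 2 * b)) ≤ (η - b) ^ 2 * (s ^ 2 * (b - T)) := by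
        have p2 := mul_le_mul_of_nonneg_left hc (show 0 ≤ B - b by linarith)
        have p3 := mul_le_mul_of_nonneg_left hbT (sq_nonneg s)
        linarith
      exact le_of_mul_le_mul_left p1 (by positivity)
    have j1 := mul_nonneg (sub_nonneg.2 hGT) (sub_nonneg.2 hslope)
    have e : (R - (1 - G) * (η - B)) * (Q - B) - s ^ 2 * (G + Δ) =
        ((R - ((η - B) - (η - B) * T)) * (Q - B) - s ^ 2 * (T + Δ)) +
        (T - G) * (s ^ 2 - (η - B) * (Q - B)) := by ring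
    rw [hT1] at e
    have e2 : (R - (η - B - (η - 2 * B))) * (Q - B) =
        (R - b) * (Q - b) - (B - b) * (R + Q - 2 * b) + (B - b) ^ 2 := by ring
    rw [e2] at e
    have := sq_nonneg (B - b)
    linarith

end Pool.Agent.TriPack
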