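import Pool.Agent.TriPack.V1

/-!
# Row V2 (cheap): from the vertices to all class sizes (symmetric point)

Write `g = η + p` (`0 < g ≤ 1`). Sizes `s, a, c ≤ 1` with `s + a + c = 2 + g`, so each is `≥ g`.
Hypotheses at the vertices: `X1, ..., X5`. Claim: the three types for `X, X, Z`.

(1) `(ac-Z)(sc-X) ≥ c^2 X`. For fixed `c`, `s + a = 2+g-c`, the function
`f(a) = (ac-Z)(sc-X) - c^2 X` (with `s = 2+g-c-a`) is a quadratic in `a` with leading coefficient
`-c^2`, and `a ∈ [m, 1]`, `m = 1+g-c`; so `f ≥ 0` follows from the end points: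
 `a = 1, s = m`: `(c-Z)(mc-X) ≥ c^2 X`  (1a);   `a = m, s = 1`: `(mc-Z)(c-X) ≥ c^2 X`  (1b).
(1a): divide by `c^2`: `(1-Z/c)(m-X/c) ≥ X`, product of two concave functions of `c ∈ [g,1]`,
 end points `c = 1` (`m = g`): `X1`; `c = g` (`m = 1`): `X3`. All factors are `≥ 0` as `X, Z ≤ g`.
(1b): `(m-Z/c)(1-X/c) ≥ X`: end points `c = 1`: `X2`; `c = g`: `X3`.
(2) `(ac-Z)(sa-X) ≥ a^2 X` is (1) with `a` and `c` exchanged.
(3) `(sa-X)(sc-X) = s^2 ac - sX(a+c) + X^2 ≥ (s-X)(s m-X)`, `m = 1+g-s`, because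
 `ac ≥ a+c-1 = m`. Divide by `s^2`: `(1-X/s)(m-X/s) ≥ Z`: end points `s = 1`: `X4`; `s = g`: `X5`.
If `g = 1` then `s = a = c = 1`, and the claims are `X1` resp. `X4`.
Use `interp` from V1.lean.
-/

namespace Pool.Agent.TriPack

lemma v2_A {g Y W K c : ℝ} (hg0 : 0 < g) (hgc : g ≤ c) (hc1 : c ≤ 1) (hY0 : 0 ≤ Y) (hYg : Y ≤ g)
    (hW0 : 0 ≤ W) (hWg : W ≤ g) (hK : 0 ≤ K) (h0 : g ^ 2 * K ≤ (g - Y) * (g - W))
    (h1 : K ≤ (1 - Y) * (g - W)) :
    c ^ 2 * K ≤ (c - Y) * ((1 + g - c) * c - W) := by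
  have hc0 : 0 < c := lt_of_lt_of_le hg0 hgc
  rcases eq_or_lt_of_le (hgc.trans hc1) with hg1 | hg1
  · have hc : c = 1 := le_antisymm hc1 (by linarith)
    subst hc
    nlinarith
  · set t := (c - g) / (1 - g) with ht
    have h1g : 0 < 1 - g := by linarith
    have ht0 : 0 ≤ t := div_nonneg (by linarith) h1g.le
    have ht1 : t ≤ 1 := by rw [ht, div_le_one h1g]; linarith
    have hct : c = (1 - t) * g + t * 1 := by
      have : t * (1 - g) = c - g := by rw [ht]; field_simp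
      linarith
    -- 1/c ≤ (1-t)/g + t
    have hinv : 1 / c ≤ (1 - t) * (1 / g) + t := by
      rw [div_le_iff₀ hc0]
      have hgi : g * (1 / g) = 1 := by field_simp
      have hsq : 2 ≤ 1 / g + g := by
        have : 0 ≤ (1 - g) ^ 2 / g := by positivity
        have e : (1 - g) ^ 2 / g = 1 / g + g - 2 := by field_simp; ring
        linarith
      have key : ((1 - t) * (1 / g) + t) * c - 1 = t * (1 - t) * (1 / g + g - 2) := by
        rw [hct]
        linear_combination ((1 - t) ^ 2) * hgi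
      have : 0 ≤ t * (1 - t) * (1 / g + g - 2) :=
        mul_nonneg (mul_nonneg ht0 (by linarith)) (by linarith)
      linarith
    have hint := interp (t := t) (F := 1 - Y / c) (G := (1 + g - c) - W / c)
      (F0 := 1 - Y / g) (F1 := 1 - Y) (G0 := 1 - W / g) (G1 := g - W) (K := K) ht0 ht1
      (by
        have e1 : Y / c = Y * (1 / c) := by ring
        have e2 : Y / g = Y * (1 / g) := by ring
        rw [e1, e2]
        have := mul_le_mul_of_nonneg_left hinv hY0
        linarith)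
      (by
        have e1 : W / c = W * (1 / c) := by ring
        have e2 : W / g = W * (1 / g) := by ring
        rw [e1, e2]
        have := mul_le_mul_of_nonneg_left hinv hW0
        have e3 : 1 + g - c = (1 - t) * 1 + t * g := by rw [hct]; ring
        rw [e3]
        linarith)
      (by rw [sub_nonneg, div_le_one hg0]; exact hYg) (by linarith)
      (by rw [sub_nonneg, div_le_one hg0]; exact hWg) (by linarith) hK
      (by
        have e1 : 1 - Y / g = (g - Y) / g := by field_simp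
        have e2 : 1 - W / g = (g - W) / g := by field_simp
        rw [e1, e2, div_mul_div_comm, le_div_iff₀ (by positivity)]
        linarith)
      (by linarith)
    have e1 : 1 - Y / c = (c - Y) / c := by field_simp
    have e2 : (1 + g - c) - W / c = ((1 + g - c) * c - W) / c := by field_simp
    rw [e1, e2, div_mul_div_comm, le_div_iff₀ (by positivity)] at hint
    linarith

lemma v2_B {g X Z s a c : ℝ} (hg0 : 0 < g) (hX0 : 0 ≤ X) (hXg : X ≤ g)
    (hZ0 : 0 ≤ Z) (hZg : Z ≤ g) (hsum : s + a + c = 2 + g) (hs1 : s ≤ 1) (ha1 : a ≤ 1)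
    (hc1 : c ≤ 1)
    (X1 : X ≤ (1 - Z) * (g - X)) (X2 : X ≤ (g - Z) * (1 - X))
    (X3 : g ^ 2 * X ≤ (g - Z) * (g - X)) :
    c ^ 2 * X ≤ (a * c - Z) * (s * c - X) := by
  have hgc : g ≤ c := by linarith
  have h1 := v2_A hg0 hgc hc1 hZ0 hZg hX0 hXg hX0 X3 X1
  have h2 := v2_A hg0 hgc hc1 hX0 hXg hZ0 hZg hX0 (by linarith) (by linarith)
  have hs : s = 2 + g - c - a := by linarith
  subst hs
  have ham : 1 + g - c ≤ a := by linarith
  rcases eq_or_lt_of_le hgc with hcg | hcg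
  · have ha : a = 1 := by linarith
    subst ha
    rw [← hcg] at h1 ⊢
    nlinarith
  · have hm : 0 < c - g := by linarith
    have key : (c - g) * ((a * c - Z) * ((2 + g - c - a) * c - X) - c ^ 2 * X) =
        (1 - a) * (((1 + g - c) * c - Z) * (c - X) - c ^ 2 * X) +
        (a - (1 + g - c)) * ((c - Z) * ((1 + g - c) * c - X) - c ^ 2 * X) +
        c ^ 2 * (c - g) * ((a - (1 + g - c)) * (1 - a)) := by ring
    have p1 : 0 ≤ (1 - a) * (((1 + g - c) * c - Z) * (c - X) - c ^ 2 * X) :=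
      mul_nonneg (by linarith) (by linarith)
    have p2 : 0 ≤ (a - (1 + g - c)) * ((c - Z) * ((1 + g - c) * c - X) - c ^ 2 * X) :=
      mul_nonneg (by linarith) (by linarith)
    have p3 : 0 ≤ c ^ 2 * (c - g) * ((a - (1 + g - c)) * (1 - a)) :=
      mul_nonneg (mul_nonneg (sq_nonneg c) hm.le) (mul_nonneg (by linarith) (by linarith))
    have p4 : 0 ≤ (c - g) * ((a * c - Z) * ((2 + g - c - a) * c - X) - c ^ 2 * X) := by
      rw [key]; linarith
    have p5 := nonneg_of_mul_nonneg_right p4 hm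
    linarith

theorem cheapV {g X Z s a c : ℝ} (hg0 : 0 < g) (hg1 : g ≤ 1) (hX0 : 0 ≤ X) (hXg : X ≤ g)
    (hZ0 : 0 ≤ Z) (hZg : Z ≤ g) (hsum : s + a + c = 2 + g) (hs1 : s ≤ 1) (ha1 : a ≤ 1)
    (hc1 : c ≤ 1)
    (X1 : X ≤ (1 - Z) * (g - X)) (X2 : X ≤ (g - Z) * (1 - X))
    (X3 : g ^ 2 * X ≤ (g - Z) * (g - X)) (X4 : Z ≤ (1 - X) * (g - X))
    (X5 : g ^ 2 * Z ≤ (g - X) * (g - X)) :
    c ^ 2 * X ≤ (a * c - Z) * (s * c - X) ∧
    a ^ 2 * X ≤ (a * c - Z) * (s * a - X) ∧
    s ^ 2 * Z ≤ (s * a - X) * (s * c - X) := by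
  refine ⟨v2_B hg0 hX0 hXg hZ0 hZg hsum hs1 ha1 hc1 X1 X2 X3, ?_, ?_⟩
  · have h := v2_B (s := s) (a := c) (c := a) hg0 hX0 hXg hZ0 hZg (by linarith) hs1 hc1 ha1
      X1 X2 X3
    have e : a * c - Z = c * a - Z := by ring
    rw [e]
    exact h
  · have hgs : g ≤ s := by linarith
    have h := v2_A hg0 hgs hs1 hX0 hXg hX0 hXg hZ0 X5 X4
    have hac : 0 ≤ (1 - a) * (1 - c) := mul_nonneg (by linarith) (by linarith)
    have e1 : (s * a - X) * (s * c - X) - (s - X) * ((1 + g - s) * s - X) =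
        s ^ 2 * ((1 - a) * (1 - c)) +
        (s ^ 2 - s * X) * (s + a + c - (2 + g)) := by ring
    have e2 : s + a + c - (2 + g) = 0 := by linarith
    rw [e2, mul_zero, add_zero] at e1
    have : 0 ≤ s ^ 2 * ((1 - a) * (1 - c)) := mul_nonneg (sq_nonneg s) hac
    linarith

end Pool.Agent.TriPack
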