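import Pool.Agent.TriPack.R1
import Pool.Agent.TriPack.R2
import Pool.Agent.TriPack.R3
import Pool.Agent.TriPack.V2

/-!
# Numeric assembly, part 1: basic facts.
-/

namespace Pool.Agent.TriPack

variable {h b η ε κ p s a c A B G : ℝ}

/-- basic bounds for the handicap. -/
theorem nt_dl (H : Par h b η ε) (hκ0 : 0 ≤ κ) (hκ : κ ≤ b ^ 2 / 100) (hp0 : 0 ≤ p)
    (hpε : p ≤ ε) : 0 ≤ dl ε κ p ∧ dl ε κ p ≤ p := by
  have h1 := H.b_pos
  have h2 := H.b_lt_η
  have h3 := H.b_le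
  have h4 := H.hε
  have hbb : b ^ 2 ≤ b := by
    have := mul_le_mul_of_nonneg_left (show b ≤ 1 by linarith) h1.le
    rw [pow_two]; linarith
  have hκη : κ ≤ η := by linarith
  have e1 : 0 ≤ p * κ := mul_nonneg hp0 hκ0
  have e2 : 0 ≤ p * (ε - p) := mul_nonneg hp0 (sub_nonneg.2 hpε)
  have e3 : 0 ≤ p * (η - κ) := mul_nonneg hp0 (sub_nonneg.2 hκη)
  have e4 : 0 ≤ p ^ 2 := sq_nonneg p
  unfold dl
  rw [h4] at e2 ⊢
  constructor
  · have : p * (1 - η) - p ^ 2 / 2 + p * κ = p * (1 - η - p) + p ^ 2 / 2 + p * κ := by ring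
    rw [this]; linarith
  · have : p * (1 - η) - p ^ 2 / 2 + p * κ = p - p * (η - κ) - p ^ 2 / 2 := by ring
    rw [this]; linarith

/-- the enlarged triple. -/
theorem nt_reg (R : Reg η A B G) (hA : A < (1 - G) * (η - B)) :
    Reg η ((1 - G) * (η - B)) B G :=
  ⟨R.hG, R.hGB, R.hBA.trans hA.le, le_rfl, R.hBη⟩

/-- assembling `T3` from the three weak inequalities for the enlarged `A`. -/
theorem nt_T3 {S A' C X X' Y Z : ℝ} (hX : X < X') (hA0 : 0 < A') (hC0 : 0 < C)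
    (p1 : 0 < A' * C - Z) (p2 : 0 < S * C - Y) (p3 : 0 ≤ S * A' - X')
    (t1 : C ^ 2 * X' ≤ (A' * C - Z) * (S * C - Y))
    (t2 : A' ^ 2 * Y ≤ (A' * C - Z) * (S * A' - X'))
    (t3 : S ^ 2 * Z ≤ (S * A' - X') * (S * C - Y)) :
    T3 S A' C X Y Z := by
  refine ⟨p1, p2, by linarith, ?_, ?_, ?_⟩
  · have : X * C ^ 2 < X' * C ^ 2 := mul_lt_mul_of_pos_right hX (by positivity)
    linarith
  · have : (A' * C - Z) * (S * A' - X') < (A' * C - Z) * (S * A' - X) :=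
      mul_lt_mul_of_pos_left (by linarith) p1
    linarith
  · have : (S * A' - X') * (S * C - Y) < (S * A' - X) * (S * C - Y) :=
      mul_lt_mul_of_pos_right (by linarith) p2
    linarith

theorem nt_basic (H : Par h b η ε) (R : Reg η A B G) (hA : A < (1 - G) * (η - B)) :
    B < η ∧ G ≤ b ∧ 0 ≤ B ∧ (1 - G) * (η - B) ≤ η := by
  have hG := R.G_le H
  have hG1 := R.G_lt_one H
  have hB0 : 0 ≤ B := R.hG.trans R.hGB
  have hA0 : 0 ≤ A := hB0.trans R.hBA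
  have hBη : B < η := by
    rcases R.hBη.lt_or_eq with h | h
    · exact h
    · exfalso; rw [h] at hA; simp at hA; linarith
  have e := mul_nonneg R.hG (sub_nonneg.2 hBη.le)
  refine ⟨hBη, hG, hB0, ?_⟩
  have : (1 - G) * (η - B) = η - B - G * (η - B) := by ring
  rw [this]; linarith

theorem nt_drop (H : Par h b η ε) (hr : DropReg h ε p) : 0 ≤ p ∧ p < ε := by
  obtain ⟨h34, hp0, hp⟩ := hr
  have hη := H.hη
  have hε := H.hε
  have hη1 : η ≤ 7 / 12 := by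
    by_contra hc
    push Not at hc
    have e1 : 3 / 4 * (7 / 12) < h * η := by
      calc (3 : ℝ) / 4 * (7 / 12) < 3 / 4 * η := by linarith
        _ ≤ h * η := mul_le_mul_of_nonneg_right h34 (by linarith)
    have e2 : (3 / 4 : ℝ) ^ 2 ≤ h ^ 2 := pow_le_pow_left₀ (by norm_num) h34 2
    rw [hη] at e1
    linarith
  have hε0 : 0 < ε := by linarith
  refine ⟨hp0, ?_⟩
  rcases hp with hp | ⟨_, hp⟩ <;> linarith

/-- `x * y ≤ x` for `0 ≤ x`, `y ≤ 1`. -/
theorem nt_mul {x y : ℝ} (hx : 0 ≤ x) (hy : y ≤ 1) : x * y ≤ x := by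
  have := mul_le_mul_of_nonneg_left hy hx
  linarith

theorem nt_sq {x : ℝ} (hx : 0 ≤ x) (hx1 : x ≤ 1) : x ^ 2 ≤ 1 := by
  have := nt_mul hx hx1
  rw [pow_two]; linarith

end Pool.Agent.TriPack
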