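import Pool.Agent.TriPack.NT1
import Pool.Agent.TriPack.PD1
import Pool.Agent.TriPack.PD2
import Pool.Agent.TriPack.PC1
import Pool.Agent.TriPack.PC2
import Pool.Agent.TriPack.PC3

/-!
# Numeric assembly, part 2: rows of the third class dropped.
-/

namespace Pool.Agent.TriPack

variable {h b η ε κ p s a c A B G : ℝ}

theorem T3_dropC (H : Par h b η ε) (R : Reg η A B G) (hA : A < (1 - G) * (η - B))
    (hκ0 : 0 ≤ κ) (hκ : κ ≤ b ^ 2 / 100) (hr : DropReg h ε p)
    (hs : 0 ≤ s) (ha : 0 ≤ a) (hc : 0 ≤ c) (hsum : s + a + c + p = ε) (hc2 : c ≤ (ε - p) / 2) :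
    T3 (1 - s) (1 - a) (1 - c - p) (A + dl ε κ p) B G := by
  obtain ⟨hp0, hpε⟩ := nt_drop H hr
  obtain ⟨hd0, hdp⟩ := nt_dl H hκ0 hκ hp0 hpε.le
  obtain ⟨hBη, hGb, hB0, hA'η⟩ := nt_basic H R hA
  have R' := nt_reg R hA
  have hηε := H.hε
  have hη0 := H.η_pos
  have hη1 := H.η_le_one
  have hb0 := H.b_pos
  have hbη := H.b_lt_η
  have h2b := H.two_b_le
  have hεh := H.ε_le_h
  have V := dropV H hp0 hpε (hpε.le.trans hεh) hd0 (by linarith) (s := 1 - s) (a := 1 - a)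
    (c := 1 - c - p) (by linarith) (by linarith) (by linarith) (by linarith) (by linarith)
    (Da1 H hκ0 hκ hr) (Da2 H hκ0 hκ hr) (Da3 H hκ0 hκ hr) (Dc1 H hκ0 hκ hr) (Dc2 H hκ0 hκ hr)
    (Dc3 H hκ0 hκ hr)
  generalize dl ε κ p = Δ at *
  obtain ⟨V1, V2, V3⟩ := V
  have eS : (1 - s) * (1 - a) = η + c + p + s * a := by linear_combination -hsum - hηε
  have eQ : (1 - s) * (1 - c - p) = η + a + s * (c + p) := by linear_combination -hsum - hηε
  have eP : (1 - a) * (1 - c - p) = η + s + a * (c + p) := by linear_combination -hsum - hηε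
  have hsa : 0 ≤ s * a := mul_nonneg hs ha
  have hscp : 0 ≤ s * (c + p) := mul_nonneg hs (by linarith)
  have hacp : 0 ≤ a * (c + p) := mul_nonneg ha (by linarith)
  have hC0 : η ≤ 1 - c - p := by linarith
  have hC1 : 1 - c - p ≤ 1 := by linarith
  have hA0 : η ≤ 1 - a := by linarith
  have hA1 : 1 - a ≤ 1 := by linarith
  have hS0 : η ≤ 1 - s := by linarith
  have hS1 : 1 - s ≤ 1 := by linarith
  have hCp : 0 ≤ 1 - c - p := by linarith
  have hAp : 0 ≤ 1 - a := by linarith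
  have hSp : 0 ≤ 1 - s := by linarith
  have hP1 : (1 - a) * (1 - c - p) ≤ 1 := (nt_mul hAp hC1).trans hA1
  have hQS : (1 - s) * (1 - c - p) ≤ 1 - s := nt_mul hSp hC1
  have hRS : (1 - s) * (1 - a) ≤ 1 - s := nt_mul hSp hA1
  have hP0 : 0 ≤ (1 - a) * (1 - c - p) := mul_nonneg hAp hCp
  have hQ0 : 0 ≤ (1 - s) * (1 - c - p) := mul_nonneg hSp hCp
  have hR0 : 0 ≤ (1 - s) * (1 - a) - Δ - η := by linarith
  have hi : (1 - c - p) ^ 2 * (1 + η - 2 * b) ≤
      (1 - a) * (1 - c - p) + (1 - s) * (1 - c - p) - 2 * b := by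
    have e1 : 2 * b * (2 - c - p) ≤ η * (2 - c - p) :=
      mul_le_mul_of_nonneg_right h2b (by linarith)
    have hw : 0 ≤ (2 + η) * (1 - c - p) - 2 * b * (2 - c - p) := by
      have : (2 + η) * (1 - c - p) - η * (2 - c - p) = 2 * (1 - c - p) - η := by ring
      linarith
    have e2 := mul_nonneg (add_nonneg hc hp0) hw
    have e3 : (1 - a) * (1 - c - p) + (1 - s) * (1 - c - p) = (1 + η + c + p) * (1 - c - p) := by
      linear_combination (-(1 - c - p)) * hsum - (1 - c - p) * hηε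
    have e4 : (1 + η + c + p) * (1 - c - p) - 2 * b - (1 - c - p) ^ 2 * (1 + η - 2 * b)
        = (c + p) * ((2 + η) * (1 - c - p) - 2 * b * (2 - c - p)) := by ring
    rw [e3]; linarith
  have t1 := R1a H R' (P := (1 - a) * (1 - c - p)) (Q := (1 - s) * (1 - c - p))
    (κ := (1 - c - p) ^ 2) (Δ := Δ) (sq_nonneg _) (nt_sq hCp hC1) hP1 (by linarith) hd0 V1 hi
  have t2 := R2 H R' (P := (1 - a) * (1 - c - p)) (R := (1 - s) * (1 - a) - Δ)
    (κ := (1 - a) ^ 2) (Δ := 0) (sq_nonneg _) (nt_sq hAp hA1) (by linarith) hP1 (by linarith)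
    le_rfl (by rw [mul_zero]; exact mul_nonneg hP0 hR0)
    (by rw [add_zero]; exact V2)
  have t3 := R3 H R' (Q := (1 - s) * (1 - c - p)) (R := (1 - s) * (1 - a) - Δ)
    (s := 1 - s) (Δ := 0) hS1 (by linarith) hQS (by linarith)
    (by linarith) le_rfl
    (by rw [mul_zero]; exact mul_nonneg hQ0 hR0)
    (by rw [add_zero]; exact V3)
  rw [add_zero] at t2 t3
  have e : (1 - s) * (1 - a) - Δ - (1 - G) * (η - B)
        = (1 - s) * (1 - a) - ((1 - G) * (η - B) + Δ) := by ring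
  rw [e] at t2 t3
  exact nt_T3 (X' := (1 - G) * (η - B) + Δ) (by linarith) (by linarith) (by linarith)
    (by linarith) (by linarith) (by linarith) t1 t2 t3

end Pool.Agent.TriPack
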