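import Pool.Agent.TriPack.Defs

/-!
Definitions for the combinatorial part.

`Nested n k E x y`: a matching `e_1, ..., e_k` in the bipartite graph `E` between two copies of
`Fin n` with `x b + y c + l ≤ n` for the edge `e_l = bc`. In the application `x b`, `y c` are the
numbers of non-neighbours of `b`, `c` in the third class, so `bc` has at least `n - x b - y c ≥ l`
common neighbours.

`Obs n k E x y`: the obstruction.
-/

namespace Pool.Agent.TriPack

def Nested (n k : ℕ) (E : Fin n → Fin n → Prop) (x y : Fin n → ℕ) : Prop :=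
  ∃ f g : Fin k → Fin n, Function.Injective f ∧ Function.Injective g ∧
    ∀ i : Fin k, E (f i) (g i) ∧ x (f i) + y (g i) + (i.val + 1) ≤ n

structure Obs (n k : ℕ) (E : Fin n → Fin n → Prop) (x y : Fin n → ℕ) where
  s : ℕ
  a : ℕ
  c : ℕ
  p : ℕ
  B0 : Finset (Fin n)
  C0 : Finset (Fin n)
  P : Finset ℕ
  bP : ℕ → Fin n
  cP : ℕ → Fin n
  sum : s + a + c + p + 1 = k
  cardB : B0.card + a + p = n
  cardC : C0.card + c + p = n
  cardP : P.card = p
  lev : ∀ l ∈ P, s + 2 ≤ l ∧ l ≤ k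
  injB : Set.InjOn bP P
  injC : Set.InjOn cP P
  bP_not : ∀ l ∈ P, bP l ∉ B0
  cP_not : ∀ l ∈ P, cP l ∉ C0
  K1 : ∀ b ∈ B0, ∀ c ∈ C0, E b c → n < x b + y c + (s + 1)
  K2 : ∀ b ∈ B0, ∀ l ∈ P, E b (cP l) → n < x b + y (cP l) + l
  K3 : ∀ l ∈ P, ∀ c ∈ C0, E (bP l) c → n < x (bP l) + y c + l

end Pool.Agent.TriPack
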