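import Pool.Agent.TriPack.Defs

/-! Basic consequences of `Par` (proved here, use freely). -/

namespace Pool.Agent.TriPack

variable {h b η ε : ℝ}

theorem Par.b_pos (H : Par h b η ε) : 0 < b := by rw [H.hb]; linarith [H.hlt]

theorem Par.b_le (H : Par h b η ε) : b ≤ 2 / 5 := by
  have h1 := H.gold; have h2 := H.hpos; have h3 := H.hlt
  rw [H.hb]; nlinarith

theorem Par.h_ge (H : Par h b η ε) : 3 / 5 ≤ h := by
  have := H.b_le; rw [H.hb] at this; linarith

theorem Par.η_eq (H : Par h b η ε) : η = (1 - h ^ 2) / h := by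
  have := H.hη; field_simp [H.hpos.ne']; linarith

theorem Par.η_pos (H : Par h b η ε) : 0 < η := by
  have h1 := H.hη; have h2 := H.hpos; have h3 := H.hlt
  by_contra hc; push Not at hc
  nlinarith

theorem Par.η_le_one (H : Par h b η ε) : η ≤ 1 := by
  have h1 := H.hη; have h2 := H.hpos; have h3 := H.hlt; have h4 := H.gold
  by_contra hc; push Not at hc
  nlinarith

theorem Par.ε_nonneg (H : Par h b η ε) : 0 ≤ ε := by rw [H.hε]; linarith [H.η_le_one]

theorem Par.ε_lt_one (H : Par h b η ε) : ε < 1 := by rw [H.hε]; linarith [H.η_pos]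

/-- `h (η - b) = b`. -/
theorem Par.key (H : Par h b η ε) : h * (η - b) = b := by
  have h1 := H.hη; rw [H.hb]; nlinarith

theorem Par.b_lt_η (H : Par h b η ε) : b < η := by
  have h1 := H.key; have h2 := H.hpos; have h3 := H.b_pos
  by_contra hc; push Not at hc
  nlinarith

theorem Par.two_b_le (H : Par h b η ε) : 2 * b ≤ η := by
  have h1 := H.key; have h2 := H.hpos; have h3 := H.b_pos; have h4 := H.hlt
  by_contra hc; push Not at hc
  nlinarith

/-- `η = (2 + η) b - b^2`. -/
theorem Par.key2 (H : Par h b η ε) : η = (2 + η) * b - b ^ 2 := by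
  have h1 := H.hη; have h2 := H.hb; subst h2; nlinarith

theorem Par.ε_le_h (H : Par h b η ε) : ε ≤ h := by
  have h1 := H.key; have h2 := H.hpos; have h3 := H.b_pos; have h4 := H.hlt; have h5 := H.hε
  have h6 := H.b_lt_η; have h7 := H.hb
  nlinarith

theorem Par.eqb (H : Par h b η ε) : (1 - b) * (η - b) = b := by
  have h1 := H.key; have h5 := H.hb
  have h6 : 1 - b = h := by linarith
  rw [h6]; exact h1

variable {A B G : ℝ}

theorem Reg.G_lt_one (H : Par h b η ε) (R : Reg η A B G) : G < 1 := by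
  obtain ⟨hG, hGB, hBA, hA, hBη⟩ := R
  have h3 := H.η_pos; have h4 := H.η_le_one
  by_contra hg; push Not at hg
  nlinarith [mul_nonneg (sub_nonneg.2 hg) (sub_nonneg.2 hBη)]

theorem Reg.G_le (H : Par h b η ε) (R : Reg η A B G) : G ≤ b := by
  have hG1 := R.G_lt_one H
  obtain ⟨hG, hGB, hBA, hA, hBη⟩ := R
  by_contra hc; push Not at hc
  have e1 := H.eqb
  have h3 := H.b_pos
  have h6 := H.b_lt_η
  nlinarith [mul_nonneg (sub_nonneg.2 hG1.le) (sub_nonneg.2 hGB),
    mul_pos (sub_pos.2 hc) (sub_pos.2 h6)]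

theorem Reg.two_B_le (R : Reg η A B G) : (2 - G) * B ≤ η * (1 - G) := by
  obtain ⟨hG, hGB, hBA, hA, hBη⟩ := R
  nlinarith

end Pool.Agent.TriPack
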