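import Pool.Agent.TriPack.ParBasic

/-!
# Row R1: reduction of the type 1 condition to the symmetric point `A = B = G = b`

Write `t = G`, `u = B`, so `0 ≤ t ≤ u` and (from `Reg`) `u ≤ A ≤ (1-t)(η-u)`. Since the
claim is monotone in `A` (`κ ≥ 0`), it suffices to prove
  `Φ(t,u) := (P-t)(Q-u) - κ(Δ + (1-t)(η-u)) ≥ 0`.
Facts: `t ≤ b` (`Reg.G_le`), `(2-t)u ≤ η(1-t)` (`Reg.two_B_le`), so `u ≤ η/2`.

(a) Diagonal: `D(t) := Φ(t,t)`, `0 ≤ t ≤ b`. As `(1-b)(η-b) = b`, `D(b) = (P-b)(Q-b) - κ(Δ+b) ≥ 0`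
(hypothesis `hs`), and `D` is a quadratic with leading coefficient `1-κ ≥ 0`:
  version `R1a` (hypothesis `hi`): `D(t) = D(b) + (b-t)[(P+Q-2b) - κ(1+η-2b)] + (1-κ)(b-t)^2 ≥ 0`;
  version `R1b` (hypothesis `hd`, i.e. `D(0) ≥ (1-κ)b^2`):
    `D(t) = (1-t/b) D(0) + (t/b) D(b) - (1-κ) t (b-t)` and
    `(1-t/b) D(0) ≥ (1-κ) b (b-t) ≥ (1-κ) t (b-t)`.
(b) Curve `A = u`: for `b ≤ u ≤ η/2` put `t_c = 1 - u/(η-u)` (so `(1-t_c)(η-u) = u`). Then
  `(η-u) Φ(t_c,u) = Ψ(u) := ((2-P)u - (1-P)η)(Q-u) - κ(Δ+u)(η-u)`,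
  a quadratic with leading coefficient `-(2-P)+κ ≤ 0`, `Ψ(b) = (η-b) D(b) ≥ 0`
  (use `b = (1-b)(η-b)`), `Ψ(η) = η(Q-η) ≥ 0`. Hence `Ψ ≥ 0` on `[b,η]`:
  `(η-b) Ψ(u) = (η-u) Ψ(b) + (u-b) Ψ(η) + (2-P-κ)(u-b)(η-u)(η-b)`.
(c) `Φ(0,u) = P(Q-u) - κ(Δ+η-u)` is affine in `u`; it is `≥ 0` at `u = 0` (this is `D(0)`) and
  at `u = η/2` (there `t_c = 0`, so it is `Ψ(η/2)/(η/2)`), so `≥ 0` for `0 ≤ u ≤ η/2`.
(d) For fixed `u` the function `Φ(t,u)` is affine in `t`; it is `≥ 0` at `t = 0` by (c). If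
  `u ≤ b`: `0 ≤ t ≤ u` and `Φ(u,u) = D(u) ≥ 0`. If `u ≥ b`: `0 ≤ t ≤ t_c(u)` (this is
  `u ≤ (1-t)(η-u)`) and `Φ(t_c,u) ≥ 0` by (b).
Checked numerically with 5*10^7 random extremal parameters.
-/

namespace Pool.Agent.TriPack

/-- the reduction, given the inequality on the diagonal -/
theorem r1_main {h b η ε A B G : ℝ} (H : Par h b η ε) (R : Reg η A B G) {P Q κ Δ : ℝ}
    (hκ0 : 0 ≤ κ) (hκ1 : κ ≤ 1) (hP : P ≤ 1) (hQ : η ≤ Q)
    (hD : ∀ t, 0 ≤ t → t ≤ b → 0 ≤ (P - t) * (Q - t) - κ * (Δ + (1 - t) * (η - t))) :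
    κ * (A + Δ) ≤ (P - G) * (Q - B) := by
  have hGb : G ≤ b := Reg.G_le H R
  have h2B : (2 - G) * B ≤ η * (1 - G) := R.two_B_le
  obtain ⟨hG, hGB, hBA, hA, hBη⟩ := R
  have hη := H.η_pos
  have hb := H.b_pos
  have hbη := H.b_lt_η
  have hB0 : 0 ≤ B := hG.trans hGB
  -- slope in `t`
  have hS : 0 ≤ (Q - B) - κ * (η - B) := by
    have h1 : κ * (η - B) ≤ 1 * (η - B) := mul_le_mul_of_nonneg_right hκ1 (by linarith)
    linarith
  have hmain : 0 ≤ (P - G) * (Q - B) - κ * (Δ + (1 - G) * (η - B)) := by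
    rcases le_total B b with hBb | hBb
    · have h1 := hD B hB0 hBb
      have h2 : 0 ≤ (B - G) * ((Q - B) - κ * (η - B)) := mul_nonneg (by linarith) hS
      have h3 : (P - G) * (Q - B) - κ * (Δ + (1 - G) * (η - B)) =
          ((P - B) * (Q - B) - κ * (Δ + (1 - B) * (η - B))) +
            (B - G) * ((Q - B) - κ * (η - B)) := by ring
      rw [h3]
      linarith
    · have hDb := hD b hb.le le_rfl
      have hkey := H.key2
      have heq := H.eqb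
      have hBlt : B < η := by
        by_contra hc
        push Not at hc
        have h1 : B = η := le_antisymm hBη hc
        rw [h1, sub_self, mul_zero] at hA
        linarith
      have hBη' : 0 < η - B := by linarith
      have hbη' : 0 < η - b := by linarith
      -- `Ψ (b) = (η - b) D(b)`
      have hψb : ((2 - P) * b - (1 - P) * η) * (Q - b) - κ * (Δ + b) * (η - b) =
          (η - b) * ((P - b) * (Q - b) - κ * (Δ + (1 - b) * (η - b))) := by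
        rw [heq]
        linear_combination (-(Q - b)) * hkey
      have hψη : ((2 - P) * η - (1 - P) * η) * (Q - η) - κ * (Δ + η) * (η - η) = η * (Q - η) := by
        ring
      have hψ : (η - b) * (((2 - P) * B - (1 - P) * η) * (Q - B) - κ * (Δ + B) * (η - B)) =
          (η - B) * (((2 - P) * b - (1 - P) * η) * (Q - b) - κ * (Δ + b) * (η - b)) +
          (B - b) * (((2 - P) * η - (1 - P) * η) * (Q - η) - κ * (Δ + η) * (η - η)) +
          (2 - P - κ) * (B - b) * (η - B) * (η - b) := by ring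
      have h1 : 0 ≤ (η - b) * (((2 - P) * B - (1 - P) * η) * (Q - B) - κ * (Δ + B) * (η - B)) := by
        rw [hψ, hψb, hψη]
        have a1 : 0 ≤ (η - B) * ((η - b) * ((P - b) * (Q - b) - κ * (Δ + (1 - b) * (η - b)))) :=
          mul_nonneg hBη'.le (mul_nonneg hbη'.le hDb)
        have a2 : 0 ≤ (B - b) * (η * (Q - η)) :=
          mul_nonneg (by linarith) (mul_nonneg hη.le (by linarith))
        have a3 : 0 ≤ (2 - P - κ) * (B - b) * (η - B) * (η - b) :=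
          mul_nonneg (mul_nonneg (mul_nonneg (by linarith) (by linarith)) hBη'.le) hbη'.le
        linarith
      have h2 : 0 ≤ ((2 - P) * B - (1 - P) * η) * (Q - B) - κ * (Δ + B) * (η - B) :=
        nonneg_of_mul_nonneg_right h1 hbη'
      have h3 : (η - B) * ((P - G) * (Q - B) - κ * (Δ + (1 - G) * (η - B))) =
          (((2 - P) * B - (1 - P) * η) * (Q - B) - κ * (Δ + B) * (η - B)) +
          ((1 - G) * (η - B) - B) * ((Q - B) - κ * (η - B)) := by ring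
      have h4 : 0 ≤ ((1 - G) * (η - B) - B) * ((Q - B) - κ * (η - B)) :=
        mul_nonneg (by linarith) hS
      have h5 : 0 ≤ (η - B) * ((P - G) * (Q - B) - κ * (Δ + (1 - G) * (η - B))) := by
        rw [h3]
        linarith
      exact nonneg_of_mul_nonneg_right h5 hBη'
  have hfin : κ * (A + Δ) ≤ κ * ((1 - G) * (η - B) + Δ) :=
    mul_le_mul_of_nonneg_left (by linarith) hκ0
  have hre : κ * ((1 - G) * (η - B) + Δ) = κ * (Δ + (1 - G) * (η - B)) := by ring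
  rw [hre] at hfin
  linarith

theorem R1a {h b η ε A B G : ℝ} (H : Par h b η ε) (R : Reg η A B G) {P Q κ Δ : ℝ}
    (hκ0 : 0 ≤ κ) (hκ1 : κ ≤ 1) (hP : P ≤ 1) (hQ : η ≤ Q) (hΔ : 0 ≤ Δ)
    (hs : κ * (b + Δ) ≤ (P - b) * (Q - b))
    (hi : κ * (1 + η - 2 * b) ≤ P + Q - 2 * b) :
    κ * (A + Δ) ≤ (P - G) * (Q - B) := by
  refine r1_main H R hκ0 hκ1 hP hQ fun t ht0 htb => ?_
  have heq := H.eqb
  have h1 : (P - t) * (Q - t) - κ * (Δ + (1 - t) * (η - t)) =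
      ((P - b) * (Q - b) - κ * (Δ + (1 - b) * (η - b))) +
      (b - t) * ((P + Q - 2 * b) - κ * (1 + η - 2 * b)) + (1 - κ) * (b - t) ^ 2 := by ring
  rw [h1, heq]
  have a1 : 0 ≤ (b - t) * ((P + Q - 2 * b) - κ * (1 + η - 2 * b)) :=
    mul_nonneg (by linarith) (by linarith)
  have a2 : 0 ≤ (1 - κ) * (b - t) ^ 2 := mul_nonneg (by linarith) (sq_nonneg _)
  have a3 : κ * (b + Δ) = κ * (Δ + b) := by ring
  rw [a3] at hs
  linarith

theorem R1b {h b η ε A B G : ℝ} (H : Par h b η ε) (R : Reg η A B G) {P Q κ Δ : ℝ}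
    (hκ0 : 0 ≤ κ) (hκ1 : κ ≤ 1) (hP : P ≤ 1) (hQ : η ≤ Q) (hΔ : 0 ≤ Δ)
    (hs : κ * (b + Δ) ≤ (P - b) * (Q - b))
    (hd : (1 - κ) * b ^ 2 ≤ P * Q - κ * (Δ + η)) :
    κ * (A + Δ) ≤ (P - G) * (Q - B) := by
  refine r1_main H R hκ0 hκ1 hP hQ fun t ht0 htb => ?_
  have heq := H.eqb
  have hb := H.b_pos
  have h1 : b * ((P - t) * (Q - t) - κ * (Δ + (1 - t) * (η - t))) =
      (b - t) * ((P * Q - κ * (Δ + η)) - (1 - κ) * b ^ 2) +
      t * ((P - b) * (Q - b) - κ * (Δ + (1 - b) * (η - b))) +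
      (1 - κ) * b * (b - t) ^ 2 := by ring
  have a1 : 0 ≤ (b - t) * ((P * Q - κ * (Δ + η)) - (1 - κ) * b ^ 2) :=
    mul_nonneg (by linarith) (by linarith)
  have a3 : κ * (b + Δ) = κ * (Δ + b) := by ring
  rw [a3] at hs
  have a2 : 0 ≤ t * ((P - b) * (Q - b) - κ * (Δ + (1 - b) * (η - b))) := by
    rw [heq]
    exact mul_nonneg ht0 (by linarith)
  have a4 : 0 ≤ (1 - κ) * b * (b - t) ^ 2 :=
    mul_nonneg (mul_nonneg (by linarith) hb.le) (sq_nonneg _)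
  have h2 : 0 ≤ b * ((P - t) * (Q - t) - κ * (Δ + (1 - t) * (η - t))) := by
    rw [h1]
    linarith
  exact nonneg_of_mul_nonneg_right h2 hb

end Pool.Agent.TriPack
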