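import Pool.Agent.TriPack.ParBasic

/-!
# Row V1 (drop): from the vertices to all class sizes (symmetric point)

Sizes `s, a ≤ 1`, `c ∈ [c1, 1-p]` with `c1 = (1+η-p)/2`, `s + a + c = 2 + η`
(so `s + a = 2+η-c`, hence `s, a ≥ 1+η-c ≥ η+p > 0`, and `η + p < 1`).
Put `m(c) = 1+η-c` (`m(1-p) = η+p`, `m(c1) = a1 = (1+η+p)/2`).

(1) type 1: `(ac-b)(sc-b) = c^2 as - bc(a+s) + b^2` and `as ≥ a+s-1 = m(c)` (from `(1-a)(1-s) ≥ 0`),
so it is `≥ (m c - b)(c - b)`. It remains `(m c - b)(c-b) ≥ c^2 (b+Δ)`, i.e. (divide by `c^2`)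
`F(c) G(c) ≥ b+Δ` with `F = m(c) - b/c`, `G = 1 - b/c`, both concave in `c` and nonnegative at the
two end points `c = 1-p` (hypothesis `Da1`; `F = (η+p) - b/(1-p) ≥ 0`) and `c = c1` (hypothesis
`Dc1`). Use the interpolation lemma `interp` below.

(2) type 3: `(sa-Δ-b)(sc-b) ≥ s^2 b`, for fixed `c`, `s ∈ [m(c), 1]`, `a = 2+η-c-s`. Divide by
`s^2`: `(a-(b+Δ)/s)(c-b/s) ≥ b`: product of two concave functions of `s`; end points
`s = 1, a = m`: `(m-Δ-b)(c-b) ≥ b` (3a) and `s = m, a = 1`: `(m-Δ-b)(mc-b) ≥ m^2 b` (3b).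
(3a): `(m(c)-Δ-b)(c-b)` is a concave quadratic in `c`: end points `Da3`, `Dc3`.
(3b): divide by `m^2`: `(1-(b+Δ)/m)(c-b/m) ≥ b`: product of two concave functions of `c`
(`1/m(c)` is convex): end points `Da2`, `Dc2`.
All factors are `≥ 0`: `m ≥ η+p ≥ b+Δ`, `c ≥ c1`, `c1 ≥ b`, `1-p ≥ b`, `(η+p)(1-p) ≥ η ≥ b`,
`m c ≥ η ≥ b` (since `(1-c)(1-m) ≥ 0`).

(3) type 2: `(ac-b)(sa-Δ-b) ≥ a^2 b` is (2) with `s` and `a` exchanged.

Useful convexity facts (no calculus): for `x, y > 0` and `0 ≤ t ≤ 1`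
`1/((1-t)x+ty) ≤ (1-t)/x + t/y`.
-/

namespace Pool.Agent.TriPack

/-- interpolation lemma (proved). -/
theorem interp {t F G F0 F1 G0 G1 K : ℝ} (ht0 : 0 ≤ t) (ht1 : t ≤ 1)
    (hF : (1 - t) * F0 + t * F1 ≤ F) (hG : (1 - t) * G0 + t * G1 ≤ G)
    (hF0 : 0 ≤ F0) (hF1 : 0 ≤ F1) (hG0 : 0 ≤ G0) (hG1 : 0 ≤ G1) (hK : 0 ≤ K)
    (h0 : K ≤ F0 * G0) (h1 : K ≤ F1 * G1) : K ≤ F * G := by
  have e0 : 0 ≤ (1 - t) * F0 + t * F1 :=
    add_nonneg (mul_nonneg (sub_nonneg.2 ht1) hF0) (mul_nonneg ht0 hF1)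
  have e1 : 0 ≤ (1 - t) * G0 + t * G1 :=
    add_nonneg (mul_nonneg (sub_nonneg.2 ht1) hG0) (mul_nonneg ht0 hG1)
  have e2 : ((1 - t) * F0 + t * F1) * ((1 - t) * G0 + t * G1) ≤ F * G :=
    mul_le_mul hF hG e1 (e0.trans hF)
  have e3 : 2 * K ≤ F0 * G1 + F1 * G0 := by
    have q1 : K * K ≤ (F0 * G0) * (F1 * G1) := mul_le_mul h0 h1 hK (hK.trans h0)
    have q2 : (2 * K) ^ 2 ≤ (F0 * G1 + F1 * G0) ^ 2 := by
      nlinarith [sq_nonneg (F0 * G1 - F1 * G0)]
    exact le_of_sq_le_sq q2 (add_nonneg (mul_nonneg hF0 hG1) (mul_nonneg hF1 hG0))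
  have e4 : K ≤ ((1 - t) * F0 + t * F1) * ((1 - t) * G0 + t * G1) := by
    have a1 := mul_nonneg (mul_nonneg ht0 (sub_nonneg.2 ht1)) (sub_nonneg.2 e3)
    have a2 := mul_nonneg (sq_nonneg t) (sub_nonneg.2 h1)
    have a3 := mul_nonneg (sq_nonneg (1 - t)) (sub_nonneg.2 h0)
    nlinarith
  linarith


/-- convexity of the inverse, multiplied by a nonnegative number. -/
theorem v1_inv {x y t k : ℝ} (hx : 0 < x) (hy : 0 < y) (ht0 : 0 ≤ t) (ht1 : t ≤ 1)
    (hk : 0 ≤ k) : k / ((1 - t) * x + t * y) ≤ (1 - t) * (k / x) + t * (k / y) := by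
  have hz : 0 < (1 - t) * x + t * y := by
    rcases eq_or_lt_of_le ht0 with h | h
    · rw [← h]; simpa using hx
    · have h1 := mul_pos h hy
      have h2 := mul_nonneg (sub_nonneg.2 ht1) hx.le
      linarith
  have e : (1 - t) * (k / x) + t * (k / y) = k * ((1 - t) * y + t * x) / (x * y) := by
    field_simp
  rw [e, div_le_div_iff₀ hz (mul_pos hx hy), mul_assoc]
  apply mul_le_mul_of_nonneg_left _ hk
  nlinarith [mul_nonneg (mul_nonneg ht0 (sub_nonneg.2 ht1)) (sq_nonneg (x - y))]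

/-- a point of an interval as a convex combination. -/
theorem v1_param {x y c : ℝ} (h1 : x ≤ c) (h2 : c ≤ y) :
    ∃ t : ℝ, 0 ≤ t ∧ t ≤ 1 ∧ c = (1 - t) * x + t * y := by
  rcases eq_or_lt_of_le (h1.trans h2) with h | h
  · refine ⟨0, le_rfl, zero_le_one, ?_⟩
    have : c = x := le_antisymm (h2.trans h.symm.le) h1
    rw [this]; ring
  · have hd : 0 < y - x := sub_pos.2 h
    refine ⟨(c - x) / (y - x), div_nonneg (sub_nonneg.2 h1) hd.le, ?_, ?_⟩
    · rw [div_le_one hd]; linarith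
    · field_simp
      ring

/-- the products of the form `(x - k / z) (y - l / z)`. -/
theorem v1_div {x y z k l K : ℝ} (hz : 0 < z) :
    (K ≤ (x - k / z) * (y - l / z)) ↔ (z ^ 2 * K ≤ (x * z - k) * (y * z - l)) := by
  have e : (x - k / z) * (y - l / z) = (x * z - k) * (y * z - l) / z ^ 2 := by
    field_simp
  rw [e, le_div_iff₀ (by positivity), mul_comm]

/-- type 3: for fixed `c`. -/
theorem v1_three {b Δ s a c m : ℝ} (hb : 0 ≤ b) (hm : 0 < m)
    (hms : m ≤ s) (hs1 : s ≤ 1) (hsa : a = 1 + m - s) (hmd : b + Δ ≤ m) (hcb : b ≤ c)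
    (hmc : b ≤ m * c) (hΔ : 0 ≤ Δ)
    (h3a : b ≤ (m - Δ - b) * (c - b)) (h3b : m ^ 2 * b ≤ (m - Δ - b) * (m * c - b)) :
    s ^ 2 * b ≤ (s * a - Δ - b) * (s * c - b) := by
  obtain ⟨u, hu0, hu1, hs⟩ := v1_param hms hs1
  have hs0 : 0 < s := hm.trans_le hms
  have i1 := v1_inv hm zero_lt_one hu0 hu1 (add_nonneg hb hΔ)
  have i2 := v1_inv hm zero_lt_one hu0 hu1 hb
  rw [← hs] at i1 i2
  have key : b ≤ (a - (b + Δ) / s) * (c - b / s) := by
    apply interp (F0 := 1 - (b + Δ) / m) (F1 := m - (b + Δ) / 1) (G0 := c - b / m)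
      (G1 := c - b / 1) hu0 hu1
    · have : a = (1 - u) * 1 + u * m := by rw [hsa, hs]; ring
      rw [this]; linarith
    · have : c = (1 - u) * c + u * c := by ring
      linarith
    · rw [sub_nonneg, div_le_one hm]; exact hmd
    · rw [div_one]; linarith
    · rw [sub_nonneg, div_le_iff₀ hm]; linarith
    · rw [div_one]; linarith
    · exact hb
    · rw [v1_div hm]
      have e : (m - Δ - b) * (m * c - b) = (1 * m - (b + Δ)) * (c * m - b) := by ring
      rw [← e]; exact h3b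
    · rw [div_one, div_one]
      have e : (m - Δ - b) * (c - b) = (m - (b + Δ)) * (c - b) := by ring
      rw [← e]; exact h3a
  rw [v1_div hs0] at key
  have e : (a * s - (b + Δ)) * (c * s - b) = (s * a - Δ - b) * (s * c - b) := by ring
  rw [e] at key
  exact key

theorem dropV {h b η ε : ℝ} (H : Par h b η ε) {p Δ s a c : ℝ} (hp : 0 ≤ p) (hpε : p < ε)
    (hph : p ≤ h) (hΔ0 : 0 ≤ Δ) (hΔ : b + Δ ≤ η + p)
    (hsum : s + a + c = 2 + η) (hs1 : s ≤ 1) (ha1 : a ≤ 1)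
    (hc1 : (1 + η - p) / 2 ≤ c) (hc2 : c ≤ 1 - p)
    (Da1 : (1 - p) ^ 2 * (b + Δ) ≤ ((η + p) * (1 - p) - b) * (1 - p - b))
    (Da2 : (η + p) ^ 2 * b ≤ ((η + p) * (1 - p) - b) * (η + p - Δ - b))
    (Da3 : b ≤ (η + p - Δ - b) * (1 - p - b))
    (Dc1 : ((1 + η - p) / 2) ^ 2 * (b + Δ) ≤
      ((1 + η + p) / 2 * ((1 + η - p) / 2) - b) * ((1 + η - p) / 2 - b))
    (Dc2 : ((1 + η + p) / 2) ^ 2 * b ≤
      ((1 + η + p) / 2 * ((1 + η - p) / 2) - b) * ((1 + η + p) / 2 - Δ - b))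
    (Dc3 : b ≤ ((1 + η + p) / 2 - Δ - b) * ((1 + η - p) / 2 - b)) :
    c ^ 2 * (b + Δ) ≤ (a * c - b) * (s * c - b) ∧
    a ^ 2 * b ≤ (a * c - b) * (s * a - Δ - b) ∧
    s ^ 2 * b ≤ (s * a - Δ - b) * (s * c - b) := by
  have hb := H.b_pos
  have hbη := H.b_lt_η
  have hη := H.η_pos
  have hbh := H.hb
  set c0 := (1 + η - p) / 2 with hc0
  set m0 := (1 + η + p) / 2 with hm0
  set c1 := 1 - p with hc1'
  set m1 := η + p with hm1
  set m := 1 + η - c with hm
  have g1 : b ≤ c1 := by rw [hc1', hbh]; linarith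
  have g2 : b ≤ c0 := by rw [hc0]; linarith
  have g3 : m1 ≤ 1 := by
    have := hc1.trans hc2
    rw [hc0, hc1'] at this
    rw [hm1]; linarith
  have g4 : m1 ≤ m0 := by rw [hm0]; linarith
  have g5 : m0 ≤ 1 := by rw [hm0]; linarith
  have g6 : m0 = 1 + η - c0 := by rw [hm0, hc0]; ring
  have g7 : m1 = 1 + η - c1 := by rw [hm1, hc1']; ring
  have g8 : c0 ≤ 1 := by rw [hc0]; linarith
  have g9 : c1 ≤ 1 := by rw [hc1']; linarith
  have g10 : η ≤ m0 * c0 := by linarith [mul_nonneg (sub_nonneg.2 g5) (sub_nonneg.2 g8)]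
  have g11 : η ≤ m1 * c1 := by linarith [mul_nonneg (sub_nonneg.2 g3) (sub_nonneg.2 g9)]
  have p0 : 0 < m1 := by linarith
  have p1 : 0 < m0 := by linarith
  have p2 : 0 < c0 := by linarith
  have p3 : 0 < c1 := by linarith
  have p4 : 0 < c := p2.trans_le hc1
  obtain ⟨t, ht0, ht1, hct⟩ := v1_param hc1 hc2
  have hmt : m = (1 - t) * m0 + t * m1 := by rw [hm, g6, g7, hct]; ring
  have hmle : m1 ≤ m := by rw [hm, g7]; linarith
  have hmge : m ≤ 1 := by
    have : m ≤ m0 := by rw [hm, g6]; linarith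
    linarith
  have p5 : 0 < m := p0.trans_le hmle
  have hcle : c ≤ 1 := by linarith
  have g12 : η ≤ m * c := by
    have := mul_nonneg (sub_nonneg.2 hmge) (sub_nonneg.2 hcle)
    linarith
  have hsa : s + a = 1 + m := by rw [hm]; linarith
  have hcb : b ≤ c := by linarith
  -- (3a) and (3b)
  have h3a : b ≤ (m - Δ - b) * (c - b) := by
    apply interp (F0 := m0 - Δ - b) (F1 := m1 - Δ - b) (G0 := c0 - b) (G1 := c1 - b) ht0 ht1
    · exact le_of_eq (by rw [hmt]; ring)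
    · exact le_of_eq (by rw [hct]; ring)
    · linarith
    · linarith
    · linarith
    · linarith
    · exact hb.le
    · exact Dc3
    · exact Da3
  have i1 := v1_inv p1 p0 ht0 ht1 (add_nonneg hb.le hΔ0)
  have i2 := v1_inv p1 p0 ht0 ht1 hb.le
  have i3 := v1_inv p2 p3 ht0 ht1 hb.le
  rw [← hmt] at i1 i2
  rw [← hct] at i3
  have h3b : m ^ 2 * b ≤ (m - Δ - b) * (m * c - b) := by
    have key : b ≤ (1 - (b + Δ) / m) * (c - b / m) := by
      apply interp (F0 := 1 - (b + Δ) / m0) (F1 := 1 - (b + Δ) / m1) (G0 := c0 - b / m0)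
        (G1 := c1 - b / m1) ht0 ht1
      · linarith
      · have : c = (1 - t) * c0 + t * c1 := hct
        linarith
      · rw [sub_nonneg, div_le_one p1]; linarith
      · rw [sub_nonneg, div_le_one p0]; linarith
      · rw [sub_nonneg, div_le_iff₀ p1]; linarith
      · rw [sub_nonneg, div_le_iff₀ p0]; linarith
      · exact hb.le
      · rw [v1_div p1]
        have e : (m0 * c0 - b) * (m0 - Δ - b) = (1 * m0 - (b + Δ)) * (c0 * m0 - b) := by ring
        rw [← e]; exact Dc2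
      · rw [v1_div p0]
        have e : (m1 * c1 - b) * (m1 - Δ - b) = (1 * m1 - (b + Δ)) * (c1 * m1 - b) := by ring
        rw [← e]; exact Da2
    rw [v1_div p5] at key
    have e : (1 * m - (b + Δ)) * (c * m - b) = (m - Δ - b) * (m * c - b) := by ring
    rw [e] at key
    exact key
  refine ⟨?_, ?_, ?_⟩
  · -- type 1
    have key : b + Δ ≤ (m - b / c) * (1 - b / c) := by
      apply interp (F0 := m0 - b / c0) (F1 := m1 - b / c1) (G0 := 1 - b / c0)
        (G1 := 1 - b / c1) ht0 ht1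
      · have : m = (1 - t) * m0 + t * m1 := hmt
        linarith
      · linarith
      · rw [sub_nonneg, div_le_iff₀ p2]; linarith
      · rw [sub_nonneg, div_le_iff₀ p3]; linarith
      · rw [sub_nonneg, div_le_one p2]; linarith
      · rw [sub_nonneg, div_le_one p3]; linarith
      · linarith
      · rw [v1_div p2, one_mul]; exact Dc1
      · rw [v1_div p3, one_mul]; exact Da1
    rw [v1_div p4, one_mul] at key
    refine key.trans ?_
    have has : m ≤ a * s := by linarith [mul_nonneg (sub_nonneg.2 hs1) (sub_nonneg.2 ha1)]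
    have e1 : (a * c - b) * (s * c - b) = c ^ 2 * (a * s) - b * c * (s + a) + b ^ 2 := by ring
    have e2 : (m * c - b) * (c - b) = c ^ 2 * m - b * c * (1 + m) + b ^ 2 := by ring
    rw [e1, e2, hsa]
    have := mul_le_mul_of_nonneg_left has (sq_nonneg c)
    linarith
  · have := v1_three (s := a) (a := s) hb.le p5 (by linarith) ha1 (by linarith) (by linarith) hcb
      (by linarith) hΔ0 h3a h3b
    have e : (a * c - b) * (s * a - Δ - b) = (a * s - Δ - b) * (a * c - b) := by ring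
    rw [e]; exact this
  · exact v1_three hb.le p5 (by linarith) hs1 (by linarith) (by linarith) hcb
      (by linarith) hΔ0 h3a h3b

end Pool.Agent.TriPack
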